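import Mathlib
import Pool.Agent.Lib.MP_8d00da_gt.h42.Supergrad

namespace Pool.Agent.Lib.MP_8d00da_gt.h25
end Pool.Agent.Lib.MP_8d00da_gt.h25
namespace Pool.Agent.Lib.MP_8d00da_gt.h42s
end Pool.Agent.Lib.MP_8d00da_gt.h42s
namespace Pool.Agent.Lib.MP_8d00da_gt.h42o
end Pool.Agent.Lib.MP_8d00da_gt.h42o
namespace Pool.Agent.Lib.MP_8d00da_gt.h97r
end Pool.Agent.Lib.MP_8d00da_gt.h97r


/-!
# KLS for sublevel sets of sums of powers: definitions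

Second differences, the averaged Brascamp-Lieb inequality, the `A₂` condition.
-/

namespace Pool.Agent.Lib.MP_8d00da_gt.h42r

open MeasureTheory Set Filter
open Pool.Agent.Lib.MP_8d00da_gt.h25 Pool.Agent.Lib.MP_8d00da_gt.h42
open Pool.Agent.Lib.MP_8d00da_gt.h42s Pool.Agent.Lib.MP_8d00da_gt.h42o
open Pool.Agent.Lib.MP_8d00da_gt.h97r
open scoped Topology NNReal ENNReal

set_option linter.unusedSectionVars false

variable {F : Type*} [NormedAddCommGroup F] [InnerProductSpace ℝ F]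
    [FiniteDimensional ℝ F] [MeasurableSpace F] [BorelSpace F]

variable {G : Type*} [NormedAddCommGroup G] [InnerProductSpace ℝ G]
    [FiniteDimensional ℝ G] [MeasurableSpace G] [BorelSpace G]

variable {ι : Type*} [Fintype ι]

/-- The second difference of `V` at `x` in direction `u`. -/
def sd (V : F → ℝ) (x u : F) : ℝ := V (x + u) + V (x - u) - 2 * V x

/-- `ℓ` bounds the second difference of `V` at `y` from below, up to `o(‖u‖²)`. -/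
def LowAt (V : F → ℝ) (y : F) (ℓ : F → ℝ) : Prop :=
  ∀ δ : ℝ, 0 < δ → ∃ r : ℝ, 0 < r ∧ ∀ u, ‖u‖ < r → ℓ u - δ * ‖u‖ ^ 2 ≤ sd V y u

/-- `q ≥ ⟨A⁻¹ ∇f(x), ∇f(x)⟩` for a lower bound `ℓ u = ⟨A u, u⟩` of the second difference of `V`
at the point `y`. -/
def DomV (V f : F → ℝ) (x y : F) (q : ℝ) : Prop :=
  DifferentiableAt ℝ f x ∧ ∃ ℓ : F → ℝ, (∀ u, 0 ≤ ℓ u) ∧
    (∀ u, (fderiv ℝ f x u) ^ 2 ≤ q * ℓ u) ∧ LowAt V y ℓ

/-- `ℓ` bounds the second difference of `-log h` at `y` from below, up to `o(‖u‖²)`. -/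
def LowAtE (h : F → ℝ) (y : F) (ℓ : F → ℝ) : Prop :=
  ∀ δ : ℝ, 0 < δ → ∃ r : ℝ, 0 < r ∧ ∀ u, ‖u‖ < r →
    h (y + u) * h (y - u) ≤ h y ^ 2 * Real.exp (-ℓ u + δ * ‖u‖ ^ 2)

/-- `DomV` for the potential `-log h`. -/
def DomE (h f : F → ℝ) (x y : F) (q : ℝ) : Prop :=
  DifferentiableAt ℝ f x ∧ ∃ ℓ : F → ℝ, (∀ u, 0 ≤ ℓ u) ∧
    (∀ u, (fderiv ℝ f x u) ^ 2 ≤ q * ℓ u) ∧ LowAtE h y ℓ

/-- `(L - V)₊`. -/
noncomputable def pp (V : F → ℝ) (L : ℝ) (x : F) : ℝ := max (L - V x) 0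

/-- The indicator of the body `{V < L}`. -/
noncomputable def ib (V : F → ℝ) (L : ℝ) (x : F) : ℝ :=
  Set.indicator {x | V x < L} (fun _ => (1 : ℝ)) x

/-- The intersection of the body with its reflection `x ↦ z - x`. -/
def Om (V : F → ℝ) (L : ℝ) (z : F) : Set F := {x | V x < L ∧ V (z - x) < L}

/-- The concave function `√((L - V x)(L - V (z - x)))` on `Om V L z`. -/
noncomputable def ph (V : F → ℝ) (L : ℝ) (z x : F) : ℝ := √((L - V x) * (L - V (z - x)))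

/-- `(ph + ε g)₊` on `Om`, zero elsewhere. -/
noncomputable def Ae (V : F → ℝ) (L : ℝ) (z : F) (g : F → ℝ) (ε : ℝ) (x : F) : ℝ :=
  (Om V L z).indicator (fun x => max (ph V L z x + ε * g x) 0) x

/-- The midpoint function of `Ae g ε` and `Ae (-g) ε`. -/
noncomputable def Ce (V : F → ℝ) (L : ℝ) (z : F) (g : F → ℝ) (ε : ℝ) (m : F) : ℝ≥0∞ :=
  ⨆ u : F, ENNReal.ofReal (Ae V L z g ε (m + u) * Ae V L z (fun x => -g x) ε (m - u))

/-- The fibre weight `h x h (z - x)`. -/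
noncomputable def HH (h : F → ℝ) (z x : F) : ℝ := h x * h (z - x)

/-- `√(HH) exp (ε g / 2)`. -/
noncomputable def Re (h : F → ℝ) (z : F) (g : F → ℝ) (ε : ℝ) (x : F) : ℝ :=
  √(HH h z x) * Real.exp (ε * g x / 2)

/-- The midpoint function of `Re g ε` and `Re (-g) ε`. -/
noncomputable def De (h : F → ℝ) (z : F) (g : F → ℝ) (ε : ℝ) (m : F) : ℝ≥0∞ :=
  ⨆ u : F, ENNReal.ofReal (Re h z g ε (m + u) * Re h z (fun x => -g x) ε (m - u))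

/-- The `A₂` condition for the function `ω` with respect to the measure `w dx`. -/
def A2 (C : ℝ) (w ω : F → ℝ) : Prop :=
  (∫⁻ x, ENNReal.ofReal (w x * ω x)) * (∫⁻ x, ENNReal.ofReal (w x / ω x)) ≤
    ENNReal.ofReal C * (∫⁻ x, ENNReal.ofReal (w x)) ^ 2

/-- Data for sublevel sets: `V` is convex and its second differences are comparable with
`∑ ω_j ‖P_j u‖²`. -/
structure RD (V : F → ℝ) (P : ι → F →L[ℝ] G) (ω : ι → F → ℝ) (Λ : ℝ) : Prop where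
  cont : Continuous V
  conv : ConvexOn ℝ univ V
  Λpos : 0 < Λ
  ωm : ∀ j, Measurable (ω j)
  ω0 : ∀ j x, 0 ≤ ω j x
  ωpos : ∀ j, ∀ᵐ x, 0 < ω j x
  low : ∀ᵐ x, LowAt V x fun u => ∑ j, ω j x * ‖P j u‖ ^ 2
  up : ∀ u, ∀ᵐ x, ∀ η : ℝ, 0 < η → ∃ τ0 : ℝ, 0 < τ0 ∧ ∀ τ, 0 < τ → τ < τ0 →
    sd V x (τ • u) ≤ τ ^ 2 * (Λ * (∑ j, ω j x * ‖P j u‖ ^ 2) + η)
  dom : ∀ u, ∃ C : ℝ, 0 ≤ C ∧ ∀ᵐ x, ∀ τ, 0 < τ → τ ≤ 1 →
    sd V x (τ • u) ≤ τ ^ 2 * (C * (1 + ‖x‖ ^ 2 + ∑ j, ω j x))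

/-- Data for densities: `h` is log-concave and continuous and the second differences of `-log h`
are comparable with `∑ ω_j ‖P_j u‖²`. -/
structure RE (h : F → ℝ) (P : ι → F →L[ℝ] G) (ω : ι → F → ℝ) (Λ : ℝ) : Prop where
  cont : Continuous h
  nn : ∀ x, 0 ≤ h x
  lc : LogConc h
  Λpos : 0 < Λ
  ωm : ∀ j, Measurable (ω j)
  ω0 : ∀ j x, 0 ≤ ω j x
  ωpos : ∀ j, ∀ᵐ x, 0 < h x → 0 < ω j x
  low : ∀ᵐ x, 0 < h x → LowAtE h x fun u => ∑ j, ω j x * ‖P j u‖ ^ 2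
  up : ∀ u, ∀ᵐ x, 0 < h x → ∀ η : ℝ, 0 < η → ∃ τ0 : ℝ, 0 < τ0 ∧ ∀ τ, 0 < τ → τ < τ0 →
    h x - √(h (x + τ • u) * h (x - τ • u)) ≤
      τ ^ 2 * (Λ / 2 * (∑ j, ω j x * ‖P j u‖ ^ 2) + η) * h x
  dom : ∀ u, ∃ C : ℝ, 0 ≤ C ∧ ∀ᵐ x, ∀ τ, 0 < τ → τ ≤ 1 →
    h x - √(h (x + τ • u) * h (x - τ • u)) ≤ τ ^ 2 * (C * (1 + ‖x‖ ^ 2 + ∑ j, ω j x)) * h x

lemma sd_nonneg {V : F → ℝ} (hV : ConvexOn ℝ univ V) (x u : F) : 0 ≤ sd V x u := by
  have h1 := hV.2 (mem_univ (x + u)) (mem_univ (x - u)) (by norm_num : (0 : ℝ) ≤ 1 / 2)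
    (by norm_num : (0 : ℝ) ≤ 1 / 2) (by norm_num)
  have e : (1 / 2 : ℝ) • (x + u) + (1 / 2 : ℝ) • (x - u) = x := by module
  rw [e] at h1
  simp only [smul_eq_mul] at h1
  unfold sd
  linarith

lemma pp_nonneg (V : F → ℝ) (L : ℝ) (x : F) : 0 ≤ pp V L x := le_max_right _ _

lemma ib_nonneg (V : F → ℝ) (L : ℝ) (x : F) : 0 ≤ ib V L x :=
  Set.indicator_nonneg (fun _ _ => zero_le_one) x

lemma pp_cont {V : F → ℝ} (hV : Continuous V) (L : ℝ) : Continuous (pp V L) :=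
  (continuous_const.sub hV).max continuous_const

lemma ib_meas {V : F → ℝ} (hV : Continuous V) (L : ℝ) : Measurable (ib V L) :=
  measurable_const.indicator (isOpen_lt hV continuous_const).measurableSet

lemma Om_open {V : F → ℝ} (hV : Continuous V) (L : ℝ) (z : F) : IsOpen (Om V L z) :=
  (isOpen_lt hV continuous_const).inter
    (isOpen_lt (hV.comp (continuous_const.sub continuous_id)) continuous_const)

end Pool.Agent.Lib.MP_8d00da_gt.h42r
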