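import Mathlib
import Pool.Agent.Lib.MP_8d00da_gt.h42r.ADefs

namespace Pool.Agent.Lib.MP_8d00da_gt.h25
end Pool.Agent.Lib.MP_8d00da_gt.h25
namespace Pool.Agent.Lib.MP_8d00da_gt.h42s
end Pool.Agent.Lib.MP_8d00da_gt.h42s
namespace Pool.Agent.Lib.MP_8d00da_gt.h42o
end Pool.Agent.Lib.MP_8d00da_gt.h42o
namespace Pool.Agent.Lib.MP_8d00da_gt.h97r
end Pool.Agent.Lib.MP_8d00da_gt.h97r


/-!
# Densities: exponential of a potential
-/

namespace Pool.Agent.Lib.MP_8d00da_gt.h42r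

open MeasureTheory Set Filter
open Pool.Agent.Lib.MP_8d00da_gt.h25 Pool.Agent.Lib.MP_8d00da_gt.h42
open Pool.Agent.Lib.MP_8d00da_gt.h42s Pool.Agent.Lib.MP_8d00da_gt.h42o
open Pool.Agent.Lib.MP_8d00da_gt.h97r
open scoped Topology NNReal ENNReal

set_option linter.unusedSectionVars false

variable {F : Type*} [NormedAddCommGroup F] [InnerProductSpace ℝ F]
    [FiniteDimensional ℝ F] [MeasurableSpace F] [BorelSpace F]

variable {G : Type*} [NormedAddCommGroup G] [InnerProductSpace ℝ G]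
    [FiniteDimensional ℝ G] [MeasurableSpace G] [BorelSpace G]

variable {ι : Type*} [Fintype ι]

private theorem ap4_sqrt (V : F → ℝ) (x u : F) :
    √(Real.exp (-V (x + u)) * Real.exp (-V (x - u))) = Real.exp (-V x) * Real.exp (-(sd V x u) / 2) := by
  rw [← Real.exp_add, ← Real.exp_add, Real.sqrt_eq_rpow, ← Real.exp_mul]
  congr 1
  unfold sd
  ring

private theorem ap4_le (V : F → ℝ) (x u : F) {B : ℝ} (h : sd V x u / 2 ≤ B) :
    Real.exp (-V x) - √(Real.exp (-V (x + u)) * Real.exp (-V (x - u))) ≤ B * Real.exp (-V x) := by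
  rw [ap4_sqrt]
  have h1 := Real.add_one_le_exp (-(sd V x u) / 2)
  have h2 := Real.exp_pos (-V x)
  nlinarith

/-- `h = exp (-V)`: `h (x+u) h (x-u) = h x² exp (-sd V x u)` and
`h x - √(h (x+τu) h (x-τu)) = h x (1 - exp (-sd V x (τu)/2)) ≤ h x sd V x (τ u)/2`. -/
theorem re_exp {V : F → ℝ} {P : ι → F →L[ℝ] G} {ω : ι → F → ℝ} {Λ : ℝ} (H : RD V P ω Λ) :
    RE (fun x => Real.exp (-V x)) P ω Λ := by
  refine ⟨Real.continuous_exp.comp H.cont.neg, fun x => (Real.exp_pos _).le, ?_, H.Λpos, H.ωm, H.ω0,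
    fun j => (H.ωpos j).mono fun x hx _ => hx, ?_, ?_, ?_⟩
  · intro a ha0 ha1 x y
    show Real.exp (-V x) ^ (1 - a) * Real.exp (-V y) ^ a ≤ Real.exp (-V ((1 - a) • x + a • y))
    rw [← Real.exp_mul, ← Real.exp_mul, ← Real.exp_add, Real.exp_le_exp]
    have h1 := H.conv.2 (mem_univ x) (mem_univ y) (by linarith : (0:ℝ) ≤ 1 - a) ha0.le (by ring)
    simp only [smul_eq_mul] at h1
    linarith
  · filter_upwards [H.low] with x hx _ δ hδ
    obtain ⟨r, hr, h1⟩ := hx δ hδ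
    refine ⟨r, hr, fun u hu => ?_⟩
    have h2 := h1 u hu
    show Real.exp (-V (x + u)) * Real.exp (-V (x - u)) ≤ Real.exp (-V x) ^ 2 * _
    rw [← Real.exp_nat_mul, ← Real.exp_add, ← Real.exp_add, Real.exp_le_exp]
    unfold sd at h2
    push_cast
    linarith
  · intro u
    filter_upwards [H.up u] with x hx _ η hη
    obtain ⟨τ0, hτ0, h1⟩ := hx η hη
    refine ⟨τ0, hτ0, fun τ h2 h3 => ap4_le V x (τ • u) ?_⟩
    have h4 := h1 τ h2 h3
    have h5 : 0 < τ ^ 2 * η := by positivity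
    nlinarith
  · intro u
    obtain ⟨C, hC, h1⟩ := H.dom u
    refine ⟨C, hC, ?_⟩
    filter_upwards [h1] with x hx τ h2 h3
    refine ap4_le V x (τ • u) ?_
    have h4 := hx τ h2 h3
    have h5 : 0 ≤ ∑ j, ω j x := Finset.sum_nonneg fun j _ => H.ω0 j x
    have h6 : 0 ≤ τ ^ 2 * (C * (1 + ‖x‖ ^ 2 + ∑ j, ω j x)) := by positivity
    linarith

/-- Constant factors. -/
theorem re_smul {h : F → ℝ} {P : ι → F →L[ℝ] G} {ω : ι → F → ℝ} {Λ : ℝ} (H : RE h P ω Λ) {A : ℝ}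
    (hA : 0 < A) : RE (fun x => A * h x) P ω Λ := by
  have hpos : ∀ x, 0 < A * h x → 0 < h x := fun x hx => by
    by_contra hc
    have := H.nn x
    have h0 : h x = 0 := le_antisymm (not_lt.1 hc) this
    rw [h0, mul_zero] at hx
    exact lt_irrefl _ hx
  have hsq : ∀ s t : ℝ, √(A * s * (A * t)) = A * √(s * t) := fun s t => by
    have e : A * s * (A * t) = A ^ 2 * (s * t) := by ring
    rw [e, Real.sqrt_mul (sq_nonneg A), Real.sqrt_sq hA.le]
  refine ⟨continuous_const.mul H.cont, fun x => mul_nonneg hA.le (H.nn x), ?_, H.Λpos, H.ωm, H.ω0,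
    fun j => (H.ωpos j).mono fun x hx h => hx (hpos x h), ?_, ?_, ?_⟩
  · intro a ha0 ha1 x y
    show (A * h x) ^ (1 - a) * (A * h y) ^ a ≤ A * h ((1 - a) • x + a • y)
    rw [Real.mul_rpow hA.le (H.nn x), Real.mul_rpow hA.le (H.nn y)]
    have e : A ^ (1 - a) * h x ^ (1 - a) * (A ^ a * h y ^ a) = A * (h x ^ (1 - a) * h y ^ a) := by
      have e1 : A ^ (1 - a) * A ^ a = A := by
        rw [← Real.rpow_add hA]
        norm_num
      calc _ = A ^ (1 - a) * A ^ a * (h x ^ (1 - a) * h y ^ a) := by ring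
        _ = _ := by rw [e1]
    rw [e]
    exact mul_le_mul_of_nonneg_left (H.lc a ha0 ha1 x y) hA.le
  · filter_upwards [H.low] with x hx hx0 δ hδ
    obtain ⟨r, hr, h1⟩ := hx (hpos x hx0) δ hδ
    refine ⟨r, hr, fun u hu => ?_⟩
    have h2 := h1 u hu
    show A * h (x + u) * (A * h (x - u)) ≤ (A * h x) ^ 2 * _
    calc A * h (x + u) * (A * h (x - u)) = A ^ 2 * (h (x + u) * h (x - u)) := by ring
      _ ≤ A ^ 2 * (h x ^ 2 * _) := mul_le_mul_of_nonneg_left h2 (sq_nonneg A)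
      _ = _ := by ring
  · intro u
    filter_upwards [H.up u] with x hx hx0 η hη
    obtain ⟨τ0, hτ0, h1⟩ := hx (hpos x hx0) η hη
    refine ⟨τ0, hτ0, fun τ h2 h3 => ?_⟩
    have h4 := mul_le_mul_of_nonneg_left (h1 τ h2 h3) hA.le
    show A * h x - √(A * h (x + τ • u) * (A * h (x - τ • u))) ≤ _
    rw [hsq]
    calc _ = A * (h x - √(h (x + τ • u) * h (x - τ • u))) := by ring
      _ ≤ _ := h4
      _ = _ := by ring
  · intro u
    obtain ⟨C, hC, h1⟩ := H.dom u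
    refine ⟨C, hC, ?_⟩
    filter_upwards [h1] with x hx τ h2 h3
    have h4 := mul_le_mul_of_nonneg_left (hx τ h2 h3) hA.le
    show A * h x - √(A * h (x + τ • u) * (A * h (x - τ • u))) ≤ _
    rw [hsq]
    calc _ = A * (h x - √(h (x + τ • u) * h (x - τ • u))) := by ring
      _ ≤ _ := h4
      _ = _ := by ring

end Pool.Agent.Lib.MP_8d00da_gt.h42r
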