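import Mathlib
import Pool.Agent.Lib.MP_8d00da_gt.h42r.ADefs

namespace Pool.Agent.Lib.MP_8d00da_gt.h25
end Pool.Agent.Lib.MP_8d00da_gt.h25
namespace Pool.Agent.Lib.MP_8d00da_gt.h42s
end Pool.Agent.Lib.MP_8d00da_gt.h42s
namespace Pool.Agent.Lib.MP_8d00da_gt.h42o
end Pool.Agent.Lib.MP_8d00da_gt.h42o
namespace Pool.Agent.Lib.MP_8d00da_gt.h97r
end Pool.Agent.Lib.MP_8d00da_gt.h97r


/-!
# Densities: products
-/

namespace Pool.Agent.Lib.MP_8d00da_gt.h42r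

open MeasureTheory Set Filter
open Pool.Agent.Lib.MP_8d00da_gt.h25 Pool.Agent.Lib.MP_8d00da_gt.h42
open Pool.Agent.Lib.MP_8d00da_gt.h42s Pool.Agent.Lib.MP_8d00da_gt.h42o
open Pool.Agent.Lib.MP_8d00da_gt.h97r
open scoped Topology NNReal ENNReal

set_option linter.unusedSectionVars false

variable {F : Type*} [NormedAddCommGroup F] [InnerProductSpace ℝ F]
    [FiniteDimensional ℝ F] [MeasurableSpace F] [BorelSpace F]

variable {G : Type*} [NormedAddCommGroup G] [InnerProductSpace ℝ G]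
    [FiniteDimensional ℝ G] [MeasurableSpace G] [BorelSpace G]

variable {ι : Type*} [Fintype ι]

private lemma ap4b_mid {h : F → ℝ} (h0 : ∀ x, 0 ≤ h x) (hl : LogConc h) (x u : F) :
    √(h (x + u) * h (x - u)) ≤ h x := by
  have h1 := hl (1 / 2) (by norm_num) (by norm_num) (x + u) (x - u)
  have e : (1 - 1 / 2 : ℝ) • (x + u) + (1 / 2 : ℝ) • (x - u) = x := by module
  rw [e, show (1 - 1 / 2 : ℝ) = 1 / 2 by norm_num, ← Real.mul_rpow (h0 _) (h0 _),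
    ← Real.sqrt_eq_rpow] at h1
  exact h1

private lemma ap4b_mul {h1 h2 : F → ℝ} (n1 : ∀ x, 0 ≤ h1 x) (n2 : ∀ x, 0 ≤ h2 x)
    (l1 : LogConc h1) (l2 : LogConc h2) (x u : F) {a b : ℝ}
    (ha : h1 x - √(h1 (x + u) * h1 (x - u)) ≤ a * h1 x)
    (hb : h2 x - √(h2 (x + u) * h2 (x - u)) ≤ b * h2 x) :
    h1 x * h2 x - √(h1 (x + u) * h2 (x + u) * (h1 (x - u) * h2 (x - u))) ≤
      (a + b) * (h1 x * h2 x) := by
  have e : √(h1 (x + u) * h2 (x + u) * (h1 (x - u) * h2 (x - u))) =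
      √(h1 (x + u) * h1 (x - u)) * √(h2 (x + u) * h2 (x - u)) := by
    rw [← Real.sqrt_mul (mul_nonneg (n1 _) (n1 _))]
    congr 1
    ring
  rw [e]
  have m1 := ap4b_mid n1 l1 x u
  have m2 := ap4b_mid n2 l2 x u
  have k1 := mul_le_mul_of_nonneg_right ha (n2 x)
  have k2 := mul_le_mul_of_nonneg_left hb (n1 x)
  have k3 := mul_le_mul_of_nonneg_right m1 (sub_nonneg.2 m2)
  nlinarith

/-- Products. With `r_i = √(h_i (x+τu) h_i (x-τu)) ≤ h_i x` (log-concavity):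
`h₁ h₂ - r₁ r₂ ≤ (h₁ - r₁) h₂ + h₁ (h₂ - r₂)`. -/
theorem re_mul {κ : Type*} [Fintype κ] {h1 h2 : F → ℝ} {P1 : ι → F →L[ℝ] G} {ω1 : ι → F → ℝ}
    {P2 : κ → F →L[ℝ] G} {ω2 : κ → F → ℝ} {Λ : ℝ} (H1 : RE h1 P1 ω1 Λ) (H2 : RE h2 P2 ω2 Λ) :
    RE (fun x => h1 x * h2 x) (Sum.elim P1 P2) (Sum.elim ω1 ω2) Λ := by
  have hpos : ∀ x, 0 < h1 x * h2 x → 0 < h1 x ∧ 0 < h2 x := fun x hx =>
    ⟨pos_of_mul_pos_left hx (H2.nn x), pos_of_mul_pos_right hx (H1.nn x)⟩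
  refine ⟨H1.cont.mul H2.cont, fun x => mul_nonneg (H1.nn x) (H2.nn x), ?_, H1.Λpos, ?_, ?_, ?_, ?_, ?_, ?_⟩
  · intro a ha ha1 x y
    show (h1 x * h2 x) ^ (1 - a) * (h1 y * h2 y) ^ a ≤ _
    rw [Real.mul_rpow (H1.nn x) (H2.nn x), Real.mul_rpow (H1.nn y) (H2.nn y)]
    have k1 := H1.lc a ha ha1 x y
    have k2 := H2.lc a ha ha1 x y
    calc _ = (h1 x ^ (1 - a) * h1 y ^ a) * (h2 x ^ (1 - a) * h2 y ^ a) := by ring
      _ ≤ _ := mul_le_mul k1 k2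
        (mul_nonneg (Real.rpow_nonneg (H2.nn x) _) (Real.rpow_nonneg (H2.nn y) _)) (H1.nn _)
  · rintro (j | j)
    · exact H1.ωm j
    · exact H2.ωm j
  · rintro (j | j) x
    · exact H1.ω0 j x
    · exact H2.ω0 j x
  · rintro (j | j)
    · filter_upwards [H1.ωpos j] with x hx h0 using hx (hpos x h0).1
    · filter_upwards [H2.ωpos j] with x hx h0 using hx (hpos x h0).2
  · filter_upwards [H1.low, H2.low] with x k1 k2 h0
    intro δ hδ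
    obtain ⟨r1, hr1, e1⟩ := k1 (hpos x h0).1 (δ / 2) (by linarith)
    obtain ⟨r2, hr2, e2⟩ := k2 (hpos x h0).2 (δ / 2) (by linarith)
    refine ⟨min r1 r2, lt_min hr1 hr2, fun u hu => ?_⟩
    have f1 := e1 u (hu.trans_le (min_le_left _ _))
    have f2 := e2 u (hu.trans_le (min_le_right _ _))
    simp only [Fintype.sum_sum_type, Sum.elim_inl, Sum.elim_inr]
    have e3 : Real.exp (-(∑ j, ω1 j x * ‖P1 j u‖ ^ 2 + ∑ j, ω2 j x * ‖P2 j u‖ ^ 2) + δ * ‖u‖ ^ 2) =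
        Real.exp (-(∑ j, ω1 j x * ‖P1 j u‖ ^ 2) + δ / 2 * ‖u‖ ^ 2) *
          Real.exp (-(∑ j, ω2 j x * ‖P2 j u‖ ^ 2) + δ / 2 * ‖u‖ ^ 2) := by
      rw [← Real.exp_add]
      congr 1
      ring
    rw [e3]
    calc h1 (x + u) * h2 (x + u) * (h1 (x - u) * h2 (x - u)) =
        (h1 (x + u) * h1 (x - u)) * (h2 (x + u) * h2 (x - u)) := by ring
      _ ≤ _ := mul_le_mul f1 f2 (mul_nonneg (H2.nn _) (H2.nn _))
          (mul_nonneg (sq_nonneg _) (Real.exp_pos _).le)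
      _ = _ := by ring
  · intro u
    filter_upwards [H1.up u, H2.up u] with x k1 k2 h0 η hη
    obtain ⟨t1, ht1, e1⟩ := k1 (hpos x h0).1 (η / 2) (by linarith)
    obtain ⟨t2, ht2, e2⟩ := k2 (hpos x h0).2 (η / 2) (by linarith)
    refine ⟨min t1 t2, lt_min ht1 ht2, fun τ hτ hτ2 => ?_⟩
    have f1 := e1 τ hτ (hτ2.trans_le (min_le_left _ _))
    have f2 := e2 τ hτ (hτ2.trans_le (min_le_right _ _))
    refine (ap4b_mul H1.nn H2.nn H1.lc H2.lc x (τ • u) f1 f2).trans (le_of_eq ?_)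
    simp only [Fintype.sum_sum_type, Sum.elim_inl, Sum.elim_inr]
    ring
  · intro u
    obtain ⟨C1, hC1, k1⟩ := H1.dom u
    obtain ⟨C2, hC2, k2⟩ := H2.dom u
    refine ⟨C1 + C2, add_nonneg hC1 hC2, ?_⟩
    filter_upwards [k1, k2] with x k1 k2 τ hτ hτ1
    refine (ap4b_mul H1.nn H2.nn H1.lc H2.lc x (τ • u) (k1 τ hτ hτ1) (k2 τ hτ hτ1)).trans ?_
    simp only [Fintype.sum_sum_type, Sum.elim_inl, Sum.elim_inr]
    refine mul_le_mul_of_nonneg_right ?_ (mul_nonneg (H1.nn x) (H2.nn x))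
    have s1 : 0 ≤ ∑ j, ω1 j x := Finset.sum_nonneg fun j _ => H1.ω0 j x
    have s2 : 0 ≤ ∑ j, ω2 j x := Finset.sum_nonneg fun j _ => H2.ω0 j x
    rw [← mul_add]
    refine mul_le_mul_of_nonneg_left ?_ (sq_nonneg τ)
    nlinarith [mul_nonneg hC1 s2, mul_nonneg hC2 s1]

end Pool.Agent.Lib.MP_8d00da_gt.h42r
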