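import Mathlib
import Pool.Agent.Lib.MP_8d00da_gt.h42r.ADefs

namespace Pool.Agent.Lib.MP_8d00da_gt.h25
end Pool.Agent.Lib.MP_8d00da_gt.h25
namespace Pool.Agent.Lib.MP_8d00da_gt.h42s
end Pool.Agent.Lib.MP_8d00da_gt.h42s
namespace Pool.Agent.Lib.MP_8d00da_gt.h42o
end Pool.Agent.Lib.MP_8d00da_gt.h42o
namespace Pool.Agent.Lib.MP_8d00da_gt.h97r
end Pool.Agent.Lib.MP_8d00da_gt.h97r


/-!
# Densities: the barrier
-/

namespace Pool.Agent.Lib.MP_8d00da_gt.h42r

open MeasureTheory Set Filter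
open Pool.Agent.Lib.MP_8d00da_gt.h25 Pool.Agent.Lib.MP_8d00da_gt.h42
open Pool.Agent.Lib.MP_8d00da_gt.h42s Pool.Agent.Lib.MP_8d00da_gt.h42o
open Pool.Agent.Lib.MP_8d00da_gt.h97r
open scoped Topology NNReal ENNReal

set_option linter.unusedSectionVars false

variable {F : Type*} [NormedAddCommGroup F] [InnerProductSpace ℝ F]
    [FiniteDimensional ℝ F] [MeasurableSpace F] [BorelSpace F]

variable {G : Type*} [NormedAddCommGroup G] [InnerProductSpace ℝ G]
    [FiniteDimensional ℝ G] [MeasurableSpace G] [BorelSpace G]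

variable {ι : Type*} [Fintype ι]

/-- The barrier factor `∏ (⟪a_k, x⟫ - d_k)₊^{β_k}`. -/
noncomputable def bar (a : ι → F) (d β : ι → ℝ) (x : F) : ℝ :=
  ∏ k, (max (inner ℝ (a k) x - d k) 0) ^ β k

private lemma max_prod_eq {s w : ℝ} (hs : 0 < s) :
    max (s + w) 0 * max (s - w) 0 = s ^ 2 * max (1 - w ^ 2 / s ^ 2) 0 := by
  have hs2 : 0 < s ^ 2 := by positivity
  have e : s ^ 2 * max (1 - w ^ 2 / s ^ 2) 0 = max (s ^ 2 - w ^ 2) 0 := by
    rw [mul_max_of_nonneg _ _ hs2.le, mul_zero, mul_sub, mul_one, mul_div_cancel₀ _ hs2.ne']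
  rw [e]
  rcases le_total w s with h1 | h1
  · rcases le_total (-s) w with h2 | h2
    · rw [max_eq_left (by linarith), max_eq_left (by linarith), max_eq_left (by nlinarith)]
      ring
    · rw [max_eq_right (by linarith : s + w ≤ 0), max_eq_right (by nlinarith : s ^ 2 - w ^ 2 ≤ 0),
        zero_mul]
  · rw [max_eq_right (by linarith : s - w ≤ 0), max_eq_right (by nlinarith : s ^ 2 - w ^ 2 ≤ 0),
      mul_zero]

private lemma one_sub_prod_le {κ : Type*} (S : Finset κ) (x : κ → ℝ) (h0 : ∀ k, 0 ≤ x k)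
    (h1 : ∀ k, x k ≤ 1) : 1 - ∏ k ∈ S, x k ≤ ∑ k ∈ S, (1 - x k) := by
  classical
  induction S using Finset.induction_on with
  | empty => simp
  | insert a S ha ih =>
    rw [Finset.prod_insert ha, Finset.sum_insert ha]
    have hP0 : 0 ≤ ∏ k ∈ S, x k := Finset.prod_nonneg fun k _ => h0 k
    have hP1 : ∏ k ∈ S, x k ≤ 1 := Finset.prod_le_one (fun k _ => h0 k) (fun k _ => h1 k)
    have h2 : (1 - x a) * (1 - ∏ k ∈ S, x k) ≥ 0 :=
      mul_nonneg (by linarith [h1 a]) (by linarith)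
    nlinarith

private lemma bar_nonneg (a : ι → F) (d β : ι → ℝ) (x : F) : 0 ≤ bar a d β x :=
  Finset.prod_nonneg fun _ _ => Real.rpow_nonneg (le_max_right _ _) _

private lemma bar_pos_imp {a : ι → F} {d β : ι → ℝ} (hβ : ∀ k, 1 < β k) {x : F}
    (hx : 0 < bar a d β x) (k : ι) : 0 < inner ℝ (a k) x - d k := by
  by_contra hcon
  have h1 : max (inner ℝ (a k) x - d k) 0 = 0 := max_eq_right (not_lt.1 hcon)
  have h2 : bar a d β x = 0 := by
    unfold bar
    apply Finset.prod_eq_zero (Finset.mem_univ k)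
    rw [h1, Real.zero_rpow (by linarith [hβ k])]
  linarith

private lemma bar_mul_eq {a : ι → F} {d β : ι → ℝ} {x : F}
    (hs : ∀ k, 0 < inner ℝ (a k) x - d k) (u : F) :
    bar a d β (x + u) * bar a d β (x - u) =
      (bar a d β x * ∏ k, (max (1 - inner ℝ (a k) u ^ 2 / (inner ℝ (a k) x - d k) ^ 2) 0) ^
        (β k / 2)) ^ 2 := by
  unfold bar
  rw [← Finset.prod_mul_distrib, ← Finset.prod_mul_distrib, ← Finset.prod_pow]
  refine Finset.prod_congr rfl fun k _ => ?_
  have hk := hs k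
  have e1 : inner ℝ (a k) (x + u) - d k = (inner ℝ (a k) x - d k) + inner ℝ (a k) u := by
    rw [inner_add_right]; ring
  have e2 : inner ℝ (a k) (x - u) - d k = (inner ℝ (a k) x - d k) - inner ℝ (a k) u := by
    rw [inner_sub_right]; ring
  rw [e1, e2, ← Real.mul_rpow (le_max_right _ _) (le_max_right _ _), max_prod_eq hk,
    Real.mul_rpow (by positivity) (le_max_right _ _), max_eq_left hk.le, mul_pow]
  set m := max (1 - inner ℝ (a k) u ^ 2 / (inner ℝ (a k) x - d k) ^ 2) 0 with hm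
  have hm0 : 0 ≤ m := le_max_right _ _
  congr 1
  · rw [← Real.rpow_natCast, ← Real.rpow_natCast, ← Real.rpow_mul hk.le, ← Real.rpow_mul hk.le,
      mul_comm]
  · rw [← Real.rpow_natCast (m ^ (β k / 2)), ← Real.rpow_mul hm0]
    congr 1
    push_cast
    ring

private lemma sqrt_bar {a : ι → F} {d β : ι → ℝ} {x : F}
    (hs : ∀ k, 0 < inner ℝ (a k) x - d k) (u : F) :
    √(bar a d β (x + u) * bar a d β (x - u)) =
      bar a d β x * ∏ k, (max (1 - inner ℝ (a k) u ^ 2 / (inner ℝ (a k) x - d k) ^ 2) 0) ^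
        (β k / 2) := by
  rw [bar_mul_eq hs, Real.sqrt_sq]
  exact mul_nonneg (bar_nonneg _ _ _ _)
    (Finset.prod_nonneg fun _ _ => Real.rpow_nonneg (le_max_right _ _) _)

private lemma bar_sub_le {a : ι → F} {d β : ι → ℝ} (hβ : ∀ k, 1 < β k) {x : F}
    (hs : ∀ k, 0 < inner ℝ (a k) x - d k) (u : F) :
    bar a d β x - √(bar a d β (x + u) * bar a d β (x - u)) ≤
      (∑ k, (1 - (max (1 - inner ℝ (a k) u ^ 2 / (inner ℝ (a k) x - d k) ^ 2) 0) ^
        (β k / 2))) * bar a d β x := by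
  rw [sqrt_bar hs]
  have h1 := one_sub_prod_le Finset.univ
    (fun k => (max (1 - inner ℝ (a k) u ^ 2 / (inner ℝ (a k) x - d k) ^ 2) 0) ^ (β k / 2))
    (fun k => Real.rpow_nonneg (le_max_right _ _) _)
    (fun k => Real.rpow_le_one (le_max_right _ _)
      (max_le (by
        have : 0 ≤ inner ℝ (a k) u ^ 2 / (inner ℝ (a k) x - d k) ^ 2 := by positivity
        linarith) zero_le_one) (by linarith [hβ k]))
  have h2 := mul_le_mul_of_nonneg_right h1 (bar_nonneg a d β x)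
  linarith

private lemma one_sub_rpow_le {y γ : ℝ} (hy : 0 ≤ y) (hγ : 0 < γ) :
    1 - (max (1 - y) 0) ^ γ ≤ (1 + γ) * y := by
  rcases le_total y 1 with h | h
  · rw [max_eq_left (by linarith)]
    rcases eq_or_lt_of_le h with h' | h'
    · rw [h', sub_self, Real.zero_rpow hγ.ne']
      linarith
    · have h1 := one_add_mul_self_le_rpow_one_add (s := -y) (by linarith) (p := 1 + γ)
        (by linarith)
      have h2 : (1 + -y) ^ (1 + γ) ≤ (1 - y) ^ γ := by
        rw [← sub_eq_add_neg]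
        exact Real.rpow_le_rpow_of_exponent_ge (by linarith) (by linarith) (by linarith)
      linarith
  · rw [max_eq_right (by linarith), Real.zero_rpow hγ.ne']
    nlinarith

private lemma one_sub_rpow_le' {y γ : ℝ} (hy1 : y < 1) (hγ : 0 < γ) :
    1 - (max (1 - y) 0) ^ γ ≤ γ * (y / (1 - y)) := by
  have h0 : 0 < 1 - y := by linarith
  rw [max_eq_left h0.le, Real.rpow_def_of_pos h0]
  have h1 : -(y / (1 - y)) ≤ Real.log (1 - y) := by
    have := Real.one_sub_inv_le_log_of_pos h0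
    have e : 1 - (1 - y)⁻¹ = -(y / (1 - y)) := by
      field_simp
      ring
    linarith
  have h2 := Real.add_one_le_exp (Real.log (1 - y) * γ)
  nlinarith

private lemma lc_bar (a : ι → F) (d : ι → ℝ) {β : ι → ℝ} (hβ : ∀ k, 1 < β k) :
    LogConc (bar a d β) := by
  intro t ht0 ht1 x y
  unfold bar
  rw [← Real.finsetProd_rpow _ _ (fun k _ => Real.rpow_nonneg (le_max_right _ _) _),
    ← Real.finsetProd_rpow _ _ (fun k _ => Real.rpow_nonneg (le_max_right _ _) _),
    ← Finset.prod_mul_distrib]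
  refine Finset.prod_le_prod (fun k _ => mul_nonneg
    (Real.rpow_nonneg (Real.rpow_nonneg (le_max_right _ _) _) _)
    (Real.rpow_nonneg (Real.rpow_nonneg (le_max_right _ _) _) _)) fun k _ => ?_
  have hβk : 0 < β k := by linarith [hβ k]
  set p := inner ℝ (a k) x - d k with hp
  set q := inner ℝ (a k) y - d k with hq
  have e : inner ℝ (a k) ((1 - t) • x + t • y) - d k = (1 - t) * p + t * q := by
    rw [inner_add_right, inner_smul_right, inner_smul_right, hp, hq]; ring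
  rw [e]
  rcases le_or_gt p 0 with h1 | h1
  · rw [max_eq_right h1, Real.zero_rpow hβk.ne', Real.zero_rpow (by linarith), zero_mul]
    exact Real.rpow_nonneg (le_max_right _ _) _
  rcases le_or_gt q 0 with h2 | h2
  · rw [max_eq_right h2, Real.zero_rpow hβk.ne', Real.zero_rpow ht0.ne', mul_zero]
    exact Real.rpow_nonneg (le_max_right _ _) _
  have h3 : 0 ≤ (1 - t) * p + t * q := by
    have := mul_pos (by linarith : 0 < 1 - t) h1
    have := mul_pos ht0 h2
    linarith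
  rw [max_eq_left h1.le, max_eq_left h2.le, max_eq_left h3, ← Real.rpow_mul h1.le,
    ← Real.rpow_mul h2.le, mul_comm (β k) (1 - t), mul_comm (β k) t, Real.rpow_mul h1.le,
    Real.rpow_mul h2.le, ← Real.mul_rpow (Real.rpow_nonneg h1.le _) (Real.rpow_nonneg h2.le _)]
  apply Real.rpow_le_rpow (by positivity) _ hβk.le
  exact Real.geom_mean_le_arith_mean2_weighted (by linarith) ht0.le h1.le h2.le (by ring)

/-- One factor: `s = ⟪a, x⟫ - d > 0`, `w = τ ⟪a, u⟫`, `γ = β/2`: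
`(s+w)₊^β (s-w)₊^β ≤ ((s² - w²)₊)^β ≤ s^{2β} exp (-β w²/s²)` and
`s^β - √((s+w)₊^β (s-w)₊^β) ≤ s^β (1 - (1 - w²/s²)₊^γ) ≤ s^β max 1 γ w²/s²`, and for small `w` it is
at most `s^β (γ + η) w²/s²`. The product: induction or `1 - ∏ x_i ≤ ∑ (1 - x_i)` for
`x_i ∈ [0,1]`. `Λ ≥ 1`. `(innerSL ℝ (a k)).smulRight e` with `‖e‖ = 1` has
`‖P_k u‖² = ⟪a_k, u⟫²`. -/
theorem re_bar {a : ι → F} (ha : ∀ k, a k ≠ 0) (d : ι → ℝ) {β : ι → ℝ} (hβ : ∀ k, 1 < β k) {e : G}
    (he : ‖e‖ = 1) {Λ : ℝ} (hΛ : 1 ≤ Λ) :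
    RE (bar a d β) (fun k => (innerSL ℝ (a k)).smulRight e)
      (fun k x => β k * ((inner ℝ (a k) x - d k) ^ 2)⁻¹) Λ := by
  have hP : ∀ k u, ‖((innerSL ℝ (a k)).smulRight e : F →L[ℝ] G) u‖ ^ 2 = inner ℝ (a k) u ^ 2 := by
    intro k u
    rw [ContinuousLinearMap.smulRight_apply, norm_smul, he, mul_one, innerSL_apply_apply,
      Real.norm_eq_abs, sq_abs]
  have hγ : ∀ k, 0 < β k / 2 := fun k => by linarith [hβ k]
  refine ⟨?_, bar_nonneg a d β, lc_bar a d hβ, by linarith, ?_, ?_, ?_, ?_, ?_, ?_⟩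
  · unfold bar
    exact continuous_finsetProd _ fun k _ =>
      (((continuous_const.inner continuous_id).sub continuous_const).max
        continuous_const).rpow_const fun x => Or.inr (by linarith [hβ k])
  · intro k
    have : Measurable fun x : F => inner ℝ (a k) x :=
      (continuous_const.inner continuous_id).measurable
    exact (((this.sub_const _).pow_const 2).inv).const_mul _
  · intro k x
    have := hβ k
    positivity
  · intro k
    refine Eventually.of_forall fun x hx => ?_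
    have h1 := bar_pos_imp hβ hx k
    have := hβ k
    positivity
  · refine Eventually.of_forall fun x hx => ?_
    have hs := bar_pos_imp hβ hx
    intro δ hδ
    refine ⟨1, one_pos, fun u _ => ?_⟩
    rw [bar_mul_eq hs, mul_pow]
    refine mul_le_mul_of_nonneg_left ?_ (by positivity)
    have h1 : ∏ k, (max (1 - inner ℝ (a k) u ^ 2 / (inner ℝ (a k) x - d k) ^ 2) 0) ^ (β k / 2) ≤
        ∏ k, Real.exp (-(inner ℝ (a k) u ^ 2 / (inner ℝ (a k) x - d k) ^ 2) * (β k / 2)) := by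
      refine Finset.prod_le_prod (fun k _ => Real.rpow_nonneg (le_max_right _ _) _)
        fun k _ => ?_
      rw [Real.exp_mul]
      refine Real.rpow_le_rpow (le_max_right _ _) (max_le ?_ (Real.exp_pos _).le) (hγ k).le
      have := Real.add_one_le_exp (-(inner ℝ (a k) u ^ 2 / (inner ℝ (a k) x - d k) ^ 2))
      linarith
    have h2 : 0 ≤ ∏ k, (max (1 - inner ℝ (a k) u ^ 2 / (inner ℝ (a k) x - d k) ^ 2) 0) ^
        (β k / 2) := Finset.prod_nonneg fun k _ => Real.rpow_nonneg (le_max_right _ _) _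
    refine (pow_le_pow_left₀ h2 h1 2).trans ?_
    rw [← Real.exp_sum, ← Real.exp_nat_mul]
    apply Real.exp_le_exp.2
    have h3 : ((2 : ℕ) : ℝ) * ∑ k, -(inner ℝ (a k) u ^ 2 / (inner ℝ (a k) x - d k) ^ 2) *
        (β k / 2) = -∑ k, β k * ((inner ℝ (a k) x - d k) ^ 2)⁻¹ *
          ‖((innerSL ℝ (a k)).smulRight e : F →L[ℝ] G) u‖ ^ 2 := by
      rw [Finset.mul_sum, ← Finset.sum_neg_distrib]
      refine Finset.sum_congr rfl fun k _ => ?_
      rw [hP]
      push_cast
      ring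
    rw [h3]
    have : 0 ≤ δ * ‖u‖ ^ 2 := by positivity
    linarith
  · intro u
    refine Eventually.of_forall fun x hx η hη => ?_
    have hs := bar_pos_imp hβ hx
    set c : ι → ℝ := fun k => inner ℝ (a k) u ^ 2 / (inner ℝ (a k) x - d k) ^ 2 with hc
    have hc0 : ∀ k, 0 ≤ c k := fun k => by rw [hc]; positivity
    have hev1 : ∀ᶠ τ in 𝓝 (0 : ℝ), ∀ k, τ ^ 2 * c k < 1 := by
      rw [eventually_all]
      intro k
      have : Tendsto (fun τ : ℝ => τ ^ 2 * c k) (𝓝 0) (𝓝 (0 ^ 2 * c k)) :=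
        (by fun_prop : Continuous fun τ : ℝ => τ ^ 2 * c k).tendsto 0
      exact this.eventually_lt_const (by norm_num)
    have hev2 : ∀ᶠ τ in 𝓝 (0 : ℝ), ∑ k, β k / 2 * (c k / (1 - τ ^ 2 * c k)) <
        ∑ k, β k / 2 * c k + η := by
      have : Tendsto (fun τ : ℝ => ∑ k, β k / 2 * (c k / (1 - τ ^ 2 * c k))) (𝓝 0)
          (𝓝 (∑ k, β k / 2 * (c k / (1 - 0 ^ 2 * c k)))) := by
        refine tendsto_finsetSum _ fun k _ => ?_
        refine Tendsto.const_mul _ (Tendsto.div tendsto_const_nhds ?_ (by norm_num))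
        exact (by fun_prop : Continuous fun τ : ℝ => 1 - τ ^ 2 * c k).tendsto 0
      refine this.eventually_lt_const ?_
      have : ∑ k, β k / 2 * (c k / (1 - 0 ^ 2 * c k)) = ∑ k, β k / 2 * c k := by
        refine Finset.sum_congr rfl fun k _ => ?_
        norm_num
      rw [this]
      linarith
    obtain ⟨τ0, hτ0, hball⟩ := Metric.eventually_nhds_iff.1 (hev1.and hev2)
    refine ⟨τ0, hτ0, fun τ hτ hτlt => ?_⟩
    obtain ⟨hA, hB⟩ := hball (y := τ) (by
      rw [Real.dist_eq, sub_zero, abs_of_pos hτ]; exact hτlt)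
    refine (bar_sub_le hβ hs (τ • u)).trans ?_
    refine mul_le_mul_of_nonneg_right ?_ (bar_nonneg a d β x)
    have hy : ∀ k, inner ℝ (a k) (τ • u) ^ 2 / (inner ℝ (a k) x - d k) ^ 2 = τ ^ 2 * c k := by
      intro k
      rw [hc, inner_smul_right]
      ring
    have h1 : ∑ k, (1 - (max (1 - inner ℝ (a k) (τ • u) ^ 2 / (inner ℝ (a k) x - d k) ^ 2) 0) ^
        (β k / 2)) ≤ τ ^ 2 * ∑ k, β k / 2 * (c k / (1 - τ ^ 2 * c k)) := by
      rw [Finset.mul_sum]
      refine Finset.sum_le_sum fun k _ => ?_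
      rw [hy]
      refine (one_sub_rpow_le' (hA k) (hγ k)).trans (le_of_eq ?_)
      ring
    have h2 : (∑ k, β k / 2 * c k) ≤ Λ / 2 * ∑ k, β k * ((inner ℝ (a k) x - d k) ^ 2)⁻¹ *
          ‖((innerSL ℝ (a k)).smulRight e : F →L[ℝ] G) u‖ ^ 2 := by
      have h3 : ∑ k, β k * ((inner ℝ (a k) x - d k) ^ 2)⁻¹ *
          ‖((innerSL ℝ (a k)).smulRight e : F →L[ℝ] G) u‖ ^ 2 = 2 * ∑ k, β k / 2 * c k := by
        rw [Finset.mul_sum]
        refine Finset.sum_congr rfl fun k _ => ?_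
        rw [hP, hc]
        ring
      rw [h3]
      have h4 : 0 ≤ ∑ k, β k / 2 * c k :=
        Finset.sum_nonneg fun k _ => mul_nonneg (hγ k).le (hc0 k)
      nlinarith
    refine h1.trans (mul_le_mul_of_nonneg_left ?_ (by positivity))
    linarith
  · intro u
    have hw0 : ∀ k, 0 ≤ (1 + β k / 2) * inner ℝ (a k) u ^ 2 := fun k =>
      mul_nonneg (by linarith [hγ k]) (sq_nonneg _)
    refine ⟨∑ k, (1 + β k / 2) * inner ℝ (a k) u ^ 2, Finset.sum_nonneg fun k _ => hw0 k, ?_⟩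
    refine Eventually.of_forall fun x τ hτ hτ1 => ?_
    rcases eq_or_lt_of_le (bar_nonneg a d β x) with h0 | h0
    · rw [← h0, mul_zero]
      have := Real.sqrt_nonneg (bar a d β (x + τ • u) * bar a d β (x - τ • u))
      linarith
    have hs := bar_pos_imp hβ h0
    refine (bar_sub_le hβ hs (τ • u)).trans ?_
    refine mul_le_mul_of_nonneg_right ?_ (bar_nonneg a d β x)
    have hω0 : ∀ k, 0 ≤ β k * ((inner ℝ (a k) x - d k) ^ 2)⁻¹ := fun k => by
      have := hβ k
      positivity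
    have h1 : ∑ k, (1 - (max (1 - inner ℝ (a k) (τ • u) ^ 2 / (inner ℝ (a k) x - d k) ^ 2) 0) ^
        (β k / 2)) ≤ ∑ k, τ ^ 2 * ((1 + β k / 2) * inner ℝ (a k) u ^ 2 *
          (β k * ((inner ℝ (a k) x - d k) ^ 2)⁻¹)) := by
      refine Finset.sum_le_sum fun k _ => ?_
      refine (one_sub_rpow_le (by positivity) (hγ k)).trans ?_
      rw [inner_smul_right]
      have h2 : (1 + β k / 2) * ((τ * inner ℝ (a k) u) ^ 2 / (inner ℝ (a k) x - d k) ^ 2) =
          τ ^ 2 * ((1 + β k / 2) * inner ℝ (a k) u ^ 2 *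
          (1 * ((inner ℝ (a k) x - d k) ^ 2)⁻¹)) := by ring
      have h3 : (1 : ℝ) * ((inner ℝ (a k) x - d k) ^ 2)⁻¹ ≤
          β k * ((inner ℝ (a k) x - d k) ^ 2)⁻¹ :=
        mul_le_mul_of_nonneg_right (hβ k).le (by positivity)
      simp only [h2]
      exact mul_le_mul_of_nonneg_left (mul_le_mul_of_nonneg_left h3 (hw0 k)) (by positivity)
    refine h1.trans ?_
    rw [← Finset.mul_sum]
    refine mul_le_mul_of_nonneg_left ?_ (by positivity)
    rw [Finset.sum_mul]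
    refine Finset.sum_le_sum fun k _ => ?_
    refine mul_le_mul_of_nonneg_left ?_ (hw0 k)
    have h4 := Finset.single_le_sum (fun j _ => hω0 j) (Finset.mem_univ k)
    have h5 : 0 ≤ ‖x‖ ^ 2 := by positivity
    linarith

end Pool.Agent.Lib.MP_8d00da_gt.h42r
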