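import Mathlib

namespace Pool.Agent.Lib.MP_8d00da_gt.h25
end Pool.Agent.Lib.MP_8d00da_gt.h25
namespace Pool.Agent.Lib.MP_8d00da_gt.h42
end Pool.Agent.Lib.MP_8d00da_gt.h42
namespace Pool.Agent.Lib.MP_8d00da_gt.h42s
end Pool.Agent.Lib.MP_8d00da_gt.h42s
namespace Pool.Agent.Lib.MP_8d00da_gt.h42o
end Pool.Agent.Lib.MP_8d00da_gt.h42o
namespace Pool.Agent.Lib.MP_8d00da_gt.h97r
end Pool.Agent.Lib.MP_8d00da_gt.h97r


/-!
# The dual frame
-/

namespace Pool.Agent.Lib.MP_8d00da_gt.h42r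

open MeasureTheory Set Filter
open Pool.Agent.Lib.MP_8d00da_gt.h25 Pool.Agent.Lib.MP_8d00da_gt.h42
open Pool.Agent.Lib.MP_8d00da_gt.h42s Pool.Agent.Lib.MP_8d00da_gt.h42o
open Pool.Agent.Lib.MP_8d00da_gt.h97r
open scoped Topology NNReal ENNReal

set_option linter.unusedSectionVars false

variable {F : Type*} [NormedAddCommGroup F] [InnerProductSpace ℝ F]
    [FiniteDimensional ℝ F] [MeasurableSpace F] [BorelSpace F]

variable {G : Type*} [NormedAddCommGroup G] [InnerProductSpace ℝ G]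
    [FiniteDimensional ℝ G] [MeasurableSpace G] [BorelSpace G]

variable {ι : Type*} [Fintype ι]

/-- `M = ∑ m_j P_j^* P_j` is symmetric and injective, hence invertible; `R = M⁻¹`. (E.g. the
linear map `M : F →ₗ F` with `⟪M v, u⟫ = ∑ m_j ⟪P_j v, P_j u⟫`; injective since
`⟪M v, v⟫ = ∑ m_j ‖P_j v‖²`; `LinearEquiv.ofInjectiveEndo`.) -/
theorem exists_R (P : ι → F →L[ℝ] G) {m : ι → ℝ} (hm : ∀ j, 0 < m j)
    (hker : ∀ u : F, (∀ j, P j u = 0) → u = 0) :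
    ∃ R : F →L[ℝ] F, ∀ g u : F, ∑ j, m j * inner ℝ (P j (R g)) (P j u) = inner ℝ g u := by
  have : CompleteSpace F := FiniteDimensional.complete ℝ F
  have : CompleteSpace G := FiniteDimensional.complete ℝ G
  obtain ⟨M, hM⟩ : ∃ M : F →L[ℝ] F, ∀ v u : F, inner ℝ (M v) u = ∑ j, m j * inner ℝ (P j v) (P j u) := by
    refine ⟨∑ j, m j • (ContinuousLinearMap.adjoint (P j)).comp (P j), fun v u => ?_⟩
    rw [_root_.sum_apply, sum_inner]
    refine Finset.sum_congr rfl fun j _ => ?_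
    rw [_root_.smul_apply, ContinuousLinearMap.comp_apply, real_inner_smul_left,
      ContinuousLinearMap.adjoint_inner_left]
  have hinj : Function.Injective (M : F →ₗ[ℝ] F) := by
    rw [← LinearMap.ker_eq_bot, LinearMap.ker_eq_bot']
    intro v hv
    have h1 : ∑ j, m j * inner ℝ (P j v) (P j v) = 0 := by
      rw [← hM v v]
      have h2 : M v = 0 := hv
      rw [h2, inner_zero_left]
    refine hker v fun j => ?_
    have h3 := (Finset.sum_eq_zero_iff_of_nonneg (fun j _ =>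
      mul_nonneg (hm j).le real_inner_self_nonneg)).1 h1 j (Finset.mem_univ j)
    have h4 : inner ℝ (P j v) (P j v) = 0 := (mul_eq_zero.1 h3).resolve_left (hm j).ne'
    exact inner_self_eq_zero.1 h4
  obtain ⟨E, hE⟩ : ∃ E : F ≃ₗ[ℝ] F, ∀ v, E v = M v :=
    ⟨LinearEquiv.ofInjectiveEndo (M : F →ₗ[ℝ] F) hinj, fun v => rfl⟩
  refine ⟨LinearMap.toContinuousLinearMap (E.symm : F →ₗ[ℝ] F), fun g u => ?_⟩
  rw [← hM]
  have h1 : M (LinearMap.toContinuousLinearMap (E.symm : F →ₗ[ℝ] F) g) = g := by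
    rw [← hE]
    exact E.apply_symm_apply g
  rw [h1]

/-- Matrix Cauchy-Schwarz: `⟪g, u⟫ = ∑ m_j ⟪P_j R g, P_j u⟫`, so
`⟪g, u⟫² ≤ (∑ m_j² ‖P_j R g‖² / ω_j) (∑ ω_j ‖P_j u‖²)`. -/
theorem dual_cs (P : ι → F →L[ℝ] G) {m ω : ι → ℝ} (hω : ∀ j, 0 < ω j) {R : F →L[ℝ] F}
    (hR : ∀ g u : F, ∑ j, m j * inner ℝ (P j (R g)) (P j u) = inner ℝ g u) (g u : F) :
    (inner ℝ g u) ^ 2 ≤ (∑ j, m j ^ 2 * ‖P j (R g)‖ ^ 2 / ω j) * ∑ j, ω j * ‖P j u‖ ^ 2 := by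
  obtain ⟨a, ha⟩ : ∃ a : ι → ℝ, a = fun j => |m j| * ‖P j (R g)‖ / √(ω j) := ⟨_, rfl⟩
  obtain ⟨b, hb⟩ : ∃ b : ι → ℝ, b = fun j => √(ω j) * ‖P j u‖ := ⟨_, rfl⟩
  have h1 : |inner ℝ g u| ≤ ∑ j, a j * b j := by
    rw [← hR g u]
    refine (Finset.abs_sum_le_sum_abs _ _).trans (Finset.sum_le_sum fun j _ => ?_)
    have h2 : 0 < √(ω j) := Real.sqrt_pos.2 (hω j)
    have h3 : a j * b j = |m j| * (‖P j (R g)‖ * ‖P j u‖) := by
      rw [ha, hb]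
      field_simp
    rw [h3, abs_mul]
    exact mul_le_mul_of_nonneg_left (abs_real_inner_le_norm _ _) (abs_nonneg _)
  have h2 : (inner ℝ g u) ^ 2 ≤ (∑ j, a j * b j) ^ 2 := by
    rw [← sq_abs]
    exact pow_le_pow_left₀ (abs_nonneg _) h1 2
  refine h2.trans ((Finset.sum_mul_sq_le_sq_mul_sq _ _ _).trans (le_of_eq ?_))
  congr 1
  · refine Finset.sum_congr rfl fun j _ => ?_
    rw [ha]
    show (|m j| * ‖P j (R g)‖ / √(ω j)) ^ 2 = _
    rw [div_pow, Real.sq_sqrt (hω j).le, mul_pow, sq_abs]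
  · refine Finset.sum_congr rfl fun j _ => ?_
    rw [hb]
    show (√(ω j) * ‖P j u‖) ^ 2 = _
    rw [mul_pow, Real.sq_sqrt (hω j).le]

end Pool.Agent.Lib.MP_8d00da_gt.h42r
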