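import Mathlib
import Pool.Agent.Lib.MP_8d00da_gt.h42r.AR1
import Pool.Agent.Lib.MP_8d00da_gt.h42s.BL

namespace Pool.Agent.Lib.MP_8d00da_gt.h25
end Pool.Agent.Lib.MP_8d00da_gt.h25
namespace Pool.Agent.Lib.MP_8d00da_gt.h42
end Pool.Agent.Lib.MP_8d00da_gt.h42
namespace Pool.Agent.Lib.MP_8d00da_gt.h42o
end Pool.Agent.Lib.MP_8d00da_gt.h42o
namespace Pool.Agent.Lib.MP_8d00da_gt.h97r
end Pool.Agent.Lib.MP_8d00da_gt.h97r


/-!
# The ridge test function: measurability, integrability and the value of the right side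
-/

namespace Pool.Agent.Lib.MP_8d00da_gt.h42r

open MeasureTheory Set Filter
open Pool.Agent.Lib.MP_8d00da_gt.h25 Pool.Agent.Lib.MP_8d00da_gt.h42
open Pool.Agent.Lib.MP_8d00da_gt.h42s Pool.Agent.Lib.MP_8d00da_gt.h42o
open Pool.Agent.Lib.MP_8d00da_gt.h97r
open scoped Topology NNReal ENNReal

set_option linter.unusedSectionVars false

variable {F : Type*} [NormedAddCommGroup F] [InnerProductSpace ℝ F]
    [FiniteDimensional ℝ F] [MeasurableSpace F] [BorelSpace F]

variable {G : Type*} [NormedAddCommGroup G] [InnerProductSpace ℝ G]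
    [FiniteDimensional ℝ G] [MeasurableSpace G] [BorelSpace G]

variable {ι : Type*} [Fintype ι]

/-- the gradient -/
noncomputable def gdt (f : F → ℝ) (x : F) : F :=
  (InnerProductSpace.toDual ℝ F).symm (fderiv ℝ f x)

lemma gdt_meas (f : F → ℝ) : Measurable (gdt f) := by
  have h1 : Continuous (InnerProductSpace.toDual ℝ F).symm :=
    (InnerProductSpace.toDual ℝ F).symm.continuous
  exact h1.measurable.comp (measurable_fderiv ℝ f)

lemma gdt_norm {f : F → ℝ} {L : ℝ≥0} (hf : LipschitzWith L f) (x : F) : ‖gdt f x‖ ≤ L := by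
  unfold gdt
  rw [LinearIsometryEquiv.norm_map]
  exact norm_fderiv_le_of_lipschitz ℝ hf

lemma gdt_inner (f : F → ℝ) (x u : F) : inner ℝ (gdt f x) u = fderiv ℝ f x u := by
  unfold gdt
  exact InnerProductSpace.toDual_symm_apply

/-- the test function -/
noncomputable def qrd (P : ι → F →L[ℝ] G) (ω : ι → F → ℝ) (m : ι → ℝ) (R : F →L[ℝ] F)
    (f : F → ℝ) (x y : F) : ℝ :=
  ∑ j, m j ^ 2 * ‖P j (R (gdt f x))‖ ^ 2 / ω j y

lemma qrd_nonneg (P : ι → F →L[ℝ] G) {ω : ι → F → ℝ} (hω : ∀ j x, 0 ≤ ω j x) (m : ι → ℝ)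
    (R : F →L[ℝ] F) (f : F → ℝ) (x y : F) : 0 ≤ qrd P ω m R f x y := by
  unfold qrd
  apply Finset.sum_nonneg
  intro j _
  exact div_nonneg (by positivity) (hω j y)

lemma nrm_meas (P : ι → F →L[ℝ] G) (R : F →L[ℝ] F) (f : F → ℝ) (j : ι) :
    Measurable (fun x => ‖P j (R (gdt f x))‖ ^ 2) := by
  have h1 : Continuous (fun v : F => ‖P j (R v)‖ ^ 2) := by fun_prop
  exact h1.measurable.comp (gdt_meas f)

lemma qrd_meas (P : ι → F →L[ℝ] G) {ω : ι → F → ℝ} (hω : ∀ j, Measurable (ω j)) (m : ι → ℝ)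
    (R : F →L[ℝ] F) (f : F → ℝ) : Measurable (Function.uncurry (qrd P ω m R f)) := by
  have h1 : (Function.uncurry (qrd P ω m R f)) = fun p : F × F =>
      ∑ j, m j ^ 2 * ‖P j (R (gdt f p.1))‖ ^ 2 / ω j p.2 := by
    funext p
    rfl
  rw [h1]
  apply Finset.measurable_sum
  intro j _
  apply Measurable.div
  · exact ((nrm_meas P R f j).comp measurable_fst).const_mul _
  · exact (hω j).comp measurable_snd

/-- `(∇f · u)² ≤ q ℓ` -/
lemma qrd_dom (P : ι → F →L[ℝ] G) {ω : ι → F → ℝ} {m : ι → ℝ} {R : F →L[ℝ] F}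
    (hR : ∀ g u : F, ∑ j, m j * inner ℝ (P j (R g)) (P j u) = inner ℝ g u) (f : F → ℝ) (x y : F)
    (hω : ∀ j, 0 < ω j y) (u : F) :
    (fderiv ℝ f x u) ^ 2 ≤ qrd P ω m R f x y * ∑ j, ω j y * ‖P j u‖ ^ 2 := by
  have h1 := dual_cs P (m := m) (ω := fun j => ω j y) hω hR (gdt f x) u
  rw [gdt_inner] at h1
  exact h1

lemma nrm_int (P : ι → F →L[ℝ] G) (R : F →L[ℝ] F) {f : F → ℝ} (hf : BL f) {w : F → ℝ}
    (hw : Integrable w) (j : ι) : Integrable (fun x => w x * ‖P j (R (gdt f x))‖ ^ 2) := by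
  obtain ⟨⟨Lf, hLf⟩, -⟩ := hf
  refine hw.mul_bdd (c := (‖P j‖ * (‖R‖ * Lf)) ^ 2) (nrm_meas P R f j).aestronglyMeasurable ?_
  filter_upwards with x
  rw [norm_pow, norm_norm]
  apply pow_le_pow_left₀ (norm_nonneg _)
  refine ((P j).le_opNorm _).trans (mul_le_mul_of_nonneg_left ?_ (norm_nonneg _))
  refine (R.le_opNorm _).trans (mul_le_mul_of_nonneg_left ?_ (norm_nonneg _))
  exact gdt_norm hLf x

/-- integrability and the value of the right side -/
lemma qrd_int (P : ι → F →L[ℝ] G) {ω : ι → F → ℝ} {m : ι → ℝ} {R : F →L[ℝ] F}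
    (hR : ∀ g u : F, ∑ j, m j * inner ℝ (P j (R g)) (P j u) = inner ℝ g u) {f : F → ℝ}
    (hf : BL f) {w w' : F → ℝ} (hw : Integrable w) (hai : ∀ j, Integrable fun x => w' x / ω j x)
    {A : ℝ} (ham : ∀ j, (∫ x, w' x / ω j x) * m j = A) :
    Integrable (fun p : F × F => w p.1 * (w' p.2 * qrd P ω m R f p.1 p.2)) ∧
      ∫ p : F × F, w p.1 * (w' p.2 * qrd P ω m R f p.1 p.2) =
        A * ∫ x, fderiv ℝ f x (R (gdt f x)) * w x := by
  have e : ∀ p : F × F, w p.1 * (w' p.2 * qrd P ω m R f p.1 p.2) =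
      ∑ j, m j ^ 2 * ((w p.1 * ‖P j (R (gdt f p.1))‖ ^ 2) * (w' p.2 / ω j p.2)) := by
    intro p
    unfold qrd
    rw [Finset.mul_sum, Finset.mul_sum]
    apply Finset.sum_congr rfl
    intro j _
    ring
  have hint : ∀ j, Integrable (fun p : F × F =>
      m j ^ 2 * ((w p.1 * ‖P j (R (gdt f p.1))‖ ^ 2) * (w' p.2 / ω j p.2)))
      (volume.prod volume) := by
    intro j
    exact ((nrm_int P R hf hw j).mul_prod (hai j)).const_mul _
  simp_rw [e]
  constructor
  · exact integrable_finsetSum _ (fun j _ => hint j)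
  · have h1 : ∫ p : F × F, ∑ j, m j ^ 2 * ((w p.1 * ‖P j (R (gdt f p.1))‖ ^ 2) *
        (w' p.2 / ω j p.2)) ∂(volume.prod volume) =
        ∑ j, A * (m j * ∫ x, w x * ‖P j (R (gdt f x))‖ ^ 2) := by
      rw [integral_finsetSum _ (fun j _ => hint j)]
      apply Finset.sum_congr rfl
      intro j _
      rw [integral_const_mul, integral_prod_mul (fun x => w x * ‖P j (R (gdt f x))‖ ^ 2)
        (fun y => w' y / ω j y), ← ham j]
      ring
    have h2 : ∫ x, fderiv ℝ f x (R (gdt f x)) * w x =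
        ∑ j, m j * ∫ x, w x * ‖P j (R (gdt f x))‖ ^ 2 := by
      have e2 : ∀ x, fderiv ℝ f x (R (gdt f x)) * w x =
          ∑ j, m j * (w x * ‖P j (R (gdt f x))‖ ^ 2) := by
        intro x
        rw [← gdt_inner, ← hR, Finset.sum_mul]
        apply Finset.sum_congr rfl
        intro j _
        rw [real_inner_self_eq_norm_sq]
        ring
      simp_rw [e2]
      rw [integral_finsetSum _ (fun j _ => (nrm_int P R hf hw j).const_mul _)]
      apply Finset.sum_congr rfl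
      intro j _
      rw [integral_const_mul]
    rw [h2, Finset.mul_sum]
    exact h1

end Pool.Agent.Lib.MP_8d00da_gt.h42r
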