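import Mathlib
import Pool.Agent.Lib.MP_8d00da_gt.h42r.ADefs

namespace Pool.Agent.Lib.MP_8d00da_gt.h25
end Pool.Agent.Lib.MP_8d00da_gt.h25
namespace Pool.Agent.Lib.MP_8d00da_gt.h42s
end Pool.Agent.Lib.MP_8d00da_gt.h42s
namespace Pool.Agent.Lib.MP_8d00da_gt.h42o
end Pool.Agent.Lib.MP_8d00da_gt.h42o
namespace Pool.Agent.Lib.MP_8d00da_gt.h97r
end Pool.Agent.Lib.MP_8d00da_gt.h97r


/-!
# Consequences of the A2 condition
-/

namespace Pool.Agent.Lib.MP_8d00da_gt.h42r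

open MeasureTheory Set Filter
open Pool.Agent.Lib.MP_8d00da_gt.h25 Pool.Agent.Lib.MP_8d00da_gt.h42
open Pool.Agent.Lib.MP_8d00da_gt.h42s Pool.Agent.Lib.MP_8d00da_gt.h42o
open Pool.Agent.Lib.MP_8d00da_gt.h97r
open scoped Topology NNReal ENNReal

set_option linter.unusedSectionVars false

variable {F : Type*} [NormedAddCommGroup F] [InnerProductSpace ℝ F]
    [FiniteDimensional ℝ F] [MeasurableSpace F] [BorelSpace F]

variable {G : Type*} [NormedAddCommGroup G] [InnerProductSpace ℝ G]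
    [FiniteDimensional ℝ G] [MeasurableSpace G] [BorelSpace G]

variable {ι : Type*} [Fintype ι]

private theorem ab1_ne {w f : F → ℝ} (hfm : Measurable f) (hwi : Integrable w) (hw0 : ∀ x, 0 ≤ w x)
    (hpos : 0 < ∫ x, w x) (hf : ∀ᵐ x, 0 < w x → 0 < f x) :
    ∫⁻ x, ENNReal.ofReal (f x) ≠ 0 := by
  intro h0
  rw [lintegral_eq_zero_iff hfm.ennreal_ofReal] at h0
  have h1 : ∀ᵐ x, w x = 0 := by
    filter_upwards [h0, hf] with x h2 h3
    have h2' : ENNReal.ofReal (f x) = 0 := h2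
    rw [ENNReal.ofReal_eq_zero] at h2'
    by_contra hne
    exact absurd (h3 (lt_of_le_of_ne (hw0 x) (Ne.symm hne))) (not_lt.2 h2')
  have h2 : ∫ x, w x = 0 := by
    rw [integral_congr_ae h1, integral_zero]
  exact hpos.ne' h2

private theorem ab1_int {f : F → ℝ} (hfm : Measurable f) (hf0 : ∀ x, 0 ≤ f x)
    (h : ∫⁻ x, ENNReal.ofReal (f x) ≠ ⊤) : Integrable f ∧
      ∫ x, f x = (∫⁻ x, ENNReal.ofReal (f x)).toReal := by
  refine ⟨⟨hfm.aestronglyMeasurable, ?_⟩, ?_⟩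
  · rw [hasFiniteIntegral_iff_ofReal (Eventually.of_forall hf0)]
    exact lt_top_iff_ne_top.2 h
  · exact integral_eq_lintegral_of_nonneg_ae (Eventually.of_forall hf0) hfm.aestronglyMeasurable

/-- If `w ≥ 0` is integrable with positive integral, `ω > 0` a.e. where `w > 0`, and `A2 C w ω`, then
`w ω` and `w / ω` are integrable, have positive integrals and
`(∫ w ω) (∫ w / ω) ≤ C (∫ w)²`. (In `ℝ≥0∞` the product of the two integrals is finite and both are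
nonzero, so both are finite.) -/
theorem A2.real {C : ℝ} (hC : 0 ≤ C) {w ω : F → ℝ} (hA : A2 C w ω) (hwm : Measurable w)
    (hωm : Measurable ω) (hw0 : ∀ x, 0 ≤ w x) (hω0 : ∀ x, 0 ≤ ω x) (hwi : Integrable w)
    (hpos : 0 < ∫ x, w x) (hω : ∀ᵐ x, 0 < w x → 0 < ω x) :
    (Integrable fun x => w x * ω x) ∧ (Integrable fun x => w x / ω x) ∧
      0 < (∫ x, w x * ω x) ∧ 0 < (∫ x, w x / ω x) ∧
      (∫ x, w x * ω x) * (∫ x, w x / ω x) ≤ C * (∫ x, w x) ^ 2 := by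
  have m1 : Measurable fun x => w x * ω x := hwm.mul hωm
  have m2 : Measurable fun x => w x / ω x := hwm.div hωm
  have n1 := ab1_ne m1 hwi hw0 hpos (by
    filter_upwards [hω] with x h1 h2
    exact mul_pos h2 (h1 h2))
  have n2 := ab1_ne m2 hwi hw0 hpos (by
    filter_upwards [hω] with x h1 h2
    exact div_pos h2 (h1 h2))
  have hJ : ∫⁻ x, ENNReal.ofReal (w x) = ENNReal.ofReal (∫ x, w x) :=
    (ofReal_integral_eq_lintegral_ofReal hwi (Eventually.of_forall hw0)).symm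
  have hA' := hA
  unfold A2 at hA'
  rw [hJ] at hA'
  have htop : ENNReal.ofReal C * (ENNReal.ofReal (∫ x, w x)) ^ 2 ≠ ⊤ :=
    ENNReal.mul_ne_top ENNReal.ofReal_ne_top (ENNReal.pow_ne_top ENNReal.ofReal_ne_top)
  have hprod : (∫⁻ x, ENNReal.ofReal (w x * ω x)) * (∫⁻ x, ENNReal.ofReal (w x / ω x)) ≠ ⊤ :=
    ne_top_of_le_ne_top htop hA'
  have t1 : (∫⁻ x, ENNReal.ofReal (w x * ω x)) ≠ ⊤ := by
    intro h
    rw [h, ENNReal.top_mul n2] at hprod
    exact hprod rfl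
  have t2 : (∫⁻ x, ENNReal.ofReal (w x / ω x)) ≠ ⊤ := by
    intro h
    rw [h, ENNReal.mul_top n1] at hprod
    exact hprod rfl
  obtain ⟨i1, e1⟩ := ab1_int m1 (fun x => mul_nonneg (hw0 x) (hω0 x)) t1
  obtain ⟨i2, e2⟩ := ab1_int m2 (fun x => div_nonneg (hw0 x) (hω0 x)) t2
  refine ⟨i1, i2, ?_, ?_, ?_⟩
  · rw [e1]
    exact ENNReal.toReal_pos n1 t1
  · rw [e2]
    exact ENNReal.toReal_pos n2 t2
  · rw [e1, e2, ← ENNReal.toReal_mul]
    refine (ENNReal.toReal_mono htop hA').trans (le_of_eq ?_)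
    rw [ENNReal.toReal_mul, ENNReal.toReal_pow, ENNReal.toReal_ofReal hC, ENNReal.toReal_ofReal hpos.le]

end Pool.Agent.Lib.MP_8d00da_gt.h42r
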