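import Mathlib
import Pool.Agent.Lib.MP_8d00da_gt.h42.PL
import Pool.Agent.Lib.MP_8d00da_gt.h42.Supergrad

namespace Pool.Agent.Lib.MP_8d00da_gt.h25
end Pool.Agent.Lib.MP_8d00da_gt.h25
namespace Pool.Agent.Lib.MP_8d00da_gt.h42s
end Pool.Agent.Lib.MP_8d00da_gt.h42s
namespace Pool.Agent.Lib.MP_8d00da_gt.h42o
end Pool.Agent.Lib.MP_8d00da_gt.h42o
namespace Pool.Agent.Lib.MP_8d00da_gt.h97r
end Pool.Agent.Lib.MP_8d00da_gt.h97r


/-!
# Marginals of log-concave functions
-/

namespace Pool.Agent.Lib.MP_8d00da_gt.h42r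

open MeasureTheory Set Filter
open Pool.Agent.Lib.MP_8d00da_gt.h25 Pool.Agent.Lib.MP_8d00da_gt.h42
open Pool.Agent.Lib.MP_8d00da_gt.h42s Pool.Agent.Lib.MP_8d00da_gt.h42o
open Pool.Agent.Lib.MP_8d00da_gt.h97r
open scoped Topology NNReal ENNReal

set_option linter.unusedSectionVars false

variable {F : Type*} [NormedAddCommGroup F] [InnerProductSpace ℝ F]
    [FiniteDimensional ℝ F] [MeasurableSpace F] [BorelSpace F]

variable {G : Type*} [NormedAddCommGroup G] [InnerProductSpace ℝ G]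
    [FiniteDimensional ℝ G] [MeasurableSpace G] [BorelSpace G]

variable {ι : Type*} [Fintype ι]

/-- Log-concavity for functions with values in `[0, ∞]` on the line. -/
def LC1 (ρ : ℝ → ℝ≥0∞) : Prop :=
  ∀ a : ℝ, 0 < a → a < 1 → ∀ s t : ℝ, ρ s ^ (1 - a) * ρ t ^ a ≤ ρ ((1 - a) * s + a * t)

/-- The marginal of a log-concave function in a unit direction (Prekopa). Proof: take a linear
isometry `F ≃ₗᵢ EuclideanSpace ℝ (Fin (n+1))` mapping `e` to the first coordinate vector (extend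
`e` to an orthonormal basis), identify `Fin (n+1) → ℝ` with `ℝ × (Fin n → ℝ)`
(`MeasurableEquiv.piFinSuccAbove`, see `h42.pl_pi`), `ρ t = ∫⁻ y, h (t, y)` and
Prekopa-Leindler (`h42.pl_pi n`) in `y`. (`(ofReal a)^(1-c) = ofReal (a^(1-c))`.) -/
theorem exists_marginal {h : F → ℝ} (h0 : ∀ x, 0 ≤ h x) (hm : Measurable h) (hlc : LogConc h)
    {e : F} (he : ‖e‖ = 1) : ∃ ρ : ℝ → ℝ≥0∞, Measurable ρ ∧ LC1 ρ ∧
      ∀ φ : ℝ → ℝ≥0∞, Measurable φ →
        ∫⁻ x, φ (inner ℝ e x) * ENNReal.ofReal (h x) = ∫⁻ t, φ t * ρ t := by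
  classical
  have hpos : 0 < Module.finrank ℝ F := by
    rw [Module.finrank_pos_iff_exists_ne_zero]
    exact ⟨e, fun h => by simp [h] at he⟩
  obtain ⟨m, hm1⟩ : ∃ m, Module.finrank ℝ F = m + 1 := ⟨_, (Nat.succ_pred_eq_of_pos hpos).symm⟩
  obtain ⟨b, hb⟩ := Orthonormal.exists_orthonormalBasis_extension_of_card_eq (𝕜 := ℝ) (E := F)
    (ι := Fin (m + 1)) (by simpa using hm1) (v := fun _ => e) (s := {0}) (by
      constructor
      · intro i; simpa using he
      · intro i j hij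
        exact absurd (Subtype.ext ((mem_singleton_iff.1 i.2).trans (mem_singleton_iff.1 j.2).symm))
          hij)
  have hb0 : b 0 = e := hb 0 (mem_singleton _)
  -- the parametrisation
  set T : ℝ × (Fin m → ℝ) → F := fun z =>
    b.repr.symm (WithLp.toLp 2 ((MeasurableEquiv.piFinSuccAbove (fun _ => ℝ) 0).symm z)) with hT
  have hTm : MeasurePreserving T ((volume : Measure ℝ).prod (volume : Measure (Fin m → ℝ)))
      volume :=
    (b.measurePreserving_repr_symm.comp (PiLp.volume_preserving_toLp _)).comp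
      (volume_preserving_piFinSuccAbove (fun _ => ℝ) 0).symm
  have hTe : ∀ t y, inner ℝ e (T (t, y)) = t := by
    intro t y
    rw [← hb0, ← OrthonormalBasis.repr_apply_apply, hT]
    simp [MeasurableEquiv.piFinSuccAbove]
  have hTlin : ∀ (a : ℝ) (z w : ℝ × (Fin m → ℝ)),
      T ((1 - a) • z + a • w) = (1 - a) • T z + a • T w := by
    intro a z w
    have e1 : ((MeasurableEquiv.piFinSuccAbove (fun _ => ℝ) 0).symm ((1 - a) • z + a • w) :
        Fin (m + 1) → ℝ) = (1 - a) • ((MeasurableEquiv.piFinSuccAbove (fun _ => ℝ) 0).symm z) +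
        a • ((MeasurableEquiv.piFinSuccAbove (fun _ => ℝ) 0).symm w) := by
      ext i
      refine Fin.cases ?_ (fun j => ?_) i
      · simp [MeasurableEquiv.piFinSuccAbove]
      · simp [MeasurableEquiv.piFinSuccAbove]
    simp only [hT]
    rw [e1, WithLp.toLp_add, WithLp.toLp_smul, WithLp.toLp_smul, map_add, map_smul, map_smul]
  have hmeas : Measurable fun z : ℝ × (Fin m → ℝ) => ENNReal.ofReal (h (T z)) :=
    (hm.comp hTm.measurable).ennreal_ofReal
  refine ⟨fun t => ∫⁻ y, ENNReal.ofReal (h (T (t, y))), hmeas.lintegral_prod_right', ?_, ?_⟩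
  · intro a h0a h1a s t
    refine pl_pi m a h0a h1a (fun y => ENNReal.ofReal (h (T (s, y))))
      (fun y => ENNReal.ofReal (h (T (t, y))))
      (fun y => ENNReal.ofReal (h (T ((1 - a) * s + a * t, y))))
      (hmeas.comp measurable_prodMk_left) (hmeas.comp measurable_prodMk_left)
      (hmeas.comp measurable_prodMk_left) fun x y => ?_
    have h1a' : 0 < 1 - a := by linarith
    rw [ENNReal.ofReal_rpow_of_nonneg (h0 _) h1a'.le, ENNReal.ofReal_rpow_of_nonneg (h0 _) h0a.le,
      ← ENNReal.ofReal_mul (Real.rpow_nonneg (h0 _) _)]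
    refine ENNReal.ofReal_le_ofReal ((hlc a h0a h1a _ _).trans (le_of_eq ?_))
    rw [← hTlin]
    rfl
  · intro φ hφ
    rw [← hTm.lintegral_comp (by fun_prop), lintegral_prod _ (by fun_prop)]
    refine lintegral_congr fun t => ?_
    simp only [hTe]
    exact lintegral_const_mul (φ t) (f := fun y => ENNReal.ofReal (h (T (t, y))))
      (hmeas.comp measurable_prodMk_left)

end Pool.Agent.Lib.MP_8d00da_gt.h42r
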