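import Mathlib
import Pool.Agent.Lib.MP_8d00da_gt.h42r.AM1

namespace Pool.Agent.Lib.MP_8d00da_gt.h25
end Pool.Agent.Lib.MP_8d00da_gt.h25
namespace Pool.Agent.Lib.MP_8d00da_gt.h42s
end Pool.Agent.Lib.MP_8d00da_gt.h42s
namespace Pool.Agent.Lib.MP_8d00da_gt.h42o
end Pool.Agent.Lib.MP_8d00da_gt.h42o
namespace Pool.Agent.Lib.MP_8d00da_gt.h97r
end Pool.Agent.Lib.MP_8d00da_gt.h97r


/-!
# One-dimensional log-concave densities: half line
-/

namespace Pool.Agent.Lib.MP_8d00da_gt.h42r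

open MeasureTheory Set Filter
open Pool.Agent.Lib.MP_8d00da_gt.h25 Pool.Agent.Lib.MP_8d00da_gt.h42
open Pool.Agent.Lib.MP_8d00da_gt.h42s Pool.Agent.Lib.MP_8d00da_gt.h42o
open Pool.Agent.Lib.MP_8d00da_gt.h97r
open scoped Topology NNReal ENNReal

set_option linter.unusedSectionVars false

variable {F : Type*} [NormedAddCommGroup F] [InnerProductSpace ℝ F]
    [FiniteDimensional ℝ F] [MeasurableSpace F] [BorelSpace F]

variable {G : Type*} [NormedAddCommGroup G] [InnerProductSpace ℝ G]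
    [FiniteDimensional ℝ G] [MeasurableSpace G] [BorelSpace G]

variable {ι : Type*} [Fintype ι]

private lemma am2a_sub {ρ : ℝ → ℝ≥0∞} (hlc : LC1 ρ) (y0 : ℝ) {s t : ℝ} (hs : 0 < s) (ht : 0 < t) :
    ρ y0 * ρ (y0 + (s + t)) ≤ ρ (y0 + s) * ρ (y0 + t) := by
  have hst : 0 < s + t := by linarith
  set a := t / (s + t) with ha
  have ha0 : 0 < a := div_pos ht hst
  have ha1 : a < 1 := by
    rw [ha, div_lt_one hst]
    linarith
  have h1 := hlc a ha0 ha1 y0 (y0 + (s + t))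
  have h2 := hlc (1 - a) (by linarith) (by linarith) y0 (y0 + (s + t))
  have e1 : (1 - a) * y0 + a * (y0 + (s + t)) = y0 + t := by
    rw [ha]
    field_simp
    ring
  have e2 : (1 - (1 - a)) * y0 + (1 - a) * (y0 + (s + t)) = y0 + s := by
    rw [ha]
    field_simp
    ring
  rw [e1] at h1
  rw [e2, sub_sub_cancel] at h2
  calc ρ y0 * ρ (y0 + (s + t))
      = (ρ y0 ^ a * ρ y0 ^ (1 - a)) * (ρ (y0 + (s + t)) ^ (1 - a) * ρ (y0 + (s + t)) ^ a) := by
        rw [← ENNReal.rpow_add_of_nonneg _ _ ha0.le (by linarith),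
          ← ENNReal.rpow_add_of_nonneg _ _ (by linarith) ha0.le, add_sub_cancel,
          sub_add_cancel, ENNReal.rpow_one, ENNReal.rpow_one]
    _ = (ρ y0 ^ a * ρ (y0 + (s + t)) ^ (1 - a)) * (ρ y0 ^ (1 - a) * ρ (y0 + (s + t)) ^ a) := by
        ring
    _ ≤ ρ (y0 + s) * ρ (y0 + t) := mul_le_mul' h2 h1

/-- Half line. For `ρ` log-concave (`LC1`) with `∫⁻ ρ < ∞`, `ρ y0 < ∞`:
`ρ y0 · ∫⁻_{s > 0} s ρ (y0 + s) ≤ (∫⁻_{s > 0} ρ (y0 + s))²`.
(If `ρ y0 = ∞` then, by `LC1` and `∫⁻ ρ < ∞`, `ρ t = 0` for every `t ≠ y0`, both sides are `0`.)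
Proof: if `ρ y0 = 0` trivial; normalise `ρ y0 = 1` and let `1/λ = ∫⁻_{s>0} ρ (y0+s) ∈ (0, ∞)`
(if it is `0`, trivial). `{s > 0 | ρ (y0 + s) > exp (-λ s)}`: by log-concavity and `ρ y0 = 1`, if
`ρ (y0 + s) < exp (-λ s)` then `ρ (y0 + t) < exp (-λ t)` for all `t ≥ s`
(`ρ(y0)^{1-s/t} ρ(y0+t)^{s/t} ≤ ρ(y0+s)`). So there is `s*` with `ρ (y0+s) ≥ exp (-λ s)` for
`s < s*`, `≤` for `s > s*`; `∫ (s - s*) (ρ (y0+s) - exp (-λ s)) ds ≤ 0` and
`∫ (ρ (y0+s) - exp(-λ s)) = 0`, so `∫ s ρ (y0+s) ≤ ∫ s exp (-λ s) = 1/λ²`. (`s* ∈ [0, ∞)`: if the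
set where `ρ (y0+s) < exp(-λ s)` is empty, equality of the integrals gives equality a.e.) -/
theorem half_moment {ρ : ℝ → ℝ≥0∞} (hm : Measurable ρ) (hlc : LC1 ρ) (hfin : ∫⁻ t, ρ t < ⊤)
    (y0 : ℝ) : ρ y0 * ∫⁻ s in Ioi (0 : ℝ), ENNReal.ofReal s * ρ (y0 + s) ≤
      (∫⁻ s in Ioi (0 : ℝ), ρ (y0 + s)) ^ 2 := by
  have hf : Measurable fun s => ρ (y0 + s) := hm.comp (measurable_const.add measurable_id)
  -- the kernel
  let g : ℝ → ℝ → ℝ≥0∞ := fun s r => (Ioo 0 r).indicator (fun _ => (1 : ℝ≥0∞)) s * ρ (y0 + r)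
  have hg : Measurable (Function.uncurry g) := by
    have h1 : Measurable fun z : ℝ × ℝ => {z : ℝ × ℝ | 0 < z.1 ∧ z.1 < z.2}.indicator
        (fun _ => (1 : ℝ≥0∞)) z := by
      refine measurable_const.indicator ?_
      exact (measurableSet_lt measurable_const measurable_fst).inter
        (measurableSet_lt measurable_fst measurable_snd)
    exact h1.mul (hf.comp measurable_snd)
  have h1 : ∫⁻ r in Ioi (0 : ℝ), ENNReal.ofReal r * ρ (y0 + r) = ∫⁻ r, ∫⁻ s, g s r := by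
    rw [← lintegral_indicator measurableSet_Ioi]
    refine lintegral_congr fun r => ?_
    have e : ∫⁻ s, g s r = ENNReal.ofReal r * ρ (y0 + r) := by
      change ∫⁻ s, (Ioo 0 r).indicator (fun _ => (1 : ℝ≥0∞)) s * ρ (y0 + r) = _
      rw [lintegral_mul_const _ (measurable_const.indicator measurableSet_Ioo),
        lintegral_indicator_const measurableSet_Ioo, Real.volume_Ioo, sub_zero, one_mul]
    rw [e]
    by_cases hr : r ∈ Ioi (0 : ℝ)
    · rw [indicator_of_mem hr]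
    · rw [indicator_of_notMem hr, ENNReal.ofReal_of_nonpos (not_lt.1 hr), zero_mul]
  rw [h1, ← lintegral_lintegral_swap hg.aemeasurable]
  have h2 : ∀ s, ρ y0 * ∫⁻ r, g s r ≤
      (Ioi (0 : ℝ)).indicator (fun s => ρ (y0 + s)) s * ∫⁻ t in Ioi (0 : ℝ), ρ (y0 + t) := by
    intro s
    rw [← lintegral_add_left_eq_self (g s) s, ← lintegral_indicator measurableSet_Ioi]
    by_cases hs : s ∈ Ioi (0 : ℝ)
    · rw [indicator_of_mem hs, ← lintegral_const_mul _ ?_, ← lintegral_const_mul _ ?_]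
      · refine lintegral_mono fun t => ?_
        change ρ y0 * ((Ioo 0 (s + t)).indicator (fun _ => (1 : ℝ≥0∞)) s * ρ (y0 + (s + t))) ≤ _
        by_cases ht : t ∈ Ioi (0 : ℝ)
        · rw [indicator_of_mem ht, indicator_of_mem
            (show s ∈ Ioo 0 (s + t) from ⟨hs, by linarith [mem_Ioi.1 ht]⟩), one_mul]
          exact am2a_sub hlc y0 hs ht
        · rw [indicator_of_notMem (fun h : s ∈ Ioo 0 (s + t) => ht (by
            have := h.2
            exact mem_Ioi.2 (by linarith))), zero_mul, mul_zero]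
          exact bot_le
      · exact hf.indicator measurableSet_Ioi
      · exact (hg.comp (measurable_const.prodMk (measurable_const.add measurable_id)))
    · rw [indicator_of_notMem hs, zero_mul]
      have : ∀ t, g s (s + t) = 0 := by
        intro t
        change (Ioo 0 (s + t)).indicator (fun _ => (1 : ℝ≥0∞)) s * ρ (y0 + (s + t)) = 0
        rw [indicator_of_notMem (fun h : s ∈ Ioo 0 (s + t) => hs h.1), zero_mul]
      simp only [this, lintegral_zero, mul_zero, le_refl]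
  calc ρ y0 * ∫⁻ s, ∫⁻ r, g s r = ∫⁻ s, ρ y0 * ∫⁻ r, g s r := by
        rw [lintegral_const_mul]
        exact hg.lintegral_prod_right'
    _ ≤ ∫⁻ s, (Ioi (0 : ℝ)).indicator (fun s => ρ (y0 + s)) s *
        ∫⁻ t in Ioi (0 : ℝ), ρ (y0 + t) := lintegral_mono h2
    _ = (∫⁻ s in Ioi (0 : ℝ), ρ (y0 + s)) ^ 2 := by
        rw [lintegral_mul_const _ (hf.indicator measurableSet_Ioi),
          lintegral_indicator measurableSet_Ioi, sq]

end Pool.Agent.Lib.MP_8d00da_gt.h42r
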