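import Mathlib
import Pool.Agent.Lib.MP_8d00da_gt.h42r.AM2a

namespace Pool.Agent.Lib.MP_8d00da_gt.h25
end Pool.Agent.Lib.MP_8d00da_gt.h25
namespace Pool.Agent.Lib.MP_8d00da_gt.h42s
end Pool.Agent.Lib.MP_8d00da_gt.h42s
namespace Pool.Agent.Lib.MP_8d00da_gt.h42o
end Pool.Agent.Lib.MP_8d00da_gt.h42o
namespace Pool.Agent.Lib.MP_8d00da_gt.h97r
end Pool.Agent.Lib.MP_8d00da_gt.h97r


/-!
# One-dimensional log-concave densities: value times first absolute moment
-/

namespace Pool.Agent.Lib.MP_8d00da_gt.h42r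

open MeasureTheory Set Filter
open Pool.Agent.Lib.MP_8d00da_gt.h25 Pool.Agent.Lib.MP_8d00da_gt.h42
open Pool.Agent.Lib.MP_8d00da_gt.h42s Pool.Agent.Lib.MP_8d00da_gt.h42o
open Pool.Agent.Lib.MP_8d00da_gt.h97r
open scoped Topology NNReal ENNReal

set_option linter.unusedSectionVars false

variable {F : Type*} [NormedAddCommGroup F] [InnerProductSpace ℝ F]
    [FiniteDimensional ℝ F] [MeasurableSpace F] [BorelSpace F]

variable {G : Type*} [NormedAddCommGroup G] [InnerProductSpace ℝ G]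
    [FiniteDimensional ℝ G] [MeasurableSpace G] [BorelSpace G]

variable {ι : Type*} [Fintype ι]

/-- `ρ y0 · ∫ |y - y0| ρ(y) dy ≤ (∫ ρ)²`: `half_moment` for `ρ` and for `y ↦ ρ (2 y0 - y)`
(reflection), and `a² + b² ≤ (a + b)²`. -/
theorem val_moment {ρ : ℝ → ℝ≥0∞} (hm : Measurable ρ) (hlc : LC1 ρ) (hfin : ∫⁻ t, ρ t < ⊤)
    (y0 : ℝ) : ρ y0 * ∫⁻ y, ENNReal.ofReal |y - y0| * ρ y ≤ (∫⁻ y, ρ y) ^ 2 := by
  -- right half line
  have hR := half_moment hm hlc hfin y0
  -- left half line by reflection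
  set σ : ℝ → ℝ≥0∞ := fun y => ρ (2 * y0 - y) with hσ
  have hσm : Measurable σ := by fun_prop
  have hσlc : LC1 σ := by
    intro a h0 h1 s t
    have := hlc a h0 h1 (2 * y0 - s) (2 * y0 - t)
    have e : (1 - a) * (2 * y0 - s) + a * (2 * y0 - t) = 2 * y0 - ((1 - a) * s + a * t) := by ring
    rw [e] at this
    exact this
  have hσi : ∫⁻ t, σ t = ∫⁻ t, ρ t := by
    have := lintegral_sub_left_eq_self (μ := (volume : Measure ℝ)) ρ (2 * y0)
    exact this
  have hL := half_moment hσm hσlc (by rw [hσi]; exact hfin) y0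
  have e0 : σ y0 = ρ y0 := by simp only [hσ]; congr 1; ring
  rw [e0] at hL
  have e1 : ∀ s : ℝ, σ (y0 + s) = ρ (y0 - s) := fun s => by simp only [hσ]; congr 1; ring
  simp only [e1] at hL
  -- change of variables
  have hA : ∀ f : ℝ → ℝ≥0∞, Measurable f →
      ∫⁻ s in Ioi (0 : ℝ), f (y0 + s) = ∫⁻ y in Ioi y0, f y := by
    intro f hf
    rw [← lintegral_indicator measurableSet_Ioi, ← lintegral_indicator measurableSet_Ioi,
      ← lintegral_add_left_eq_self ((Ioi y0).indicator f) y0]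
    refine lintegral_congr fun s => ?_
    by_cases h : 0 < s
    · rw [indicator_of_mem (show s ∈ Ioi (0 : ℝ) from h), indicator_of_mem (by
        show y0 < y0 + s; linarith)]
    · rw [indicator_of_notMem (show s ∉ Ioi (0 : ℝ) from h), indicator_of_notMem (by
        simp only [mem_Ioi]; linarith)]
  have hB : ∀ f : ℝ → ℝ≥0∞, Measurable f →
      ∫⁻ s in Ioi (0 : ℝ), f (y0 - s) = ∫⁻ y in Iio y0, f y := by
    intro f hf
    rw [← lintegral_indicator measurableSet_Ioi, ← lintegral_indicator measurableSet_Iio,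
      ← lintegral_sub_left_eq_self ((Iio y0).indicator f) y0]
    refine lintegral_congr fun s => ?_
    by_cases h : 0 < s
    · rw [indicator_of_mem (show s ∈ Ioi (0 : ℝ) from h), indicator_of_mem (by
        show y0 - s < y0; linarith)]
    · rw [indicator_of_notMem (show s ∉ Ioi (0 : ℝ) from h), indicator_of_notMem (by
        simp only [mem_Iio]; linarith)]
  have hsplit : ∀ f : ℝ → ℝ≥0∞, ∫⁻ y, f y = (∫⁻ y in Iio y0, f y) + ∫⁻ y in Ioi y0, f y := by
    intro f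
    rw [← lintegral_add_compl f (measurableSet_Iio (a := y0)), compl_Iio,
      setLIntegral_congr (Ioi_ae_eq_Ici (a := y0)).symm]
  have hR1 : ∫⁻ s in Ioi (0 : ℝ), ENNReal.ofReal s * ρ (y0 + s) =
      ∫⁻ y in Ioi y0, ENNReal.ofReal |y - y0| * ρ y := by
    rw [← hA (fun y => ENNReal.ofReal |y - y0| * ρ y) (by fun_prop)]
    refine setLIntegral_congr_fun measurableSet_Ioi fun s hs => ?_
    simp only [add_sub_cancel_left]
    rw [abs_of_pos (show (0 : ℝ) < s from hs)]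
  have hL1 : ∫⁻ s in Ioi (0 : ℝ), ENNReal.ofReal s * ρ (y0 - s) =
      ∫⁻ y in Iio y0, ENNReal.ofReal |y - y0| * ρ y := by
    rw [← hB (fun y => ENNReal.ofReal |y - y0| * ρ y) (by fun_prop)]
    refine setLIntegral_congr_fun measurableSet_Ioi fun s hs => ?_
    have : y0 - s - y0 = -s := by ring
    simp only [this, abs_neg]
    rw [abs_of_pos (show (0 : ℝ) < s from hs)]
  rw [hR1, hA ρ hm] at hR
  rw [hL1, hB ρ hm] at hL
  rw [hsplit (fun y => ENNReal.ofReal |y - y0| * ρ y), hsplit ρ, mul_add]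
  calc _ ≤ (∫⁻ y in Iio y0, ρ y) ^ 2 + (∫⁻ y in Ioi y0, ρ y) ^ 2 := add_le_add hL hR
    _ ≤ _ := by
      rw [add_sq]
      calc (∫⁻ y in Iio y0, ρ y) ^ 2 + (∫⁻ y in Ioi y0, ρ y) ^ 2
          ≤ (∫⁻ y in Iio y0, ρ y) ^ 2 + 2 * (∫⁻ y in Iio y0, ρ y) * (∫⁻ y in Ioi y0, ρ y)
            + (∫⁻ y in Ioi y0, ρ y) ^ 2 := by
            gcongr
            exact le_self_add
        _ = _ := rfl

end Pool.Agent.Lib.MP_8d00da_gt.h42r
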