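import Mathlib
import Pool.Agent.Lib.MP_8d00da_gt.h42r.AM2

namespace Pool.Agent.Lib.MP_8d00da_gt.h25
end Pool.Agent.Lib.MP_8d00da_gt.h25
namespace Pool.Agent.Lib.MP_8d00da_gt.h42s
end Pool.Agent.Lib.MP_8d00da_gt.h42s
namespace Pool.Agent.Lib.MP_8d00da_gt.h42o
end Pool.Agent.Lib.MP_8d00da_gt.h42o
namespace Pool.Agent.Lib.MP_8d00da_gt.h97r
end Pool.Agent.Lib.MP_8d00da_gt.h97r


/-!
# One-dimensional A2 inequality for powers
-/

namespace Pool.Agent.Lib.MP_8d00da_gt.h42r

open MeasureTheory Set Filter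
open Pool.Agent.Lib.MP_8d00da_gt.h25 Pool.Agent.Lib.MP_8d00da_gt.h42
open Pool.Agent.Lib.MP_8d00da_gt.h42s Pool.Agent.Lib.MP_8d00da_gt.h42o
open Pool.Agent.Lib.MP_8d00da_gt.h97r
open scoped Topology NNReal ENNReal

set_option linter.unusedSectionVars false

variable {F : Type*} [NormedAddCommGroup F] [InnerProductSpace ℝ F]
    [FiniteDimensional ℝ F] [MeasurableSpace F] [BorelSpace F]

variable {G : Type*} [NormedAddCommGroup G] [InnerProductSpace ℝ G]
    [FiniteDimensional ℝ G] [MeasurableSpace G] [BorelSpace G]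

variable {ι : Type*} [Fintype ι]

/-- The constant of the one-dimensional inequality. -/
noncomputable def cA (α : ℝ) : ℝ := 2 ^ α * (3 - α) / (1 - α)

/-- `∫_0^r t^{-α} dt` as a lower integral. -/
lemma a2o_half {r : ℝ} (hr : 0 < r) {α : ℝ} (hα1 : α < 1) :
    ∫⁻ t in Ioc 0 r, ENNReal.ofReal (t ^ (-α)) = ENNReal.ofReal (r ^ (1 - α) / (1 - α)) := by
  have hi : IntervalIntegrable (fun t : ℝ => t ^ (-α)) volume 0 r :=
    intervalIntegral.intervalIntegrable_rpow' (by linarith)
  have hi' : IntegrableOn (fun t : ℝ => t ^ (-α)) (Ioc 0 r) :=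
    (intervalIntegrable_iff_integrableOn_Ioc_of_le hr.le).1 hi
  rw [← ofReal_integral_eq_lintegral_ofReal hi']
  · congr 1
    rw [← intervalIntegral.integral_of_le hr.le, integral_rpow (Or.inl (by linarith)),
      show -α + 1 = 1 - α by ring, Real.zero_rpow (by linarith), sub_zero]
  · refine (ae_restrict_iff' measurableSet_Ioc).2 (Eventually.of_forall fun t ht => ?_)
    exact Real.rpow_nonneg ht.1.le _

/-- The integral of `|t - b|^{-α}` over the interval of radius `r` around `b`. -/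
lemma a2o_ball (b : ℝ) {r : ℝ} (hr : 0 < r) {α : ℝ} (hα1 : α < 1) :
    ∫⁻ t, (Icc (b - r) (b + r)).indicator (fun t => ENNReal.ofReal (|t - b| ^ (-α))) t ≤
      ENNReal.ofReal (2 * (r ^ (1 - α) / (1 - α))) := by
  have h1 : ∫⁻ t, (Icc (b - r) (b + r)).indicator (fun t => ENNReal.ofReal (|t - b| ^ (-α))) t =
      ∫⁻ t, (Icc (-r) r).indicator (fun t => ENNReal.ofReal (|t| ^ (-α))) t := by
    rw [← lintegral_sub_right_eq_self
      (fun t => (Icc (-r) r).indicator (fun t => ENNReal.ofReal (|t| ^ (-α))) t) b]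
    refine lintegral_congr fun t => ?_
    by_cases ht : t ∈ Icc (b - r) (b + r)
    · have ht' : t - b ∈ Icc (-r) r := ⟨by linarith [ht.1], by linarith [ht.2]⟩
      rw [indicator_of_mem ht, indicator_of_mem ht']
    · have ht' : t - b ∉ Icc (-r) r := fun h => ht ⟨by linarith [h.1], by linarith [h.2]⟩
      rw [indicator_of_notMem ht, indicator_of_notMem ht']
  have h2 : ∫⁻ t, (Ioc 0 r).indicator (fun t => ENNReal.ofReal (t ^ (-α))) t =
      ENNReal.ofReal (r ^ (1 - α) / (1 - α)) := by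
    rw [lintegral_indicator measurableSet_Ioc, a2o_half hr hα1]
  have hm : Measurable ((Ioc (0 : ℝ) r).indicator (fun t : ℝ => ENNReal.ofReal (t ^ (-α)))) :=
    (by fun_prop : Measurable fun t : ℝ => ENNReal.ofReal (t ^ (-α))).indicator measurableSet_Ioc
  have h3 : ∫⁻ t, (Ioc 0 r).indicator (fun t => ENNReal.ofReal (t ^ (-α))) (-t) =
      ENNReal.ofReal (r ^ (1 - α) / (1 - α)) := by
    rw [← h2]
    exact lintegral_neg_eq_self
      (fun t => (Ioc 0 r).indicator (fun t => ENNReal.ofReal (t ^ (-α))) t)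
  rw [h1]
  have h4 : ∀ᵐ t : ℝ, (Icc (-r) r).indicator (fun t => ENNReal.ofReal (|t| ^ (-α))) t ≤
      (Ioc 0 r).indicator (fun t => ENNReal.ofReal (t ^ (-α))) t +
      (Ioc 0 r).indicator (fun t => ENNReal.ofReal (t ^ (-α))) (-t) := by
    have : ∀ᵐ t : ℝ, t ≠ 0 := by
      simp [ae_iff]
    filter_upwards [this] with t ht0
    by_cases ht : t ∈ Icc (-r) r
    · rw [indicator_of_mem ht]
      rcases lt_or_gt_of_ne ht0 with h | h
      · have h5 : -t ∈ Ioc 0 r := ⟨by linarith, by linarith [ht.1]⟩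
        rw [indicator_of_mem h5, abs_of_neg h]
        exact le_add_self
      · have h5 : t ∈ Ioc 0 r := ⟨h, ht.2⟩
        rw [indicator_of_mem h5, abs_of_pos h]
        exact le_self_add
    · rw [indicator_of_notMem ht]
      exact zero_le
  refine (lintegral_mono_ae h4).trans ?_
  rw [lintegral_add_left hm, h2, h3, ← ENNReal.ofReal_add]
  · rw [two_mul]
  · have : 0 < 1 - α := by linarith
    positivity
  · have : 0 < 1 - α := by linarith
    positivity

/-- Let `Z = ∫ ρ`, `E = ∫ |y - b| ρ / Z` and `0 ≤ α < 1`. For `|y0 - b| ≤ E/2`: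
`∫ |y - y0| ρ ≥ (E - |y0 - b|) Z ≥ E Z/2`, so by `val_moment` `ρ y0 ≤ 2 Z / E`. Hence
`∫ |y-b|^{-α} ρ ≤ (2 Z/E) ∫_{|y-b| ≤ E/2} |y-b|^{-α} dy + (E/2)^{-α} Z
= Z E^{-α} 2^α (2/(1-α) + 1) = Z E^{-α} cA α`, and `∫ |y-b|^α ρ ≤ Z E^α` (Hölder / Jensen for the
concave function `t ↦ t^α`; `ENNReal.lintegral_mul_le_Lp_mul_Lq` or `α = 0` trivial).
If `Z = 0`, or `E = ∞`... : `E < ∞` is assumed (`h1`), `E = 0` only if `Z = 0`. -/
theorem a2_one {ρ : ℝ → ℝ≥0∞} (hm : Measurable ρ) (hlc : LC1 ρ) (hfin : ∫⁻ t, ρ t < ⊤)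
    (b : ℝ) (h1 : ∫⁻ t, ENNReal.ofReal |t - b| * ρ t < ⊤) {α : ℝ} (hα0 : 0 ≤ α) (hα1 : α < 1) :
    (∫⁻ t, ENNReal.ofReal (|t - b| ^ α) * ρ t) * (∫⁻ t, ENNReal.ofReal (|t - b| ^ (-α)) * ρ t) ≤
      ENNReal.ofReal (cA α) * (∫⁻ t, ρ t) ^ 2 := by
  set Z : ℝ≥0∞ := ∫⁻ t, ρ t with hZ
  set E1 : ℝ≥0∞ := ∫⁻ t, ENNReal.ofReal |t - b| * ρ t with hE1
  have h1α : 0 < 1 - α := by linarith
  by_cases hZ0 : Z = 0
  · have hρ : ρ =ᵐ[volume] 0 := (lintegral_eq_zero_iff hm).1 hZ0
    have : ∫⁻ t, ENNReal.ofReal (|t - b| ^ α) * ρ t = 0 := by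
      rw [← lintegral_zero (μ := (volume : Measure ℝ))]
      refine lintegral_congr_ae ?_
      filter_upwards [hρ] with t ht
      rw [ht]; simp
    rw [this, zero_mul]
    exact zero_le
  have hE0 : E1 ≠ 0 := by
    intro h
    apply hZ0
    have h2 : (fun t => ENNReal.ofReal |t - b| * ρ t) =ᵐ[volume] 0 :=
      (lintegral_eq_zero_iff (by fun_prop)).1 h
    have hb : ∀ᵐ t : ℝ, t ≠ b := by
      simp [ae_iff]
    rw [hZ, ← lintegral_zero (μ := (volume : Measure ℝ))]
    refine lintegral_congr_ae ?_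
    filter_upwards [h2, hb] with t ht htb
    rcases mul_eq_zero.1 ht with h3 | h3
    · exfalso
      have : 0 < |t - b| := abs_pos.2 (sub_ne_zero.2 htb)
      exact absurd h3 (by simpa using this)
    · exact h3
  -- the mean distance
  set e : ℝ := (E1 / Z).toReal with he
  have hEZ : E1 / Z ≠ ⊤ := ENNReal.div_ne_top h1.ne hZ0
  have heE : ENNReal.ofReal e = E1 / Z := ENNReal.ofReal_toReal hEZ
  have hepos : 0 < e := by
    rw [he]
    refine ENNReal.toReal_pos ?_ hEZ
    exact (ENNReal.div_pos hE0 hfin.ne).ne'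
  have hE1e : E1 = ENNReal.ofReal e * Z := by
    rw [heE, ENNReal.div_mul_cancel hZ0 hfin.ne]
  set r : ℝ := e / 2 with hr
  have hrpos : 0 < r := by positivity
  -- pointwise bound near `b`
  have near : ∀ y0 : ℝ, |y0 - b| ≤ r → ρ y0 ≤ ENNReal.ofReal (1 / r) * Z := by
    intro y0 hy0
    have h2 : E1 ≤ (∫⁻ y, ENNReal.ofReal |y - y0| * ρ y) + ENNReal.ofReal r * Z := by
      rw [hE1, hZ, ← lintegral_const_mul _ hm, ← lintegral_add_left (by fun_prop)]
      refine lintegral_mono fun y => ?_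
      rw [← add_mul]
      refine mul_le_mul_left ?_ _
      rw [← ENNReal.ofReal_add (abs_nonneg _) hrpos.le]
      apply ENNReal.ofReal_le_ofReal
      calc |y - b| ≤ |y - y0| + |y0 - b| := abs_sub_le _ _ _
        _ ≤ _ := by linarith
    have h3 : ENNReal.ofReal r * Z ≤ ∫⁻ y, ENNReal.ofReal |y - y0| * ρ y := by
      have h4 : ENNReal.ofReal r * Z + ENNReal.ofReal r * Z ≤
          (∫⁻ y, ENNReal.ofReal |y - y0| * ρ y) + ENNReal.ofReal r * Z := by
        rw [← add_mul, ← ENNReal.ofReal_add hrpos.le hrpos.le]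
        have : r + r = e := by rw [hr]; ring
        rw [this, ← hE1e]
        exact h2
      exact (ENNReal.add_le_add_iff_right (ENNReal.mul_ne_top ENNReal.ofReal_ne_top hfin.ne)).1 h4
    have h5 : ρ y0 * (ENNReal.ofReal r * Z) ≤ Z ^ 2 :=
      (mul_le_mul_right h3 (ρ y0)).trans (val_moment hm hlc hfin y0)
    have h6 : (ρ y0 * ENNReal.ofReal r) * Z ≤ Z * Z := by
      rw [mul_assoc, ← sq]; exact h5
    have h7 : ρ y0 * ENNReal.ofReal r ≤ Z := (ENNReal.mul_le_mul_iff_left hZ0 hfin.ne).1 h6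
    calc ρ y0 = ENNReal.ofReal (1 / r) * (ρ y0 * ENNReal.ofReal r) := by
          rw [mul_comm (ρ y0), ← mul_assoc, ← ENNReal.ofReal_mul (by positivity)]
          have : 1 / r * r = 1 := by field_simp
          rw [this]; simp
      _ ≤ _ := mul_le_mul_right h7 _
  -- negative power
  have neg : ∫⁻ t, ENNReal.ofReal (|t - b| ^ (-α)) * ρ t ≤
      ENNReal.ofReal (r ^ (-α) * ((3 - α) / (1 - α))) * Z := by
    have h2 : ∀ t, ENNReal.ofReal (|t - b| ^ (-α)) * ρ t ≤
        (ENNReal.ofReal (1 / r) * Z) * (Icc (b - r) (b + r)).indicator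
          (fun t => ENNReal.ofReal (|t - b| ^ (-α))) t + ENNReal.ofReal (r ^ (-α)) * ρ t := by
      intro t
      by_cases ht : |t - b| ≤ r
      · have ht' : t ∈ Icc (b - r) (b + r) := by
          rw [abs_le] at ht
          exact ⟨by linarith [ht.1], by linarith [ht.2]⟩
        rw [indicator_of_mem ht', mul_comm]
        exact (mul_le_mul_left (near t ht) _).trans le_self_add
      · push Not at ht
        refine le_trans ?_ le_add_self
        refine mul_le_mul_left (ENNReal.ofReal_le_ofReal ?_) _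
        exact Real.rpow_le_rpow_of_nonpos hrpos ht.le (by linarith)
    refine (lintegral_mono h2).trans ?_
    have hmi : Measurable fun t => (Icc (b - r) (b + r)).indicator
          (fun t => ENNReal.ofReal (|t - b| ^ (-α))) t :=
      (by fun_prop : Measurable fun t : ℝ => ENNReal.ofReal (|t - b| ^ (-α))).indicator
        measurableSet_Icc
    rw [lintegral_add_right _ (hm.const_mul _), lintegral_const_mul _ hm,
      lintegral_const_mul _ hmi, ← hZ]
    calc ENNReal.ofReal (1 / r) * Z * (∫⁻ t, (Icc (b - r) (b + r)).indicator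
          (fun t => ENNReal.ofReal (|t - b| ^ (-α))) t) + ENNReal.ofReal (r ^ (-α)) * Z
        ≤ ENNReal.ofReal (1 / r) * Z * ENNReal.ofReal (2 * (r ^ (1 - α) / (1 - α))) +
          ENNReal.ofReal (r ^ (-α)) * Z :=
          add_le_add_left (mul_le_mul_right (a2o_ball b hrpos hα1) _) _
      _ = ENNReal.ofReal (1 / r * (2 * (r ^ (1 - α) / (1 - α))) + r ^ (-α)) * Z := by
          rw [ENNReal.ofReal_add (by positivity) (by positivity), add_mul,
            ENNReal.ofReal_mul (p := 1 / r) (by positivity)]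
          ring
      _ = _ := by
          congr 2
          have : r ^ (1 - α) = r * r ^ (-α) := by
            rw [sub_eq_add_neg, Real.rpow_add hrpos, Real.rpow_one]
          rw [this]
          field_simp
          ring
  -- positive power
  have pos : ∫⁻ t, ENNReal.ofReal (|t - b| ^ α) * ρ t ≤ ENNReal.ofReal (e ^ α) * Z := by
    have h2 : ∀ t, ENNReal.ofReal (|t - b| ^ α) * ρ t ≤
        ENNReal.ofReal (e ^ (α - 1) * α) * (ENNReal.ofReal |t - b| * ρ t) +
          ENNReal.ofReal (e ^ α * (1 - α)) * ρ t := by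
      intro t
      rw [← mul_assoc, ← add_mul]
      refine mul_le_mul_left ?_ _
      rw [← ENNReal.ofReal_mul (by positivity), ← ENNReal.ofReal_add (by positivity)
        (by positivity)]
      apply ENNReal.ofReal_le_ofReal
      have h3 := Real.geom_mean_le_arith_mean2_weighted hα0 h1α.le (abs_nonneg (t - b)) hepos.le
        (by ring)
      have h4 : e ^ (α - 1) * e ^ (1 - α) = 1 := by
        rw [← Real.rpow_add hepos]
        have : α - 1 + (1 - α) = 0 := by ring
        rw [this, Real.rpow_zero]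
      have h5 : e ^ α = e ^ (α - 1) * e := by
        rw [Real.rpow_sub_one hepos.ne', div_mul_cancel₀ _ hepos.ne']
      calc |t - b| ^ α = e ^ (α - 1) * (|t - b| ^ α * e ^ (1 - α)) := by
            rw [mul_comm (|t - b| ^ α), ← mul_assoc, h4, one_mul]
        _ ≤ e ^ (α - 1) * (α * |t - b| + (1 - α) * e) :=
            mul_le_mul_of_nonneg_left h3 (by positivity)
        _ = _ := by rw [h5]; ring
    refine (lintegral_mono h2).trans ?_
    rw [lintegral_add_right _ (hm.const_mul _), lintegral_const_mul _ hm,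
      lintegral_const_mul _ (by fun_prop), ← hZ, ← hE1, hE1e, ← mul_assoc, ← add_mul,
      ← ENNReal.ofReal_mul (by positivity), ← ENNReal.ofReal_add (by positivity) (by positivity)]
    refine mul_le_mul_left (ENNReal.ofReal_le_ofReal (le_of_eq ?_)) _
    have h5 : e ^ α = e ^ (α - 1) * e := by
      rw [Real.rpow_sub_one hepos.ne', div_mul_cancel₀ _ hepos.ne']
    rw [h5]; ring
  refine (mul_le_mul' pos neg).trans (le_of_eq ?_)
  have hc : e ^ α * (r ^ (-α) * ((3 - α) / (1 - α))) = cA α := by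
    have h6 : e = 2 * r := by rw [hr]; ring
    unfold cA
    rw [h6, Real.mul_rpow (by norm_num) hrpos.le]
    have h7 : r ^ α * r ^ (-α) = 1 := by
      rw [← Real.rpow_add hrpos]; simp
    calc 2 ^ α * r ^ α * (r ^ (-α) * ((3 - α) / (1 - α))) =
        (r ^ α * r ^ (-α)) * (2 ^ α * (3 - α) / (1 - α)) := by ring
      _ = _ := by rw [h7, one_mul]
  rw [← hc, ENNReal.ofReal_mul (p := e ^ α) (by positivity)]
  ring

end Pool.Agent.Lib.MP_8d00da_gt.h42r
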