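import Mathlib
import Pool.Agent.Lib.MP_8d00da_gt.h42r.AM3

namespace Pool.Agent.Lib.MP_8d00da_gt.h25
end Pool.Agent.Lib.MP_8d00da_gt.h25
namespace Pool.Agent.Lib.MP_8d00da_gt.h42s
end Pool.Agent.Lib.MP_8d00da_gt.h42s
namespace Pool.Agent.Lib.MP_8d00da_gt.h42o
end Pool.Agent.Lib.MP_8d00da_gt.h42o
namespace Pool.Agent.Lib.MP_8d00da_gt.h97r
end Pool.Agent.Lib.MP_8d00da_gt.h97r


/-!
# A2 inequality for powers of linear functions
-/

namespace Pool.Agent.Lib.MP_8d00da_gt.h42r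

open MeasureTheory Set Filter
open Pool.Agent.Lib.MP_8d00da_gt.h25 Pool.Agent.Lib.MP_8d00da_gt.h42
open Pool.Agent.Lib.MP_8d00da_gt.h42s Pool.Agent.Lib.MP_8d00da_gt.h42o
open Pool.Agent.Lib.MP_8d00da_gt.h97r
open scoped Topology NNReal ENNReal

set_option linter.unusedSectionVars false

variable {F : Type*} [NormedAddCommGroup F] [InnerProductSpace ℝ F]
    [FiniteDimensional ℝ F] [MeasurableSpace F] [BorelSpace F]

variable {G : Type*} [NormedAddCommGroup G] [InnerProductSpace ℝ G]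
    [FiniteDimensional ℝ G] [MeasurableSpace G] [BorelSpace G]

variable {ι : Type*} [Fintype ι]

/-- `a2_one` for the marginal (`exists_marginal` with `e = a/‖a‖`): for `a ≠ 0`,
`⟪a, x⟫ - b = ‖a‖ (⟪e, x⟫ - b/‖a‖)`; the powers of `‖a‖` cancel in the product. -/
theorem a2_lin {h : F → ℝ} (h0 : ∀ x, 0 ≤ h x) (hm : Measurable h) (hlc : LogConc h)
    (hi : Integrable h) (hi1 : Integrable fun x => ‖x‖ * h x) {a : F} (ha : a ≠ 0) (b : ℝ)
    {α : ℝ} (hα0 : 0 ≤ α) (hα1 : α < 1) :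
    (∫⁻ x, ENNReal.ofReal (|inner ℝ a x - b| ^ α) * ENNReal.ofReal (h x)) *
      (∫⁻ x, ENNReal.ofReal (|inner ℝ a x - b| ^ (-α)) * ENNReal.ofReal (h x)) ≤
      ENNReal.ofReal (cA α) * (∫⁻ x, ENNReal.ofReal (h x)) ^ 2 := by
  have hna : 0 < ‖a‖ := norm_pos_iff.mpr ha
  set e : F := ‖a‖⁻¹ • a with he
  have hne : ‖e‖ = 1 := by
    rw [he, norm_smul, norm_inv, norm_norm, inv_mul_cancel₀ hna.ne']
  obtain ⟨ρ, hρm, hρlc, hρ⟩ := exists_marginal h0 hm hlc hne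
  have hin : ∀ x, inner ℝ e x = ‖a‖⁻¹ * inner ℝ a x := by
    intro x
    rw [he, real_inner_smul_left]
  have habs : ∀ x, |inner ℝ a x - b| = ‖a‖ * |inner ℝ e x - b / ‖a‖| := by
    intro x
    have : inner ℝ a x - b = ‖a‖ * (inner ℝ e x - b / ‖a‖) := by
      rw [hin x]
      field_simp
    rw [this, abs_mul, abs_of_pos hna]
  have hZ : ∫⁻ x, ENNReal.ofReal (h x) = ∫⁻ t, ρ t := by
    have := hρ (fun _ => 1) measurable_const
    simpa using this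
  have hfin : ∫⁻ t, ρ t < ⊤ := by
    rw [← hZ]
    exact hi.lintegral_lt_top
  have key : ∀ γ : ℝ, ∫⁻ x, ENNReal.ofReal (|inner ℝ a x - b| ^ γ) * ENNReal.ofReal (h x) =
      ENNReal.ofReal (‖a‖ ^ γ) * ∫⁻ t, ENNReal.ofReal (|t - b / ‖a‖| ^ γ) * ρ t := by
    intro γ
    have hmφ : Measurable fun t : ℝ => ENNReal.ofReal (|t - b / ‖a‖| ^ γ) := by
      fun_prop
    rw [← hρ _ hmφ, ← lintegral_const_mul]
    · refine lintegral_congr fun x => ?_
      rw [habs x, Real.mul_rpow hna.le (abs_nonneg _),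
        ENNReal.ofReal_mul (Real.rpow_nonneg hna.le _), mul_assoc]
    · have h1 : Measurable fun x : F => inner ℝ e x := by
        fun_prop
      exact (hmφ.comp h1).mul hm.ennreal_ofReal
  have h1 : ∫⁻ t, ENNReal.ofReal |t - b / ‖a‖| * ρ t < ⊤ := by
    have hmφ : Measurable fun t : ℝ => ENNReal.ofReal |t - b / ‖a‖| := by
      fun_prop
    rw [← hρ _ hmφ]
    have hint : Integrable fun x => ‖x‖ * h x + |b / ‖a‖| * h x := hi1.add (hi.const_mul _)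
    refine lt_of_le_of_lt (lintegral_mono fun x => ?_) hint.lintegral_lt_top
    rw [← ENNReal.ofReal_mul (abs_nonneg _), ← add_mul]
    refine ENNReal.ofReal_le_ofReal (mul_le_mul_of_nonneg_right ?_ (h0 x))
    refine (abs_sub _ _).trans (add_le_add ?_ le_rfl)
    have := abs_real_inner_le_norm e x
    rwa [hne, one_mul] at this
  have hc : ENNReal.ofReal (‖a‖ ^ α) * ENNReal.ofReal (‖a‖ ^ (-α)) = 1 := by
    rw [← ENNReal.ofReal_mul (Real.rpow_nonneg hna.le _), ← Real.rpow_add hna]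
    simp
  rw [key α, key (-α), hZ]
  calc ENNReal.ofReal (‖a‖ ^ α) * (∫⁻ t, ENNReal.ofReal (|t - b / ‖a‖| ^ α) * ρ t) *
        (ENNReal.ofReal (‖a‖ ^ (-α)) * ∫⁻ t, ENNReal.ofReal (|t - b / ‖a‖| ^ (-α)) * ρ t)
      = (ENNReal.ofReal (‖a‖ ^ α) * ENNReal.ofReal (‖a‖ ^ (-α))) *
        ((∫⁻ t, ENNReal.ofReal (|t - b / ‖a‖| ^ α) * ρ t) *
          ∫⁻ t, ENNReal.ofReal (|t - b / ‖a‖| ^ (-α)) * ρ t) := by ring
    _ = (∫⁻ t, ENNReal.ofReal (|t - b / ‖a‖| ^ α) * ρ t) *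
          ∫⁻ t, ENNReal.ofReal (|t - b / ‖a‖| ^ (-α)) * ρ t := by rw [hc, one_mul]
    _ ≤ _ := a2_one hρm hρlc hfin _ h1 hα0 hα1

end Pool.Agent.Lib.MP_8d00da_gt.h42r
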