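import Mathlib
import Pool.Agent.Lib.MP_8d00da_gt.h25.Ker
import Pool.Agent.Lib.MP_8d00da_gt.h42r.AM4

namespace Pool.Agent.Lib.MP_8d00da_gt.h42s
end Pool.Agent.Lib.MP_8d00da_gt.h42s
namespace Pool.Agent.Lib.MP_8d00da_gt.h42o
end Pool.Agent.Lib.MP_8d00da_gt.h42o
namespace Pool.Agent.Lib.MP_8d00da_gt.h97r
end Pool.Agent.Lib.MP_8d00da_gt.h97r


/-!
# Gaussian averages of powers of linear functions
-/

namespace Pool.Agent.Lib.MP_8d00da_gt.h42r

open MeasureTheory Set Filter
open Pool.Agent.Lib.MP_8d00da_gt.h25 Pool.Agent.Lib.MP_8d00da_gt.h42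
open Pool.Agent.Lib.MP_8d00da_gt.h42s Pool.Agent.Lib.MP_8d00da_gt.h42o
open Pool.Agent.Lib.MP_8d00da_gt.h97r
open scoped Topology NNReal ENNReal

set_option linter.unusedSectionVars false

variable {F : Type*} [NormedAddCommGroup F] [InnerProductSpace ℝ F]
    [FiniteDimensional ℝ F] [MeasurableSpace F] [BorelSpace F]

variable {G : Type*} [NormedAddCommGroup G] [InnerProductSpace ℝ G]
    [FiniteDimensional ℝ G] [MeasurableSpace G] [BorelSpace G]

variable {ι : Type*} [Fintype ι]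

/-- The Gaussian weight on `G`. -/
noncomputable def gw (g : G) : ℝ≥0∞ := ENNReal.ofReal (Real.exp (-(‖g‖ ^ 2 / 2)))

private lemma gw_eq (g : G) : gw g = ENNReal.ofReal (h25.ker 1 g) := by
  unfold gw h25.ker; norm_num

private lemma gk_lc : LogConc (fun g : G => h25.ker 1 g) := by
  intro a ha0 ha1 x y
  have h1 : 0 ≤ 1 - a := by linarith
  simp only [h25.ker]
  rw [← Real.exp_mul, ← Real.exp_mul, ← Real.exp_add]
  apply Real.exp_le_exp.2
  have key : ‖(1 - a) • x + a • y‖ ^ 2 ≤ (1 - a) * ‖x‖ ^ 2 + a * ‖y‖ ^ 2 := by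
    have h2 : ‖(1 - a) • x + a • y‖ ≤ (1 - a) * ‖x‖ + a * ‖y‖ := by
      refine (norm_add_le _ _).trans ?_
      rw [norm_smul, norm_smul, Real.norm_of_nonneg h1, Real.norm_of_nonneg ha0.le]
    have h3 := pow_le_pow_left₀ (norm_nonneg _) h2 2
    refine h3.trans ?_
    nlinarith [mul_nonneg (mul_nonneg h1 ha0.le) (sq_nonneg (‖x‖ - ‖y‖))]
  nlinarith

private lemma gk_int1 : Integrable fun g : G => ‖g‖ * h25.ker 1 g := by
  have h2 : Integrable fun g : G => Real.sqrt (4 * 1) * h25.ker (2 * 1) g :=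
    (h25.ker_integrable (by norm_num)).const_mul _
  refine h2.mono' (continuous_norm.mul h25.ker_cont).aestronglyMeasurable ?_
  refine Eventually.of_forall fun g => ?_
  rw [Real.norm_of_nonneg (mul_nonneg (norm_nonneg _) (h25.ker_pos _).le)]
  exact h25.norm_mul_ker_le one_pos g

private lemma meas_pow (y : G) (α : ℝ) :
    Measurable fun g : G => ENNReal.ofReal (|inner ℝ y g| ^ α) := by
  have h1 : Measurable fun g : G => inner ℝ y g :=
    (continuous_const.inner continuous_id).measurable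
  exact ((h1.norm).pow_const α).ennreal_ofReal

private lemma meas_gw : Measurable (gw : G → ℝ≥0∞) := by
  have : (gw : G → ℝ≥0∞) = fun g => ENNReal.ofReal (h25.ker 1 g) := by
    ext g; exact gw_eq g
  rw [this]
  exact h25.ker_cont.measurable.ennreal_ofReal

private lemma meas_prod (y : G) (α : ℝ) :
    Measurable fun g : G => ENNReal.ofReal (|inner ℝ y g| ^ α) * gw g :=
  (meas_pow y α).mul meas_gw

/-- positivity of integrals of functions positive off a hyperplane -/
private lemma pos_int {e : G} (he : e ≠ 0) (α : ℝ) :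
    ∫⁻ g : G, ENNReal.ofReal (|inner ℝ e g| ^ α) * gw g ≠ 0 := by
  intro h0
  rw [lintegral_eq_zero_iff (meas_prod e α)] at h0
  have hopen : IsOpen {g : G | inner ℝ e g ≠ 0} :=
    isOpen_ne_fun (continuous_const.inner continuous_id) continuous_const
  have hne : ({g : G | inner ℝ e g ≠ 0}).Nonempty := ⟨e, by
    simpa using he⟩
  have hpos := hopen.measure_pos volume hne
  have hsub : volume {g : G | inner ℝ e g ≠ 0} = 0 := by
    refine measure_mono_null (fun g hg => ?_) (ae_iff.1 h0)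
    rw [Set.mem_ofPred_eq] at hg ⊢
    have h1 : 0 < |inner ℝ e g| ^ α := Real.rpow_pos_of_pos (abs_pos.2 hg) _
    have h2 : ENNReal.ofReal (|inner ℝ e g| ^ α) ≠ 0 := by
      rw [Ne, ENNReal.ofReal_eq_zero, not_le]; exact h1
    have h3 : gw g ≠ 0 := by
      rw [gw_eq, Ne, ENNReal.ofReal_eq_zero, not_le]; exact h25.ker_pos _
    exact mul_ne_zero h2 h3
  exact hpos.ne' hsub

private lemma fin_int {e : G} (he : e ≠ 0) {α : ℝ} (hα0 : 0 ≤ α) (hα1 : α < 1) :
    ∫⁻ g : G, ENNReal.ofReal (|inner ℝ e g| ^ (-α)) * gw g ≠ ⊤ := by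
  have h := a2_lin (F := G) (h := fun g => h25.ker 1 g) (fun g => (h25.ker_pos g).le)
    h25.ker_cont.measurable gk_lc (h25.ker_integrable one_pos) gk_int1 he 0 hα0 hα1
  simp only [sub_zero, ← gw_eq] at h
  have hfin : ∫⁻ g : G, gw g ≠ ⊤ := by
    have := (h25.ker_integrable (F := G) (η := 1) one_pos).lintegral_lt_top
    simp only [← gw_eq] at this
    exact this.ne
  have h2 : ENNReal.ofReal (cA α) * (∫⁻ g : G, gw g) ^ 2 ≠ ⊤ :=
    ENNReal.mul_ne_top ENNReal.ofReal_ne_top (ENNReal.pow_ne_top hfin)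
  intro htop
  rw [htop, ENNReal.mul_top (pos_int he α)] at h
  exact h2 (top_le_iff.1 h)

private lemma unit_eq {e e' : G} (h : ‖e‖ = ‖e'‖) (α : ℝ) :
    ∫⁻ g : G, ENNReal.ofReal (|inner ℝ e g| ^ α) * gw g =
      ∫⁻ g : G, ENNReal.ofReal (|inner ℝ e' g| ^ α) * gw g := by
  set O := (ℝ ∙ (e - e'))ᗮ.reflection with hO
  have hOe : O e = e' := Submodule.reflection_sub h
  have hmp : MeasurePreserving O := O.measurePreserving
  rw [← hmp.lintegral_comp (meas_prod e' α)]
  refine lintegral_congr fun g => ?_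
  have h1 : inner ℝ e' (O g) = inner ℝ e g := by
    rw [← hOe, LinearIsometryEquiv.inner_map_map]
  have h2 : gw (O g) = gw g := by
    unfold gw; rw [LinearIsometryEquiv.norm_map]
  rw [h1, h2]

/-- Rotation invariance and homogeneity: there is a constant `c ∈ (0, ∞)` with
`∫⁻ |⟪y, g⟫|^{-α} gw g dg = c ‖y‖^{-α}` for all `y ≠ 0`, `0 ≤ α < 1`. Proof: `exists_marginal` of the
Gaussian is not needed: for two unit vectors `e, e'` there is a linear isometry `O` with `O e = e'`
(e.g. a reflection, `Submodule.reflection`, in the hyperplane orthogonal to `e - e'`), which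
preserves `volume` and `gw`; so the integral for unit vectors is a constant `c`; homogeneity:
`|⟪y, g⟫| = ‖y‖ |⟪e, g⟫|`. `c > 0` since the integrand is positive off a null set; `c < ∞`: by
`exists_marginal` for `h = exp (-‖g‖²/2)` and `a2_lin` (finite right side, and the first factor is
positive). If `G` has no unit vector the statement is empty. -/
theorem gauss_pow {α : ℝ} (hα0 : 0 ≤ α) (hα1 : α < 1) : ∃ c : ℝ≥0∞, c ≠ 0 ∧ c ≠ ⊤ ∧
    ∀ y : G, y ≠ 0 → ∫⁻ g : G, ENNReal.ofReal (|inner ℝ y g| ^ (-α)) * gw g =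
      c * ENNReal.ofReal (‖y‖ ^ (-α)) := by
  rcases subsingleton_or_nontrivial G with hs | hn
  · exact ⟨1, one_ne_zero, ENNReal.one_ne_top, fun y hy => (hy (Subsingleton.elim _ _)).elim⟩
  obtain ⟨e, he⟩ := exists_ne (0 : G)
  set e0 : G := ‖e‖⁻¹ • e with he0
  have hn0 : ‖e0‖ = 1 := norm_smul_inv_norm he
  have he0' : e0 ≠ 0 := by
    intro h; rw [h, norm_zero] at hn0; exact zero_ne_one hn0
  refine ⟨∫⁻ g : G, ENNReal.ofReal (|inner ℝ e0 g| ^ (-α)) * gw g, pos_int he0' _,
    fin_int he0' hα0 hα1, fun y hy => ?_⟩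
  have hyn : 0 < ‖y‖ := norm_pos_iff.2 hy
  set y0 : G := ‖y‖⁻¹ • y with hy0
  have hny0 : ‖y0‖ = 1 := norm_smul_inv_norm hy
  rw [unit_eq (hn0.trans hny0.symm) (-α), mul_comm,
    ← lintegral_const_mul _ (meas_prod y0 (-α))]
  refine lintegral_congr fun g => ?_
  rw [← mul_assoc, ← ENNReal.ofReal_mul (by positivity), ← Real.mul_rpow hyn.le (abs_nonneg _)]
  congr 3
  rw [hy0, inner_smul_left, abs_mul, conj_trivial, abs_of_pos (inv_pos.2 hyn),
    mul_inv_cancel_left₀ hyn.ne']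

end Pool.Agent.Lib.MP_8d00da_gt.h42r
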