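import Mathlib
import Pool.Agent.Lib.MP_8d00da_gt.h42r.AM5a

namespace Pool.Agent.Lib.MP_8d00da_gt.h42s
end Pool.Agent.Lib.MP_8d00da_gt.h42s
namespace Pool.Agent.Lib.MP_8d00da_gt.h42o
end Pool.Agent.Lib.MP_8d00da_gt.h42o
namespace Pool.Agent.Lib.MP_8d00da_gt.h97r
end Pool.Agent.Lib.MP_8d00da_gt.h97r


/-!
# A2 inequality for powers of norms
-/

namespace Pool.Agent.Lib.MP_8d00da_gt.h42r

open MeasureTheory Set Filter
open Pool.Agent.Lib.MP_8d00da_gt.h25 Pool.Agent.Lib.MP_8d00da_gt.h42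
open Pool.Agent.Lib.MP_8d00da_gt.h42s Pool.Agent.Lib.MP_8d00da_gt.h42o
open Pool.Agent.Lib.MP_8d00da_gt.h97r
open scoped Topology NNReal ENNReal

set_option linter.unusedSectionVars false

variable {F : Type*} [NormedAddCommGroup F] [InnerProductSpace ℝ F]
    [FiniteDimensional ℝ F] [MeasurableSpace F] [BorelSpace F]

variable {G : Type*} [NormedAddCommGroup G] [InnerProductSpace ℝ G]
    [FiniteDimensional ℝ G] [MeasurableSpace G] [BorelSpace G]

variable {ι : Type*} [Fintype ι]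

private lemma ae_ne_aux {l : F →L[ℝ] ℝ} {v : F} (hv : l v ≠ 0) (c : ℝ) : ∀ᵐ x : F, l x ≠ c := by
  let s : AffineSubspace ℝ F :=
    { carrier := {x | l x = c}
      smul_vsub_vadd_mem' := by
        intro t a b d ha hb hd
        simp only [mem_ofPred_eq, vsub_eq_sub, vadd_eq_add, map_add, map_smul, map_sub,
          smul_eq_mul] at *
        rw [ha, hb, hd]; ring }
  have hs : s ≠ ⊤ := by
    intro h
    have h0 : (0 : F) ∈ s := by rw [h]; exact AffineSubspace.mem_top ℝ F _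
    have h1 : v ∈ s := by rw [h]; exact AffineSubspace.mem_top ℝ F _
    have h0' : l (0 : F) = c := h0
    have h1' : l v = c := h1
    rw [map_zero] at h0'
    exact hv (h1'.trans h0'.symm)
  have := Measure.addHaar_affineSubspace (volume : Measure F) s hs
  rw [ae_iff]
  simp only [not_not]
  exact this

/-- `A2` for `‖P x - b‖^α`, `0 ≤ α < 1` (vector valued), same constant as in dimension one.
`Y = P x - b`, `Y_g = ⟪Y, g⟫ = ⟪P^* g, x⟫ - ⟪b, g⟫`; `P^* g ≠ 0` for a.e. `g` (as `P ≠ 0`; a proper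
subspace is null). Let `A = ∫⁻ ‖Y‖^α h`, `B = ∫⁻ ‖Y‖^{-α} h`, `F g = ∫⁻ |Y_g|^α h`,
`N g = ∫⁻ |Y_g|^{-α} h`, so `F g · N g ≤ cA Z²` a.e. (`a2_lin`).
By Tonelli and `gauss_pow`, `c B = ∫⁻ gw g N g dg` (`Y ≠ 0` for a.e. `x`).
Cauchy-Schwarz for the measure `h dx`: `A² = (∫⁻ (|Y_g|^{α/2}) (‖Y‖^α |Y_g|^{-α/2}) h)² ≤
F g · ∫⁻ ‖Y‖^{2α} |Y_g|^{-α} h =: F g · M g`, and `∫⁻ gw g M g dg = c ∫⁻ ‖Y‖^{2α} ‖Y‖^{-α} h = c A`.
So `A² B c = A² ∫⁻ gw N ≤ ∫⁻ gw N F M ≤ cA Z² ∫⁻ gw M = cA Z² c A`; divide by `c A` (`0 < A < ∞`;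
if `A = 0` then `Z = 0`). -/
theorem a2_pow {h : F → ℝ} (h0 : ∀ x, 0 ≤ h x) (hm : Measurable h) (hlc : LogConc h)
    (hi : Integrable h) (hi1 : Integrable fun x => ‖x‖ * h x) {P : F →L[ℝ] G} (hP : P ≠ 0) (b : G)
    {α : ℝ} (hα0 : 0 ≤ α) (hα1 : α < 1) :
    (∫⁻ x, ENNReal.ofReal (‖P x - b‖ ^ α) * ENNReal.ofReal (h x)) *
      (∫⁻ x, ENNReal.ofReal (‖P x - b‖ ^ (-α)) * ENNReal.ofReal (h x)) ≤
      ENNReal.ofReal (cA α) * (∫⁻ x, ENNReal.ofReal (h x)) ^ 2 := by
  set H : F → ℝ≥0∞ := fun x => ENNReal.ofReal (h x) with hH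
  have hHm : Measurable H := hm.ennreal_ofReal
  set Y : F → G := fun x => P x - b with hY
  have hYc : Continuous Y := P.continuous.sub continuous_const
  have hnm : ∀ s : ℝ, Measurable fun x => ENNReal.ofReal (‖Y x‖ ^ s) := fun s =>
    ((hYc.norm.measurable).pow_const s).ennreal_ofReal
  have him : ∀ (g : G) (s : ℝ), Measurable fun x => ENNReal.ofReal (|inner ℝ (Y x) g| ^ s) := by
    intro g s
    have h1 : Continuous fun x => inner ℝ (Y x) g := hYc.inner continuous_const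
    exact ((h1.abs.measurable).pow_const s).ennreal_ofReal
  have hgwm : Measurable (gw : G → ℝ≥0∞) := by
    unfold gw
    exact (Real.continuous_exp.comp
      ((continuous_norm.pow 2).div_const 2).neg).measurable.ennreal_ofReal
  have hjoint0 : ∀ K : F → ℝ≥0∞, Measurable K →
      Measurable fun p : G × F => ENNReal.ofReal (|inner ℝ (Y p.2) p.1| ^ (-α)) * K p.2 := by
    intro K hK
    have h1 : Continuous fun p : G × F => inner ℝ (Y p.2) p.1 :=
      (hYc.comp continuous_snd).inner continuous_fst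
    exact ((h1.abs.measurable).pow_const (-α)).ennreal_ofReal.mul (hK.comp measurable_snd)
  set Z : ℝ≥0∞ := ∫⁻ x, H x with hZ
  set A : ℝ≥0∞ := ∫⁻ x, ENNReal.ofReal (‖Y x‖ ^ α) * H x with hA
  set B : ℝ≥0∞ := ∫⁻ x, ENNReal.ofReal (‖Y x‖ ^ (-α)) * H x with hB
  have hAfin : A ≠ ⊤ := by
    have hint : Integrable fun x => (1 + ‖b‖) * h x + ‖P‖ * (‖x‖ * h x) :=
      (hi.const_mul _).add (hi1.const_mul _)
    have h1 := hint.lintegral_lt_top
    refine ne_top_of_le_ne_top h1.ne (lintegral_mono fun x => ?_)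
    simp only [hH]
    rw [← ENNReal.ofReal_mul (by positivity)]
    apply ENNReal.ofReal_le_ofReal
    have h2 : ‖Y x‖ ≤ ‖P‖ * ‖x‖ + ‖b‖ := by
      refine (norm_sub_le _ _).trans ?_
      gcongr
      exact P.le_opNorm x
    have h3 : ‖Y x‖ ^ α ≤ 1 + ‖Y x‖ := by
      have h4 : ‖Y x‖ ^ α ≤ (1 + ‖Y x‖) ^ α :=
        Real.rpow_le_rpow (norm_nonneg _) (by linarith) hα0
      have h5 : (1 + ‖Y x‖) ^ α ≤ (1 + ‖Y x‖) ^ (1 : ℝ) :=
        Real.rpow_le_rpow_of_exponent_le (by linarith [norm_nonneg (Y x)]) hα1.le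
      rw [Real.rpow_one] at h5
      exact h4.trans h5
    have h4 := mul_le_mul_of_nonneg_right (h3.trans (add_le_add_right h2 1)) (h0 x)
    nlinarith
  by_cases hA0 : A = 0
  · rw [hA0, zero_mul]; exact zero_le
  obtain ⟨c, hc0, hctop, hc⟩ := gauss_pow (G := G) hα0 hα1
  obtain ⟨v, hv⟩ : ∃ v, P v ≠ 0 := by
    by_contra hcon
    push Not at hcon
    exact hP (ContinuousLinearMap.ext hcon)
  have hcy : ∀ y : G, ∫⁻ g : G, ENNReal.ofReal (|inner ℝ y g| ^ (-α)) * gw g =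
      c * ENNReal.ofReal (‖y‖ ^ (-α)) := by
    intro y
    rcases eq_or_ne y 0 with rfl | hy
    · rcases hα0.eq_or_lt with h1 | h1
      · have h2 := hc (P v) hv
        rw [← h1] at h2 ⊢
        simp only [neg_zero, Real.rpow_zero] at h2 ⊢
        exact h2
      · have h3 : (-α) ≠ 0 := neg_ne_zero.2 h1.ne'
        simp only [inner_zero_left, abs_zero, norm_zero, Real.zero_rpow h3, ENNReal.ofReal_zero,
          zero_mul, mul_zero, lintegral_zero]
    · exact hc y hy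
  -- the three integrals
  set Fg : G → ℝ≥0∞ := fun g => ∫⁻ x, ENNReal.ofReal (|inner ℝ (Y x) g| ^ α) * H x with hFg
  set Ng : G → ℝ≥0∞ := fun g => ∫⁻ x, ENNReal.ofReal (|inner ℝ (Y x) g| ^ (-α)) * H x with hNg
  set Mg : G → ℝ≥0∞ := fun g => ∫⁻ x, ENNReal.ofReal (|inner ℝ (Y x) g| ^ (-α)) *
    (ENNReal.ofReal (‖Y x‖ ^ (2 * α)) * H x) with hMg
  have hton : ∀ K : F → ℝ≥0∞, Measurable K →
      ∫⁻ g, gw g * ∫⁻ x, ENNReal.ofReal (|inner ℝ (Y x) g| ^ (-α)) * K x =
        c * ∫⁻ x, ENNReal.ofReal (‖Y x‖ ^ (-α)) * K x := by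
    intro K hK
    have e1 : ∀ g : G, gw g * ∫⁻ x, ENNReal.ofReal (|inner ℝ (Y x) g| ^ (-α)) * K x =
        ∫⁻ x, gw g * (ENNReal.ofReal (|inner ℝ (Y x) g| ^ (-α)) * K x) := fun g =>
      (lintegral_const_mul _ ((him g (-α)).mul hK)).symm
    simp_rw [e1]
    have hjoint : Measurable (Function.uncurry fun (g : G) (x : F) =>
        gw g * (ENNReal.ofReal (|inner ℝ (Y x) g| ^ (-α)) * K x)) :=
      (hgwm.comp measurable_fst).mul (hjoint0 K hK)
    rw [lintegral_lintegral_swap hjoint.aemeasurable]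
    have hnK : Measurable fun x => ENNReal.ofReal (‖Y x‖ ^ (-α)) * K x := (hnm (-α)).mul hK
    rw [← lintegral_const_mul _ hnK]
    refine lintegral_congr fun x => ?_
    have hgm : Measurable fun g : G => ENNReal.ofReal (|inner ℝ (Y x) g| ^ (-α)) * gw g := by
      have h1 : Continuous fun g : G => inner ℝ (Y x) g := continuous_const.inner continuous_id
      exact ((h1.abs.measurable).pow_const (-α)).ennreal_ofReal.mul hgwm
    have e2 : ∀ g : G, gw g * (ENNReal.ofReal (|inner ℝ (Y x) g| ^ (-α)) * K x) =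
        K x * (ENNReal.ofReal (|inner ℝ (Y x) g| ^ (-α)) * gw g) := fun g => by ring
    simp_rw [e2]
    rw [lintegral_const_mul _ hgm, hcy]
    ring
  have hN : ∫⁻ g, gw g * Ng g = c * B := hton H hHm
  have hK2 : Measurable fun x => ENNReal.ofReal (‖Y x‖ ^ (2 * α)) * H x :=
    (hnm (2 * α)).mul hHm
  have hM : ∫⁻ g, gw g * Mg g = c * A := by
    refine (hton _ hK2).trans ?_
    rw [hA]
    congr 1
    refine lintegral_congr_ae ?_
    obtain ⟨g0, hg0⟩ : ∃ g0 : G, inner ℝ g0 (P v) ≠ 0 := ⟨P v, by simpa using hv⟩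
    have h1 : ∀ᵐ x : F, ((innerSL ℝ g0).comp P) x ≠ inner ℝ g0 b :=
      ae_ne_aux (v := v) (by simpa using hg0) _
    filter_upwards [h1] with x hx
    have hYx : Y x ≠ 0 := by
      intro h2
      apply hx
      have h3 : P x = b := sub_eq_zero.1 h2
      simp [h3]
    have hpos : 0 < ‖Y x‖ := norm_pos_iff.2 hYx
    rw [← mul_assoc, ← ENNReal.ofReal_mul (by positivity), ← Real.rpow_add hpos]
    congr 3
    ring
  have hker : ∀ᵐ g : G, (ContinuousLinearMap.adjoint P) g ≠ 0 := by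
    have h1 : LinearMap.ker ((ContinuousLinearMap.adjoint P : G →L[ℝ] F) : G →ₗ[ℝ] F) ≠ ⊤ := by
      intro h2
      rw [LinearMap.ker_eq_top] at h2
      have h3 : inner ℝ ((ContinuousLinearMap.adjoint P) (P v)) v = (0 : ℝ) := by
        have : (ContinuousLinearMap.adjoint P) (P v) = 0 := LinearMap.congr_fun h2 (P v)
        rw [this, inner_zero_left]
      rw [ContinuousLinearMap.adjoint_inner_left] at h3
      exact hv (inner_self_eq_zero.1 h3)
    have h2 := Measure.addHaar_submodule (volume : Measure G) _ h1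
    rw [ae_iff]
    simp only [not_not]
    exact h2
  have hin : ∀ (g : G) (x : F),
      inner ℝ ((ContinuousLinearMap.adjoint P) g) x - inner ℝ b g = inner ℝ (Y x) g := by
    intro g x
    rw [ContinuousLinearMap.adjoint_inner_left, hY]
    simp only [inner_sub_left]
    rw [real_inner_comm]
  have hFN : ∀ᵐ g : G, Fg g * Ng g ≤ ENNReal.ofReal (cA α) * Z ^ 2 := by
    filter_upwards [hker] with g hg
    have h1 := a2_lin h0 hm hlc hi hi1 hg (inner ℝ b g) hα0 hα1
    simp only [hin] at h1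
    exact h1
  have hCS : ∀ᵐ g : G, A ^ 2 ≤ Fg g * Mg g := by
    filter_upwards [hker] with g hg
    set f1 : F → ℝ≥0∞ := fun x => ENNReal.ofReal (|inner ℝ (Y x) g| ^ α) * H x with hf1
    set f2 : F → ℝ≥0∞ := fun x => ENNReal.ofReal (|inner ℝ (Y x) g| ^ (-α)) *
      (ENNReal.ofReal (‖Y x‖ ^ (2 * α)) * H x) with hf2
    have hf1m : Measurable f1 := (him g α).mul hHm
    have hf2m : Measurable f2 := (him g (-α)).mul ((hnm (2 * α)).mul hHm)
    have hne : ∀ᵐ x : F, inner ℝ (Y x) g ≠ 0 := by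
      have h1 : (innerSL ℝ ((ContinuousLinearMap.adjoint P) g) : F →L[ℝ] ℝ)
          ((ContinuousLinearMap.adjoint P) g) ≠ 0 := by simpa using hg
      filter_upwards [ae_ne_aux h1 (inner ℝ b g)] with x hx
      rw [← hin]
      intro h2
      apply hx
      rw [innerSL_apply_apply]
      linarith
    have e1 : A = ∫⁻ x, ((fun x => f1 x ^ (1 / 2 : ℝ)) * fun x => f2 x ^ (1 / 2 : ℝ)) x := by
      rw [hA]
      refine lintegral_congr_ae ?_
      filter_upwards [hne] with x hx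
      simp only [Pi.mul_apply]
      rw [← ENNReal.mul_rpow_of_nonneg _ _ (by norm_num : (0 : ℝ) ≤ 1 / 2)]
      have hpos : 0 < |inner ℝ (Y x) g| := abs_pos.2 hx
      have e3 : f1 x * f2 x = (ENNReal.ofReal (‖Y x‖ ^ α) * H x) ^ (2 : ℝ) := by
        simp only [hf1, hf2]
        have e4 : ENNReal.ofReal (|inner ℝ (Y x) g| ^ α) *
            ENNReal.ofReal (|inner ℝ (Y x) g| ^ (-α)) = 1 := by
          rw [← ENNReal.ofReal_mul (by positivity), ← Real.rpow_add hpos, add_neg_cancel,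
            Real.rpow_zero, ENNReal.ofReal_one]
        have e5 : ENNReal.ofReal (‖Y x‖ ^ (2 * α)) = ENNReal.ofReal (‖Y x‖ ^ α) ^ (2 : ℕ) := by
          rw [← ENNReal.ofReal_pow (by positivity), ← Real.rpow_natCast, ← Real.rpow_mul
            (norm_nonneg _), mul_comm]
          norm_num
        rw [e5, show (2 : ℝ) = ((2 : ℕ) : ℝ) by norm_num, ENNReal.rpow_natCast]
        calc ENNReal.ofReal (|inner ℝ (Y x) g| ^ α) * H x *
              (ENNReal.ofReal (|inner ℝ (Y x) g| ^ (-α)) *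
                (ENNReal.ofReal (‖Y x‖ ^ α) ^ 2 * H x))
            = (ENNReal.ofReal (|inner ℝ (Y x) g| ^ α) *
              ENNReal.ofReal (|inner ℝ (Y x) g| ^ (-α))) *
              (ENNReal.ofReal (‖Y x‖ ^ α) * H x) ^ 2 := by ring
          _ = _ := by rw [e4, one_mul]
      rw [e3, ← ENNReal.rpow_mul]
      norm_num
    have h2 := ENNReal.lintegral_mul_le_Lp_mul_Lq (volume : Measure F)
      (Real.HolderConjugate.two_two) (hf1m.pow_const (1 / 2 : ℝ)).aemeasurable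
      (hf2m.pow_const (1 / 2 : ℝ)).aemeasurable
    rw [← e1] at h2
    simp only [← ENNReal.rpow_mul] at h2
    norm_num at h2
    have h3 := pow_le_pow_left' h2 2
    refine h3.trans (le_of_eq ?_)
    rw [mul_pow, ← ENNReal.rpow_natCast, ← ENNReal.rpow_natCast, ← ENNReal.rpow_mul,
      ← ENNReal.rpow_mul]
    norm_num
    rfl
  have hgN : Measurable fun g => gw g * Ng g :=
    hgwm.mul (hjoint0 H hHm).lintegral_prod_right'
  have hgM : Measurable fun g => gw g * Mg g :=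
    hgwm.mul (hjoint0 _ ((hnm (2 * α)).mul hHm)).lintegral_prod_right'
  have h1 : A ^ 2 * (c * B) ≤ (ENNReal.ofReal (cA α) * Z ^ 2) * (c * A) := by
    rw [← hN, ← hM, ← lintegral_const_mul _ hgN, ← lintegral_const_mul _ hgM]
    refine lintegral_mono_ae ?_
    filter_upwards [hFN, hCS] with g hg1 hg2
    calc A ^ 2 * (gw g * Ng g) ≤ (Fg g * Mg g) * (gw g * Ng g) := by gcongr
      _ = (Fg g * Ng g) * (gw g * Mg g) := by ring
      _ ≤ _ := by gcongr
  have h2 : (c * A) * (A * B) ≤ (c * A) * (ENNReal.ofReal (cA α) * Z ^ 2) := by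
    calc (c * A) * (A * B) = A ^ 2 * (c * B) := by ring
      _ ≤ _ := h1
      _ = _ := by ring
  exact (ENNReal.mul_le_mul_iff_right (mul_ne_zero hc0 hA0) (ENNReal.mul_ne_top hctop hAfin)).1 h2

end Pool.Agent.Lib.MP_8d00da_gt.h42r
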