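import Mathlib
import Pool.Agent.Lib.MP_8d00da_gt.h42r.ADefs
import Pool.Agent.Lib.MP_8d00da_gt.h42r.AM5b

namespace Pool.Agent.Lib.MP_8d00da_gt.h42s
end Pool.Agent.Lib.MP_8d00da_gt.h42s
namespace Pool.Agent.Lib.MP_8d00da_gt.h42o
end Pool.Agent.Lib.MP_8d00da_gt.h42o
namespace Pool.Agent.Lib.MP_8d00da_gt.h97r
end Pool.Agent.Lib.MP_8d00da_gt.h97r


/-!
# The A2 condition for powers of norms
-/

namespace Pool.Agent.Lib.MP_8d00da_gt.h42r

open MeasureTheory Set Filter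
open Pool.Agent.Lib.MP_8d00da_gt.h25 Pool.Agent.Lib.MP_8d00da_gt.h42
open Pool.Agent.Lib.MP_8d00da_gt.h42s Pool.Agent.Lib.MP_8d00da_gt.h42o
open Pool.Agent.Lib.MP_8d00da_gt.h97r
open scoped Topology NNReal ENNReal

set_option linter.unusedSectionVars false

variable {F : Type*} [NormedAddCommGroup F] [InnerProductSpace ℝ F]
    [FiniteDimensional ℝ F] [MeasurableSpace F] [BorelSpace F]

variable {G : Type*} [NormedAddCommGroup G] [InnerProductSpace ℝ G]
    [FiniteDimensional ℝ G] [MeasurableSpace G] [BorelSpace G]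

variable {ι : Type*} [Fintype ι]

/-- The `A2` condition for the weight `c ‖P x - b‖^β`, `|β| < 1`, `c > 0` (`a2_pow` with
`α = |β|`; the constant `c` cancels; `w / (c t^β) = (1/c) w t^{-β}`). -/
theorem A2_pow {h : F → ℝ} (h0 : ∀ x, 0 ≤ h x) (hm : Measurable h) (hlc : LogConc h)
    (hi : Integrable h) (hi1 : Integrable fun x => ‖x‖ * h x) {P : F →L[ℝ] G} (hP : P ≠ 0) (b : G)
    {β c : ℝ} (hβ : |β| < 1) (hc : 0 < c) :
    A2 (cA |β|) h (fun x => c * ‖P x - b‖ ^ β) := by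
  have key : ∀ (d γ : ℝ), 0 ≤ d →
      ∫⁻ x, ENNReal.ofReal (h x * (d * ‖P x - b‖ ^ γ)) =
      ENNReal.ofReal d * ∫⁻ x, ENNReal.ofReal (‖P x - b‖ ^ γ) * ENNReal.ofReal (h x) := by
    intro d γ hd
    have h1 : Measurable fun x : F => ENNReal.ofReal (‖P x - b‖ ^ γ) := by
      fun_prop
    have h2 : Measurable fun x : F =>
        ENNReal.ofReal (‖P x - b‖ ^ γ) * ENNReal.ofReal (h x) := h1.mul hm.ennreal_ofReal
    rw [← lintegral_const_mul _ h2]
    refine lintegral_congr fun x => ?_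
    have hnn : 0 ≤ ‖P x - b‖ ^ γ := Real.rpow_nonneg (norm_nonneg _) _
    rw [← ENNReal.ofReal_mul hnn, ← ENNReal.ofReal_mul hd]
    congr 1
    ring
  have e2 : ∀ x, h x / (c * ‖P x - b‖ ^ β) = h x * (c⁻¹ * ‖P x - b‖ ^ (-β)) := by
    intro x
    rw [Real.rpow_neg (norm_nonneg _), div_eq_mul_inv, mul_inv]
  have hcc : ENNReal.ofReal c * ENNReal.ofReal c⁻¹ = 1 := by
    rw [← ENNReal.ofReal_mul hc.le, mul_inv_cancel₀ hc.ne', ENNReal.ofReal_one]
  unfold A2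
  simp only [e2]
  rw [key c β hc.le, key c⁻¹ (-β) (inv_pos.mpr hc).le]
  have hre : ∀ I J : ℝ≥0∞, ENNReal.ofReal c * I * (ENNReal.ofReal c⁻¹ * J) = I * J := by
    intro I J
    calc ENNReal.ofReal c * I * (ENNReal.ofReal c⁻¹ * J)
        = (ENNReal.ofReal c * ENNReal.ofReal c⁻¹) * (I * J) := by ring
      _ = I * J := by rw [hcc, one_mul]
  rw [hre]
  rcases le_total 0 β with h | h
  · rw [abs_of_nonneg h] at hβ ⊢
    exact a2_pow h0 hm hlc hi hi1 hP b h hβ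
  · rw [abs_of_nonpos h] at hβ ⊢
    have := a2_pow h0 hm hlc hi hi1 hP b (neg_nonneg.mpr h) hβ
    rw [neg_neg, mul_comm] at this
    exact this

end Pool.Agent.Lib.MP_8d00da_gt.h42r
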