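import Mathlib
import Pool.Agent.Lib.MP_8d00da_gt.h42r.ADefs

namespace Pool.Agent.Lib.MP_8d00da_gt.h25
end Pool.Agent.Lib.MP_8d00da_gt.h25
namespace Pool.Agent.Lib.MP_8d00da_gt.h42s
end Pool.Agent.Lib.MP_8d00da_gt.h42s
namespace Pool.Agent.Lib.MP_8d00da_gt.h42o
end Pool.Agent.Lib.MP_8d00da_gt.h42o
namespace Pool.Agent.Lib.MP_8d00da_gt.h97r
end Pool.Agent.Lib.MP_8d00da_gt.h97r


/-!
# Log-concavity of (L - V)_+ and of the indicator of a sublevel set
-/

namespace Pool.Agent.Lib.MP_8d00da_gt.h42r

open MeasureTheory Set Filter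
open Pool.Agent.Lib.MP_8d00da_gt.h25 Pool.Agent.Lib.MP_8d00da_gt.h42
open Pool.Agent.Lib.MP_8d00da_gt.h42s Pool.Agent.Lib.MP_8d00da_gt.h42o
open Pool.Agent.Lib.MP_8d00da_gt.h97r
open scoped Topology NNReal ENNReal

set_option linter.unusedSectionVars false

variable {F : Type*} [NormedAddCommGroup F] [InnerProductSpace ℝ F]
    [FiniteDimensional ℝ F] [MeasurableSpace F] [BorelSpace F]

variable {G : Type*} [NormedAddCommGroup G] [InnerProductSpace ℝ G]
    [FiniteDimensional ℝ G] [MeasurableSpace G] [BorelSpace G]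

variable {ι : Type*} [Fintype ι]

/-- `pp V L` is log-concave (`max (L - V) 0` with `L - V` concave; weighted arithmetic-geometric
mean), `ib V L` is log-concave. -/
theorem pp_lc {V : F → ℝ} (hV : ConvexOn ℝ univ V) (L : ℝ) : LogConc (pp V L) := by
  intro a ha0 ha1 x y
  have hb0 : 0 < 1 - a := by linarith
  rcases eq_or_lt_of_le (pp_nonneg V L x) with hx | hx
  · rw [← hx, Real.zero_rpow hb0.ne', zero_mul]
    exact pp_nonneg V L _
  rcases eq_or_lt_of_le (pp_nonneg V L y) with hy | hy
  · rw [← hy, Real.zero_rpow ha0.ne', mul_zero]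
    exact pp_nonneg V L _
  have ex : pp V L x = L - V x := by
    unfold pp at hx ⊢
    exact max_eq_left (le_of_lt (by
      rcases lt_max_iff.1 hx with h | h
      · exact h
      · exact absurd h (lt_irrefl _)))
  have ey : pp V L y = L - V y := by
    unfold pp at hy ⊢
    exact max_eq_left (le_of_lt (by
      rcases lt_max_iff.1 hy with h | h
      · exact h
      · exact absurd h (lt_irrefl _)))
  refine (Real.geom_mean_le_arith_mean2_weighted hb0.le ha0.le hx.le hy.le (by ring)).trans ?_
  have h1 := hV.2 (mem_univ x) (mem_univ y) hb0.le ha0.le (by ring)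
  simp only [smul_eq_mul] at h1
  refine le_trans ?_ (le_max_left _ _)
  rw [ex, ey]
  nlinarith

theorem ib_lc {V : F → ℝ} (hV : ConvexOn ℝ univ V) (L : ℝ) : LogConc (ib V L) := by
  intro a ha0 ha1 x y
  have hb0 : 0 < 1 - a := by linarith
  by_cases hx : V x < L
  · by_cases hy : V y < L
    · have h1 := hV.2 (mem_univ x) (mem_univ y) hb0.le ha0.le (by ring)
      simp only [smul_eq_mul] at h1
      have h2 : V ((1 - a) • x + a • y) < L := by
        refine lt_of_le_of_lt h1 ?_
        nlinarith
      have e1 : ib V L x = 1 := indicator_of_mem (s := {x | V x < L}) hx _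
      have e2 : ib V L y = 1 := indicator_of_mem (s := {x | V x < L}) hy _
      have e3 : ib V L ((1 - a) • x + a • y) = 1 := indicator_of_mem (s := {x | V x < L}) h2 _
      rw [e1, e2, e3, Real.one_rpow, Real.one_rpow, mul_one]
    · have e2 : ib V L y = 0 := indicator_of_notMem (s := {x | V x < L}) hy _
      rw [e2, Real.zero_rpow ha0.ne', mul_zero]
      exact ib_nonneg V L _
  · have e2 : ib V L x = 0 := indicator_of_notMem (s := {x | V x < L}) hx _
    rw [e2, Real.zero_rpow hb0.ne', zero_mul]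
    exact ib_nonneg V L _

end Pool.Agent.Lib.MP_8d00da_gt.h42r
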