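import Mathlib
import Pool.Agent.Lib.MP_8d00da_gt.h42r.ADefs

namespace Pool.Agent.Lib.MP_8d00da_gt.h25
end Pool.Agent.Lib.MP_8d00da_gt.h25
namespace Pool.Agent.Lib.MP_8d00da_gt.h42s
end Pool.Agent.Lib.MP_8d00da_gt.h42s
namespace Pool.Agent.Lib.MP_8d00da_gt.h42o
end Pool.Agent.Lib.MP_8d00da_gt.h42o
namespace Pool.Agent.Lib.MP_8d00da_gt.h97r
end Pool.Agent.Lib.MP_8d00da_gt.h97r


/-!
# Sums of powers: definitions and second differences
-/

namespace Pool.Agent.Lib.MP_8d00da_gt.h42r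

open MeasureTheory Set Filter
open Pool.Agent.Lib.MP_8d00da_gt.h25 Pool.Agent.Lib.MP_8d00da_gt.h42
open Pool.Agent.Lib.MP_8d00da_gt.h42s Pool.Agent.Lib.MP_8d00da_gt.h42o
open Pool.Agent.Lib.MP_8d00da_gt.h97r
open scoped Topology NNReal ENNReal

set_option linter.unusedSectionVars false

variable {F : Type*} [NormedAddCommGroup F] [InnerProductSpace ℝ F]
    [FiniteDimensional ℝ F] [MeasurableSpace F] [BorelSpace F]

variable {G : Type*} [NormedAddCommGroup G] [InnerProductSpace ℝ G]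
    [FiniteDimensional ℝ G] [MeasurableSpace G] [BorelSpace G]

variable {ι : Type*} [Fintype ι]

/-- The function `∑ c_j ‖P_j x - b_j‖^{p_j} + ⟪v, x⟫`. -/
noncomputable def Vf (c p : ι → ℝ) (P : ι → F →L[ℝ] G) (b : ι → G) (v : F) (x : F) : ℝ :=
  ∑ j, c j * ‖P j x - b j‖ ^ p j + inner ℝ v x

/-- The weights. -/
noncomputable def ωf (c p : ι → ℝ) (P : ι → F →L[ℝ] G) (b : ι → G) (j : ι) (x : F) : ℝ :=
  c j * (p j * min 1 (p j - 1)) * ‖P j x - b j‖ ^ (p j - 2)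

/-- `sd (Vf) x u = ∑ c_j sd (‖·‖^{p_j}) (P_j x - b_j) (P_j u)`. -/
theorem sd_Vf (c p : ι → ℝ) (P : ι → F →L[ℝ] G) (b : ι → G) (v : F) (x u : F) :
    sd (Vf c p P b v) x u = ∑ j, c j * sd (fun y : G => ‖y‖ ^ p j) (P j x - b j) (P j u) := by
  have e1 : ∀ j, P j (x + u) - b j = P j x - b j + P j u := fun j => by rw [map_add]; abel
  have e2 : ∀ j, P j (x - u) - b j = P j x - b j - P j u := fun j => by rw [map_sub]; abel
  simp only [sd, Vf, e1, e2, inner_add_right, inner_sub_right]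
  have h3 : ∑ j, c j * (‖P j x - b j + P j u‖ ^ p j + ‖P j x - b j - P j u‖ ^ p j -
      2 * ‖P j x - b j‖ ^ p j) = ∑ j, c j * ‖P j x - b j + P j u‖ ^ p j +
      ∑ j, c j * ‖P j x - b j - P j u‖ ^ p j - 2 * ∑ j, c j * ‖P j x - b j‖ ^ p j := by
    rw [Finset.mul_sum, ← Finset.sum_add_distrib, ← Finset.sum_sub_distrib]
    exact Finset.sum_congr rfl fun j _ => by ring
  rw [h3]
  ring

end Pool.Agent.Lib.MP_8d00da_gt.h42r
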