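import Mathlib
import Pool.Agent.Lib.MP_8d00da_gt.h42r.ADefs

namespace Pool.Agent.Lib.MP_8d00da_gt.h25
end Pool.Agent.Lib.MP_8d00da_gt.h25
namespace Pool.Agent.Lib.MP_8d00da_gt.h42s
end Pool.Agent.Lib.MP_8d00da_gt.h42s
namespace Pool.Agent.Lib.MP_8d00da_gt.h42o
end Pool.Agent.Lib.MP_8d00da_gt.h42o
namespace Pool.Agent.Lib.MP_8d00da_gt.h97r
end Pool.Agent.Lib.MP_8d00da_gt.h97r


/-!
# Second differences of powers of the norm
-/

namespace Pool.Agent.Lib.MP_8d00da_gt.h42r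

open MeasureTheory Set Filter
open Pool.Agent.Lib.MP_8d00da_gt.h25 Pool.Agent.Lib.MP_8d00da_gt.h42
open Pool.Agent.Lib.MP_8d00da_gt.h42s Pool.Agent.Lib.MP_8d00da_gt.h42o
open Pool.Agent.Lib.MP_8d00da_gt.h97r
open scoped Topology NNReal ENNReal

set_option linter.unusedSectionVars false

variable {F : Type*} [NormedAddCommGroup F] [InnerProductSpace ℝ F]
    [FiniteDimensional ℝ F] [MeasurableSpace F] [BorelSpace F]

variable {G : Type*} [NormedAddCommGroup G] [InnerProductSpace ℝ G]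
    [FiniteDimensional ℝ G] [MeasurableSpace G] [BorelSpace G]

variable {ι : Type*} [Fintype ι]

private lemma ap1_half (y : G) (p : ℝ) : (‖y‖ ^ 2) ^ (p / 2) = ‖y‖ ^ p := by
  rw [← Real.rpow_natCast ‖y‖ 2, ← Real.rpow_mul (norm_nonneg y)]
  congr 1
  push_cast
  ring

/-- second-order Taylor expansion of a power, lower bound -/
private lemma ap1_taylor (q : ℝ) {a : ℝ} (ha : 0 < a) {ε : ℝ} (hε : 0 < ε) :
    ∃ r : ℝ, 0 < r ∧ ∀ h : ℝ, |h| < r →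
      a ^ q + q * a ^ (q - 1) * h + q * (q - 1) * a ^ (q - 2) / 2 * h ^ 2 - ε * h ^ 2 ≤
        (a + h) ^ q := by
  -- derivative of x ^ (q - 1) at a
  have h1 : HasDerivAt (fun x : ℝ => q * x ^ (q - 1)) (q * ((q - 1) * a ^ (q - 2))) a := by
    have := (Real.hasDerivAt_rpow_const (x := a) (p := q - 1) (Or.inl ha.ne')).const_mul q
    have e : q - 1 - 1 = q - 2 := by ring
    rw [e] at this
    exact this
  have h2 := (hasDerivAt_iff_isLittleO.1 h1).def (c := 2 * ε) (by linarith)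
  rw [Metric.eventually_nhds_iff] at h2
  obtain ⟨r0, hr0, hr⟩ := h2
  refine ⟨min r0 a, lt_min hr0 ha, fun h hh => ?_⟩
  have hhr0 : |h| < r0 := hh.trans_le (min_le_left _ _)
  have hha : |h| < a := hh.trans_le (min_le_right _ _)
  -- g t = (a + t h)^q - a^q - q a^(q-1) t h - q(q-1)a^(q-2)/2 t^2 h^2 + ε t^2 h^2
  let g : ℝ → ℝ := fun t => (a + t * h) ^ q - q * a ^ (q - 1) * (t * h) -
    q * (q - 1) * a ^ (q - 2) / 2 * (t * h) ^ 2 + ε * (t * h) ^ 2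
  have hpos : ∀ t ∈ Icc (0 : ℝ) 1, 0 < a + t * h := by
    intro t ht
    have h3 : |t * h| ≤ |h| := by
      rw [abs_mul, abs_of_nonneg ht.1]
      exact mul_le_of_le_one_left (abs_nonneg h) ht.2
    have := neg_abs_le (t * h)
    linarith
  have hg : ∀ t ∈ Icc (0 : ℝ) 1, HasDerivAt g
      (h * (q * (a + t * h) ^ (q - 1) - q * a ^ (q - 1) - q * ((q - 1) * a ^ (q - 2)) * (t * h) +
        2 * ε * (t * h))) t := by
    intro t ht
    have h3 : HasDerivAt (fun t : ℝ => t * h) h t := by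
      simpa using (hasDerivAt_id t).mul_const h
    have h4 : HasDerivAt (fun t : ℝ => a + t * h) h t := by
      simpa using h3.const_add a
    have h5 := h4.rpow_const (p := q) (Or.inl (hpos t ht).ne')
    have h6 := h3.const_mul (q * a ^ (q - 1))
    have h7 := (h3.pow 2).const_mul (q * (q - 1) * a ^ (q - 2) / 2)
    have h8 := (h3.pow 2).const_mul ε
    have h9 := ((h5.sub h6).sub h7).add h8
    refine h9.congr_deriv ?_
    push_cast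
    ring
  have hmono : MonotoneOn g (Icc 0 1) := by
    apply monotoneOn_of_deriv_nonneg (convex_Icc 0 1)
    · exact fun t ht => (hg t ht).continuousAt.continuousWithinAt
    · intro t ht
      rw [interior_Icc] at ht
      exact (hg t (Ioo_subset_Icc_self ht)).differentiableAt.differentiableWithinAt
    · intro t ht
      rw [interior_Icc] at ht
      have ht' := Ioo_subset_Icc_self ht
      rw [(hg t ht').deriv]
      have h3 : |t * h| ≤ |h| := by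
        rw [abs_mul, abs_of_nonneg ht'.1]
        exact mul_le_of_le_one_left (abs_nonneg h) ht'.2
      have h4 := hr (y := a + t * h) (by
        rw [Real.dist_eq, add_sub_cancel_left]
        exact h3.trans_lt hhr0)
      rw [add_sub_cancel_left, smul_eq_mul, Real.norm_eq_abs, Real.norm_eq_abs] at h4
      have h5 := abs_le.1 h4
      -- X := ... ; |X| ≤ 2 ε |t h|
      set X := q * (a + t * h) ^ (q - 1) - q * a ^ (q - 1) - t * h * (q * ((q - 1) * a ^ (q - 2)))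
        with hX
      have e : h * (q * (a + t * h) ^ (q - 1) - q * a ^ (q - 1) -
          q * ((q - 1) * a ^ (q - 2)) * (t * h) + 2 * ε * (t * h)) = h * X + 2 * ε * (t * h ^ 2) := by
        rw [hX]
        ring
      rw [e]
      have h6 : |h * X| ≤ 2 * ε * (t * h ^ 2) := by
        rw [abs_mul]
        calc |h| * |X| ≤ |h| * (2 * ε * |t * h|) := mul_le_mul_of_nonneg_left h4 (abs_nonneg h)
          _ = 2 * ε * (t * h ^ 2) := by
            rw [abs_mul, abs_of_nonneg ht'.1, ← sq_abs h]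
            ring
      have := neg_abs_le (h * X)
      linarith
  have h10 := hmono (left_mem_Icc.2 zero_le_one) (right_mem_Icc.2 zero_le_one) zero_le_one
  simp only [g, zero_mul, add_zero, one_mul, mul_zero, sub_zero] at h10
  norm_num at h10
  linarith

/-- Second derivative along a line. For `y, v : G` let `Q t = ‖y + t v‖²` and
`g t = ‖y + t v‖ ^ p = (Q t) ^ (p/2)`. Where `Q t > 0`:
`g'' = p Q^{p/2-2} ((p-2) ⟪y + t v, v⟫² + ‖v‖² Q)`, and `0 ≤ ⟪y + t v, v⟫² ≤ ‖v‖² Q` gives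
`p min 1 (p-1) ‖v‖² ‖y+tv‖^{p-2} ≤ g'' ≤ p max 1 (p-1) ‖v‖² ‖y+tv‖^{p-2}`.
Lower bound of the second difference near `y ≠ 0`: for `‖v‖ < ‖y‖/2` there is `t ∈ (0,1)` with
`g 1 + g (-1) - 2 g 0 = (g'' t + g'' (-t))/2` (Taylor for `t ↦ g t + g (-t)`), and
`‖y ± t v‖^{p-2} → ‖y‖^{p-2}` as `v → 0`. (Any other proof is welcome, e.g. `ContDiffAt` of
`‖·‖^p` at `y ≠ 0`.) -/
theorem pw_low {p : ℝ} (hp : 1 < p) {y : G} (hy : y ≠ 0) :
    LowAt (fun y : G => ‖y‖ ^ p) y fun v => p * min 1 (p - 1) * ‖y‖ ^ (p - 2) * ‖v‖ ^ 2 := by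
  intro δ hδ
  have hy0 : 0 < ‖y‖ := norm_pos_iff.2 hy
  set a := ‖y‖ ^ 2 with ha
  have ha0 : 0 < a := by positivity
  set q := p / 2 with hq
  set K := |q * (q - 1) * a ^ (q - 2)| with hK
  -- h = ‖u‖² ± 2⟨y,u⟩, |h| ≤ (1 + 2‖y‖)‖u‖ for ‖u‖ ≤ 1
  set N := 1 + 2 * ‖y‖ with hN
  have hN0 : 0 < N := by positivity
  obtain ⟨r, hr0, hr⟩ := ap1_taylor q ha0 (ε := δ / (4 * N ^ 2)) (by positivity)
  refine ⟨min (min 1 (r / N)) (√(δ / (2 * (K + 1)))), by positivity, fun u hu => ?_⟩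
  have hu1 : ‖u‖ < 1 := hu.trans_le ((min_le_left _ _).trans (min_le_left _ _))
  have hu2 : ‖u‖ < r / N := hu.trans_le ((min_le_left _ _).trans (min_le_right _ _))
  have hu3 : ‖u‖ < √(δ / (2 * (K + 1))) := hu.trans_le (min_le_right _ _)
  have hu3' : ‖u‖ ^ 2 ≤ δ / (2 * (K + 1)) := by
    have := Real.lt_sqrt (norm_nonneg u) |>.1 hu3
    exact this.le
  set c := inner ℝ y u with hc
  have hcs : |c| ≤ ‖y‖ * ‖u‖ := abs_real_inner_le_norm y u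
  have hcs2 : c ^ 2 ≤ a * ‖u‖ ^ 2 := by
    rw [ha, ← mul_pow, ← sq_abs c]
    exact pow_le_pow_left₀ (abs_nonneg c) hcs 2
  have e1 : ‖y + u‖ ^ 2 = a + (‖u‖ ^ 2 + 2 * c) := by
    rw [norm_add_sq_real]
    ring
  have e2 : ‖y - u‖ ^ 2 = a + (‖u‖ ^ 2 - 2 * c) := by
    rw [norm_sub_sq_real]
    ring
  have hb : ∀ s : ℝ, |s| ≤ ‖y‖ * ‖u‖ → |‖u‖ ^ 2 + 2 * s| ≤ N * ‖u‖ := by
    intro s hs
    have h1 : |‖u‖ ^ 2 + 2 * s| ≤ ‖u‖ ^ 2 + 2 * |s| := by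
      refine (abs_add_le _ _).trans ?_
      rw [abs_of_nonneg (sq_nonneg ‖u‖), abs_mul, abs_two]
    have h2 : ‖u‖ ^ 2 ≤ ‖u‖ := by
      rw [sq]
      exact mul_le_of_le_one_left (norm_nonneg u) hu1.le
    rw [hN]
    linarith
  have hNu : N * ‖u‖ < r := by
    rw [lt_div_iff₀ hN0] at hu2
    linarith
  have hb1 := hb c hcs
  have hb2 := hb (-c) (by rw [abs_neg]; exact hcs)
  have t1 := hr (‖u‖ ^ 2 + 2 * c) (hb1.trans_lt hNu)
  have t2 := hr (‖u‖ ^ 2 + 2 * -c) (hb2.trans_lt hNu)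
  have e3 : ‖u‖ ^ 2 + 2 * -c = ‖u‖ ^ 2 - 2 * c := by ring
  rw [e3] at t2
  rw [← e1, show (‖y + u‖ ^ 2) ^ q = ‖y + u‖ ^ p from ap1_half (y + u) p] at t1
  rw [← e2, show (‖y - u‖ ^ 2) ^ q = ‖y - u‖ ^ p from ap1_half (y - u) p] at t2
  have e4 : a ^ q = ‖y‖ ^ p := ap1_half y p
  have e5 : a ^ (q - 1) = ‖y‖ ^ (p - 2) := by
    have := ap1_half y (p - 2)
    rw [← this]
    congr 1
    rw [hq]
    ring
  have e6 : a ^ (q - 2) * a = ‖y‖ ^ (p - 2) := by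
    rw [← e5, ← Real.rpow_add_one ha0.ne']
    congr 1
    ring
  -- squares of the increments
  have s1 : (‖u‖ ^ 2 + 2 * c) ^ 2 ≤ N ^ 2 * ‖u‖ ^ 2 := by
    rw [← mul_pow, ← sq_abs (‖u‖ ^ 2 + 2 * c)]
    exact pow_le_pow_left₀ (abs_nonneg _) hb1 2
  have s2 : (‖u‖ ^ 2 - 2 * c) ^ 2 ≤ N ^ 2 * ‖u‖ ^ 2 := by
    rw [← mul_pow, ← sq_abs (‖u‖ ^ 2 - 2 * c), ← e3]
    exact pow_le_pow_left₀ (abs_nonneg _) hb2 2
  have s3 : δ / (4 * N ^ 2) * (‖u‖ ^ 2 + 2 * c) ^ 2 ≤ δ / 4 * ‖u‖ ^ 2 := by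
    calc δ / (4 * N ^ 2) * (‖u‖ ^ 2 + 2 * c) ^ 2 ≤ δ / (4 * N ^ 2) * (N ^ 2 * ‖u‖ ^ 2) :=
          mul_le_mul_of_nonneg_left s1 (by positivity)
      _ = δ / 4 * ‖u‖ ^ 2 := by field_simp
  have s4 : δ / (4 * N ^ 2) * (‖u‖ ^ 2 - 2 * c) ^ 2 ≤ δ / 4 * ‖u‖ ^ 2 := by
    calc δ / (4 * N ^ 2) * (‖u‖ ^ 2 - 2 * c) ^ 2 ≤ δ / (4 * N ^ 2) * (N ^ 2 * ‖u‖ ^ 2) :=
          mul_le_mul_of_nonneg_left s2 (by positivity)
      _ = δ / 4 * ‖u‖ ^ 2 := by field_simp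
  -- the term K ‖u‖^4
  have s5 : K * ‖u‖ ^ 4 ≤ δ / 2 * ‖u‖ ^ 2 := by
    have hK0 : 0 ≤ K := abs_nonneg _
    have h1 : K * ‖u‖ ^ 2 ≤ δ / 2 := by
      calc K * ‖u‖ ^ 2 ≤ K * (δ / (2 * (K + 1))) := mul_le_mul_of_nonneg_left hu3' hK0
        _ ≤ δ / 2 := by
          rw [mul_div_assoc', div_le_div_iff₀ (by positivity) (by norm_num)]
          nlinarith only [hδ, hK0]
    calc K * ‖u‖ ^ 4 = K * ‖u‖ ^ 2 * ‖u‖ ^ 2 := by ring
      _ ≤ δ / 2 * ‖u‖ ^ 2 := mul_le_mul_of_nonneg_right h1 (by positivity)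
  have s6 : -(K * ‖u‖ ^ 4) ≤ q * (q - 1) * a ^ (q - 2) * ‖u‖ ^ 4 := by
    have := neg_abs_le (q * (q - 1) * a ^ (q - 2))
    have h4 : (0 : ℝ) ≤ ‖u‖ ^ 4 := by positivity
    have h5 := mul_le_mul_of_nonneg_right this h4
    rw [← hK] at h5
    linarith only [h5]
  -- the main term
  have s7 : p * min 1 (p - 1) * ‖y‖ ^ (p - 2) * ‖u‖ ^ 2 ≤
      p * ‖y‖ ^ (p - 2) * ‖u‖ ^ 2 + 4 * (q * (q - 1) * a ^ (q - 2)) * c ^ 2 := by
    have hpow : 0 < ‖y‖ ^ (p - 2) := Real.rpow_pos_of_pos hy0 _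
    have hapow : 0 < a ^ (q - 2) := Real.rpow_pos_of_pos ha0 _
    have hq0 : 0 < q := by rw [hq]; linarith
    rcases le_total 1 (p - 1) with h | h
    · rw [min_eq_left h, mul_one]
      have hq1 : 0 ≤ q - 1 := by rw [hq]; linarith
      have : 0 ≤ 4 * (q * (q - 1) * a ^ (q - 2)) * c ^ 2 := by positivity
      linarith
    · rw [min_eq_right h]
      have hq1 : q - 1 ≤ 0 := by rw [hq]; linarith
      have h1 : 4 * (q * (q - 1) * a ^ (q - 2)) * (a * ‖u‖ ^ 2) ≤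
          4 * (q * (q - 1) * a ^ (q - 2)) * c ^ 2 := by
        apply mul_le_mul_of_nonpos_left hcs2
        have h9 : q * (q - 1) ≤ 0 := mul_nonpos_of_nonneg_of_nonpos hq0.le hq1
        have h10 := mul_nonpos_of_nonpos_of_nonneg h9 hapow.le
        linarith only [h10]
      have h2 : 4 * (q * (q - 1) * a ^ (q - 2)) * (a * ‖u‖ ^ 2) =
          p * (p - 2) * ‖y‖ ^ (p - 2) * ‖u‖ ^ 2 := by
        rw [← e6, hq]
        ring
      rw [h2] at h1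
      linarith only [h1]
  have e7 : q * (q - 1) * a ^ (q - 2) / 2 * (‖u‖ ^ 2 + 2 * c) ^ 2 +
      q * (q - 1) * a ^ (q - 2) / 2 * (‖u‖ ^ 2 - 2 * c) ^ 2 =
      q * (q - 1) * a ^ (q - 2) * ‖u‖ ^ 4 + 4 * (q * (q - 1) * a ^ (q - 2)) * c ^ 2 := by ring
  have e8 : q * a ^ (q - 1) * (‖u‖ ^ 2 + 2 * c) + q * a ^ (q - 1) * (‖u‖ ^ 2 - 2 * c) =
      p * ‖y‖ ^ (p - 2) * ‖u‖ ^ 2 := by
    rw [e5, hq]
    ring
  rw [e4] at t1 t2
  change p * min 1 (p - 1) * ‖y‖ ^ (p - 2) * ‖u‖ ^ 2 - δ * ‖u‖ ^ 2 ≤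
    ‖y + u‖ ^ p + ‖y - u‖ ^ p - 2 * ‖y‖ ^ p
  linarith only [t1, t2, s3, s4, s5, s6, s7, e7, e8]

end Pool.Agent.Lib.MP_8d00da_gt.h42r
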