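import Mathlib
import Pool.Agent.Lib.MP_8d00da_gt.h42r.ADefs

namespace Pool.Agent.Lib.MP_8d00da_gt.h25
end Pool.Agent.Lib.MP_8d00da_gt.h25
namespace Pool.Agent.Lib.MP_8d00da_gt.h42s
end Pool.Agent.Lib.MP_8d00da_gt.h42s
namespace Pool.Agent.Lib.MP_8d00da_gt.h42o
end Pool.Agent.Lib.MP_8d00da_gt.h42o
namespace Pool.Agent.Lib.MP_8d00da_gt.h97r
end Pool.Agent.Lib.MP_8d00da_gt.h97r


/-!
# Second differences of powers of the norm, upper bound, p <= 2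
-/

namespace Pool.Agent.Lib.MP_8d00da_gt.h42r

open MeasureTheory Set Filter
open Pool.Agent.Lib.MP_8d00da_gt.h25 Pool.Agent.Lib.MP_8d00da_gt.h42
open Pool.Agent.Lib.MP_8d00da_gt.h42s Pool.Agent.Lib.MP_8d00da_gt.h42o
open Pool.Agent.Lib.MP_8d00da_gt.h97r
open scoped Topology NNReal ENNReal

set_option linter.unusedSectionVars false

variable {F : Type*} [NormedAddCommGroup F] [InnerProductSpace ℝ F]
    [FiniteDimensional ℝ F] [MeasurableSpace F] [BorelSpace F]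

variable {G : Type*} [NormedAddCommGroup G] [InnerProductSpace ℝ G]
    [FiniteDimensional ℝ G] [MeasurableSpace G] [BorelSpace G]

variable {ι : Type*} [Fintype ι]

private lemma ap2_half (y : G) (p : ℝ) : (‖y‖ ^ 2) ^ (p / 2) = ‖y‖ ^ p := by
  rw [← Real.rpow_natCast ‖y‖ 2, ← Real.rpow_mul (norm_nonneg y)]
  congr 1
  push_cast
  ring

/-- `1 ≤ p ≤ 2`. `t ↦ t^{p/2}` is concave, so `(‖y+v‖^p + ‖y-v‖^p)/2 ≤
((‖y+v‖² + ‖y-v‖²)/2)^{p/2} = (‖y‖² + ‖v‖²)^{p/2} ≤ ‖y‖^p + (p/2) ‖y‖^{p-2} ‖v‖²` (tangent line at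
`‖y‖²`, i.e. Bernoulli `(1 + s)^{p/2} ≤ 1 + (p/2) s`, `Real.rpow_one_add_le_one_add_mul_self`). -/
theorem pw_up1 {p : ℝ} (hp1 : 1 ≤ p) (hp2 : p ≤ 2) {y : G} (hy : y ≠ 0) (v : G) :
    sd (fun y : G => ‖y‖ ^ p) y v ≤ p * ‖y‖ ^ (p - 2) * ‖v‖ ^ 2 := by
  unfold sd
  have hy0 : 0 < ‖y‖ := norm_pos_iff.2 hy
  have h1 := (Real.concaveOn_rpow (p := p / 2) (by linarith) (by linarith)).2
    (mem_Ici.2 (sq_nonneg ‖y + v‖)) (mem_Ici.2 (sq_nonneg ‖y - v‖))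
    (by norm_num : (0 : ℝ) ≤ 1 / 2) (by norm_num : (0 : ℝ) ≤ 1 / 2) (by norm_num)
  simp only [smul_eq_mul] at h1
  rw [ap2_half, ap2_half] at h1
  have h2 : 1 / 2 * ‖y + v‖ ^ 2 + 1 / 2 * ‖y - v‖ ^ 2 = ‖y‖ ^ 2 * (1 + ‖v‖ ^ 2 / ‖y‖ ^ 2) := by
    have := parallelogram_law_with_norm ℝ y v
    field_simp
    nlinarith [this]
  rw [h2, Real.mul_rpow (by positivity) (by positivity), ap2_half] at h1
  have h3 := rpow_one_add_le_one_add_mul_self (s := ‖v‖ ^ 2 / ‖y‖ ^ 2) (p := p / 2)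
    (by linarith [show 0 ≤ ‖v‖ ^ 2 / ‖y‖ ^ 2 by positivity]) (by linarith) (by linarith)
  have h4 : ‖y‖ ^ p = ‖y‖ ^ (p - 2) * ‖y‖ ^ 2 := by
    rw [← Real.rpow_natCast ‖y‖ 2, ← Real.rpow_add hy0]
    congr 1
    push_cast
    ring
  have h5 : ‖y‖ ^ p * (1 + ‖v‖ ^ 2 / ‖y‖ ^ 2) ^ (p / 2) ≤
      ‖y‖ ^ p * (1 + p / 2 * (‖v‖ ^ 2 / ‖y‖ ^ 2)) :=
    mul_le_mul_of_nonneg_left h3 (by positivity)
  have h6 : ‖y‖ ^ p * (1 + p / 2 * (‖v‖ ^ 2 / ‖y‖ ^ 2)) =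
      ‖y‖ ^ p + p / 2 * ‖y‖ ^ (p - 2) * ‖v‖ ^ 2 := by
    rw [h4]
    field_simp
  rw [h6] at h5
  linarith

end Pool.Agent.Lib.MP_8d00da_gt.h42r
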