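import Mathlib
import Pool.Agent.Lib.MP_8d00da_gt.h42r.ADefs

namespace Pool.Agent.Lib.MP_8d00da_gt.h25
end Pool.Agent.Lib.MP_8d00da_gt.h25
namespace Pool.Agent.Lib.MP_8d00da_gt.h42s
end Pool.Agent.Lib.MP_8d00da_gt.h42s
namespace Pool.Agent.Lib.MP_8d00da_gt.h42o
end Pool.Agent.Lib.MP_8d00da_gt.h42o
namespace Pool.Agent.Lib.MP_8d00da_gt.h97r
end Pool.Agent.Lib.MP_8d00da_gt.h97r


/-!
# Second differences of powers of the norm, upper bound, p >= 2
-/

namespace Pool.Agent.Lib.MP_8d00da_gt.h42r

open MeasureTheory Set Filter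
open Pool.Agent.Lib.MP_8d00da_gt.h25 Pool.Agent.Lib.MP_8d00da_gt.h42
open Pool.Agent.Lib.MP_8d00da_gt.h42s Pool.Agent.Lib.MP_8d00da_gt.h42o
open Pool.Agent.Lib.MP_8d00da_gt.h97r
open scoped Topology NNReal ENNReal

set_option linter.unusedSectionVars false

variable {F : Type*} [NormedAddCommGroup F] [InnerProductSpace ℝ F]
    [FiniteDimensional ℝ F] [MeasurableSpace F] [BorelSpace F]

variable {G : Type*} [NormedAddCommGroup G] [InnerProductSpace ℝ G]
    [FiniteDimensional ℝ G] [MeasurableSpace G] [BorelSpace G]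

variable {ι : Type*} [Fintype ι]

private lemma ap2b_half (y : G) (p : ℝ) : (‖y‖ ^ 2) ^ (p / 2) = ‖y‖ ^ p := by
  rw [← Real.rpow_natCast ‖y‖ 2, ← Real.rpow_mul (norm_nonneg y)]
  congr 1
  push_cast
  ring

/-- one-dimensional bound -/
private lemma ap2b_sub_le {q x y R : ℝ} (hq : 1 ≤ q) (hx : 0 ≤ x) (hxy : x ≤ y) (hyR : y ≤ R) :
    y ^ q - x ^ q ≤ q * R ^ (q - 1) * (y - x) := by
  rcases hx.eq_or_lt with rfl | hx0
  · rcases hxy.eq_or_lt with rfl | hy0
    · simp
    · rw [Real.zero_rpow (by linarith), sub_zero, sub_zero]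
      have h1 : y ^ q = y ^ (q - 1) * y := by
        rw [← Real.rpow_add_one hy0.ne']
        congr 1
        ring
      rw [h1]
      have h2 : y ^ (q - 1) ≤ R ^ (q - 1) := Real.rpow_le_rpow hy0.le hyR (by linarith)
      have h3 : 0 ≤ R ^ (q - 1) := Real.rpow_nonneg (by linarith) _
      nlinarith [mul_le_mul_of_nonneg_right h2 hy0.le, mul_nonneg h3 hy0.le]
  · have hy0 : 0 < y := hx0.trans_le hxy
    have h1 := one_add_mul_self_le_rpow_one_add (s := x / y - 1)
      (by have : 0 ≤ x / y := by positivity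
          linarith) hq
    have h2 : 1 + (x / y - 1) = x / y := by ring
    rw [h2, Real.div_rpow hx0.le hy0.le] at h1
    have h3 : 0 < y ^ q := Real.rpow_pos_of_pos hy0 q
    have h4 : y ^ q * (1 + q * (x / y - 1)) ≤ x ^ q := by
      rw [le_div_iff₀ h3] at h1
      linarith
    have h5 : y ^ q = y ^ (q - 1) * y := by
      rw [← Real.rpow_add_one hy0.ne']
      congr 1
      ring
    have h6 : y ^ q * (1 + q * (x / y - 1)) = y ^ q + q * y ^ (q - 1) * (x - y) := by
      rw [h5]
      field_simp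
    have h7 : y ^ (q - 1) ≤ R ^ (q - 1) := Real.rpow_le_rpow hy0.le hyR (by linarith)
    have h8 : q * y ^ (q - 1) * (y - x) ≤ q * R ^ (q - 1) * (y - x) := by
      apply mul_le_mul_of_nonneg_right _ (by linarith)
      exact mul_le_mul_of_nonneg_left h7 (by linarith)
    nlinarith [h4, h6, h8]

private lemma ap2b_one_dim {p s t : ℝ} (hp : 2 ≤ p) (hs : 0 ≤ s) (ht : 0 ≤ t) :
    (s + t) ^ p + |s - t| ^ p - 2 * s ^ p ≤ p * (p - 1) * (s + t) ^ (p - 2) * t ^ 2 := by
  set R := s + t with hR
  set M := p * (p - 1) * R ^ (p - 2) with hM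
  -- the function M x^2/2 - |x|^p is convex on [-R, R]
  have hder : ∀ x : ℝ, HasDerivAt (fun x : ℝ => M * x ^ 2 / 2 - |x| ^ p)
      (M * x - p * |x| ^ (p - 2) * x) x := by
    intro x
    have h1 := hasDerivAt_abs_rpow x (p := p) (by linarith)
    have h2 : HasDerivAt (fun x : ℝ => M * x ^ 2 / 2) (M * x) x := by
      have h := ((hasDerivAt_pow 2 x).const_mul M).div_const 2
      have e : M * (((2 : ℕ) : ℝ) * x ^ (2 - 1)) / 2 = M * x := by
        norm_num
        ring
      rw [e] at h
      exact h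
    exact h2.sub h1
  have hconv : ConvexOn ℝ (Icc (-R) R) (fun x : ℝ => M * x ^ 2 / 2 - |x| ^ p) := by
    apply MonotoneOn.convexOn_of_deriv (convex_Icc _ _)
      (fun x _ => (hder x).continuousAt.continuousWithinAt)
      (fun x _ => (hder x).differentiableAt.differentiableWithinAt)
    intro x hx y hy hxy
    rw [interior_Icc] at hx hy
    rw [(hder x).deriv, (hder y).deriv]
    have key : ∀ x y : ℝ, 0 ≤ x → x ≤ y → y ≤ R →
        M * x - p * |x| ^ (p - 2) * x ≤ M * y - p * |y| ^ (p - 2) * y := by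
      intro x y hx hxy hyR
      have hy : 0 ≤ y := hx.trans hxy
      have e : ∀ z : ℝ, 0 ≤ z → |z| ^ (p - 2) * z = z ^ (p - 1) := by
        intro z hz
        rw [abs_of_nonneg hz]
        rcases hz.eq_or_lt with rfl | hz
        · rw [mul_zero, Real.zero_rpow (by linarith)]
        · rw [← Real.rpow_add_one hz.ne']
          congr 1
          ring
      have h1 := ap2b_sub_le (q := p - 1) (by linarith) hx hxy hyR
      have e1 := e x hx
      have e2 := e y hy
      have e3 : p - 1 - 1 = p - 2 := by ring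
      rw [e3] at h1
      have h2 := mul_le_mul_of_nonneg_left h1 (by linarith : 0 ≤ p)
      have h3 : p * ((p - 1) * R ^ (p - 2) * (y - x)) = M * (y - x) := by
        rw [hM]
        ring
      rw [h3] at h2
      have h4 : p * |x| ^ (p - 2) * x = p * x ^ (p - 1) := by
        rw [mul_assoc, e1]
      have h5 : p * |y| ^ (p - 2) * y = p * y ^ (p - 1) := by
        rw [mul_assoc, e2]
      rw [h4, h5]
      linarith
    rcases le_total 0 x with h0 | h0
    · exact key x y h0 hxy hy.2.le
    · rcases le_total 0 y with h1 | h1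
      · have h2 := key 0 y le_rfl h1 hy.2.le
        have h3 := key 0 (-x) le_rfl (by linarith) (by linarith [hx.1])
        rw [abs_neg] at h3
        simp only [mul_zero, sub_zero, abs_zero] at h2 h3
        linarith
      · have h2 := key (-y) (-x) (by linarith) (by linarith) (by linarith [hx.1])
        rw [abs_neg, abs_neg] at h2
        linarith
  have h1 := hconv.2 (show s + t ∈ Icc (-R) R by constructor <;> linarith)
    (show s - t ∈ Icc (-R) R by constructor <;> linarith)
    (by norm_num : (0 : ℝ) ≤ 1 / 2) (by norm_num : (0 : ℝ) ≤ 1 / 2) (by norm_num)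
  simp only [smul_eq_mul] at h1
  have h2 : 1 / 2 * (s + t) + 1 / 2 * (s - t) = s := by ring
  rw [h2, abs_of_nonneg hs, abs_of_nonneg (by linarith : 0 ≤ s + t)] at h1
  rw [hR]
  nlinarith [h1]

/-- `2 ≤ p`. `(‖y+v‖^p + ‖y-v‖^p)/2`: with `s = ‖y+v‖²`, `t = ‖y-v‖²` use Taylor for
`g t = ‖y + t v‖^p`, which is `C²` (`p ≥ 2`) except possibly where `y + t v = 0`. A proof without
calculus of `g`: the function `k(u) = p (p-1) (‖y‖+‖v‖)^{p-2} u²/2 - ‖y + u v/‖v‖‖^p` is concave on
`[-‖v‖, ‖v‖]`... Alternatively: monotone limit `(‖·‖² + ε²)^{p/2}`, which is smooth with second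
derivative at most `p (p-1) (‖y‖+‖v‖+ε)^{p-2} ‖v‖²` on the segment, then `ε → 0`. -/
theorem pw_up2 {p : ℝ} (hp2 : 2 ≤ p) (y v : G) :
    sd (fun y : G => ‖y‖ ^ p) y v ≤ p * (p - 1) * (‖y‖ + ‖v‖) ^ (p - 2) * ‖v‖ ^ 2 := by
  unfold sd
  have h0 := ap2b_one_dim hp2 (norm_nonneg y) (norm_nonneg v)
  have h1 : ‖y + v‖ ^ p + ‖y - v‖ ^ p ≤ (‖y‖ + ‖v‖) ^ p + |‖y‖ - ‖v‖| ^ p := by
    -- convexity of x ^ (p / 2)
    set a := ‖y + v‖ ^ 2 with ha
    set b := ‖y - v‖ ^ 2 with hb
    set A := (‖y‖ + ‖v‖) ^ 2 with hA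
    set B := |‖y‖ - ‖v‖| ^ 2 with hB
    have hsum : a + b = A + B := by
      have := parallelogram_law_with_norm ℝ y v
      rw [ha, hb, hA, hB, sq_abs]
      nlinarith [this]
    have haA : a ≤ A := pow_le_pow_left₀ (norm_nonneg _) (norm_add_le y v) 2
    have hbA : b ≤ A := pow_le_pow_left₀ (norm_nonneg _) (norm_sub_le y v) 2
    have hconv := convexOn_rpow (p := p / 2) (by linarith)
    have hB0 : 0 ≤ B := by positivity
    have hA0 : 0 ≤ A := by positivity
    have e1 : (‖y‖ + ‖v‖) ^ p = A ^ (p / 2) := by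
      rw [hA, ← Real.rpow_natCast, ← Real.rpow_mul (by positivity)]
      congr 1
      push_cast
      ring
    have e2 : |‖y‖ - ‖v‖| ^ p = B ^ (p / 2) := by
      rw [hB, ← Real.rpow_natCast, ← Real.rpow_mul (by positivity)]
      congr 1
      push_cast
      ring
    rw [e1, e2, ← ap2b_half (y + v) p, ← ap2b_half (y - v) p]
    rcases eq_or_ne A B with hAB | hAB
    · have : a = A := by linarith
      have : b = B := by linarith
      simp_all
    · have hlt : B < A := lt_of_le_of_ne (by linarith) (Ne.symm hAB)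
      have hAB' : 0 < A - B := by linarith
      have h2 := hconv.2 (mem_Ici.2 hA0) (mem_Ici.2 hB0)
        (show 0 ≤ (a - B) / (A - B) from div_nonneg (by linarith) hAB'.le)
        (show 0 ≤ (A - a) / (A - B) from div_nonneg (by linarith) hAB'.le)
        (by field_simp; ring)
      have h3 := hconv.2 (mem_Ici.2 hA0) (mem_Ici.2 hB0)
        (show 0 ≤ (b - B) / (A - B) from div_nonneg (by linarith) hAB'.le)
        (show 0 ≤ (A - b) / (A - B) from div_nonneg (by linarith) hAB'.le)
        (by field_simp; ring)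
      simp only [smul_eq_mul] at h2 h3
      have e3 : (a - B) / (A - B) * A + (A - a) / (A - B) * B = a := by
        field_simp
        ring
      have e4 : (b - B) / (A - B) * A + (A - b) / (A - B) * B = b := by
        field_simp
        ring
      rw [e3] at h2
      rw [e4] at h3
      have e5 : (a - B) / (A - B) * A ^ (p / 2) + (A - a) / (A - B) * B ^ (p / 2) +
          ((b - B) / (A - B) * A ^ (p / 2) + (A - b) / (A - B) * B ^ (p / 2)) =
          A ^ (p / 2) + B ^ (p / 2) := by
        have e6 : b = A + B - a := by linarith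
        rw [e6]
        field_simp
        ring
      linarith
  linarith

end Pool.Agent.Lib.MP_8d00da_gt.h42r
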