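import Mathlib

namespace Pool.Agent.Lib.MP_8d00da_gt.h25
end Pool.Agent.Lib.MP_8d00da_gt.h25
namespace Pool.Agent.Lib.MP_8d00da_gt.h42
end Pool.Agent.Lib.MP_8d00da_gt.h42
namespace Pool.Agent.Lib.MP_8d00da_gt.h42s
end Pool.Agent.Lib.MP_8d00da_gt.h42s
namespace Pool.Agent.Lib.MP_8d00da_gt.h42o
end Pool.Agent.Lib.MP_8d00da_gt.h42o
namespace Pool.Agent.Lib.MP_8d00da_gt.h97r
end Pool.Agent.Lib.MP_8d00da_gt.h97r


/-!
# Lower bound for the covariance of a density
-/

namespace Pool.Agent.Lib.MP_8d00da_gt.h42r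

open MeasureTheory Set Filter
open Pool.Agent.Lib.MP_8d00da_gt.h25 Pool.Agent.Lib.MP_8d00da_gt.h42
open Pool.Agent.Lib.MP_8d00da_gt.h42s Pool.Agent.Lib.MP_8d00da_gt.h42o
open Pool.Agent.Lib.MP_8d00da_gt.h97r
open scoped Topology NNReal ENNReal

set_option linter.unusedSectionVars false

variable {F : Type*} [NormedAddCommGroup F] [InnerProductSpace ℝ F]
    [FiniteDimensional ℝ F] [MeasurableSpace F] [BorelSpace F]

variable {G : Type*} [NormedAddCommGroup G] [InnerProductSpace ℝ G]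
    [FiniteDimensional ℝ G] [MeasurableSpace G] [BorelSpace G]

variable {ι : Type*} [Fintype ι]

lemma cre_int3 {a b c : F → ℝ} (ha : Integrable a) (hb : Integrable b) (hc : Integrable c)
    (p q : ℝ) : ∫ x, (a x + (p * b x + q * c x)) = (∫ x, a x) + (p * (∫ x, b x) + q * ∫ x, c x) := by
  have h1 : Integrable (fun x => p * b x + q * c x) := (hb.const_mul p).add (hc.const_mul q)
  rw [integral_add ha h1, integral_add (hb.const_mul p) (hc.const_mul q), integral_const_mul,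
    integral_const_mul]

/-- Cauchy-Schwarz for real integrals. -/
lemma cre_cs {f g : F → ℝ} (hf : Integrable fun x => f x ^ 2) (hg : Integrable fun x => g x ^ 2)
    (hfg : Integrable fun x => f x * g x) :
    (∫ x, f x * g x) ^ 2 ≤ (∫ x, f x ^ 2) * ∫ x, g x ^ 2 := by
  have key : ∀ t : ℝ, 0 ≤ (∫ x, g x ^ 2) * (t * t) + (2 * ∫ x, f x * g x) * t +
      ∫ x, f x ^ 2 := by
    intro t
    have h1 : 0 ≤ ∫ x, (f x + t * g x) ^ 2 := integral_nonneg fun x => sq_nonneg _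
    have h2 : ∫ x, (f x + t * g x) ^ 2 =
        ∫ x, (f x ^ 2 + ((2 * t) * (f x * g x) + (t * t) * g x ^ 2)) := by
      refine integral_congr_ae (Eventually.of_forall fun x => ?_)
      simp only
      ring
    rw [h2, cre_int3 hf hfg hg] at h1
    linarith
  have h3 := discrim_le_zero key
  unfold discrim at h3
  nlinarith

/-- The inequality for a fixed translation vector. -/
lemma cre_step {h : F → ℝ} (h0 : ∀ x, 0 ≤ h x) (hh : Continuous h) (hi : Integrable h)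
    (hi2 : Integrable fun x => ‖x‖ ^ 2 * h x) (θ v : F) :
    (2 * inner ℝ θ v * ∫ x, h x) ^ 2 ≤
      (2 * ∫ x, (h x - √(h (x + v) * h (x - v)))) *
        (4 * (∫ x, (inner ℝ θ x) ^ 2 * h x) + 4 * (inner ℝ θ v) ^ 2 * ∫ x, h x) := by
  have ci : Continuous fun x : F => (inner ℝ θ x : ℝ) := continuous_const.inner continuous_id
  have hT2 : Integrable fun x => (inner ℝ θ x) ^ 2 * h x := by
    refine (hi2.const_mul (‖θ‖ ^ 2)).mono' ((ci.pow 2).mul hh).aestronglyMeasurable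
      (Eventually.of_forall fun x => ?_)
    rw [Real.norm_eq_abs, abs_of_nonneg (mul_nonneg (sq_nonneg _) (h0 x)), ← mul_assoc]
    refine mul_le_mul_of_nonneg_right ?_ (h0 x)
    have := abs_real_inner_le_norm θ x
    have h2 : |(inner ℝ θ x : ℝ)| ^ 2 ≤ (‖θ‖ * ‖x‖) ^ 2 := pow_le_pow_left₀ (abs_nonneg _) this 2
    rw [sq_abs] at h2
    linarith [mul_pow ‖θ‖ ‖x‖ 2]
  have hT1 : Integrable fun x => (inner ℝ θ x) * h x := by
    refine (hi.add hT2).mono' (ci.mul hh).aestronglyMeasurable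
      (Eventually.of_forall fun x => ?_)
    rw [Real.norm_eq_abs, abs_mul, abs_of_nonneg (h0 x)]
    simp only [Pi.add_apply]
    have : |(inner ℝ θ x : ℝ)| ≤ 1 + (inner ℝ θ x : ℝ) ^ 2 := by
      rw [← sq_abs (inner ℝ θ x : ℝ)]
      nlinarith [sq_nonneg (|(inner ℝ θ x : ℝ)| - 1), abs_nonneg (inner ℝ θ x : ℝ)]
    nlinarith [h0 x, mul_le_mul_of_nonneg_right this (h0 x)]
  -- translations
  have tr : ∀ (φ : F → ℝ) (w : F), ∫ x, φ (x + w) = ∫ x, φ x := fun φ w =>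
    integral_add_right_eq_self φ w
  have hip : Integrable fun x => h (x + v) := hi.comp_add_right v
  have him : Integrable fun x => h (x - v) := hi.comp_sub_right v
  have hlin : ∀ w : F, Integrable fun x => (inner ℝ θ (x + w) : ℝ) * h x := by
    intro w
    have : (fun x => (inner ℝ θ (x + w) : ℝ) * h x) =
        fun x => (inner ℝ θ x : ℝ) * h x + inner ℝ θ w * h x := by
      funext x; rw [inner_add_right]; ring
    rw [this]
    exact hT1.add (hi.const_mul _)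
  have hsq : ∀ w : F, Integrable fun x => (inner ℝ θ (x + w) : ℝ) ^ 2 * h x := by
    intro w
    have : (fun x => (inner ℝ θ (x + w) : ℝ) ^ 2 * h x) =
        fun x => (inner ℝ θ x : ℝ) ^ 2 * h x + (2 * inner ℝ θ w * ((inner ℝ θ x : ℝ) * h x) +
          (inner ℝ θ w) ^ 2 * h x) := by
      funext x; rw [inner_add_right]; ring
    rw [this]
    exact hT2.add ((hT1.const_mul _).add (hi.const_mul _))
  have hlm : Integrable fun x => (inner ℝ θ x : ℝ) * h (x - v) := by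
    have := (hlin v).comp_sub_right v
    simpa using this
  have hlp : Integrable fun x => (inner ℝ θ x : ℝ) * h (x + v) := by
    have := (hlin (-v)).comp_add_right v
    simpa using this
  have hsm : Integrable fun x => (inner ℝ θ x : ℝ) ^ 2 * h (x - v) := by
    have := (hsq v).comp_sub_right v
    simpa using this
  have hsp : Integrable fun x => (inner ℝ θ x : ℝ) ^ 2 * h (x + v) := by
    have := (hsq (-v)).comp_add_right v
    simpa using this
  -- evaluate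
  have e1 : ∫ x, (inner ℝ θ x : ℝ) * h (x - v) = (∫ x, (inner ℝ θ x : ℝ) * h x) +
      inner ℝ θ v * ∫ x, h x := by
    rw [← tr (fun x => (inner ℝ θ x : ℝ) * h (x - v)) v, ← integral_const_mul,
      ← integral_add hT1 (hi.const_mul _)]
    refine integral_congr_ae (Eventually.of_forall fun x => ?_)
    simp only [add_sub_cancel_right, inner_add_right]
    ring
  have e2 : ∫ x, (inner ℝ θ x : ℝ) * h (x + v) = (∫ x, (inner ℝ θ x : ℝ) * h x) -
      inner ℝ θ v * ∫ x, h x := by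
    rw [← tr (fun x => (inner ℝ θ x : ℝ) * h (x + v)) (-v), ← integral_const_mul,
      ← integral_sub hT1 (hi.const_mul _)]
    refine integral_congr_ae (Eventually.of_forall fun x => ?_)
    simp only [neg_add_cancel_right, inner_add_right, inner_neg_right]
    ring
  have e3 : ∫ x, (inner ℝ θ x : ℝ) ^ 2 * h (x - v) = (∫ x, (inner ℝ θ x : ℝ) ^ 2 * h x) +
      (2 * inner ℝ θ v * (∫ x, (inner ℝ θ x : ℝ) * h x) + (inner ℝ θ v) ^ 2 * ∫ x, h x) := by
    rw [← tr (fun x => (inner ℝ θ x : ℝ) ^ 2 * h (x - v)) v, ← cre_int3 hT2 hT1 hi]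
    refine integral_congr_ae (Eventually.of_forall fun x => ?_)
    simp only [add_sub_cancel_right, inner_add_right]
    ring
  have e4 : ∫ x, (inner ℝ θ x : ℝ) ^ 2 * h (x + v) = (∫ x, (inner ℝ θ x : ℝ) ^ 2 * h x) +
      (-2 * inner ℝ θ v * (∫ x, (inner ℝ θ x : ℝ) * h x) + (inner ℝ θ v) ^ 2 * ∫ x, h x) := by
    rw [← tr (fun x => (inner ℝ θ x : ℝ) ^ 2 * h (x + v)) (-v), ← cre_int3 hT2 hT1 hi]
    refine integral_congr_ae (Eventually.of_forall fun x => ?_)
    simp only [neg_add_cancel_right, inner_add_right, inner_neg_right]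
    ring
  have e5 : ∫ x, h (x + v) = ∫ x, h x := tr h v
  have e6 : ∫ x, h (x - v) = ∫ x, h x := by
    simpa [sub_eq_add_neg] using tr h (-v)
  -- the two functions
  set f : F → ℝ := fun x => √(h (x - v)) - √(h (x + v)) with hf
  set g : F → ℝ := fun x => inner ℝ θ x * (√(h (x - v)) + √(h (x + v))) with hg
  have cm : Continuous fun x => √(h (x - v)) := by fun_prop
  have cp : Continuous fun x => √(h (x + v)) := by fun_prop
  have prod : ∀ x, √(h (x + v) * h (x - v)) = √(h (x - v)) * √(h (x + v)) := by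
    intro x
    rw [Real.sqrt_mul (h0 _), mul_comm]
  have isq : Integrable fun x => √(h (x + v) * h (x - v)) := by
    refine (hip.add him).mono' (by fun_prop) (Eventually.of_forall fun x => ?_)
    rw [Real.norm_eq_abs, abs_of_nonneg (Real.sqrt_nonneg _), prod]
    simp only [Pi.add_apply]
    nlinarith [Real.sq_sqrt (h0 (x - v)), Real.sq_sqrt (h0 (x + v)),
      sq_nonneg (√(h (x - v)) - √(h (x + v))), h0 (x - v), h0 (x + v)]
  have f2 : (fun x => f x ^ 2) = fun x => (h (x - v) + h (x + v)) -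
      2 * √(h (x + v) * h (x - v)) := by
    funext x
    rw [prod, hf]
    simp only
    nlinarith [Real.sq_sqrt (h0 (x - v)), Real.sq_sqrt (h0 (x + v))]
  have hf2 : Integrable fun x => f x ^ 2 := by
    rw [f2]
    exact (him.add hip).sub (isq.const_mul 2)
  have g2le : ∀ x, g x ^ 2 ≤ 2 * ((inner ℝ θ x : ℝ) ^ 2 * h (x - v) +
      (inner ℝ θ x : ℝ) ^ 2 * h (x + v)) := by
    intro x
    have h1 : (√(h (x - v)) + √(h (x + v))) ^ 2 ≤ 2 * (h (x - v) + h (x + v)) := by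
      nlinarith [Real.sq_sqrt (h0 (x - v)), Real.sq_sqrt (h0 (x + v)),
        sq_nonneg (√(h (x - v)) - √(h (x + v)))]
    have h2 := mul_le_mul_of_nonneg_left h1 (sq_nonneg (inner ℝ θ x : ℝ))
    simp only [hg]
    nlinarith
  have ig2 : Integrable fun x => 2 * ((inner ℝ θ x : ℝ) ^ 2 * h (x - v) +
      (inner ℝ θ x : ℝ) ^ 2 * h (x + v)) := (hsm.add hsp).const_mul 2
  have hg2 : Integrable fun x => g x ^ 2 := by
    refine ig2.mono' (((ci.mul (cm.add cp)).pow 2).aestronglyMeasurable)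
      (Eventually.of_forall fun x => ?_)
    rw [Real.norm_eq_abs, abs_of_nonneg (sq_nonneg _)]
    exact g2le x
  have fg : (fun x => f x * g x) = fun x => (inner ℝ θ x : ℝ) * h (x - v) -
      (inner ℝ θ x : ℝ) * h (x + v) := by
    funext x
    simp only [hf, hg]
    have a1 := Real.mul_self_sqrt (h0 (x - v))
    have a2 := Real.mul_self_sqrt (h0 (x + v))
    calc _ = (inner ℝ θ x : ℝ) * (√(h (x - v)) * √(h (x - v))) -
        (inner ℝ θ x : ℝ) * (√(h (x + v)) * √(h (x + v))) := by ring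
      _ = _ := by rw [a1, a2]
  have hfg : Integrable fun x => f x * g x := by
    rw [fg]
    exact hlm.sub hlp
  have CS := cre_cs hf2 hg2 hfg
  have v1 : ∫ x, f x * g x = 2 * inner ℝ θ v * ∫ x, h x := by
    rw [fg, integral_sub hlm hlp, e1, e2]; ring
  have v2 : ∫ x, f x ^ 2 = 2 * ∫ x, (h x - √(h (x + v) * h (x - v))) := by
    have i1 : Integrable fun x => h (x - v) + h (x + v) := him.add hip
    rw [f2, integral_sub i1 (isq.const_mul 2), integral_const_mul,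
      integral_sub hi isq, integral_add him hip, e5, e6]
    ring
  have v3 : ∫ x, g x ^ 2 ≤ 4 * (∫ x, (inner ℝ θ x) ^ 2 * h x) +
      4 * (inner ℝ θ v) ^ 2 * ∫ x, h x := by
    refine (integral_mono hg2 ig2 g2le).trans (le_of_eq ?_)
    rw [integral_const_mul, integral_add hsm hsp, e3, e4]
    ring
  rw [v1] at CS
  refine CS.trans ?_
  rw [← v2]
  exact mul_le_mul_of_nonneg_left v3 (integral_nonneg fun x => sq_nonneg _)

/-- Discrete Cramer-Rao inequality for densities. `T x = ⟪θ, x⟫`, `h± x = h (x ± τ u)`.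
`∫ T (h₋ - h₊) = ∫ (T (x + τ u) - T (x - τ u)) h x = 2 τ ⟪θ, u⟫ ∫ h`. Cauchy-Schwarz:
`(∫ T (h₋ - h₊))² ≤ (∫ (√h₋ - √h₊)²) (∫ T² (√h₋ + √h₊)²)`,
`∫ (√h₋ - √h₊)² = 2 ∫ h - 2 ∫ √(h₋ h₊) = 2 ∫ (h - √(h₋ h₊)) ≤ τ² (B + 2 η)`,
`∫ T² (√h₋ + √h₊)² ≤ 2 ∫ T² (h₋ + h₊) = 2 ∫ (T (x + τ u)² + T (x - τ u)²) h
= 4 ∫ T² h + 4 τ² ⟪θ, u⟫² ∫ h`. Divide by `4 τ²` and let `τ → 0`, `η → 0`. -/
theorem CRE {h : F → ℝ} (h0 : ∀ x, 0 ≤ h x) (hh : Continuous h) (hi : Integrable h)
    (hi2 : Integrable fun x => ‖x‖ ^ 2 * h x) (θ u : F) {B : ℝ}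
    (hB : ∀ η : ℝ, 0 < η → ∃ τ0 : ℝ, 0 < τ0 ∧ ∀ τ, 0 < τ → τ < τ0 →
      ∫ x, (h x - √(h (x + τ • u) * h (x - τ • u))) ≤ τ ^ 2 * (B / 2 + η)) :
    (inner ℝ θ u * ∫ x, h x) ^ 2 ≤ (∫ x, (inner ℝ θ x) ^ 2 * h x) * B := by
  set S : ℝ := ∫ x, (inner ℝ θ x) ^ 2 * h x with hS
  set M : ℝ := ∫ x, h x with hM
  have hS0 : 0 ≤ S := integral_nonneg fun x => mul_nonneg (sq_nonneg _) (h0 x)
  have hM0 : 0 ≤ M := integral_nonneg h0
  have h1 : ∀ η : ℝ, 0 < η → (inner ℝ θ u * M) ^ 2 ≤ S * (B + 2 * η) := by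
    intro η hη
    obtain ⟨τ0, hτ0, H⟩ := hB η hη
    have ht : Tendsto (fun τ : ℝ => (S + τ ^ 2 * ((inner ℝ θ u) ^ 2 * M)) * (B + 2 * η)) (𝓝[>] 0)
        (𝓝 ((S + (0 : ℝ) ^ 2 * ((inner ℝ θ u) ^ 2 * M)) * (B + 2 * η))) :=
      (Continuous.tendsto (by fun_prop) 0).mono_left nhdsWithin_le_nhds
    have e0 : (S + (0 : ℝ) ^ 2 * ((inner ℝ θ u) ^ 2 * M)) * (B + 2 * η) = S * (B + 2 * η) := by
      ring
    rw [e0] at ht
    refine ge_of_tendsto ht ?_
    filter_upwards [Ioo_mem_nhdsGT hτ0] with τ hτ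
    have st := cre_step h0 hh hi hi2 θ (τ • u)
    rw [inner_smul_right] at st
    have hb := H τ hτ.1 hτ.2
    have pos : 0 ≤ 4 * S + 4 * (τ * inner ℝ θ u) ^ 2 * M := by positivity
    have st2 : (2 * (τ * inner ℝ θ u) * M) ^ 2 ≤ (2 * (τ ^ 2 * (B / 2 + η))) *
        (4 * S + 4 * (τ * inner ℝ θ u) ^ 2 * M) :=
      st.trans (mul_le_mul_of_nonneg_right (by linarith) pos)
    have hτ2 : 0 < 4 * τ ^ 2 := by have := hτ.1; positivity
    refine le_of_mul_le_mul_left (a := 4 * τ ^ 2) ?_ hτ2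
    calc 4 * τ ^ 2 * (inner ℝ θ u * M) ^ 2 = (2 * (τ * inner ℝ θ u) * M) ^ 2 := by ring
      _ ≤ _ := st2
      _ = _ := by ring
  have ht : Tendsto (fun η : ℝ => S * (B + 2 * η)) (𝓝[>] 0) (𝓝 (S * (B + 2 * (0 : ℝ)))) :=
    (Continuous.tendsto (by fun_prop) 0).mono_left nhdsWithin_le_nhds
  rw [mul_zero, add_zero] at ht
  refine ge_of_tendsto ht ?_
  filter_upwards [self_mem_nhdsWithin] with η hη
  exact h1 η hη

end Pool.Agent.Lib.MP_8d00da_gt.h42r
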