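import Mathlib
import Pool.Agent.Lib.MP_8d00da_gt.h42r.AC3
import Pool.Agent.Lib.MP_8d00da_gt.h42r.ADefs

namespace Pool.Agent.Lib.MP_8d00da_gt.h25
end Pool.Agent.Lib.MP_8d00da_gt.h25
namespace Pool.Agent.Lib.MP_8d00da_gt.h42s
end Pool.Agent.Lib.MP_8d00da_gt.h42s
namespace Pool.Agent.Lib.MP_8d00da_gt.h42o
end Pool.Agent.Lib.MP_8d00da_gt.h42o
namespace Pool.Agent.Lib.MP_8d00da_gt.h97r
end Pool.Agent.Lib.MP_8d00da_gt.h97r


/-!
# Lower bound for the covariance of a sublevel set
-/

namespace Pool.Agent.Lib.MP_8d00da_gt.h42r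

open MeasureTheory Set Filter
open Pool.Agent.Lib.MP_8d00da_gt.h25 Pool.Agent.Lib.MP_8d00da_gt.h42
open Pool.Agent.Lib.MP_8d00da_gt.h42s Pool.Agent.Lib.MP_8d00da_gt.h42o
open Pool.Agent.Lib.MP_8d00da_gt.h97r
open scoped Topology NNReal ENNReal

set_option linter.unusedSectionVars false

variable {F : Type*} [NormedAddCommGroup F] [InnerProductSpace ℝ F]
    [FiniteDimensional ℝ F] [MeasurableSpace F] [BorelSpace F]

variable {G : Type*} [NormedAddCommGroup G] [InnerProductSpace ℝ G]
    [FiniteDimensional ℝ G] [MeasurableSpace G] [BorelSpace G]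

variable {ι : Type*} [Fintype ι]

/-- A continuous function vanishing off a bounded set is integrable. -/
lemma crk_int {φ : F → ℝ} (hφ : Continuous φ) {R : ℝ} (hR : ∀ x, R < ‖x‖ → φ x = 0) :
    Integrable φ := by
  refine hφ.integrable_of_hasCompactSupport ?_
  refine HasCompactSupport.intro (isCompact_closedBall (0 : F) R) fun x hx => hR x ?_
  simpa using hx

/-- The inequality for a fixed translation vector. -/
lemma crk_step {V : F → ℝ} (hVc : Continuous V) {L R : ℝ}
    (hR : ∀ x, V x < L → ‖x‖ ≤ R) (θ v : F) :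
    (inner ℝ θ v * ∫ x, pp V L x) ^ 2 ≤
      (∫ x, (inner ℝ θ x) ^ 2 * max (ib V L x) (ib V L (x + v))) *
        ∫ x, pp V L x * sd V x v := by
  have ci : Continuous fun x : F => (inner ℝ θ x : ℝ) := continuous_const.inner continuous_id
  have ca : Continuous (pp V L) := pp_cont hVc L
  have a0 : ∀ x, R < ‖x‖ → pp V L x = 0 := by
    intro x hx
    have : ¬ V x < L := fun h => absurd (hR x h) (not_le.2 hx)
    unfold pp
    exact max_eq_right (by linarith [not_lt.1 this])
  have av0 : ∀ w x, R + ‖w‖ < ‖x‖ → pp V L (x + w) = 0 := by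
    intro w x hx
    apply a0
    have := norm_sub_norm_le x (-w)
    rw [sub_neg_eq_add, norm_neg] at this
    linarith
  have cav : ∀ w : F, Continuous fun x => pp V L (x + w) := fun w => by fun_prop
  have csd : Continuous fun x => sd V x v := by
    unfold sd
    fun_prop
  -- translations
  have tr : ∀ (φ : F → ℝ) (w : F), ∫ x, φ (x + w) = ∫ x, φ x := fun φ w =>
    integral_add_right_eq_self φ w
  -- integrability
  have ia : Integrable (pp V L) := crk_int ca a0
  have iTa : ∀ w : F, Integrable fun x => (inner ℝ θ x : ℝ) * pp V L (x + w) := by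
    intro w
    refine crk_int (R := R + ‖w‖) (ci.mul (cav w)) fun x hx => ?_
    rw [av0 w x hx, mul_zero]
  have iTa0 : Integrable fun x => (inner ℝ θ x : ℝ) * pp V L x := by
    simpa using iTa 0
  have iaa : ∀ w : F, Integrable fun x => pp V L (x + w) * pp V L x := by
    intro w
    refine crk_int (R := R) ((cav w).mul ca) fun x hx => ?_
    rw [a0 x hx, mul_zero]
  have iaa0 : Integrable fun x => pp V L x ^ 2 := by
    refine crk_int (R := R) (ca.pow 2) fun x hx => ?_
    rw [a0 x hx]; simp
  have iav2 : Integrable fun x => pp V L (x + v) ^ 2 := by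
    refine crk_int (R := R + ‖v‖) ((cav v).pow 2) fun x hx => ?_
    rw [av0 v x hx]; simp
  -- evaluation of the pairing
  have e1 : ∫ x, (inner ℝ θ x : ℝ) * pp V L (x + v) =
      (∫ x, (inner ℝ θ x : ℝ) * pp V L x) - inner ℝ θ v * ∫ x, pp V L x := by
    rw [← tr (fun x => (inner ℝ θ x : ℝ) * pp V L (x + v)) (-v), ← integral_const_mul,
      ← integral_sub iTa0 (ia.const_mul _)]
    refine integral_congr_ae (Eventually.of_forall fun x => ?_)
    simp only [neg_add_cancel_right, inner_add_right, inner_neg_right]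
    ring
  set J : F → ℝ := fun x => max (ib V L x) (ib V L (x + v)) with hJ
  have ib01 : ∀ x, ib V L x = 0 ∨ ib V L x = 1 := by
    intro x
    unfold ib
    by_cases h : x ∈ {x | V x < L}
    · right; rw [indicator_of_mem h]
    · left; rw [indicator_of_notMem h]
  have ibz : ∀ x, ib V L x = 0 → pp V L x = 0 := by
    intro x hx
    by_cases h : x ∈ {x | V x < L}
    · unfold ib at hx
      rw [indicator_of_mem h] at hx
      norm_num at hx
    · unfold pp
      refine max_eq_right ?_
      have : ¬ V x < L := h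
      linarith [not_lt.1 this]
  have J01 : ∀ x, J x = 0 ∨ J x = 1 := by
    intro x
    simp only [hJ]
    rcases ib01 x with h1 | h1 <;> rcases ib01 (x + v) with h2 | h2 <;> rw [h1, h2] <;> simp
  have Jz : ∀ x, J x = 0 → pp V L x = 0 ∧ pp V L (x + v) = 0 := by
    intro x hx
    simp only [hJ] at hx
    rcases ib01 x with h1 | h1 <;> rcases ib01 (x + v) with h2 | h2
    · exact ⟨ibz _ h1, ibz _ h2⟩
    · rw [h1, h2] at hx; norm_num at hx
    · rw [h1, h2] at hx; norm_num at hx
    · rw [h1, h2] at hx; norm_num at hx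
  have Jm : Measurable J := (ib_meas hVc L).max ((ib_meas hVc L).comp (measurable_add_const v))
  have Jb : ∀ x, R + ‖v‖ < ‖x‖ → J x = 0 := by
    intro x hx
    have h1 : ib V L x = 0 := by
      unfold ib
      refine indicator_of_notMem (fun h => ?_) _
      have := hR x h
      have := norm_nonneg v
      linarith
    have h2 : ib V L (x + v) = 0 := by
      unfold ib
      refine indicator_of_notMem (fun h => ?_) _
      have h3 := hR (x + v) h
      have := norm_sub_norm_le x (-v)
      rw [sub_neg_eq_add, norm_neg] at this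
      linarith
    simp only [hJ, h1, h2, max_self]
  -- Cauchy-Schwarz
  set f : F → ℝ := fun x => pp V L x - pp V L (x + v) with hf
  set g : F → ℝ := fun x => inner ℝ θ x * J x with hg
  have g2 : (fun x => g x ^ 2) = fun x => (inner ℝ θ x) ^ 2 * J x := by
    funext x
    simp only [hg]
    rcases J01 x with h | h <;> rw [h] <;> ring
  have iK : Integrable ((Metric.closedBall (0 : F) (R + ‖v‖)).indicator
      fun x => (inner ℝ θ x : ℝ) ^ 2) := by
    rw [integrable_indicator_iff measurableSet_closedBall]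
    exact ((ci.pow 2).continuousOn).integrableOn_compact (isCompact_closedBall _ _)
  have hg2 : Integrable fun x => g x ^ 2 := by
    rw [g2]
    refine iK.mono' (((ci.pow 2).measurable.mul Jm).aestronglyMeasurable)
      (Eventually.of_forall fun x => ?_)
    by_cases hx : x ∈ Metric.closedBall (0 : F) (R + ‖v‖)
    · rw [indicator_of_mem hx, Real.norm_eq_abs]
      rcases J01 x with h | h <;> rw [h] <;> simp [sq_nonneg]
    · rw [indicator_of_notMem hx, Jb x (by simpa using hx)]
      simp
  have f2 : (fun x => f x ^ 2) = fun x => (pp V L x ^ 2 + pp V L (x + v) ^ 2) -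
      2 * (pp V L (x + v) * pp V L x) := by
    funext x
    simp only [hf]
    ring
  have i1 : Integrable fun x => pp V L x ^ 2 + pp V L (x + v) ^ 2 := iaa0.add iav2
  have hf2 : Integrable fun x => f x ^ 2 := by
    rw [f2]
    exact i1.sub ((iaa v).const_mul 2)
  have fg : (fun x => f x * g x) = fun x => (inner ℝ θ x : ℝ) * pp V L x -
      (inner ℝ θ x : ℝ) * pp V L (x + v) := by
    funext x
    simp only [hf, hg]
    rcases J01 x with h | h
    · obtain ⟨h1, h2⟩ := Jz x h
      rw [h, h1, h2]; ring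
    · rw [h]; ring
  have hfg : Integrable fun x => f x * g x := by
    rw [fg]
    exact iTa0.sub (iTa v)
  have CS := cre_cs hf2 hg2 hfg
  have v1 : ∫ x, f x * g x = inner ℝ θ v * ∫ x, pp V L x := by
    rw [fg, integral_sub iTa0 (iTa v), e1]; ring
  have v2 : ∫ x, f x ^ 2 ≤ ∫ x, pp V L x * sd V x v := by
    have e2 : ∫ x, pp V L (x + v) ^ 2 = ∫ x, pp V L x ^ 2 := tr (fun x => pp V L x ^ 2) v
    have e3 : ∫ x, pp V L (x + -v) * pp V L x = ∫ x, pp V L (x + v) * pp V L x := by
      rw [← tr (fun x => pp V L (x + -v) * pp V L x) v]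
      refine integral_congr_ae (Eventually.of_forall fun x => ?_)
      simp only [add_neg_cancel_right]
      ring
    have e4 : ∫ x, f x ^ 2 = ∫ x, (2 * pp V L x ^ 2 - (pp V L (x + v) * pp V L x +
        pp V L (x + -v) * pp V L x)) := by
      have i2 : Integrable fun x => pp V L (x + v) * pp V L x + pp V L (x + -v) * pp V L x :=
        (iaa v).add (iaa (-v))
      rw [f2, integral_sub i1 ((iaa v).const_mul 2), integral_add iaa0 iav2, e2,
        integral_const_mul, integral_sub (iaa0.const_mul 2) i2,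
        integral_const_mul, integral_add (iaa v) (iaa (-v)), e3]
      ring
    rw [e4]
    refine integral_mono ((iaa0.const_mul 2).sub ((iaa v).add (iaa (-v)))) ?_ fun x => ?_
    · refine crk_int (R := R) (ca.mul csd) fun x hx => ?_
      rw [a0 x hx, zero_mul]
    · have h0 : 0 ≤ pp V L x := pp_nonneg V L x
      rcases ib01 x with h | h
      · have := ibz x h
        rw [this]; simp
      · have hx : V x < L := by
          by_contra hc
          unfold ib at h
          rw [indicator_of_notMem (by exact hc)] at h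
          norm_num at h
        have hp : pp V L x = L - V x := max_eq_left (by linarith)
        have hp1 : L - V (x + v) ≤ pp V L (x + v) := le_max_left _ _
        have hp2 : L - V (x + -v) ≤ pp V L (x + -v) := le_max_left _ _
        have hs : 2 * pp V L x - pp V L (x + v) - pp V L (x + -v) ≤ sd V x v := by
          unfold sd
          rw [hp, sub_eq_add_neg x v]
          linarith
        calc 2 * pp V L x ^ 2 - (pp V L (x + v) * pp V L x + pp V L (x + -v) * pp V L x) =
            pp V L x * (2 * pp V L x - pp V L (x + v) - pp V L (x + -v)) := by ring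
          _ ≤ _ := mul_le_mul_of_nonneg_left hs h0
  rw [v1] at CS
  refine CS.trans ?_
  rw [g2, mul_comm]
  refine mul_le_mul_of_nonneg_left v2 (integral_nonneg fun x => ?_)
  rw [← congrFun g2 x]
  positivity

/-- Discrete Cramer-Rao inequality. Let `a = pp V L = (L - V)₊`, `K = {V < L}`, `T x = ⟪θ, x⟫`.
For `τ > 0`: `∫ T x (a x - a (x + τ u)) dx = ∫ a x (T x - T (x - τ u)) dx = τ ⟪θ, u⟫ ∫ a`, and
`∫ (a (x + τ u) - a x)² = ∫ a x (2 a x - a (x + τ u) - a (x - τ u)) dx ≤ ∫ a x sd V x (τ u) dx`
(on `K`, `a x = L - V x` and `a (x ± τ u) ≥ L - V (x ± τ u)`; off `K`, `a x = 0`). The function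
`a x - a (x + τ u)` vanishes unless `x ∈ K ∪ (K - τ u)`, so by Cauchy-Schwarz
`(τ ⟪θ, u⟫ ∫ a)² ≤ (∫_{K ∪ (K - τ u)} T²) (∫ a sd V x (τ u)) ≤ (∫_{K ∪ (K - τ u)} T²) τ² (B + η)`.
Let `τ → 0`: `∫_{K ∪ (K - τ u)} T² → ∫_K T²`: it is at most `∫_{K} T² + ∫_{K_τ \ K} T²` and
`1_{K - τ u}(x) → 1_K (x)` for a.e. `x` (`K` is open, and `{V = L}` is null when `{V < L}` is not
empty; alternatively avoid this: `∫_{K - τ u} T² - ∫_K T² → 0` by translation and bound
`∫_{K ∪ (K-τu)} T² ≤ ∫ T² max (i x, i (x + τ u))`, where `i = 1_K` and `∫ |i (x + τ u) - i x| → 0`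
by continuity of translations in `L¹`, or by monotone approximation). `K` is bounded. Then
`η → 0`. -/
theorem CRK {V : F → ℝ} (hV : ConvexOn ℝ univ V) (hVc : Continuous V) {L : ℝ}
    (hbd : Bornology.IsBounded {x | V x < L}) (hne : ∃ x, V x < L) (θ u : F) {B : ℝ}
    (hB : ∀ η : ℝ, 0 < η → ∃ τ0 : ℝ, 0 < τ0 ∧ ∀ τ, 0 < τ → τ < τ0 →
      ∫ x, pp V L x * sd V x (τ • u) ≤ τ ^ 2 * (B + η)) :
    (inner ℝ θ u * ∫ x, pp V L x) ^ 2 ≤ (∫ x, (inner ℝ θ x) ^ 2 * ib V L x) * B := by
  have ci : Continuous fun x : F => (inner ℝ θ x : ℝ) := continuous_const.inner continuous_id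
  obtain ⟨R, hR⟩ : ∃ R : ℝ, ∀ x, V x < L → ‖x‖ ≤ R := by
    obtain ⟨R, hR⟩ := hbd.exists_norm_le
    exact ⟨R, fun x hx => hR x hx⟩
  have hconv : Convex ℝ {x | V x < L} := by
    have := hV.convex_lt L
    simpa using this
  have hopen : IsOpen {x | V x < L} := isOpen_lt hVc continuous_const
  have hfr : ∀ᵐ x : F, x ∉ frontier {x | V x < L} := by
    have := hconv.addHaar_frontier volume
    exact measure_eq_zero_iff_ae_notMem.1 this
  -- the limit of the domain integrals
  have lim : Tendsto (fun τ : ℝ => ∫ x, (inner ℝ θ x) ^ 2 *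
      max (ib V L x) (ib V L (x + τ • u))) (𝓝[>] 0) (𝓝 (∫ x, (inner ℝ θ x) ^ 2 * ib V L x)) := by
    have iK : Integrable ((Metric.closedBall (0 : F) (R + ‖u‖)).indicator
        fun x => (inner ℝ θ x : ℝ) ^ 2) := by
      rw [integrable_indicator_iff measurableSet_closedBall]
      exact ((ci.pow 2).continuousOn).integrableOn_compact (isCompact_closedBall _ _)
    refine tendsto_integral_filter_of_dominated_convergence _ ?_ ?_ iK ?_
    · refine Eventually.of_forall fun τ => ?_
      exact ((ci.pow 2).measurable.mul ((ib_meas hVc L).max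
        ((ib_meas hVc L).comp (measurable_add_const _)))).aestronglyMeasurable
    · filter_upwards [Ioo_mem_nhdsGT (zero_lt_one' ℝ)] with τ hτ
      refine Eventually.of_forall fun x => ?_
      have i1 : ∀ y, ib V L y ≤ 1 := fun y => by
        unfold ib
        exact indicator_le_self' (fun _ _ => zero_le_one) y
      have m0 : 0 ≤ max (ib V L x) (ib V L (x + τ • u)) := le_max_of_le_left (ib_nonneg V L x)
      have m1 : max (ib V L x) (ib V L (x + τ • u)) ≤ 1 := max_le (i1 _) (i1 _)
      rw [Real.norm_eq_abs, abs_of_nonneg (mul_nonneg (sq_nonneg _) m0)]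
      by_cases hx : x ∈ Metric.closedBall (0 : F) (R + ‖u‖)
      · rw [indicator_of_mem hx]
        exact mul_le_of_le_one_right (sq_nonneg _) m1
      · rw [indicator_of_notMem hx]
        have hx' : R + ‖u‖ < ‖x‖ := by simpa using hx
        have hτu : ‖τ • u‖ ≤ ‖u‖ := by
          rw [norm_smul, Real.norm_eq_abs, abs_of_pos hτ.1]
          exact mul_le_of_le_one_left (norm_nonneg _) hτ.2.le
        have h1 : ib V L x = 0 := by
          unfold ib
          refine indicator_of_notMem (fun h => ?_) _
          have := hR x h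
          have := norm_nonneg u
          linarith
        have h2 : ib V L (x + τ • u) = 0 := by
          unfold ib
          refine indicator_of_notMem (fun h => ?_) _
          have h3 := hR (x + τ • u) h
          have := norm_sub_norm_le x (-(τ • u))
          rw [sub_neg_eq_add, norm_neg] at this
          linarith
        rw [h1, h2]; simp
    · filter_upwards [hfr] with x hx
      have hev : ∀ᶠ y in 𝓝 x, ib V L y = ib V L x := by
        by_cases hxK : x ∈ {x | V x < L}
        · filter_upwards [hopen.mem_nhds hxK] with y hy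
          have hy' : y ∈ {x | V x < L} := hy
          unfold ib
          rw [indicator_of_mem hy', indicator_of_mem hxK]
        · have hxc : x ∉ closure {x | V x < L} := by
            intro hc
            exact hx ⟨hc, fun h => hxK (interior_subset h)⟩
          have : (closure {x | V x < L})ᶜ ∈ 𝓝 x := isClosed_closure.isOpen_compl.mem_nhds hxc
          filter_upwards [this] with y hy
          have hy' : y ∉ {x | V x < L} := fun h => hy (subset_closure h)
          unfold ib
          rw [indicator_of_notMem hy', indicator_of_notMem hxK]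
      have htx : Tendsto (fun τ : ℝ => x + τ • u) (𝓝[>] 0) (𝓝 x) := by
        have : Tendsto (fun τ : ℝ => x + τ • u) (𝓝 0) (𝓝 (x + (0 : ℝ) • u)) :=
          Continuous.tendsto (by fun_prop) 0
        rw [zero_smul, add_zero] at this
        exact this.mono_left nhdsWithin_le_nhds
      refine Tendsto.congr' ?_ tendsto_const_nhds
      filter_upwards [htx.eventually hev] with τ hτ
      rw [hτ, max_self]
  have h1 : ∀ η : ℝ, 0 < η → (inner ℝ θ u * ∫ x, pp V L x) ^ 2 ≤
      (∫ x, (inner ℝ θ x) ^ 2 * ib V L x) * (B + η) := by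
    intro η hη
    obtain ⟨τ0, hτ0, H⟩ := hB η hη
    refine ge_of_tendsto (lim.mul_const (B + η)) ?_
    filter_upwards [Ioo_mem_nhdsGT hτ0] with τ hτ
    have st := crk_step hVc hR θ (τ • u)
    rw [inner_smul_right] at st
    have hb := H τ hτ.1 hτ.2
    have pos : 0 ≤ ∫ x, (inner ℝ θ x) ^ 2 * max (ib V L x) (ib V L (x + τ • u)) :=
      integral_nonneg fun x => mul_nonneg (sq_nonneg _) (le_max_of_le_left (ib_nonneg V L x))
    have st2 := st.trans (mul_le_mul_of_nonneg_left hb pos)
    have hτ2 : 0 < τ ^ 2 := by have := hτ.1; positivity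
    refine le_of_mul_le_mul_left (a := τ ^ 2) ?_ hτ2
    calc τ ^ 2 * (inner ℝ θ u * ∫ x, pp V L x) ^ 2 =
        (τ * inner ℝ θ u * ∫ x, pp V L x) ^ 2 := by ring
      _ ≤ _ := st2
      _ = _ := by ring
  have ht : Tendsto (fun η : ℝ => (∫ x, (inner ℝ θ x) ^ 2 * ib V L x) * (B + η)) (𝓝[>] 0)
      (𝓝 ((∫ x, (inner ℝ θ x) ^ 2 * ib V L x) * (B + (0 : ℝ)))) :=
    (Continuous.tendsto (by fun_prop) 0).mono_left nhdsWithin_le_nhds
  rw [add_zero] at ht
  refine ge_of_tendsto ht ?_
  filter_upwards [self_mem_nhdsWithin] with η hη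
  exact h1 η hη

end Pool.Agent.Lib.MP_8d00da_gt.h42r
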