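import Mathlib
import Pool.Agent.Lib.MP_8d00da_gt.h42r.ADefs

namespace Pool.Agent.Lib.MP_8d00da_gt.h25
end Pool.Agent.Lib.MP_8d00da_gt.h25
namespace Pool.Agent.Lib.MP_8d00da_gt.h42s
end Pool.Agent.Lib.MP_8d00da_gt.h42s
namespace Pool.Agent.Lib.MP_8d00da_gt.h42o
end Pool.Agent.Lib.MP_8d00da_gt.h42o
namespace Pool.Agent.Lib.MP_8d00da_gt.h97r
end Pool.Agent.Lib.MP_8d00da_gt.h97r


/-!
# Second differences integrated over the body
-/

namespace Pool.Agent.Lib.MP_8d00da_gt.h42r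

open MeasureTheory Set Filter
open Pool.Agent.Lib.MP_8d00da_gt.h25 Pool.Agent.Lib.MP_8d00da_gt.h42
open Pool.Agent.Lib.MP_8d00da_gt.h42s Pool.Agent.Lib.MP_8d00da_gt.h42o
open Pool.Agent.Lib.MP_8d00da_gt.h97r
open scoped Topology NNReal ENNReal

set_option linter.unusedSectionVars false

variable {F : Type*} [NormedAddCommGroup F] [InnerProductSpace ℝ F]
    [FiniteDimensional ℝ F] [MeasurableSpace F] [BorelSpace F]

variable {G : Type*} [NormedAddCommGroup G] [InnerProductSpace ℝ G]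
    [FiniteDimensional ℝ G] [MeasurableSpace G] [BorelSpace G]

variable {ι : Type*} [Fintype ι]

/-- Dominated convergence / reverse Fatou from `RD.up` and `RD.dom`, along `τ → 0`. The dominating
function `a x · C (1 + ‖x‖² + ∑ ω_j x)` is integrable (`K` bounded, `a` bounded and supported in
`K`, `a ω_j` integrable). -/
theorem up_int {V : F → ℝ} {P : ι → F →L[ℝ] G} {ω : ι → F → ℝ} {Λ : ℝ} (H : RD V P ω Λ) {L : ℝ}
    (hbd : Bornology.IsBounded {x | V x < L}) (hω : ∀ j, Integrable fun x => pp V L x * ω j x)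
    (u : F) {η : ℝ} (hη : 0 < η) : ∃ τ0 : ℝ, 0 < τ0 ∧ ∀ τ, 0 < τ → τ < τ0 →
      ∫ x, pp V L x * sd V x (τ • u) ≤
        τ ^ 2 * (Λ * (∑ j, (∫ x, pp V L x * ω j x) * ‖P j u‖ ^ 2) + η) := by
  obtain ⟨C, hC, hdom⟩ := H.dom u
  have hpc := pp_cont H.cont L
  have hp0 := fun x => pp_nonneg V L x
  obtain ⟨f, hf⟩ : ∃ f : ℝ → F → ℝ, f = fun τ x => pp V L x * (sd V x (τ • u) / τ ^ 2) := ⟨_, rfl⟩
  obtain ⟨Fi, hFi⟩ : ∃ Fi : F → ℝ, Fi = fun x => pp V L x * (Λ * ∑ j, ω j x * ‖P j u‖ ^ 2) :=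
    ⟨_, rfl⟩
  have eFi : Fi = fun x => ∑ j, (Λ * ‖P j u‖ ^ 2) * (pp V L x * ω j x) := by
    rw [hFi]
    funext x
    simp only [Finset.mul_sum]
    exact Finset.sum_congr rfl fun j _ => by ring
  have iF : Integrable Fi := by
    rw [eFi]
    exact integrable_finsetSum _ fun j _ => (hω j).const_mul _
  have eF : ∫ x, Fi x = Λ * ∑ j, (∫ x, pp V L x * ω j x) * ‖P j u‖ ^ 2 := by
    rw [eFi, integral_finsetSum _ fun j _ => (hω j).const_mul _, Finset.mul_sum]
    refine Finset.sum_congr rfl fun j _ => ?_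
    rw [integral_const_mul]
    ring
  have hcs : HasCompactSupport (pp V L) := by
    refine HasCompactSupport.of_support_subset_isCompact hbd.isCompact_closure ?_
    intro x hx
    refine subset_closure ?_
    by_contra hn
    have hn' : L ≤ V x := not_lt.1 hn
    exact hx (max_eq_right (by linarith))
  have iD : Integrable fun x => pp V L x * (C * (1 + ‖x‖ ^ 2 + ∑ j, ω j x)) := by
    have e : (fun x => pp V L x * (C * (1 + ‖x‖ ^ 2 + ∑ j, ω j x))) =
        fun x => pp V L x * (C * (1 + ‖x‖ ^ 2)) + ∑ j, C * (pp V L x * ω j x) := by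
      funext x
      rw [← Finset.mul_sum, ← Finset.mul_sum]
      ring
    rw [e]
    refine Integrable.add ?_ (integrable_finsetSum _ fun j _ => (hω j).const_mul _)
    have hc2 : Continuous fun x : F => C * (1 + ‖x‖ ^ 2) :=
      continuous_const.mul (continuous_const.add (continuous_norm.pow 2))
    exact (hpc.mul hc2).integrable_of_hasCompactSupport hcs.mul_right
  have hf0 : ∀ τ x, 0 ≤ f τ x := fun τ x => by
    rw [hf]
    exact mul_nonneg (hp0 x) (div_nonneg (sd_nonneg H.conv x _) (sq_nonneg _))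
  have hF0 : ∀ x, 0 ≤ Fi x := fun x => by
    rw [hFi]
    exact mul_nonneg (hp0 x) (mul_nonneg H.Λpos.le
      (Finset.sum_nonneg fun j _ => mul_nonneg (H.ω0 j x) (sq_nonneg _)))
  have fm : ∀ τ, Measurable (f τ) := fun τ => by
    rw [hf]
    refine hpc.measurable.mul (Measurable.div_const ?_ _)
    exact (((H.cont.comp (continuous_id.add continuous_const)).add
      (H.cont.comp (continuous_id.sub continuous_const))).sub (continuous_const.mul H.cont)).measurable
  have Fm : Measurable Fi := by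
    rw [hFi]
    exact hpc.measurable.mul (measurable_const.mul
      (Finset.measurable_sum _ fun j _ => (H.ωm j).mul_const _))
  have gm : ∀ τ, AEStronglyMeasurable (fun x => max (f τ x - Fi x) 0) (volume : Measure F) := fun τ =>
    (((fm τ).sub Fm).max measurable_const).aestronglyMeasurable
  have gb : ∀ τ, 0 < τ → τ ≤ 1 → ∀ᵐ x, ‖max (f τ x - Fi x) 0‖ ≤
      pp V L x * (C * (1 + ‖x‖ ^ 2 + ∑ j, ω j x)) := fun τ h1 h2 => by
    filter_upwards [hdom] with x hx
    rw [Real.norm_of_nonneg (le_max_right _ _)]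
    have h3 : f τ x ≤ pp V L x * (C * (1 + ‖x‖ ^ 2 + ∑ j, ω j x)) := by
      rw [hf]
      refine mul_le_mul_of_nonneg_left ?_ (hp0 x)
      rw [div_le_iff₀ (by positivity)]
      linarith [hx τ h1 h2]
    exact max_le (by linarith [hF0 x]) ((hf0 τ x).trans h3)
  have key : Tendsto (fun τ => ∫ x, max (f τ x - Fi x) 0) (𝓝[>] (0 : ℝ)) (𝓝 (∫ x : F, (0 : ℝ))) := by
    refine tendsto_integral_filter_of_dominated_convergence
      (fun x => pp V L x * (C * (1 + ‖x‖ ^ 2 + ∑ j, ω j x))) (Eventually.of_forall gm) ?_ iD ?_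
    · filter_upwards [Ioo_mem_nhdsGT (zero_lt_one (α := ℝ))] with τ hτ
      exact gb τ hτ.1 hτ.2.le
    · filter_upwards [H.up u] with x hx
      rw [Metric.tendsto_nhds]
      intro e he
      obtain ⟨τ0, h1, h2⟩ := hx (e / (2 * (pp V L x + 1))) (by have := hp0 x; positivity)
      filter_upwards [Ioo_mem_nhdsGT h1] with τ hτ
      rw [dist_zero_right, Real.norm_of_nonneg (le_max_right _ _)]
      have h3 := h2 τ hτ.1 hτ.2
      have h4 : 0 < τ ^ 2 := by have := hτ.1; positivity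
      have h5 : sd V x (τ • u) / τ ^ 2 ≤ Λ * (∑ j, ω j x * ‖P j u‖ ^ 2) + e / (2 * (pp V L x + 1)) := by
        rw [div_le_iff₀ h4]
        linarith
      have h6 := mul_le_mul_of_nonneg_left h5 (hp0 x)
      have h7 : pp V L x * (e / (2 * (pp V L x + 1))) ≤ e / 2 := by
        rw [mul_div_assoc', div_le_div_iff₀ (by have := hp0 x; positivity) (by norm_num)]
        nlinarith [hp0 x]
      have h8 : f τ x - Fi x ≤ e / 2 := by
        rw [hf, hFi]
        show pp V L x * (sd V x (τ • u) / τ ^ 2) - pp V L x * (Λ * ∑ j, ω j x * ‖P j u‖ ^ 2) ≤ e / 2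
        nlinarith
      exact lt_of_le_of_lt (max_le h8 (by linarith)) (by linarith)
  rw [integral_zero] at key
  have k2 : ∀ᶠ τ in 𝓝[>] (0 : ℝ), ∫ x, max (f τ x - Fi x) 0 < η := key.eventually (gt_mem_nhds hη)
  have k3 : ∀ᶠ τ in 𝓝[>] (0 : ℝ), ∫ x, pp V L x * sd V x (τ • u) ≤
        τ ^ 2 * (Λ * (∑ j, (∫ x, pp V L x * ω j x) * ‖P j u‖ ^ 2) + η) := by
    filter_upwards [k2, Ioo_mem_nhdsGT (zero_lt_one (α := ℝ))] with τ h1 hτ
    have h4 : 0 < τ ^ 2 := by have := hτ.1; positivity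
    have ig : Integrable fun x => max (f τ x - Fi x) 0 := iD.mono' (gm τ) (gb τ hτ.1 hτ.2.le)
    have h5 : ∫ x, f τ x ≤ ∫ x, (Fi x + max (f τ x - Fi x) 0) := by
      refine integral_mono_of_nonneg (Eventually.of_forall (hf0 τ)) (iF.add ig)
        (Eventually.of_forall fun x => ?_)
      have := le_max_left (f τ x - Fi x) 0
      show f τ x ≤ Fi x + max (f τ x - Fi x) 0
      linarith
    rw [integral_add iF ig, eF] at h5
    have h6 : ∫ x, pp V L x * sd V x (τ • u) = τ ^ 2 * ∫ x, f τ x := by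
      rw [← integral_const_mul]
      refine integral_congr_ae (Eventually.of_forall fun x => ?_)
      rw [hf]
      show pp V L x * sd V x (τ • u) = τ ^ 2 * (pp V L x * (sd V x (τ • u) / τ ^ 2))
      have h7 : τ ≠ 0 := hτ.1.ne'
      field_simp
    rw [h6]
    exact mul_le_mul_of_nonneg_left (by linarith) h4.le
  obtain ⟨τ0, h1, h2⟩ := (mem_nhdsGT_iff_exists_Ioo_subset (a := (0 : ℝ))).1 k3
  exact ⟨τ0, h1, fun τ h3 h4 => h2 ⟨h3, h4⟩⟩

end Pool.Agent.Lib.MP_8d00da_gt.h42r
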