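import Mathlib
import Pool.Agent.Lib.MP_8d00da_gt.h42r.ADefs

namespace Pool.Agent.Lib.MP_8d00da_gt.h25
end Pool.Agent.Lib.MP_8d00da_gt.h25
namespace Pool.Agent.Lib.MP_8d00da_gt.h42s
end Pool.Agent.Lib.MP_8d00da_gt.h42s
namespace Pool.Agent.Lib.MP_8d00da_gt.h42o
end Pool.Agent.Lib.MP_8d00da_gt.h42o
namespace Pool.Agent.Lib.MP_8d00da_gt.h97r
end Pool.Agent.Lib.MP_8d00da_gt.h97r


/-!
# Second differences integrated against the density
-/

namespace Pool.Agent.Lib.MP_8d00da_gt.h42r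

open MeasureTheory Set Filter
open Pool.Agent.Lib.MP_8d00da_gt.h25 Pool.Agent.Lib.MP_8d00da_gt.h42
open Pool.Agent.Lib.MP_8d00da_gt.h42s Pool.Agent.Lib.MP_8d00da_gt.h42o
open Pool.Agent.Lib.MP_8d00da_gt.h97r
open scoped Topology NNReal ENNReal

set_option linter.unusedSectionVars false

variable {F : Type*} [NormedAddCommGroup F] [InnerProductSpace ℝ F]
    [FiniteDimensional ℝ F] [MeasurableSpace F] [BorelSpace F]

variable {G : Type*} [NormedAddCommGroup G] [InnerProductSpace ℝ G]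
    [FiniteDimensional ℝ G] [MeasurableSpace G] [BorelSpace G]

variable {ι : Type*} [Fintype ι]

/-- Reverse Fatou from `RE.up` and `RE.dom` (`h x - √(..) ≥ 0` is not needed; where `h x = 0` the
integrand is `≤ 0` as `0 ≤ √`). -/
theorem upE_int {h : F → ℝ} {P : ι → F →L[ℝ] G} {ω : ι → F → ℝ} {Λ : ℝ} (H : RE h P ω Λ)
    (hi : Integrable h) (hi2 : Integrable fun x => ‖x‖ ^ 2 * h x)
    (hω : ∀ j, Integrable fun x => h x * ω j x)
    (u : F) {η : ℝ} (hη : 0 < η) : ∃ τ0 : ℝ, 0 < τ0 ∧ ∀ τ, 0 < τ → τ < τ0 →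
      ∫ x, (h x - √(h (x + τ • u) * h (x - τ • u))) ≤
        τ ^ 2 * (Λ / 2 * (∑ j, (∫ x, h x * ω j x) * ‖P j u‖ ^ 2) + η) := by
  obtain ⟨C, hC, hdom⟩ := H.dom u
  -- the functions
  obtain ⟨B, hB⟩ : ∃ B : F → ℝ, B = fun x => Λ / 2 * (∑ j, ω j x * ‖P j u‖ ^ 2) * h x := ⟨_, rfl⟩
  obtain ⟨Gb, hGb⟩ : ∃ Gb : F → ℝ, Gb = fun x => C * (1 + ‖x‖ ^ 2 + ∑ j, ω j x) * h x := ⟨_, rfl⟩
  obtain ⟨Q, hQ⟩ : ∃ Q : ℝ → F → ℝ, Q = fun τ x => h x - √(h (x + τ • u) * h (x - τ • u)) := ⟨_, rfl⟩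
  obtain ⟨E, hE⟩ : ∃ E : ℝ → F → ℝ, E = fun τ x => max ((τ ^ 2)⁻¹ * Q τ x - B x) 0 := ⟨_, rfl⟩
  have hB0 : ∀ x, 0 ≤ B x := fun x => by
    rw [hB]
    have h1 : 0 ≤ ∑ j, ω j x * ‖P j u‖ ^ 2 :=
      Finset.sum_nonneg fun j _ => mul_nonneg (H.ω0 j x) (by positivity)
    have h2 := H.Λpos
    exact mul_nonneg (mul_nonneg (by linarith) h1) (H.nn x)
  have hG0 : ∀ x, 0 ≤ Gb x := fun x => by
    rw [hGb]
    have h1 : 0 ≤ ∑ j, ω j x := Finset.sum_nonneg fun j _ => H.ω0 j x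
    exact mul_nonneg (mul_nonneg hC (by positivity)) (H.nn x)
  have hBe : ∀ x, B x = ∑ j, (Λ / 2 * ‖P j u‖ ^ 2) * (h x * ω j x) := fun x => by
    rw [hB]
    show Λ / 2 * (∑ j, ω j x * ‖P j u‖ ^ 2) * h x = _
    rw [Finset.mul_sum, Finset.sum_mul]
    exact Finset.sum_congr rfl fun j _ => by ring
  have hBi : Integrable B := by
    have h1 : Integrable fun x => ∑ j, (Λ / 2 * ‖P j u‖ ^ 2) * (h x * ω j x) :=
      integrable_finsetSum _ fun j _ => (hω j).const_mul _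
    exact h1.congr (Eventually.of_forall fun x => (hBe x).symm)
  have hBint : ∫ x, B x = Λ / 2 * ∑ j, (∫ x, h x * ω j x) * ‖P j u‖ ^ 2 := by
    have h1 : ∫ x, B x = ∫ x, ∑ j, (Λ / 2 * ‖P j u‖ ^ 2) * (h x * ω j x) :=
      integral_congr_ae (Eventually.of_forall hBe)
    rw [h1, integral_finsetSum _ fun j _ => (hω j).const_mul _, Finset.mul_sum]
    refine Finset.sum_congr rfl fun j _ => ?_
    rw [integral_const_mul]
    ring
  have hGi : Integrable Gb := by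
    have h1 : Integrable fun x => C * (h x + ‖x‖ ^ 2 * h x + ∑ j, h x * ω j x) :=
      ((hi.add hi2).add (integrable_finsetSum _ fun j _ => hω j)).const_mul C
    refine h1.congr (Eventually.of_forall fun x => ?_)
    rw [hGb]
    show C * (h x + ‖x‖ ^ 2 * h x + ∑ j, h x * ω j x) = C * (1 + ‖x‖ ^ 2 + ∑ j, ω j x) * h x
    rw [← Finset.mul_sum]
    ring
  have hBm : Measurable B := by
    rw [hB]
    exact (measurable_const.mul (Finset.measurable_fun_sum _ fun j _ => (H.ωm j).mul measurable_const)).mul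
      H.cont.measurable
  have hQm : ∀ τ, Measurable (Q τ) := fun τ => by
    rw [hQ]
    have h1 : Continuous fun x => h x - √(h (x + τ • u) * h (x - τ • u)) := by
      have h2 := H.cont
      fun_prop
    exact h1.measurable
  have hEm : ∀ τ, Measurable (E τ) := fun τ => by
    rw [hE]
    exact ((measurable_const.mul (hQm τ)).sub hBm).max measurable_const
  have hE0 : ∀ τ x, 0 ≤ E τ x := fun τ x => by rw [hE]; exact le_max_right _ _
  have hEb : ∀ τ, 0 < τ → τ ≤ 1 → ∀ᵐ x, ‖E τ x‖ ≤ Gb x := by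
    intro τ h1 h2
    filter_upwards [hdom] with x hx
    rw [Real.norm_of_nonneg (hE0 τ x), hE]
    refine max_le ?_ (hG0 x)
    have h3 := hx τ h1 h2
    have h4 : (τ ^ 2)⁻¹ * Q τ x ≤ Gb x := by
      rw [inv_mul_le_iff₀ (by positivity), hQ, hGb]
      calc h x - √(h (x + τ • u) * h (x - τ • u)) ≤ _ := h3
        _ = _ := by ring
    have h5 := hB0 x
    linarith
  have hlim : ∀ᵐ x, Tendsto (fun τ => E τ x) (𝓝[>] (0:ℝ)) (𝓝 0) := by
    filter_upwards [H.up u] with x hx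
    rcases (H.nn x).lt_or_eq with hpos | hzero
    · rw [Metric.tendsto_nhdsWithin_nhds]
      intro ε hε
      obtain ⟨τ0, ht0, h1⟩ := hx hpos (ε / (2 * h x)) (by positivity)
      refine ⟨τ0, ht0, fun τ hτ hd => ?_⟩
      have hτ0 : 0 < τ := hτ
      rw [Real.dist_eq, sub_zero, abs_of_pos hτ0] at hd
      rw [Real.dist_eq, sub_zero, abs_of_nonneg (hE0 τ x), hE]
      refine max_lt ?_ hε
      have h2 := h1 τ hτ0 hd
      have h3 : (τ ^ 2)⁻¹ * Q τ x ≤ B x + ε / 2 := by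
        rw [inv_mul_le_iff₀ (by positivity), hQ, hB]
        refine h2.trans (le_of_eq ?_)
        field_simp
      linarith
    · have h1 : ∀ τ, E τ x = 0 := fun τ => by
        rw [hE]
        refine max_eq_right ?_
        have h2 : Q τ x ≤ 0 := by
          rw [hQ]
          show h x - √(h (x + τ • u) * h (x - τ • u)) ≤ 0
          rw [← hzero, zero_sub, neg_nonpos]
          exact Real.sqrt_nonneg _
        have h3 : (τ ^ 2)⁻¹ * Q τ x ≤ 0 := mul_nonpos_of_nonneg_of_nonpos (by positivity) h2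
        have h4 := hB0 x
        linarith
      simp only [h1]
      exact tendsto_const_nhds
  have hconv : Tendsto (fun τ => ∫ x, E τ x) (𝓝[>] (0:ℝ)) (𝓝 (∫ _ : F, (0:ℝ))) := by
    refine tendsto_integral_filter_of_dominated_convergence Gb
      (Eventually.of_forall fun τ => (hEm τ).aestronglyMeasurable) ?_ hGi hlim
    have h1 : Ioc (0:ℝ) 1 ∈ 𝓝[>] (0:ℝ) := Ioc_mem_nhdsGT one_pos
    filter_upwards [h1] with τ hτ
    exact hEb τ hτ.1 hτ.2
  rw [integral_zero, Metric.tendsto_nhdsWithin_nhds] at hconv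
  obtain ⟨τ1, ht1, hconv⟩ := hconv η hη
  refine ⟨min τ1 1, lt_min ht1 one_pos, fun τ h1 h2 => ?_⟩
  have hτ1 : τ < τ1 := h2.trans_le (min_le_left _ _)
  have hτ2 : τ ≤ 1 := (h2.trans_le (min_le_right _ _)).le
  have hEη : ∫ x, E τ x ≤ η := by
    have h3 := hconv (show τ ∈ Ioi (0:ℝ) from h1) (by rw [Real.dist_eq, sub_zero, abs_of_pos h1]; exact hτ1)
    rw [Real.dist_eq, sub_zero] at h3
    exact (le_abs_self _).trans h3.le
  have hEi : Integrable (E τ) := hGi.mono' (hEm τ).aestronglyMeasurable (hEb τ h1 hτ2)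
  have hR0 : 0 ≤ Λ / 2 * (∑ j, (∫ x, h x * ω j x) * ‖P j u‖ ^ 2) + η := by
    rw [← hBint]
    have h3 : 0 ≤ ∫ x, B x := integral_nonneg fun x => hB0 x
    linarith
  have hgoal : (∫ x, (h x - √(h (x + τ • u) * h (x - τ • u)))) = ∫ x, Q τ x := by rw [hQ]
  rw [hgoal]
  by_cases hQi : Integrable (Q τ)
  · have h3 : ∫ x, Q τ x ≤ ∫ x, τ ^ 2 * (B x + E τ x) := by
      refine integral_mono hQi ((hBi.add hEi).const_mul _) fun x => ?_
      have h4 : (τ ^ 2)⁻¹ * Q τ x - B x ≤ E τ x := by rw [hE]; exact le_max_left _ _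
      have h5 : (τ ^ 2)⁻¹ * Q τ x ≤ B x + E τ x := by linarith
      rwa [inv_mul_le_iff₀ (by positivity)] at h5
    refine h3.trans ?_
    rw [integral_const_mul, integral_add hBi hEi, hBint]
    exact mul_le_mul_of_nonneg_left (by linarith) (by positivity)
  · rw [integral_undef hQi]
    positivity

end Pool.Agent.Lib.MP_8d00da_gt.h42r
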