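import Mathlib

namespace Pool.Agent.Lib.MP_8d00da_gt.h25
end Pool.Agent.Lib.MP_8d00da_gt.h25
namespace Pool.Agent.Lib.MP_8d00da_gt.h42
end Pool.Agent.Lib.MP_8d00da_gt.h42
namespace Pool.Agent.Lib.MP_8d00da_gt.h42s
end Pool.Agent.Lib.MP_8d00da_gt.h42s
namespace Pool.Agent.Lib.MP_8d00da_gt.h42o
end Pool.Agent.Lib.MP_8d00da_gt.h42o
namespace Pool.Agent.Lib.MP_8d00da_gt.h97r
end Pool.Agent.Lib.MP_8d00da_gt.h97r


/-!
# One-dimensional Borell inequality with three exponents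
-/

namespace Pool.Agent.Lib.MP_8d00da_gt.h42r

open MeasureTheory Set Filter
open Pool.Agent.Lib.MP_8d00da_gt.h25 Pool.Agent.Lib.MP_8d00da_gt.h42
open Pool.Agent.Lib.MP_8d00da_gt.h42s Pool.Agent.Lib.MP_8d00da_gt.h42o
open Pool.Agent.Lib.MP_8d00da_gt.h97r
open scoped Topology NNReal ENNReal

set_option linter.unusedSectionVars false

variable {F : Type*} [NormedAddCommGroup F] [InnerProductSpace ℝ F]
    [FiniteDimensional ℝ F] [MeasurableSpace F] [BorelSpace F]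

variable {G : Type*} [NormedAddCommGroup G] [InnerProductSpace ℝ G]
    [FiniteDimensional ℝ G] [MeasurableSpace G] [BorelSpace G]

variable {ι : Type*} [Fintype ι]

private lemma bo_sign (U : Set ℝ) (hU0 : ∀ s ∈ U, 0 < s)
    (hU : ∀ x ∈ U, ∀ y ∈ U, ∀ z, x ≤ z → z ≤ y → z ∈ U) :
    ∃ p r : ℝ, (∀ s ∈ U, 0 ≤ s ^ 2 - p - r * s ^ 4) ∧
      ∀ s, 0 < s → s ∉ U → s ^ 2 - p - r * s ^ 4 ≤ 0 := by
  rcases U.eq_empty_or_nonempty with rfl | hne
  · refine ⟨1, 1, by simp, fun s _ _ => ?_⟩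
    nlinarith [sq_nonneg (s ^ 2 - 1), sq_nonneg s]
  have hbb : BddBelow U := ⟨0, fun x hx => (hU0 x hx).le⟩
  have h0 : 0 ≤ sInf U := le_csInf hne fun b hb => (hU0 b hb).le
  have hlow : ∀ s ∈ U, sInf U ≤ s := fun s hs => csInf_le hbb hs
  have hdich : ∀ s, s ∉ U → (∀ a ∈ U, s ≤ a) ∨ ∀ a ∈ U, a ≤ s := by
    intro s hs
    by_contra hcon
    push Not at hcon
    obtain ⟨⟨a, ha, has⟩, ⟨b, hb, hbs⟩⟩ := hcon
    exact hs (hU a ha b hb s has.le hbs.le)
  by_cases hba : BddAbove U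
  · set s₁ := sInf U
    set s₂ := sSup U
    have hup : ∀ s ∈ U, s ≤ s₂ := fun s hs => le_csSup hba hs
    have hs2 : 0 < s₂ := by
      obtain ⟨a, ha⟩ := hne
      exact (hU0 a ha).trans_le (hup a ha)
    have hpos : 0 < s₁ ^ 2 + s₂ ^ 2 := by positivity
    have hfac : ∀ s : ℝ, s ^ 2 - s₁ ^ 2 * s₂ ^ 2 * (1 / (s₁ ^ 2 + s₂ ^ 2)) -
        1 / (s₁ ^ 2 + s₂ ^ 2) * s ^ 4 =
        1 / (s₁ ^ 2 + s₂ ^ 2) * ((s ^ 2 - s₁ ^ 2) * (s₂ ^ 2 - s ^ 2)) := by
      intro s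
      field_simp
      ring
    refine ⟨s₁ ^ 2 * s₂ ^ 2 * (1 / (s₁ ^ 2 + s₂ ^ 2)), 1 / (s₁ ^ 2 + s₂ ^ 2), ?_, ?_⟩
    · intro s hs
      rw [hfac]
      have hs0 := hU0 s hs
      have h1 : s₁ ^ 2 ≤ s ^ 2 := pow_le_pow_left₀ h0 (hlow s hs) 2
      have h2 : s ^ 2 ≤ s₂ ^ 2 := pow_le_pow_left₀ hs0.le (hup s hs) 2
      exact mul_nonneg (by positivity) (mul_nonneg (by linarith) (by linarith))
    · intro s hs0 hs
      rw [hfac]
      refine mul_nonpos_of_nonneg_of_nonpos (by positivity) ?_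
      rcases hdich s hs with h | h
      · have hss : s ≤ s₁ := le_csInf hne h
        have h12 : s₁ ≤ s₂ := by
          obtain ⟨a, ha⟩ := hne
          exact (hlow a ha).trans (hup a ha)
        have h1 : s ^ 2 ≤ s₁ ^ 2 := pow_le_pow_left₀ hs0.le hss 2
        have h2 : s₁ ^ 2 ≤ s₂ ^ 2 := pow_le_pow_left₀ h0 h12 2
        exact mul_nonpos_of_nonpos_of_nonneg (by linarith) (by linarith)
      · have hss : s₂ ≤ s := csSup_le hne h
        have h12 : s₁ ≤ s₂ := by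
          obtain ⟨a, ha⟩ := hne
          exact (hlow a ha).trans (hup a ha)
        have h1 : s₂ ^ 2 ≤ s ^ 2 := pow_le_pow_left₀ hs2.le hss 2
        have h2 : s₁ ^ 2 ≤ s₂ ^ 2 := pow_le_pow_left₀ h0 h12 2
        exact mul_nonpos_of_nonneg_of_nonpos (by linarith) (by linarith)
  · refine ⟨sInf U ^ 2, 0, ?_, ?_⟩
    · intro s hs
      have h1 : sInf U ^ 2 ≤ s ^ 2 := pow_le_pow_left₀ h0 (hlow s hs) 2
      linarith
    · intro s hs0 hs
      rcases hdich s hs with h | h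
      · have hss : s ≤ sInf U := le_csInf hne h
        have h1 : s ^ 2 ≤ sInf U ^ 2 := pow_le_pow_left₀ hs0.le hss 2
        linarith
      · exact absurd ⟨s, h⟩ hba

private lemma bo_int {a lam : ℝ} (ha : 0 < a) (hl : 0 < lam) :
    IntegrableOn (fun s : ℝ => s ^ (a - 1) * Real.exp (-(lam * s))) (Ioi 0) := by
  have h := integrableOn_rpow_mul_exp_neg_mul_rpow (p := 1) (s := a - 1) (b := lam) (by linarith)
    one_pos hl
  refine h.congr_fun (fun s hs => ?_) measurableSet_Ioi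
  simp only [Real.rpow_one]
  ring_nf

/-- Borell's inequality for the exponents `β - 2, β, β + 2` (`β > 1`): for `g` log-concave on
`(0, ∞)` (real valued, `g ≥ 0`, `g s ^ (1-a) g t ^ a ≤ g ((1-a)s + a t)` for `s, t > 0`), all three
integrals finite and positive:
`(∫ s^{β-2} g) (∫ s^{β+2} g) ≤ (β+2)(β+1)/(β(β-1)) (∫ s^β g)²`.
Proof. Let `A = ∫ s^{β-2} g`, `D = ∫ s^{β+2} g`; choose `λ, c > 0` with
`c Γ(β-1) λ^{-(β-1)} = A` and `c Γ(β+3) λ^{-(β+3)} = D` (possible: the quotient determines `λ`).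
`d(s) = g s - c exp (-λ s)` satisfies `∫ s^{β-2} d = 0 = ∫ s^{β+2} d`
(`Real.integral_rpow_mul_exp_neg_mul_Ioi`), and `U = {s > 0 | d s > 0}` is an interval
(log-concavity of `g` against the log-affine `c exp (-λ s)`), with end points `0 ≤ s₁ ≤ s₂ ≤ ∞`.
Choose `p, r ≥ 0` such that `k(s) = s^β - p s^{β-2} - r s^{β+2} = s^{β-2} (s² - p - r s⁴)` has the
sign of `d`: if `0 < s₁ ≤ s₂ < ∞`: `r = 1/(s₁² + s₂²)`, `p = s₁² s₂² r`; if `s₁ = 0`, `s₂ < ∞`:
`p = 0`, `r = s₂⁻²`; if `s₁ > 0`, `s₂ = ∞`: `r = 0`, `p = s₁²`; `U` empty, or `s₁ = 0` and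
`s₂ = ∞`: then `d = 0` a.e. So `∫ s^β d = ∫ k d ≥ 0`, i.e. `∫ s^β g ≥ c Γ(β+1) λ^{-(β+1)}`, whose
square is `(Γ(β+1)² / (Γ(β-1) Γ(β+3))) A D`, and
`Γ(β+1)²/(Γ(β-1)Γ(β+3)) = β(β-1)/((β+2)(β+1))`. -/
theorem borell3 {g : ℝ → ℝ} (hg0 : ∀ s, 0 < s → 0 ≤ g s) (hgm : Measurable g)
    (hlc : ∀ a, 0 < a → a < 1 → ∀ s t, 0 < s → 0 < t →
      g s ^ (1 - a) * g t ^ a ≤ g ((1 - a) * s + a * t)) {β : ℝ} (hβ : 1 < β)
    (h1 : IntegrableOn (fun s => s ^ (β - 2) * g s) (Ioi 0))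
    (h2 : IntegrableOn (fun s => s ^ β * g s) (Ioi 0))
    (h3 : IntegrableOn (fun s => s ^ (β + 2) * g s) (Ioi 0)) :
    (∫ s in Ioi (0 : ℝ), s ^ (β - 2) * g s) * (∫ s in Ioi (0 : ℝ), s ^ (β + 2) * g s) ≤
      (β + 2) * (β + 1) / (β * (β - 1)) * (∫ s in Ioi (0 : ℝ), s ^ β * g s) ^ 2 := by
  have hA0 : 0 ≤ ∫ s in Ioi (0 : ℝ), s ^ (β - 2) * g s :=
    setIntegral_nonneg measurableSet_Ioi fun s hs =>
      mul_nonneg (Real.rpow_nonneg (le_of_lt hs) _) (hg0 s hs)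
  have hD0 : 0 ≤ ∫ s in Ioi (0 : ℝ), s ^ (β + 2) * g s :=
    setIntegral_nonneg measurableSet_Ioi fun s hs =>
      mul_nonneg (Real.rpow_nonneg (le_of_lt hs) _) (hg0 s hs)
  have hR : 0 ≤ (β + 2) * (β + 1) / (β * (β - 1)) * (∫ s in Ioi (0 : ℝ), s ^ β * g s) ^ 2 :=
    mul_nonneg (div_nonneg (by nlinarith) (by nlinarith)) (sq_nonneg _)
  rcases hA0.eq_or_lt with hA | hA
  · rw [← hA, zero_mul]; exact hR
  rcases hD0.eq_or_lt with hD | hD
  · rw [← hD, mul_zero]; exact hR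
  set A := ∫ s in Ioi (0 : ℝ), s ^ (β - 2) * g s with hAdef
  set D := ∫ s in Ioi (0 : ℝ), s ^ (β + 2) * g s with hDdef
  set B := ∫ s in Ioi (0 : ℝ), s ^ β * g s with hBdef
  have hG1 : 0 < Real.Gamma (β - 1) := Real.Gamma_pos_of_pos (by linarith)
  set Γ₁ := Real.Gamma (β - 1) with hΓ₁
  have hG3 : Real.Gamma (β + 1) = β * (β - 1) * Γ₁ := by
    rw [Real.Gamma_add_one (by linarith : β ≠ 0), show β = (β - 1) + 1 by ring,
      Real.Gamma_add_one (by linarith : β - 1 ≠ 0)]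
    ring_nf
    rw [hΓ₁]; ring_nf
  have hG5 : Real.Gamma (β + 3) = (β + 2) * (β + 1) * (β * (β - 1) * Γ₁) := by
    rw [show β + 3 = (β + 2) + 1 by ring, Real.Gamma_add_one (by linarith : β + 2 ≠ 0),
      show β + 2 = (β + 1) + 1 by ring, Real.Gamma_add_one (by linarith : β + 1 ≠ 0), hG3]
    ring
  have hK : 0 < (β + 2) * (β + 1) * (β * (β - 1)) := by
    have : 0 < β - 1 := by linarith
    have : 0 < β := by linarith
    positivity
  set K := (β + 2) * (β + 1) * (β * (β - 1)) with hKdef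
  -- `μ⁴ = D / (A K)`
  have hq : 0 < D / (A * K) := by positivity
  obtain ⟨μ, hμ, hμ4⟩ : ∃ μ : ℝ, 0 < μ ∧ μ ^ 4 = D / (A * K) := by
    refine ⟨(D / (A * K)) ^ ((1 : ℝ) / 4), Real.rpow_pos_of_pos hq _, ?_⟩
    rw [← Real.rpow_natCast, ← Real.rpow_mul hq.le]
    norm_num
  have hm : 0 < μ ^ (β - 1) := Real.rpow_pos_of_pos hμ _
  set m := μ ^ (β - 1) with hmdef
  set c := A / (m * Γ₁) with hcdef
  have hc : 0 < c := by positivity
  set lam := 1 / μ with hlam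
  have hl : 0 < lam := by positivity
  have hlm : 1 / lam = μ := by rw [hlam]; simp
  have e3 : μ ^ (β + 1) = m * μ ^ 2 := by
    rw [hmdef, show β + 1 = (β - 1) + (2 : ℕ) by push_cast; ring, Real.rpow_add hμ,
      Real.rpow_natCast]
  have e5 : μ ^ (β + 3) = m * μ ^ 4 := by
    rw [hmdef, show β + 3 = (β - 1) + (4 : ℕ) by push_cast; ring, Real.rpow_add hμ,
      Real.rpow_natCast]
  have I1 : ∫ s in Ioi (0 : ℝ), s ^ (β - 2) * Real.exp (-(lam * s)) = m * Γ₁ := by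
    have := Real.integral_rpow_mul_exp_neg_mul_Ioi (a := β - 1) (r := lam) (by linarith) hl
    rw [hlm] at this
    rw [← this]
    congr 1; ext s; congr 2; ring
  have I2 : ∫ s in Ioi (0 : ℝ), s ^ β * Real.exp (-(lam * s)) = m * μ ^ 2 * (β * (β - 1) * Γ₁) := by
    have := Real.integral_rpow_mul_exp_neg_mul_Ioi (a := β + 1) (r := lam) (by linarith) hl
    rw [hlm, hG3, e3] at this
    rw [← this]
    congr 1; ext s; congr 2; ring
  have I3 : ∫ s in Ioi (0 : ℝ), s ^ (β + 2) * Real.exp (-(lam * s)) = m * μ ^ 4 * (K * Γ₁) := by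
    have := Real.integral_rpow_mul_exp_neg_mul_Ioi (a := β + 3) (r := lam) (by linarith) hl
    rw [hlm, hG5, e5] at this
    rw [show K * Γ₁ = (β + 2) * (β + 1) * (β * (β - 1) * Γ₁) by rw [hKdef]; ring, ← this]
    congr 1; ext s; congr 2; ring
  have J1 : IntegrableOn (fun s : ℝ => s ^ (β - 2) * Real.exp (-(lam * s))) (Ioi 0) := by
    have := bo_int (a := β - 1) (lam := lam) (by linarith) hl
    rwa [show β - 1 - 1 = β - 2 by ring] at this
  have J2 : IntegrableOn (fun s : ℝ => s ^ β * Real.exp (-(lam * s))) (Ioi 0) := by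
    have := bo_int (a := β + 1) (lam := lam) (by linarith) hl
    rwa [show β + 1 - 1 = β by ring] at this
  have J3 : IntegrableOn (fun s : ℝ => s ^ (β + 2) * Real.exp (-(lam * s))) (Ioi 0) := by
    have := bo_int (a := β + 3) (lam := lam) (by linarith) hl
    rwa [show β + 3 - 1 = β + 2 by ring] at this
  -- the difference
  set d : ℝ → ℝ := fun s => g s - c * Real.exp (-(lam * s)) with hd
  have split : ∀ {e : ℝ}, IntegrableOn (fun s : ℝ => s ^ e * g s) (Ioi 0) →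
      IntegrableOn (fun s : ℝ => s ^ e * Real.exp (-(lam * s))) (Ioi 0) →
      IntegrableOn (fun s : ℝ => s ^ e * d s) (Ioi 0) ∧
      ∫ s in Ioi (0 : ℝ), s ^ e * d s = (∫ s in Ioi (0 : ℝ), s ^ e * g s) -
        c * ∫ s in Ioi (0 : ℝ), s ^ e * Real.exp (-(lam * s)) := by
    intro e k1 k2
    have hfe : (fun s : ℝ => s ^ e * d s) =
        fun s => s ^ e * g s - c * (s ^ e * Real.exp (-(lam * s))) := by
      ext s; simp only [hd]; ring
    have k3 : IntegrableOn (fun s : ℝ => c * (s ^ e * Real.exp (-(lam * s)))) (Ioi 0) :=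
      k2.const_mul c
    refine ⟨?_, ?_⟩
    · rw [hfe]; exact k1.sub k3
    · rw [hfe, integral_sub k1 k3, integral_const_mul]
  obtain ⟨K1, L1⟩ := split h1 J1
  obtain ⟨K2, L2⟩ := split h2 J2
  obtain ⟨K3, L3⟩ := split h3 J3
  rw [I1, ← hAdef] at L1
  rw [I2, ← hBdef] at L2
  rw [I3, ← hDdef] at L3
  have hcm : c * (m * Γ₁) = A := by rw [hcdef]; field_simp
  have Z1 : ∫ s in Ioi (0 : ℝ), s ^ (β - 2) * d s = 0 := by rw [L1, hcm, sub_self]
  have hcD : c * (m * μ ^ 4 * (K * Γ₁)) = D := by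
    calc c * (m * μ ^ 4 * (K * Γ₁)) = (c * (m * Γ₁)) * (μ ^ 4 * K) := by ring
      _ = A * (D / (A * K) * K) := by rw [hcm, hμ4]
      _ = D := by field_simp
  have Z3 : ∫ s in Ioi (0 : ℝ), s ^ (β + 2) * d s = 0 := by rw [L3, hcD, sub_self]
  -- the positivity set
  obtain ⟨p, r, hp1, hp2⟩ := bo_sign {s : ℝ | 0 < s ∧ c * Real.exp (-(lam * s)) < g s}
    (fun s hs => hs.1) (by
      rintro x ⟨hx0, hx⟩ y ⟨hy0, hy⟩ z hxz hzy
      have hz0 : 0 < z := hx0.trans_le hxz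
      rcases hxz.eq_or_lt with rfl | hxz
      · exact ⟨hx0, hx⟩
      rcases hzy.eq_or_lt with rfl | hzy
      · exact ⟨hy0, hy⟩
      refine ⟨hz0, ?_⟩
      have hyx : 0 < y - x := by linarith
      set a := (z - x) / (y - x) with hadef
      have ha0 : 0 < a := div_pos (by linarith) hyx
      have ha1 : a < 1 := (div_lt_one hyx).2 (by linarith)
      have hz : (1 - a) * x + a * y = z := by
        have : a * (y - x) = z - x := by rw [hadef]; field_simp
        linarith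
      have hl1 := hlc a ha0 ha1 x y hx0 hy0
      rw [hz] at hl1
      refine lt_of_lt_of_le ?_ hl1
      have hcx : 0 < c * Real.exp (-(lam * x)) := by positivity
      have hcy : 0 < c * Real.exp (-(lam * y)) := by positivity
      have q1 : (c * Real.exp (-(lam * x))) ^ (1 - a) < g x ^ (1 - a) :=
        Real.rpow_lt_rpow hcx.le hx (by linarith)
      have q2 : (c * Real.exp (-(lam * y))) ^ a < g y ^ a :=
        Real.rpow_lt_rpow hcy.le hy ha0
      have q3 : c * Real.exp (-(lam * z)) =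
          (c * Real.exp (-(lam * x))) ^ (1 - a) * (c * Real.exp (-(lam * y))) ^ a := by
        rw [Real.mul_rpow hc.le (Real.exp_pos _).le, Real.mul_rpow hc.le (Real.exp_pos _).le,
          ← Real.exp_mul, ← Real.exp_mul]
        have : c ^ (1 - a) * Real.exp (-(lam * x) * (1 - a)) *
            (c ^ a * Real.exp (-(lam * y) * a)) = (c ^ (1 - a) * c ^ a) *
            (Real.exp (-(lam * x) * (1 - a)) * Real.exp (-(lam * y) * a)) := by ring
        rw [this, ← Real.rpow_add hc, ← Real.exp_add, ← hz]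
        rw [show 1 - a + a = 1 by ring, Real.rpow_one]
        congr 2
        ring
      rw [q3]
      exact mul_lt_mul'' q1 q2 (by positivity) (by positivity))
  have hk : ∀ s ∈ Ioi (0 : ℝ), 0 ≤ s ^ β * d s - p * (s ^ (β - 2) * d s) -
      r * (s ^ (β + 2) * d s) := by
    intro s hs
    have hs0 : 0 < s := hs
    have hb : s ^ β = s ^ (β - 2) * s ^ 2 := by
      rw [show β = (β - 2) + (2 : ℕ) by push_cast; ring, Real.rpow_add hs0, Real.rpow_natCast]
      congr 2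
      push_cast; ring
    have hb4 : s ^ (β + 2) = s ^ (β - 2) * s ^ 4 := by
      rw [show β + 2 = (β - 2) + (4 : ℕ) by push_cast; ring, Real.rpow_add hs0,
        Real.rpow_natCast]
    rw [hb, hb4]
    have hfac : s ^ (β - 2) * s ^ 2 * d s - p * (s ^ (β - 2) * d s) -
        r * (s ^ (β - 2) * s ^ 4 * d s) = s ^ (β - 2) * ((s ^ 2 - p - r * s ^ 4) * d s) := by
      ring
    rw [hfac]
    refine mul_nonneg (Real.rpow_nonneg hs0.le _) ?_
    by_cases hU : c * Real.exp (-(lam * s)) < g s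
    · exact mul_nonneg (hp1 s ⟨hs0, hU⟩) (by simp only [hd]; linarith)
    · exact mul_nonneg_of_nonpos_of_nonpos (hp2 s hs0 fun h => hU h.2)
        (by simp only [hd]; linarith)
  have hI : 0 ≤ ∫ s in Ioi (0 : ℝ), (s ^ β * d s - p * (s ^ (β - 2) * d s) -
      r * (s ^ (β + 2) * d s)) := setIntegral_nonneg measurableSet_Ioi hk
  have M1 : IntegrableOn (fun s : ℝ => p * (s ^ (β - 2) * d s)) (Ioi 0) := K1.const_mul p
  have M3 : IntegrableOn (fun s : ℝ => r * (s ^ (β + 2) * d s)) (Ioi 0) := K3.const_mul r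
  have M2 : IntegrableOn (fun s : ℝ => s ^ β * d s - p * (s ^ (β - 2) * d s)) (Ioi 0) :=
    K2.sub M1
  rw [integral_sub M2 M3, integral_sub K2 M1, integral_const_mul, integral_const_mul, Z1, Z3,
    L2] at hI
  have hB : c * (m * μ ^ 2 * (β * (β - 1) * Γ₁)) ≤ B := by linarith
  have hB0 : 0 < c * (m * μ ^ 2 * (β * (β - 1) * Γ₁)) := by
    have : 0 < β - 1 := by linarith
    have : 0 < β := by linarith
    positivity
  have hB2 := pow_le_pow_left₀ hB0.le hB 2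
  have hfin : A * D = (β + 2) * (β + 1) / (β * (β - 1)) *
      (c * (m * μ ^ 2 * (β * (β - 1) * Γ₁))) ^ 2 := by
    have hb1 : β - 1 ≠ 0 := by linarith
    have hb0 : β ≠ 0 := by linarith
    rw [← hcD, ← hcm, hKdef]
    field_simp
  rw [hfin]
  exact mul_le_mul_of_nonneg_left hB2 (div_nonneg (by nlinarith) (by nlinarith))

end Pool.Agent.Lib.MP_8d00da_gt.h42r
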