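import Mathlib
import Pool.Agent.Lib.MP_8d00da_gt.h42r.AM6
import Pool.Agent.Lib.MP_8d00da_gt.h42r.ADefs
import Pool.Agent.Lib.MP_8d00da_gt.h42r.AM1

namespace Pool.Agent.Lib.MP_8d00da_gt.h25
end Pool.Agent.Lib.MP_8d00da_gt.h25
namespace Pool.Agent.Lib.MP_8d00da_gt.h42s
end Pool.Agent.Lib.MP_8d00da_gt.h42s
namespace Pool.Agent.Lib.MP_8d00da_gt.h42o
end Pool.Agent.Lib.MP_8d00da_gt.h42o
namespace Pool.Agent.Lib.MP_8d00da_gt.h97r
end Pool.Agent.Lib.MP_8d00da_gt.h97r


/-!
# A2 inequality for the barrier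
-/

namespace Pool.Agent.Lib.MP_8d00da_gt.h42r

open MeasureTheory Set Filter
open Pool.Agent.Lib.MP_8d00da_gt.h25 Pool.Agent.Lib.MP_8d00da_gt.h42
open Pool.Agent.Lib.MP_8d00da_gt.h42s Pool.Agent.Lib.MP_8d00da_gt.h42o
open Pool.Agent.Lib.MP_8d00da_gt.h97r
open scoped Topology NNReal ENNReal

set_option linter.unusedSectionVars false

variable {F : Type*} [NormedAddCommGroup F] [InnerProductSpace ℝ F]
    [FiniteDimensional ℝ F] [MeasurableSpace F] [BorelSpace F]

variable {G : Type*} [NormedAddCommGroup G] [InnerProductSpace ℝ G]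
    [FiniteDimensional ℝ G] [MeasurableSpace G] [BorelSpace G]

variable {ι : Type*} [Fintype ι]

/-- The constant. -/
noncomputable def cB (β : ℝ) : ℝ := (β + 2) * (β + 1) / (β * (β - 1))

private lemma near_zero {g : ℝ → ℝ} (hg0 : ∀ s, 0 < s → 0 ≤ g s)
    (hlc : ∀ a, 0 < a → a < 1 → ∀ s t, 0 < s → 0 < t →
      g s ^ (1 - a) * g t ^ a ≤ g ((1 - a) * s + a * t)) {s1 : ℝ} (hs1 : 0 < s1)
    (hg1 : 0 < g s1) : ∃ M : ℝ, 0 ≤ M ∧ ∀ s, 0 < s → s < s1 / 2 → g s ≤ M := by
  set s0 : ℝ := s1 / 2 with hs0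
  have hs0p : 0 < s0 := by positivity
  set M : ℝ := (g s0 + 1) * (1 + 1 / g s1) with hM
  have hgs0 : 0 ≤ g s0 := hg0 s0 hs0p
  have hM1 : 1 ≤ M := by
    have h1 : 0 < 1 / g s1 := by positivity
    rw [hM]; nlinarith
  refine ⟨M ^ (2 : ℝ), by positivity, fun s hs hss => ?_⟩
  have hd : 0 < s1 - s := by linarith
  set a : ℝ := (s0 - s) / (s1 - s) with ha
  have ha0 : 0 < a := div_pos (by linarith) hd
  have ha2 : a ≤ 1 / 2 := by
    rw [ha, div_le_iff₀ hd]; linarith
  have ha1 : a < 1 := by linarith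
  have h1 := hlc a ha0 ha1 s s1 hs hs1
  have e1 : (1 - a) * s + a * s1 = s0 := by
    have : a * (s1 - s) = s0 - s := div_mul_cancel₀ _ hd.ne'
    linarith
  rw [e1] at h1
  have h2 : 0 < g s1 ^ a := Real.rpow_pos_of_pos hg1 _
  have h3 : 1 / g s1 ^ a ≤ 1 + 1 / g s1 := by
    rcases le_total 1 (g s1) with h | h
    · have h4 : 1 ≤ g s1 ^ a := Real.one_le_rpow h ha0.le
      have h5 : 1 / g s1 ^ a ≤ 1 := by
        rw [div_le_one h2]; exact h4
      have h6 : 0 < 1 / g s1 := by positivity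
      linarith
    · have h4 : g s1 ≤ g s1 ^ a := by
        have := Real.rpow_le_rpow_of_exponent_ge hg1 h ha1.le
        rwa [Real.rpow_one] at this
      have h5 : 1 / g s1 ^ a ≤ 1 / g s1 := one_div_le_one_div_of_le hg1 h4
      linarith
  have h4 : g s ^ (1 - a) ≤ M := by
    have h5 : g s ^ (1 - a) ≤ g s0 * (1 / g s1 ^ a) := by
      rw [mul_one_div, le_div_iff₀ h2]; exact h1
    refine h5.trans ?_
    rw [hM]
    exact mul_le_mul (by linarith) h3 (by positivity) (by linarith)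
  have hgs : 0 ≤ g s := hg0 s hs
  have h1a : 0 < 1 - a := by linarith
  calc g s = (g s ^ (1 - a)) ^ (1 - a)⁻¹ := by
        rw [← Real.rpow_mul hgs, mul_inv_cancel₀ h1a.ne', Real.rpow_one]
    _ ≤ M ^ (1 - a)⁻¹ := Real.rpow_le_rpow (Real.rpow_nonneg hgs _) h4 (by positivity)
    _ ≤ M ^ (2 : ℝ) := by
        refine Real.rpow_le_rpow_of_exponent_le hM1 ?_
        rw [inv_le_comm₀ h1a (by norm_num)]
        linarith

private lemma bar_one {r : ℝ → ℝ≥0∞} (hm : Measurable r) (hlc : LC1 r) {β : ℝ} (hβ : 1 < β)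
    (h2 : ∫⁻ s in Ioi (0 : ℝ), ENNReal.ofReal (s ^ β) * r s < ⊤)
    (h3 : ∫⁻ s in Ioi (0 : ℝ), ENNReal.ofReal (s ^ (β + 2)) * r s < ⊤) :
    (∫⁻ s in Ioi (0 : ℝ), ENNReal.ofReal (s ^ (β - 2)) * r s) *
      (∫⁻ s in Ioi (0 : ℝ), ENNReal.ofReal (s ^ (β + 2)) * r s) ≤
      ENNReal.ofReal (cB β) * (∫⁻ s in Ioi (0 : ℝ), ENNReal.ofReal (s ^ β) * r s) ^ 2 := by
  have hpm : ∀ γ : ℝ, Measurable fun s : ℝ => s ^ γ := fun γ => measurable_id.pow_const γ
  by_cases hz : ∀ᵐ s ∂(volume.restrict (Ioi (0 : ℝ))), r s = 0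
  · have e : ∫⁻ s in Ioi (0 : ℝ), ENNReal.ofReal (s ^ (β + 2)) * r s = 0 := by
      have hmm : Measurable fun s : ℝ => ENNReal.ofReal (s ^ (β + 2)) * r s :=
        (hpm (β + 2)).ennreal_ofReal.mul hm
      rw [lintegral_eq_zero_iff' hmm.aemeasurable]
      filter_upwards [hz] with s hs
      simp [hs]
    rw [e, mul_zero]; exact zero_le
  have hfin : ∀ s, 0 < s → r s ≠ ⊤ := by
    intro s0 hs0 htop
    apply hz
    have hall : ∀ t, 0 < t → t ≠ s0 → r t = 0 := by
      intro t ht hts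
      by_contra hne
      -- `r = ⊤` on the open segment
      have hseg : ∀ a, 0 < a → a < 1 → r ((1 - a) * s0 + a * t) = ⊤ := by
        intro a ha0 ha1
        have h4 := hlc a ha0 ha1 s0 t
        rw [htop, ENNReal.top_rpow_of_pos (by linarith), ENNReal.top_mul] at h4
        · exact top_le_iff.1 h4
        · intro h5
          rcases (ENNReal.rpow_eq_zero_iff).1 h5 with h6 | h6
          · exact hne h6.1
          · linarith [h6.2]
      have hsub : Ioo (min s0 t) (max s0 t) ⊆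
          {s | s ∈ Ioi (0 : ℝ) ∧ ENNReal.ofReal (s ^ β) * r s = ⊤} := by
        intro s hs
        have hs' : 0 < s := (lt_min hs0 ht).trans hs.1
        refine ⟨hs', ?_⟩
        have hd : t - s0 ≠ 0 := sub_ne_zero.2 hts
        have h5 : (1 - (s - s0) / (t - s0)) * s0 + (s - s0) / (t - s0) * t = s := by
          field_simp; ring
        have h6 : 0 < (s - s0) / (t - s0) ∧ (s - s0) / (t - s0) < 1 := by
          rcases lt_or_gt_of_ne hts with h | h
          · rw [min_eq_right h.le, max_eq_left h.le] at hs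
            constructor
            · exact div_pos_of_neg_of_neg (by linarith [hs.2]) (by linarith)
            · rw [div_lt_one_of_neg (by linarith)]; linarith [hs.1]
          · rw [min_eq_left h.le, max_eq_right h.le] at hs
            constructor
            · exact div_pos (by linarith [hs.1]) (by linarith)
            · rw [div_lt_one (by linarith)]; linarith [hs.2]
        have h7 := hseg _ h6.1 h6.2
        rw [h5] at h7
        rw [h7, ENNReal.mul_top]
        rw [Ne, ENNReal.ofReal_eq_zero, not_le]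
        exact Real.rpow_pos_of_pos hs' _
      have hmm : Measurable fun s : ℝ => ENNReal.ofReal (s ^ β) * r s :=
        (hpm β).ennreal_ofReal.mul hm
      have hae := ae_lt_top hmm h2.ne
      rw [ae_restrict_iff' measurableSet_Ioi, ae_iff] at hae
      have h8 : volume (Ioo (min s0 t) (max s0 t)) = 0 := by
        refine measure_mono_null (fun s hs => ?_) hae
        obtain ⟨h9, h10⟩ := hsub hs
        intro h11
        have := h11 h9
        exact absurd h10 this.ne
      rw [Real.volume_Ioo, ENNReal.ofReal_eq_zero] at h8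
      have h9 : min s0 t < max s0 t := min_lt_max.2 hts.symm
      linarith
    rw [ae_restrict_iff' measurableSet_Ioi]
    have h5 : ∀ᵐ s : ℝ, s ≠ s0 := by
      rw [ae_iff]; simp
    filter_upwards [h5] with s hs hs'
    exact hall s hs' hs
  obtain ⟨s1, hs1, hr1⟩ : ∃ s1, 0 < s1 ∧ r s1 ≠ 0 := by
    by_contra hcon
    push Not at hcon
    apply hz
    rw [ae_restrict_iff' measurableSet_Ioi]
    exact Eventually.of_forall fun s hs => hcon s hs
  set g : ℝ → ℝ := fun s => (r s).toReal with hg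
  have hgm : Measurable g := hm.ennreal_toReal
  have hg0 : ∀ s, 0 < s → 0 ≤ g s := fun s _ => ENNReal.toReal_nonneg
  have hglc : ∀ a, 0 < a → a < 1 → ∀ s t, 0 < s → 0 < t →
      g s ^ (1 - a) * g t ^ a ≤ g ((1 - a) * s + a * t) := by
    intro a ha0 ha1 s t hs ht
    have h4 := hlc a ha0 ha1 s t
    have hpos : 0 < (1 - a) * s + a * t := by
      have := mul_pos (by linarith : 0 < 1 - a) hs
      have := mul_pos ha0 ht
      linarith
    have h5 := ENNReal.toReal_mono (hfin _ hpos) h4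
    rw [ENNReal.toReal_mul, ← ENNReal.toReal_rpow, ← ENNReal.toReal_rpow] at h5
    exact h5
  have hg1 : 0 < g s1 := ENNReal.toReal_pos hr1 (hfin s1 hs1)
  have hofr : ∀ s, 0 < s → r s = ENNReal.ofReal (g s) := fun s hs =>
    (ENNReal.ofReal_toReal (hfin s hs)).symm
  have hconv : ∀ γ : ℝ, ∫⁻ s in Ioi (0 : ℝ), ENNReal.ofReal (s ^ γ) * r s =
      ∫⁻ s in Ioi (0 : ℝ), ENNReal.ofReal (s ^ γ * g s) := by
    intro γ
    refine setLIntegral_congr_fun measurableSet_Ioi fun s hs => ?_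
    have hs' : 0 < s := hs
    rw [ENNReal.ofReal_mul (Real.rpow_nonneg hs'.le _), ← hofr s hs']
  have hnn : ∀ γ : ℝ, ∀ᵐ s ∂(volume.restrict (Ioi (0 : ℝ))), 0 ≤ s ^ γ * g s := by
    intro γ
    rw [ae_restrict_iff' measurableSet_Ioi]
    exact Eventually.of_forall fun s hs =>
      mul_nonneg (Real.rpow_nonneg (le_of_lt hs) _) (hg0 s hs)
  have hint : ∀ γ : ℝ, ∫⁻ s in Ioi (0 : ℝ), ENNReal.ofReal (s ^ γ) * r s < ⊤ →
      IntegrableOn (fun s => s ^ γ * g s) (Ioi 0) := by
    intro γ hγ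
    rw [hconv] at hγ
    refine ⟨((hpm γ).mul hgm).aestronglyMeasurable, ?_⟩
    rw [hasFiniteIntegral_iff_ofReal (hnn γ)]
    exact hγ
  have hi2 := hint β h2
  have hi3 := hint (β + 2) h3
  have hi1 : IntegrableOn (fun s => s ^ (β - 2) * g s) (Ioi 0) := by
    obtain ⟨M, hM0, hM⟩ := near_zero hg0 hglc hs1 hg1
    have hs2 : 0 < s1 / 2 := by positivity
    have hsplit : Ioi (0 : ℝ) = Ioo 0 (s1 / 2) ∪ Ici (s1 / 2) := by
      ext s
      simp only [mem_Ioi, mem_union, mem_Ioo, mem_Ici]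
      constructor
      · intro h
        rcases lt_or_ge s (s1 / 2) with h' | h'
        · exact Or.inl ⟨h, h'⟩
        · exact Or.inr h'
      · rintro (h | h)
        · exact h.1
        · linarith
    rw [hsplit]
    refine IntegrableOn.union ?_ ?_
    · have h4 : IntegrableOn (fun s : ℝ => M * s ^ (β - 2)) (Ioo 0 (s1 / 2)) := by
        have := (intervalIntegral.intervalIntegrable_rpow' (a := 0) (b := s1 / 2)
          (by linarith : -1 < β - 2))
        rw [intervalIntegrable_iff_integrableOn_Ioo_of_le hs2.le] at this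
        exact this.const_mul M
      refine Integrable.mono' h4 ((hpm _).mul hgm).aestronglyMeasurable ?_
      rw [ae_restrict_iff' measurableSet_Ioo]
      refine Eventually.of_forall fun s hs => ?_
      have hp : 0 ≤ s ^ (β - 2) := Real.rpow_nonneg hs.1.le _
      rw [Real.norm_of_nonneg (mul_nonneg hp (hg0 s hs.1)), mul_comm]
      exact mul_le_mul_of_nonneg_right (hM s hs.1 hs.2) hp
    · have h4 : IntegrableOn (fun s : ℝ => ((s1 / 2) ^ 2)⁻¹ * (s ^ β * g s)) (Ici (s1 / 2)) :=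
        (hi2.mono_set (fun s hs => lt_of_lt_of_le hs2 hs)).const_mul _
      refine Integrable.mono' h4 ((hpm _).mul hgm).aestronglyMeasurable ?_
      rw [ae_restrict_iff' measurableSet_Ici]
      refine Eventually.of_forall fun s hs => ?_
      have hs' : 0 < s := lt_of_lt_of_le hs2 hs
      have hp : 0 ≤ s ^ (β - 2) := Real.rpow_nonneg hs'.le _
      rw [Real.norm_of_nonneg (mul_nonneg hp (hg0 s hs'))]
      have e1 : s ^ (β - 2) = (s ^ 2)⁻¹ * s ^ β := by
        rw [Real.rpow_sub hs', show (2 : ℝ) = ((2 : ℕ) : ℝ) by norm_num, Real.rpow_natCast]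
        field_simp
      rw [e1, mul_assoc]
      refine mul_le_mul_of_nonneg_right ?_ (mul_nonneg (Real.rpow_nonneg hs'.le _) (hg0 s hs'))
      have : s1 / 2 ≤ s := hs
      gcongr
  have key := borell3 hg0 hgm hglc hβ hi1 hi2 hi3
  rw [hconv, hconv, hconv, ← ofReal_integral_eq_lintegral_ofReal hi1 (hnn _),
    ← ofReal_integral_eq_lintegral_ofReal hi2 (hnn _),
    ← ofReal_integral_eq_lintegral_ofReal hi3 (hnn _)]
  have hI : ∀ γ : ℝ, 0 ≤ ∫ s in Ioi (0 : ℝ), s ^ γ * g s := fun γ =>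
    integral_nonneg_of_ae (hnn γ)
  have hc : 0 ≤ cB β := by
    unfold cB
    have : 0 < β - 1 := by linarith
    positivity
  rw [← ENNReal.ofReal_mul (hI _), ← ENNReal.ofReal_pow (hI _), ← ENNReal.ofReal_mul hc]
  exact ENNReal.ofReal_le_ofReal key

/-- `A2` for `ω = c (⟪a, x⟫ - b)^{-2}` and `h = ((⟪a,x⟫ - b)₊)^β k x`, `k` log-concave, `β > 1`.
`exists_marginal` for the log-concave function `k` restricted to `{⟪a, x⟫ > b}` (product with the
indicator of a convex set), direction `e = a/‖a‖`: marginal `ρ`, `LC1`, and with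
`s = ⟪e, x⟫ - b/‖a‖ > 0` one gets `∫ s^{γ} ‖a‖^{..} k = ∫ s^γ ρ`. `∫⁻ s^β ρ < ∞` implies that `ρ`
is finite at every point `s > 0` of the interior of its support and then (`LC1`) everywhere,
bounded near `s = 0`, and exponentially decreasing at infinity if not a.e. zero (so all moments
`> -1` are finite; `∫⁻ s^{β+2} ρ < ∞` also follows from `hi2`). Apply `borell3` to
`g s = (ρ s).toReal`. If `∫ h = 0` both sides vanish. `ω` may have any value where
`⟪a, x⟫ ≤ b` (there `h = 0`, and `0 * _ = 0`, `0 / _ = 0`). -/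
theorem A2_bar {k : F → ℝ} (hk0 : ∀ x, 0 ≤ k x) (hkm : Measurable k) (hklc : LogConc k) {a : F}
    (ha : a ≠ 0) (b : ℝ) {β c : ℝ} (hβ : 1 < β) (hc : 0 < c)
    (hi : Integrable fun x => (max (inner ℝ a x - b) 0) ^ β * k x)
    (hi2 : Integrable fun x => ‖x‖ ^ 2 * ((max (inner ℝ a x - b) 0) ^ β * k x)) :
    A2 (cB β) (fun x => (max (inner ℝ a x - b) 0) ^ β * k x)
      (fun x => c * ((inner ℝ a x - b) ^ 2)⁻¹) := by
  have hna : 0 < ‖a‖ := norm_pos_iff.2 ha
  set e : F := ‖a‖⁻¹ • a with he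
  have hen : ‖e‖ = 1 := norm_smul_inv_norm ha
  set b' : ℝ := b / ‖a‖ with hb'
  have hu : ∀ x, inner ℝ a x - b = ‖a‖ * (inner ℝ e x - b') := by
    intro x
    rw [he, inner_smul_left, conj_trivial, hb']
    field_simp
  obtain ⟨ρ, hρm, hρlc, hρ⟩ := exists_marginal hk0 hkm hklc hen
  set φ : ℝ → ℝ → ℝ≥0∞ := fun γ t => (Ioi b').indicator (fun t => ENNReal.ofReal ((t - b') ^ γ)) t
    with hφ
  have hφm : ∀ γ, Measurable (φ γ) := fun γ =>
    (((measurable_id.sub_const b').pow_const γ).ennreal_ofReal).indicator measurableSet_Ioi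
  set J : ℝ → ℝ≥0∞ := fun γ => ∫⁻ s in Ioi (0 : ℝ), ENNReal.ofReal (s ^ γ) * ρ (b' + s) with hJ
  have hJeq : ∀ γ, ∫⁻ x, φ γ (inner ℝ e x) * ENNReal.ofReal (k x) = J γ := by
    intro γ
    rw [hρ _ (hφm γ), ← lintegral_add_left_eq_self _ b']
    simp only [hJ]
    rw [← lintegral_indicator measurableSet_Ioi]
    refine lintegral_congr fun s => ?_
    simp only [hφ]
    by_cases hs : 0 < s
    · rw [indicator_of_mem (show b' + s ∈ Ioi b' by simpa using hs),
        indicator_of_mem (show s ∈ Ioi (0 : ℝ) from hs)]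
      rw [add_sub_cancel_left]
    · rw [indicator_of_notMem (show b' + s ∉ Ioi b' by simpa using hs),
        indicator_of_notMem (show s ∉ Ioi (0 : ℝ) from hs), zero_mul]
  -- pointwise identities
  have hw : ∀ x, ENNReal.ofReal ((max (inner ℝ a x - b) 0) ^ β * k x) =
      ENNReal.ofReal (‖a‖ ^ β) * (φ β (inner ℝ e x) * ENNReal.ofReal (k x)) := by
    intro x
    rw [hu]
    simp only [hφ]
    by_cases hs : b' < inner ℝ e x
    · have h1 : 0 < inner ℝ e x - b' := by linarith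
      rw [max_eq_left (by positivity), indicator_of_mem (show inner ℝ e x ∈ Ioi b' from hs),
        Real.mul_rpow hna.le h1.le, mul_assoc, ENNReal.ofReal_mul (by positivity),
        ENNReal.ofReal_mul (by positivity)]
    · have h1 : inner ℝ e x - b' ≤ 0 := by linarith [not_lt.1 hs]
      rw [max_eq_right (mul_nonpos_of_nonneg_of_nonpos hna.le h1),
        indicator_of_notMem (show inner ℝ e x ∉ Ioi b' from hs),
        Real.zero_rpow (by linarith), zero_mul, ENNReal.ofReal_zero, zero_mul, mul_zero]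
  have hw1 : ∀ x, ENNReal.ofReal ((max (inner ℝ a x - b) 0) ^ β * k x *
      (c * ((inner ℝ a x - b) ^ 2)⁻¹)) =
      ENNReal.ofReal (c * ‖a‖ ^ (β - 2)) * (φ (β - 2) (inner ℝ e x) * ENNReal.ofReal (k x)) := by
    intro x
    rw [hu]
    simp only [hφ]
    by_cases hs : b' < inner ℝ e x
    · have h1 : 0 < inner ℝ e x - b' := by linarith
      have h2 : 0 < ‖a‖ * (inner ℝ e x - b') := by positivity
      have e3 : (‖a‖ * (inner ℝ e x - b')) ^ β * k x *
          (c * ((‖a‖ * (inner ℝ e x - b')) ^ 2)⁻¹) =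
          c * ‖a‖ ^ (β - 2) * ((inner ℝ e x - b') ^ (β - 2) * k x) := by
        have e4 : (‖a‖ * (inner ℝ e x - b')) ^ (β - 2) =
            (‖a‖ * (inner ℝ e x - b')) ^ β * ((‖a‖ * (inner ℝ e x - b')) ^ 2)⁻¹ := by
          rw [Real.rpow_sub h2, show (2 : ℝ) = ((2 : ℕ) : ℝ) by norm_num, Real.rpow_natCast,
            div_eq_mul_inv]
        rw [Real.mul_rpow hna.le h1.le] at e4
        calc (‖a‖ * (inner ℝ e x - b')) ^ β * k x *
              (c * ((‖a‖ * (inner ℝ e x - b')) ^ 2)⁻¹)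
            = c * k x * ((‖a‖ * (inner ℝ e x - b')) ^ β *
              ((‖a‖ * (inner ℝ e x - b')) ^ 2)⁻¹) := by ring
          _ = _ := by rw [← e4]; ring
      rw [max_eq_left h2.le, indicator_of_mem (show inner ℝ e x ∈ Ioi b' from hs), e3,
        ENNReal.ofReal_mul (p := c * ‖a‖ ^ (β - 2)) (by positivity),
        ENNReal.ofReal_mul (p := (inner ℝ e x - b') ^ (β - 2)) (by positivity)]
    · have h1 : inner ℝ e x - b' ≤ 0 := by linarith [not_lt.1 hs]
      rw [max_eq_right (mul_nonpos_of_nonneg_of_nonpos hna.le h1),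
        indicator_of_notMem (show inner ℝ e x ∉ Ioi b' from hs),
        Real.zero_rpow (by linarith), zero_mul, zero_mul, ENNReal.ofReal_zero, zero_mul, mul_zero]
  have hw2 : ∀ x, ENNReal.ofReal ((max (inner ℝ a x - b) 0) ^ β * k x /
      (c * ((inner ℝ a x - b) ^ 2)⁻¹)) =
      ENNReal.ofReal (c⁻¹ * ‖a‖ ^ (β + 2)) * (φ (β + 2) (inner ℝ e x) * ENNReal.ofReal (k x)) := by
    intro x
    rw [hu]
    simp only [hφ]
    by_cases hs : b' < inner ℝ e x
    · have h1 : 0 < inner ℝ e x - b' := by linarith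
      have h2 : 0 < ‖a‖ * (inner ℝ e x - b') := by positivity
      have e3 : (‖a‖ * (inner ℝ e x - b')) ^ β * k x /
          (c * ((‖a‖ * (inner ℝ e x - b')) ^ 2)⁻¹) =
          c⁻¹ * ‖a‖ ^ (β + 2) * ((inner ℝ e x - b') ^ (β + 2) * k x) := by
        have e4 : (‖a‖ * (inner ℝ e x - b')) ^ (β + 2) =
            (‖a‖ * (inner ℝ e x - b')) ^ β * (‖a‖ * (inner ℝ e x - b')) ^ 2 := by
          rw [Real.rpow_add h2, show (2 : ℝ) = ((2 : ℕ) : ℝ) by norm_num, Real.rpow_natCast]
        rw [Real.mul_rpow hna.le h1.le] at e4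
        rw [div_eq_mul_inv, mul_inv, inv_inv]
        calc (‖a‖ * (inner ℝ e x - b')) ^ β * k x *
              (c⁻¹ * (‖a‖ * (inner ℝ e x - b')) ^ 2)
            = c⁻¹ * k x * ((‖a‖ * (inner ℝ e x - b')) ^ β *
              (‖a‖ * (inner ℝ e x - b')) ^ 2) := by ring
          _ = _ := by rw [← e4]; ring
      rw [max_eq_left h2.le, indicator_of_mem (show inner ℝ e x ∈ Ioi b' from hs), e3,
        ENNReal.ofReal_mul (p := c⁻¹ * ‖a‖ ^ (β + 2)) (by positivity),
        ENNReal.ofReal_mul (p := (inner ℝ e x - b') ^ (β + 2)) (by positivity)]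
    · have h1 : inner ℝ e x - b' ≤ 0 := by linarith [not_lt.1 hs]
      rw [max_eq_right (mul_nonpos_of_nonneg_of_nonpos hna.le h1),
        indicator_of_notMem (show inner ℝ e x ∉ Ioi b' from hs),
        Real.zero_rpow (by linarith), zero_mul, zero_div, ENNReal.ofReal_zero, zero_mul, mul_zero]
  have hφk : ∀ γ, Measurable fun x => φ γ (inner ℝ e x) * ENNReal.ofReal (k x) := by
    intro γ
    have h1 : Measurable fun x : F => inner ℝ e x :=
      (continuous_const.inner continuous_id).measurable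
    exact ((hφm γ).comp h1).mul hkm.ennreal_ofReal
  have hpβ : 0 < ‖a‖ ^ β := Real.rpow_pos_of_pos hna _
  -- finiteness
  have hJβ : J β < ⊤ := by
    have h1 := hi.lintegral_lt_top
    simp_rw [hw] at h1
    rw [lintegral_const_mul _ (hφk β), hJeq] at h1
    by_contra hcon
    rw [not_lt, top_le_iff] at hcon
    rw [hcon, ENNReal.mul_top] at h1
    · exact lt_irrefl _ h1
    · rw [Ne, ENNReal.ofReal_eq_zero, not_le]; exact hpβ
  have hJβ2 : J (β + 2) < ⊤ := by
    rw [← hJeq]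
    have h1 : Integrable fun x => 2 * (‖a‖ ^ β)⁻¹ *
        (‖x‖ ^ 2 * ((max (inner ℝ a x - b) 0) ^ β * k x)) + 2 * b' ^ 2 * (‖a‖ ^ β)⁻¹ *
        ((max (inner ℝ a x - b) 0) ^ β * k x) := (hi2.const_mul _).add (hi.const_mul _)
    refine lt_of_le_of_lt (lintegral_mono fun x => ?_) h1.lintegral_lt_top
    simp only [hφ]
    by_cases hs : b' < inner ℝ e x
    · have h2 : 0 < inner ℝ e x - b' := by linarith
      rw [indicator_of_mem (show inner ℝ e x ∈ Ioi b' from hs), hu,
        max_eq_left (by positivity), ← ENNReal.ofReal_mul (by positivity),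
        Real.mul_rpow hna.le h2.le]
      apply ENNReal.ofReal_le_ofReal
      have e3 : (inner ℝ e x - b') ^ (β + 2) =
          (inner ℝ e x - b') ^ β * (inner ℝ e x - b') ^ 2 := by
        rw [Real.rpow_add h2, show (2 : ℝ) = ((2 : ℕ) : ℝ) by norm_num, Real.rpow_natCast]
      have h3 : (inner ℝ e x - b') ^ 2 ≤ 2 * ‖x‖ ^ 2 + 2 * b' ^ 2 := by
        have h4 : inner ℝ e x ^ 2 ≤ ‖x‖ ^ 2 := by
          have h5 := abs_real_inner_le_norm e x
          rw [hen, one_mul] at h5
          rw [← sq_abs]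
          exact pow_le_pow_left₀ (abs_nonneg _) h5 2
        nlinarith [sq_nonneg (inner ℝ e x + b')]
      have h6 : 0 ≤ (inner ℝ e x - b') ^ β * k x :=
        mul_nonneg (Real.rpow_nonneg h2.le _) (hk0 x)
      have h7 := mul_le_mul_of_nonneg_left h3 h6
      rw [e3]
      calc (inner ℝ e x - b') ^ β * (inner ℝ e x - b') ^ 2 * k x
          = (inner ℝ e x - b') ^ β * k x * (inner ℝ e x - b') ^ 2 := by ring
        _ ≤ _ := h7
        _ = _ := by field_simp
    · rw [indicator_of_notMem (show inner ℝ e x ∉ Ioi b' from hs), zero_mul]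
      exact zero_le
  have hlc' : LC1 fun s => ρ (b' + s) := by
    intro a' ha0 ha1 s t
    have h1 := hρlc a' ha0 ha1 (b' + s) (b' + t)
    have e1 : (1 - a') * (b' + s) + a' * (b' + t) = b' + ((1 - a') * s + a' * t) := by ring
    rw [e1] at h1
    exact h1
  have key := bar_one (hρm.comp (measurable_const_add b')) hlc' hβ hJβ hJβ2
  unfold A2
  simp_rw [hw, hw1, hw2]
  rw [lintegral_const_mul _ (hφk β), lintegral_const_mul _ (hφk (β - 2)),
    lintegral_const_mul _ (hφk (β + 2)), hJeq, hJeq, hJeq]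
  have e5 : ENNReal.ofReal (c * ‖a‖ ^ (β - 2)) * ENNReal.ofReal (c⁻¹ * ‖a‖ ^ (β + 2)) =
      ENNReal.ofReal (‖a‖ ^ β) ^ 2 := by
    rw [← ENNReal.ofReal_mul (by positivity), ← ENNReal.ofReal_pow (by positivity)]
    congr 1
    have e6 : ‖a‖ ^ (β - 2) * ‖a‖ ^ (β + 2) = (‖a‖ ^ β) ^ 2 := by
      rw [← Real.rpow_add hna, ← Real.rpow_natCast, ← Real.rpow_mul hna.le]
      congr 1
      push_cast
      ring
    calc c * ‖a‖ ^ (β - 2) * (c⁻¹ * ‖a‖ ^ (β + 2))
        = (c * c⁻¹) * (‖a‖ ^ (β - 2) * ‖a‖ ^ (β + 2)) := by ring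
      _ = _ := by rw [mul_inv_cancel₀ hc.ne', one_mul, e6]
  calc ENNReal.ofReal (c * ‖a‖ ^ (β - 2)) * J (β - 2) *
        (ENNReal.ofReal (c⁻¹ * ‖a‖ ^ (β + 2)) * J (β + 2))
      = (ENNReal.ofReal (c * ‖a‖ ^ (β - 2)) * ENNReal.ofReal (c⁻¹ * ‖a‖ ^ (β + 2))) *
        (J (β - 2) * J (β + 2)) := by ring
    _ ≤ ENNReal.ofReal (‖a‖ ^ β) ^ 2 * (ENNReal.ofReal (cB β) * J β ^ 2) := by
        rw [e5]; exact mul_le_mul_right key _
    _ = _ := by ring

end Pool.Agent.Lib.MP_8d00da_gt.h42r
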