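import Mathlib
import Pool.Agent.Lib.MP_8d00da_gt.h42r.AM7
import Pool.Agent.Lib.MP_8d00da_gt.h42r.AM3

namespace Pool.Agent.Lib.MP_8d00da_gt.h25
end Pool.Agent.Lib.MP_8d00da_gt.h25
namespace Pool.Agent.Lib.MP_8d00da_gt.h42s
end Pool.Agent.Lib.MP_8d00da_gt.h42s
namespace Pool.Agent.Lib.MP_8d00da_gt.h42o
end Pool.Agent.Lib.MP_8d00da_gt.h42o
namespace Pool.Agent.Lib.MP_8d00da_gt.h97r
end Pool.Agent.Lib.MP_8d00da_gt.h97r


/-!
# Constants
-/

namespace Pool.Agent.Lib.MP_8d00da_gt.h42r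

open MeasureTheory Set Filter
open Pool.Agent.Lib.MP_8d00da_gt.h25 Pool.Agent.Lib.MP_8d00da_gt.h42
open Pool.Agent.Lib.MP_8d00da_gt.h42s Pool.Agent.Lib.MP_8d00da_gt.h42o
open Pool.Agent.Lib.MP_8d00da_gt.h97r
open scoped Topology NNReal ENNReal

set_option linter.unusedSectionVars false

variable {F : Type*} [NormedAddCommGroup F] [InnerProductSpace ℝ F]
    [FiniteDimensional ℝ F] [MeasurableSpace F] [BorelSpace F]

variable {G : Type*} [NormedAddCommGroup G] [InnerProductSpace ℝ G]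
    [FiniteDimensional ℝ G] [MeasurableSpace G] [BorelSpace G]

variable {ι : Type*} [Fintype ι]

/-- `cA α ≤ 4/(1-α)` for `0 ≤ α < 1`: `2^α ≤ 1 + α` (convexity) and `(1+α)(3-α) ≤ 4`. -/
theorem cA_le {α : ℝ} (h0 : 0 ≤ α) (h1 : α < 1) : cA α ≤ 4 / (1 - α) := by
  have h2 : (2 : ℝ) ^ α ≤ 1 + α := by
    have := rpow_one_add_le_one_add_mul_self (s := 1) (by norm_num) (p := α) h0 h1.le
    norm_num at this
    linarith
  have h3 : (0 : ℝ) < 1 - α := by linarith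
  unfold cA
  apply div_le_div_of_nonneg_right _ h3.le
  have h4 : (2 : ℝ) ^ α * (3 - α) ≤ (1 + α) * (3 - α) :=
    mul_le_mul_of_nonneg_right h2 (by linarith)
  nlinarith [sq_nonneg (1 - α)]

/-- `cB β ≤ 6/δ` for `β ≥ 1 + δ`, `0 < δ ≤ 1`. -/
theorem cB_le {β δ : ℝ} (h0 : 0 < δ) (h1 : δ ≤ 1) (hβ : 1 + δ ≤ β) : cB β ≤ 6 / δ := by
  have hb : 0 < β - 1 := by linarith
  have hβ0 : 0 < β := by linarith
  unfold cB
  rw [div_le_div_iff₀ (mul_pos hβ0 hb) h0]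
  obtain ⟨b, rfl⟩ : ∃ b, β = b + 1 := ⟨β - 1, by ring⟩
  have hδb : δ ≤ b := by linarith
  have hb0 : 0 < b := by linarith
  rcases le_total b 1 with h | h
  · have e1 : (b + 1 + 2) * (b + 1 + 1) * δ ≤ (b + 1 + 2) * (b + 1 + 1) * b :=
      mul_le_mul_of_nonneg_left hδb (by positivity)
    have e2 : (b + 1 + 2) * (b + 1 + 1) * b ≤ 6 * ((b + 1) * (b + 1 - 1)) := by
      have : (b + 3) * (b + 2) ≤ 6 * (b + 1) := by nlinarith
      nlinarith
    exact e1.trans e2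
  · have e1 : (b + 1 + 2) * (b + 1 + 1) * δ ≤ (b + 1 + 2) * (b + 1 + 1) * 1 :=
      mul_le_mul_of_nonneg_left h1 (by positivity)
    have e2 : (b + 1 + 2) * (b + 1 + 1) * 1 ≤ 6 * ((b + 1) * (b + 1 - 1)) := by
      nlinarith
    exact e1.trans e2

end Pool.Agent.Lib.MP_8d00da_gt.h42r
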