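import Mathlib
import Pool.Agent.Lib.MP_8d00da_gt.h42r.AP1
import Pool.Agent.Lib.MP_8d00da_gt.h42r.AP2
import Pool.Agent.Lib.MP_8d00da_gt.h42r.AP2b
import Pool.Agent.Lib.MP_8d00da_gt.h42r.AP3a

namespace Pool.Agent.Lib.MP_8d00da_gt.h25
end Pool.Agent.Lib.MP_8d00da_gt.h25
namespace Pool.Agent.Lib.MP_8d00da_gt.h42s
end Pool.Agent.Lib.MP_8d00da_gt.h42s
namespace Pool.Agent.Lib.MP_8d00da_gt.h42o
end Pool.Agent.Lib.MP_8d00da_gt.h42o
namespace Pool.Agent.Lib.MP_8d00da_gt.h97r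
end Pool.Agent.Lib.MP_8d00da_gt.h97r


/-!
# Sums of powers: the data for sublevel sets
-/

namespace Pool.Agent.Lib.MP_8d00da_gt.h42r

open MeasureTheory Set Filter
open Pool.Agent.Lib.MP_8d00da_gt.h25 Pool.Agent.Lib.MP_8d00da_gt.h42
open Pool.Agent.Lib.MP_8d00da_gt.h42s Pool.Agent.Lib.MP_8d00da_gt.h42o
open Pool.Agent.Lib.MP_8d00da_gt.h97r
open scoped Topology NNReal ENNReal

set_option linter.unusedSectionVars false

variable {F : Type*} [NormedAddCommGroup F] [InnerProductSpace ℝ F]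
    [FiniteDimensional ℝ F] [MeasurableSpace F] [BorelSpace F]

variable {G : Type*} [NormedAddCommGroup G] [InnerProductSpace ℝ G]
    [FiniteDimensional ℝ G] [MeasurableSpace G] [BorelSpace G]

variable {ι : Type*} [Fintype ι]

private lemma ae_ne_aff {P : F →L[ℝ] G} (hP : P ≠ 0) (b : G) : ∀ᵐ x : F, P x - b ≠ 0 := by
  obtain ⟨v, hv⟩ : ∃ v, P v ≠ 0 := by
    by_contra h
    push Not at h
    exact hP (ContinuousLinearMap.ext h)
  let s : AffineSubspace ℝ F :=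
    { carrier := {x | P x = b}
      smul_vsub_vadd_mem' := by
        intro t a b d ha hb hd
        simp only [mem_ofPred_eq, vsub_eq_sub, vadd_eq_add, map_add, map_smul, map_sub] at *
        rw [ha, hb, hd]; simp }
  have hs : s ≠ ⊤ := by
    intro h
    have h0 : (0 : F) ∈ s := by rw [h]; exact AffineSubspace.mem_top ℝ F _
    have h1 : v ∈ s := by rw [h]; exact AffineSubspace.mem_top ℝ F _
    have h0' : P (0 : F) = b := h0
    have h1' : P v = b := h1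
    rw [map_zero] at h0'
    exact hv (h1'.trans h0'.symm)
  have := Measure.addHaar_affineSubspace (volume : Measure F) s hs
  rw [ae_iff]
  refine measure_mono_null (fun x hx => ?_) this
  have hx' : ¬ (P x - b ≠ 0) := hx
  rw [not_not, sub_eq_zero] at hx'
  exact hx'

private lemma conv_pow {p : ℝ} (hp : 1 ≤ p) (P : F →L[ℝ] G) (b : G) :
    ConvexOn ℝ univ fun x => ‖P x - b‖ ^ p := by
  refine ⟨convex_univ, fun x _ y _ s t hs ht hst => ?_⟩
  have h1 : P (s • x + t • y) - b = s • (P x - b) + t • (P y - b) := by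
    rw [map_add, map_smul, map_smul]
    have : b = s • b + t • b := by rw [← add_smul, hst, one_smul]
    nth_rewrite 1 [this]
    module
  have h2 : ‖P (s • x + t • y) - b‖ ≤ s * ‖P x - b‖ + t * ‖P y - b‖ := by
    rw [h1]
    refine (norm_add_le _ _).trans ?_
    rw [norm_smul, norm_smul, Real.norm_of_nonneg hs, Real.norm_of_nonneg ht]
  have h3 := (convexOn_rpow hp).2 (norm_nonneg (P x - b)) (norm_nonneg (P y - b)) hs ht hst
  simp only [smul_eq_mul] at h3 ⊢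
  exact (Real.rpow_le_rpow (norm_nonneg _) h2 (by linarith)).trans h3

private lemma conv_Vf {c p : ι → ℝ} {P : ι → F →L[ℝ] G} (hc : ∀ j, 0 < c j) (hp : ∀ j, 1 < p j)
    (b : ι → G) (v : F) : ConvexOn ℝ univ (Vf c p P b v) := by
  unfold Vf
  refine ConvexOn.add ?_ ?_
  · classical
    have : ∀ s : Finset ι, ConvexOn ℝ univ fun x => ∑ j ∈ s, c j * ‖P j x - b j‖ ^ p j := by
      intro s
      induction s using Finset.induction_on with
      | empty => simpa using convexOn_const (0 : ℝ) (convex_univ (𝕜 := ℝ) (E := F))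
      | insert a s ha ih =>
        simp only [Finset.sum_insert ha]
        refine ConvexOn.add ?_ ih
        exact (conv_pow (hp a).le (P a) (b a)).smul (hc a).le
    exact this _
  · refine ⟨convex_univ, fun x _ y _ s t hs ht hst => ?_⟩
    simp only [inner_add_right, inner_smul_right, smul_eq_mul]
    exact le_rfl

private lemma up_one {p : ℝ} (hp : 1 < p) {Λ c : ℝ} (hc : 0 < c)
    (hΛp : max 1 (p - 1) ≤ Λ * min 1 (p - 1)) {y : G} (hy : y ≠ 0) (w : G) {η : ℝ} (hη : 0 < η) :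
    ∃ τ0 : ℝ, 0 < τ0 ∧ ∀ τ, 0 < τ → τ < τ0 →
    c * sd (fun y : G => ‖y‖ ^ p) y (τ • w) ≤
      τ ^ 2 * (Λ * (c * (p * min 1 (p - 1)) * ‖y‖ ^ (p - 2) * ‖w‖ ^ 2) + η) := by
  have hyn : 0 < ‖y‖ := norm_pos_iff.2 hy
  rcases le_total p 2 with h2 | h2
  · refine ⟨1, one_pos, fun τ hτ _ => ?_⟩
    have h1 := pw_up1 hp.le h2 hy (τ • w)
    rw [norm_smul, Real.norm_of_nonneg hτ.le] at h1
    have h3 : (1 : ℝ) ≤ Λ * min 1 (p - 1) := (le_max_left _ _).trans hΛp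
    have h4 : 0 ≤ τ ^ 2 * (c * p * ‖y‖ ^ (p - 2) * ‖w‖ ^ 2) := by positivity
    calc c * sd (fun y : G => ‖y‖ ^ p) y (τ • w)
        ≤ c * (p * ‖y‖ ^ (p - 2) * (τ * ‖w‖) ^ 2) := mul_le_mul_of_nonneg_left h1 hc.le
      _ = 1 * (τ ^ 2 * (c * p * ‖y‖ ^ (p - 2) * ‖w‖ ^ 2)) := by ring
      _ ≤ (Λ * min 1 (p - 1)) * (τ ^ 2 * (c * p * ‖y‖ ^ (p - 2) * ‖w‖ ^ 2)) :=
          mul_le_mul_of_nonneg_right h3 h4
      _ ≤ (Λ * min 1 (p - 1)) * (τ ^ 2 * (c * p * ‖y‖ ^ (p - 2) * ‖w‖ ^ 2)) + τ ^ 2 * η := by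
          have : 0 ≤ τ ^ 2 * η := by positivity
          linarith
      _ = _ := by ring
  · -- continuity
    have hK : 0 ≤ c * (p * (p - 1)) * ‖w‖ ^ 2 := by
      have : 0 ≤ p - 1 := by linarith
      positivity
    have hcont : Tendsto (fun τ : ℝ => c * (p * (p - 1)) * ‖w‖ ^ 2 * (‖y‖ + τ * ‖w‖) ^ (p - 2))
        (𝓝 0) (𝓝 (c * (p * (p - 1)) * ‖w‖ ^ 2 * (‖y‖ + 0 * ‖w‖) ^ (p - 2))) := by
      refine Tendsto.const_mul _ ?_
      refine Tendsto.rpow_const ?_ (Or.inr (by linarith))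
      exact (tendsto_const_nhds.add (tendsto_id.mul_const _))
    have hev := hcont.eventually_lt_const (show c * (p * (p - 1)) * ‖w‖ ^ 2 *
      (‖y‖ + 0 * ‖w‖) ^ (p - 2) < c * (p * (p - 1)) * ‖w‖ ^ 2 * ‖y‖ ^ (p - 2) + η by
        rw [zero_mul, add_zero]; linarith)
    obtain ⟨τ0, hτ0, hball⟩ := Metric.eventually_nhds_iff.1 hev
    refine ⟨τ0, hτ0, fun τ hτ hττ => ?_⟩
    have h1 := pw_up2 h2 y (τ • w)
    rw [norm_smul, Real.norm_of_nonneg hτ.le] at h1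
    have h5 := hball (y := τ) (by rw [Real.dist_eq, sub_zero, abs_of_pos hτ]; exact hττ)
    have h3 : p - 1 ≤ Λ * min 1 (p - 1) := (le_max_right _ _).trans hΛp
    calc c * sd (fun y : G => ‖y‖ ^ p) y (τ • w)
        ≤ c * (p * (p - 1) * (‖y‖ + τ * ‖w‖) ^ (p - 2) * (τ * ‖w‖) ^ 2) :=
          mul_le_mul_of_nonneg_left h1 hc.le
      _ = τ ^ 2 * (c * (p * (p - 1)) * ‖w‖ ^ 2 * (‖y‖ + τ * ‖w‖) ^ (p - 2)) := by ring
      _ ≤ τ ^ 2 * (c * (p * (p - 1)) * ‖w‖ ^ 2 * ‖y‖ ^ (p - 2) + η) :=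
          mul_le_mul_of_nonneg_left h5.le (by positivity)
      _ ≤ _ := by
          refine mul_le_mul_of_nonneg_left ?_ (by positivity)
          have h6 : (p - 1) * (c * p * ‖w‖ ^ 2 * ‖y‖ ^ (p - 2)) ≤
              (Λ * min 1 (p - 1)) * (c * p * ‖w‖ ^ 2 * ‖y‖ ^ (p - 2)) :=
            mul_le_mul_of_nonneg_right h3 (by positivity)
          nlinarith [h6]

private lemma dom_one {p : ℝ} (hp : 1 < p) (hp3 : p < 3) {c : ℝ} (hc : 0 < c) {P : F →L[ℝ] G}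
    (b : G) (u : F) : ∃ C : ℝ, 0 ≤ C ∧ ∀ x, P x - b ≠ 0 → ∀ τ : ℝ, 0 < τ → τ ≤ 1 →
      c * sd (fun y : G => ‖y‖ ^ p) (P x - b) (τ • P u) ≤
        τ ^ 2 * (C * (1 + ‖x‖ ^ 2 + c * (p * min 1 (p - 1)) * ‖P x - b‖ ^ (p - 2))) := by
  have hmin : 0 < min 1 (p - 1) := lt_min one_pos (by linarith)
  rcases le_total p 2 with h2 | h2
  · refine ⟨‖P u‖ ^ 2 / min 1 (p - 1), by positivity, fun x hx τ hτ hτ1 => ?_⟩
    have h1 := pw_up1 hp.le h2 hx (τ • P u)
    rw [norm_smul, Real.norm_of_nonneg hτ.le] at h1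
    have hpp : 0 ≤ ‖P x - b‖ ^ (p - 2) := by positivity
    calc c * sd (fun y : G => ‖y‖ ^ p) (P x - b) (τ • P u)
        ≤ c * (p * ‖P x - b‖ ^ (p - 2) * (τ * ‖P u‖) ^ 2) := mul_le_mul_of_nonneg_left h1 hc.le
      _ = τ ^ 2 * (‖P u‖ ^ 2 / min 1 (p - 1) *
            (c * (p * min 1 (p - 1)) * ‖P x - b‖ ^ (p - 2))) := by
          field_simp
      _ ≤ _ := by
          refine mul_le_mul_of_nonneg_left ?_ (by positivity)
          refine mul_le_mul_of_nonneg_left ?_ (by positivity)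
          have : 0 ≤ ‖x‖ ^ 2 := by positivity
          linarith
  · have hp1 : 0 ≤ p - 1 := by linarith
    refine ⟨c * (p * (p - 1)) * ‖P u‖ ^ 2 * (1 + ‖b‖ + ‖P u‖ + ‖P‖), by positivity,
      fun x hx τ hτ hτ1 => ?_⟩
    have h1 := pw_up2 h2 (P x - b) (τ • P u)
    rw [norm_smul, Real.norm_of_nonneg hτ.le] at h1
    have h3 : ‖P x - b‖ ≤ ‖P‖ * ‖x‖ + ‖b‖ :=
      (norm_sub_le _ _).trans (add_le_add (P.le_opNorm x) le_rfl)
    have hx2 : ‖x‖ ≤ 1 + ‖x‖ ^ 2 := by nlinarith [sq_nonneg (‖x‖ - 1), norm_nonneg x]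
    have h4 : (‖P x - b‖ + τ * ‖P u‖) ^ (p - 2) ≤ (1 + ‖b‖ + ‖P u‖ + ‖P‖) * (1 + ‖x‖ ^ 2) := by
      have ha : ‖P x - b‖ + τ * ‖P u‖ ≤ 1 + (‖P‖ * ‖x‖ + ‖b‖) + ‖P u‖ := by
        have : τ * ‖P u‖ ≤ 1 * ‖P u‖ := mul_le_mul_of_nonneg_right hτ1 (norm_nonneg _)
        linarith
      have hb1 : (1 : ℝ) ≤ 1 + (‖P‖ * ‖x‖ + ‖b‖) + ‖P u‖ := by
        have : 0 ≤ (‖P‖ * ‖x‖ + ‖b‖) + ‖P u‖ := by positivity
        linarith
      calc (‖P x - b‖ + τ * ‖P u‖) ^ (p - 2)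
          ≤ (1 + (‖P‖ * ‖x‖ + ‖b‖) + ‖P u‖) ^ (p - 2) :=
            Real.rpow_le_rpow (by positivity) ha (by linarith)
        _ ≤ (1 + (‖P‖ * ‖x‖ + ‖b‖) + ‖P u‖) ^ (1 : ℝ) :=
            Real.rpow_le_rpow_of_exponent_le hb1 (by linarith)
        _ = 1 + (‖P‖ * ‖x‖ + ‖b‖) + ‖P u‖ := Real.rpow_one _
        _ ≤ _ := by
          have e1 : ‖P‖ * ‖x‖ ≤ ‖P‖ * (1 + ‖x‖ ^ 2) :=
            mul_le_mul_of_nonneg_left hx2 (norm_nonneg _)
          have e2 : 0 ≤ (1 + ‖b‖ + ‖P u‖) * ‖x‖ ^ 2 := by positivity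
          nlinarith [e1, e2]
    have hpp : 0 ≤ c * (p * min 1 (p - 1)) * ‖P x - b‖ ^ (p - 2) := by positivity
    calc c * sd (fun y : G => ‖y‖ ^ p) (P x - b) (τ • P u)
        ≤ c * (p * (p - 1) * (‖P x - b‖ + τ * ‖P u‖) ^ (p - 2) * (τ * ‖P u‖) ^ 2) :=
          mul_le_mul_of_nonneg_left h1 hc.le
      _ = τ ^ 2 * (c * (p * (p - 1)) * ‖P u‖ ^ 2 * (‖P x - b‖ + τ * ‖P u‖) ^ (p - 2)) := by ring
      _ ≤ τ ^ 2 * (c * (p * (p - 1)) * ‖P u‖ ^ 2 *
            ((1 + ‖b‖ + ‖P u‖ + ‖P‖) * (1 + ‖x‖ ^ 2))) := by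
          refine mul_le_mul_of_nonneg_left ?_ (by positivity)
          exact mul_le_mul_of_nonneg_left h4 (by positivity)
      _ = τ ^ 2 * (c * (p * (p - 1)) * ‖P u‖ ^ 2 * (1 + ‖b‖ + ‖P u‖ + ‖P‖) * (1 + ‖x‖ ^ 2)) := by
          ring
      _ ≤ _ := by
          refine mul_le_mul_of_nonneg_left ?_ (by positivity)
          refine mul_le_mul_of_nonneg_left ?_ (by positivity)
          linarith

/-- For a.e. `x` all `P_j x - b_j` are `≠ 0` (`P_j ≠ 0`; a proper affine subspace is null).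
`low`: `pw_low`. `up`: `pw_up1` (exact) and `pw_up2` (continuity in `τ`), and
`p max 1 (p-1) ≤ Λ p min 1 (p-1)`. `dom`: `pw_up1`; for `2 < p < 3`,
`(‖y‖ + τ ‖P u‖)^{p-2} ≤ 1 + ‖y‖ + ‖P u‖ ≤ C (1 + ‖x‖²)`. -/
theorem rd_pow {c p : ι → ℝ} {P : ι → F →L[ℝ] G} (hc : ∀ j, 0 < c j) (hp : ∀ j, 1 < p j)
    (hp3 : ∀ j, p j < 3) (hP : ∀ j, P j ≠ 0) (b : ι → G) (v : F) {Λ : ℝ} (hΛ : 0 < Λ)
    (hΛp : ∀ j, max 1 (p j - 1) ≤ Λ * min 1 (p j - 1)) :
    RD (Vf c p P b v) P (ωf c p P b) Λ := by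
  have hmin : ∀ j, 0 < min 1 (p j - 1) := fun j => lt_min one_pos (by linarith [hp j])
  have hp0 : ∀ j, 0 < p j := fun j => by linarith [hp j]
  have hne : ∀ᵐ x : F, ∀ j, P j x - b j ≠ 0 := ae_all_iff.2 fun j => ae_ne_aff (hP j) (b j)
  have hω0 : ∀ j x, 0 ≤ ωf c p P b j x := fun j x => by
    unfold ωf
    have := hc j; have := hp0 j; have := hmin j
    positivity
  refine ⟨?_, conv_Vf hc hp b v, hΛ, ?_, hω0, ?_, ?_, ?_, ?_⟩
  · unfold Vf
    refine Continuous.add ?_ (continuous_const.inner continuous_id)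
    refine continuous_finsetSum _ fun j _ => continuous_const.mul ?_
    exact (((P j).continuous.sub continuous_const).norm).rpow_const fun x => Or.inr (hp0 j).le
  · intro j
    unfold ωf
    exact measurable_const.mul
      ((((P j).continuous.sub continuous_const).norm).measurable.pow_const _)
  · intro j
    filter_upwards [hne] with x hx
    unfold ωf
    have := hc j; have := hp0 j; have := hmin j
    have h1 : 0 < ‖P j x - b j‖ := norm_pos_iff.2 (hx j)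
    positivity
  · filter_upwards [hne] with x hx
    intro δ hδ
    have hδj : ∀ j, 0 < δ / ((Fintype.card ι + 1) * c j * (‖P j‖ + 1) ^ 2) := fun j => by
      have := hc j
      positivity
    choose r hr0 hr using fun j => pw_low (hp j) (hx j) _ (hδj j)
    obtain ⟨ρ, hρ0, hρ⟩ : ∃ ρ : ℝ, 0 < ρ ∧ ∀ j, ρ * (‖P j‖ + 1) ≤ r j := by
      have h1 : ∀ᶠ ρ : ℝ in 𝓝[>] 0, ∀ j, ρ * (‖P j‖ + 1) ≤ r j := by
        rw [eventually_all]
        intro j
        have h2 : Tendsto (fun ρ : ℝ => ρ * (‖P j‖ + 1)) (𝓝[>] 0) (𝓝 (0 * (‖P j‖ + 1))) :=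
          (tendsto_nhdsWithin_of_tendsto_nhds tendsto_id).mul_const _
        rw [zero_mul] at h2
        exact (h2.eventually_lt_const (hr0 j)).mono fun _ h => h.le
      obtain ⟨ρ, h2, h3⟩ := (h1.and self_mem_nhdsWithin).exists
      exact ⟨ρ, h3, h2⟩
    refine ⟨ρ, hρ0, fun u hu => ?_⟩
    rw [sd_Vf]
    have key : ∀ j, ωf c p P b j x * ‖P j u‖ ^ 2 - δ / (Fintype.card ι + 1) * ‖u‖ ^ 2 ≤
        c j * sd (fun y : G => ‖y‖ ^ p j) (P j x - b j) (P j u) := by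
      intro j
      have h1 : ‖P j u‖ ≤ ‖P j‖ * ‖u‖ := (P j).le_opNorm u
      have h2 : ‖P j u‖ < r j := by
        have h3 : ‖P j‖ * ‖u‖ ≤ (‖P j‖ + 1) * ‖u‖ :=
          mul_le_mul_of_nonneg_right (by linarith) (norm_nonneg _)
        have h4 : (‖P j‖ + 1) * ‖u‖ < (‖P j‖ + 1) * ρ :=
          mul_lt_mul_of_pos_left hu (by positivity)
        have := hρ j
        linarith
      have h5 := mul_le_mul_of_nonneg_left (hr j (P j u) h2) (hc j).le
      refine le_trans ?_ h5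
      have hcj := hc j
      have h6 : ‖P j u‖ ^ 2 ≤ (‖P j‖ + 1) ^ 2 * ‖u‖ ^ 2 := by
        rw [← mul_pow]
        refine pow_le_pow_left₀ (norm_nonneg _) (h1.trans ?_) 2
        exact mul_le_mul_of_nonneg_right (by linarith) (norm_nonneg _)
      have h7 : c j * (δ / ((Fintype.card ι + 1) * c j * (‖P j‖ + 1) ^ 2) * ‖P j u‖ ^ 2) ≤
          δ / (Fintype.card ι + 1) * ‖u‖ ^ 2 := by
        calc c j * (δ / ((Fintype.card ι + 1) * c j * (‖P j‖ + 1) ^ 2) * ‖P j u‖ ^ 2)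
            ≤ c j * (δ / ((Fintype.card ι + 1) * c j * (‖P j‖ + 1) ^ 2) *
              ((‖P j‖ + 1) ^ 2 * ‖u‖ ^ 2)) := by gcongr
          _ = _ := by field_simp
      unfold ωf
      nlinarith [h7]
    calc ∑ j, ωf c p P b j x * ‖P j u‖ ^ 2 - δ * ‖u‖ ^ 2
        ≤ ∑ j, ωf c p P b j x * ‖P j u‖ ^ 2 - Fintype.card ι * (δ / (Fintype.card ι + 1) *
            ‖u‖ ^ 2) := by
          have h1 : (Fintype.card ι : ℝ) * (δ / (Fintype.card ι + 1) * ‖u‖ ^ 2) ≤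
              δ * ‖u‖ ^ 2 := by
            have h2 : (Fintype.card ι : ℝ) * (δ / (Fintype.card ι + 1)) ≤ δ := by
              rw [mul_div_assoc', div_le_iff₀ (by positivity)]
              nlinarith
            calc (Fintype.card ι : ℝ) * (δ / (Fintype.card ι + 1) * ‖u‖ ^ 2)
                = (Fintype.card ι : ℝ) * (δ / (Fintype.card ι + 1)) * ‖u‖ ^ 2 := by ring
              _ ≤ _ := mul_le_mul_of_nonneg_right h2 (by positivity)
          linarith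
      _ = ∑ j, (ωf c p P b j x * ‖P j u‖ ^ 2 - δ / (Fintype.card ι + 1) * ‖u‖ ^ 2) := by
          rw [Finset.sum_sub_distrib, Finset.sum_const, Finset.card_univ, nsmul_eq_mul]
      _ ≤ _ := Finset.sum_le_sum fun j _ => key j
  · intro u
    filter_upwards [hne] with x hx
    intro η hη
    have hηj : 0 < η / (Fintype.card ι + 1) := by positivity
    choose r hr0 hr using fun j => up_one (hp j) (hc j) (hΛp j) (hx j) (P j u) hηj
    obtain ⟨ρ, hρ0, hρ⟩ : ∃ ρ : ℝ, 0 < ρ ∧ ∀ j, ρ ≤ r j := by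
      have h1 : ∀ᶠ ρ : ℝ in 𝓝[>] 0, ∀ j, ρ ≤ r j := by
        rw [eventually_all]
        intro j
        have h2 : Tendsto (fun ρ : ℝ => ρ) (𝓝[>] 0) (𝓝 0) :=
          tendsto_nhdsWithin_of_tendsto_nhds tendsto_id
        exact (h2.eventually_lt_const (hr0 j)).mono fun _ h => h.le
      obtain ⟨ρ, h2, h3⟩ := (h1.and self_mem_nhdsWithin).exists
      exact ⟨ρ, h3, h2⟩
    refine ⟨ρ, hρ0, fun τ hτ hττ => ?_⟩
    rw [sd_Vf]
    calc ∑ j, c j * sd (fun y : G => ‖y‖ ^ p j) (P j x - b j) (P j (τ • u))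
        ≤ ∑ j, τ ^ 2 * (Λ * (ωf c p P b j x * ‖P j u‖ ^ 2) + η / (Fintype.card ι + 1)) := by
          refine Finset.sum_le_sum fun j _ => ?_
          rw [map_smul]
          exact hr j τ hτ (lt_of_lt_of_le hττ (hρ j))
      _ = τ ^ 2 * (Λ * (∑ j, ωf c p P b j x * ‖P j u‖ ^ 2) +
            Fintype.card ι * (η / (Fintype.card ι + 1))) := by
          rw [← Finset.mul_sum, Finset.sum_add_distrib, Finset.sum_const, Finset.card_univ,
            nsmul_eq_mul, Finset.mul_sum]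
      _ ≤ _ := by
          refine mul_le_mul_of_nonneg_left ?_ (by positivity)
          have h2 : (Fintype.card ι : ℝ) * (η / (Fintype.card ι + 1)) ≤ η := by
            rw [mul_div_assoc', div_le_iff₀ (by positivity)]
            nlinarith
          linarith
  · intro u
    choose C hC0 hC using fun j => dom_one (hp j) (hp3 j) (hc j) (P := P j) (b j) u
    refine ⟨∑ j, C j, Finset.sum_nonneg fun j _ => hC0 j, ?_⟩
    filter_upwards [hne] with x hx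
    intro τ hτ hτ1
    rw [sd_Vf, Finset.sum_mul, Finset.mul_sum]
    refine Finset.sum_le_sum fun j _ => ?_
    rw [map_smul]
    refine (hC j x (hx j) τ hτ hτ1).trans ?_
    refine mul_le_mul_of_nonneg_left ?_ (by positivity)
    refine mul_le_mul_of_nonneg_left ?_ (hC0 j)
    have h1 : ωf c p P b j x ≤ ∑ i, ωf c p P b i x :=
      Finset.single_le_sum (fun i _ => hω0 i x) (Finset.mem_univ j)
    unfold ωf at h1 ⊢
    linarith

end Pool.Agent.Lib.MP_8d00da_gt.h42r
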