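import Mathlib
import Pool.Agent.Lib.MP_8d00da_gt.h42r.ADefs

namespace Pool.Agent.Lib.MP_8d00da_gt.h25
end Pool.Agent.Lib.MP_8d00da_gt.h25
namespace Pool.Agent.Lib.MP_8d00da_gt.h42s
end Pool.Agent.Lib.MP_8d00da_gt.h42s
namespace Pool.Agent.Lib.MP_8d00da_gt.h42o
end Pool.Agent.Lib.MP_8d00da_gt.h42o
namespace Pool.Agent.Lib.MP_8d00da_gt.h97r
end Pool.Agent.Lib.MP_8d00da_gt.h97r


/-!
# Fibre inequality for bodies: the concave function on the fibre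
-/

namespace Pool.Agent.Lib.MP_8d00da_gt.h42r

open MeasureTheory Set Filter
open Pool.Agent.Lib.MP_8d00da_gt.h25 Pool.Agent.Lib.MP_8d00da_gt.h42
open Pool.Agent.Lib.MP_8d00da_gt.h42s Pool.Agent.Lib.MP_8d00da_gt.h42o
open Pool.Agent.Lib.MP_8d00da_gt.h97r
open scoped Topology NNReal ENNReal

set_option linter.unusedSectionVars false

variable {F : Type*} [NormedAddCommGroup F] [InnerProductSpace ℝ F]
    [FiniteDimensional ℝ F] [MeasurableSpace F] [BorelSpace F]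

variable {G : Type*} [NormedAddCommGroup G] [InnerProductSpace ℝ G]
    [FiniteDimensional ℝ G] [MeasurableSpace G] [BorelSpace G]

variable {ι : Type*} [Fintype ι]

/-- Pure real algebra. `a± = L - V (m ± u)`, `b± = L - V (z - (m ± u))`, all positive;
`a, b` the values at the midpoint, `a₊ + a₋ ≤ 2 a`, `b₊ + b₋ = 2 b - σ`, `σ ≥ 0`. Then
`(√(a₊ b₊) + √(a₋ b₋)) / 2 ≤ √(a b) - σ √(a / b) / 4`.

Proof: Cauchy-Schwarz gives `√(a₊ b₊) + √(a₋ b₋) ≤ √((a₊ + a₋) (b₊ + b₋)) ≤ √(2 a (2 b - σ))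
= 2 √(a (b - σ / 2))` and `√(a (b - σ/2)) ≤ √(a b) - σ √(a/b) / 4`: the square of the right side
is `≥ a b - 2 √(a b) σ √(a/b) / 4 = a b - a σ / 2`, and the right side is nonnegative because
`σ < 2 b` (as `b₊ + b₋ > 0`): `σ √(a/b) / 4 ≤ √(a b) / 2`. -/
theorem geo_mid {a b a1 b1 a2 b2 σ : ℝ} (ha : 0 < a) (hb : 0 < b) (ha1 : 0 < a1) (hb1 : 0 < b1)
    (ha2 : 0 < a2) (hb2 : 0 < b2) (hσ : 0 ≤ σ) (h1 : a1 + a2 ≤ 2 * a)
    (h2 : b1 + b2 = 2 * b - σ) :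
    (√(a1 * b1) + √(a2 * b2)) / 2 ≤ √(a * b) - √(a / b) * σ / 4 := by
  have hs : 0 < √a := Real.sqrt_pos.2 ha
  have ht : 0 < √b := Real.sqrt_pos.2 hb
  have hx1 := Real.sq_sqrt ha1.le
  have hx2 := Real.sq_sqrt ha2.le
  have hy1 := Real.sq_sqrt hb1.le
  have hy2 := Real.sq_sqrt hb2.le
  have hs2 := Real.sq_sqrt ha.le
  have ht2 := Real.sq_sqrt hb.le
  rw [Real.sqrt_mul ha1.le, Real.sqrt_mul ha2.le, Real.sqrt_mul ha.le, Real.sqrt_div ha.le]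
  obtain ⟨x1, ex1⟩ : ∃ x, x = √a1 := ⟨_, rfl⟩
  obtain ⟨x2, ex2⟩ : ∃ x, x = √a2 := ⟨_, rfl⟩
  obtain ⟨y1, ey1⟩ : ∃ x, x = √b1 := ⟨_, rfl⟩
  obtain ⟨y2, ey2⟩ : ∃ x, x = √b2 := ⟨_, rfl⟩
  obtain ⟨s, es⟩ : ∃ x, x = √a := ⟨_, rfl⟩
  obtain ⟨t, et⟩ : ∃ x, x = √b := ⟨_, rfl⟩
  rw [← es] at hs hs2
  rw [← et] at ht ht2
  rw [← ex1] at hx1
  rw [← ex2] at hx2
  rw [← ey1] at hy1
  rw [← ey2] at hy2
  have hx10 : 0 ≤ x1 := by rw [ex1]; exact Real.sqrt_nonneg _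
  have hx20 : 0 ≤ x2 := by rw [ex2]; exact Real.sqrt_nonneg _
  have hy10 : 0 ≤ y1 := by rw [ey1]; exact Real.sqrt_nonneg _
  have hy20 : 0 ≤ y2 := by rw [ey2]; exact Real.sqrt_nonneg _
  rw [← ex1, ← ex2, ← ey1, ← ey2, ← es, ← et]
  obtain ⟨Y, hY⟩ : ∃ Y, Y = y1 ^ 2 + y2 ^ 2 := ⟨_, rfl⟩
  obtain ⟨N, hN⟩ : ∃ N, N = x1 * y1 + x2 * y2 := ⟨_, rfl⟩
  have hY0 : 0 ≤ Y := by rw [hY]; positivity
  have hN0 : 0 ≤ N := by rw [hN]; positivity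
  have hX : x1 ^ 2 + x2 ^ 2 ≤ 2 * s ^ 2 := by rw [hx1, hx2, hs2]; exact h1
  have hσY : σ = 2 * t ^ 2 - Y := by rw [hY, hy1, hy2, ht2]; linarith
  have hCS : N ^ 2 ≤ (x1 ^ 2 + x2 ^ 2) * Y := by
    rw [hN, hY]
    nlinarith [sq_nonneg (x1 * y2 - x2 * y1)]
  have hCS2 : N ^ 2 ≤ 2 * s ^ 2 * Y := hCS.trans (mul_le_mul_of_nonneg_right hX hY0)
  have hkey : 2 * t * N ≤ s * (2 * t ^ 2 + Y) := by
    have h3 : (2 * t * N) ^ 2 ≤ (s * (2 * t ^ 2 + Y)) ^ 2 := by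
      have h4 : (2 * t * N) ^ 2 ≤ 4 * t ^ 2 * (2 * s ^ 2 * Y) := by
        calc (2 * t * N) ^ 2 = 4 * t ^ 2 * N ^ 2 := by ring
          _ ≤ _ := mul_le_mul_of_nonneg_left hCS2 (by positivity)
      refine h4.trans ?_
      have h5 : 0 ≤ s ^ 2 * (2 * t ^ 2 - Y) ^ 2 := by positivity
      nlinarith
    exact (pow_le_pow_iff_left₀ (by positivity) (by positivity) two_ne_zero).1 h3
  have h6 : s * t - s / t * σ / 4 = s * (2 * t ^ 2 + Y) / (4 * t) := by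
    rw [hσY]
    field_simp
    ring
  rw [h6, ← hN, le_div_iff₀ (by positivity)]
  linarith

/-- The midpoint of two points of `Om` belongs to `Om`: `V` is midpoint convex. -/
theorem om_mid {V : F → ℝ} (hV : ∀ x u, 0 ≤ sd V x u) {L : ℝ} {z m u : F}
    (h1 : m + u ∈ Om V L z) (h2 : m - u ∈ Om V L z) : m ∈ Om V L z := by
  have e1 := hV m u
  have e2 := hV (z - m) u
  unfold sd at e1 e2
  have e3 : z - m + u = z - (m - u) := by abel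
  have e4 : z - m - u = z - (m + u) := by abel
  rw [e3, e4] at e2
  have a1 := h1.1
  have a2 := h1.2
  have a3 := h2.1
  have a4 := h2.2
  refine ⟨?_, ?_⟩
  · show V m < L
    linarith
  · show V (z - m) < L
    linarith

/-- `geo_mid` for `ph` (with `a = L - V m`, `b = L - V (z - m)`, `σ = sd V (z - m) u`). -/
theorem ph_mid {V : F → ℝ} (hV : ∀ x u, 0 ≤ sd V x u) {L : ℝ} {z m u : F}
    (h1 : m + u ∈ Om V L z) (h2 : m - u ∈ Om V L z) :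
    (ph V L z (m + u) + ph V L z (m - u)) / 2 ≤
      ph V L z m - √((L - V m) / (L - V (z - m))) * sd V (z - m) u / 4 := by
  have h3 := om_mid hV h1 h2
  have e1 := hV m u
  have e3 : z - m + u = z - (m - u) := by abel
  have e4 : z - m - u = z - (m + u) := by abel
  have a1 : 0 < L - V (m + u) := sub_pos.2 h1.1
  have a2 : 0 < L - V (z - (m + u)) := sub_pos.2 h1.2
  have a3 : 0 < L - V (m - u) := sub_pos.2 h2.1
  have a4 : 0 < L - V (z - (m - u)) := sub_pos.2 h2.2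
  have a5 : 0 < L - V m := sub_pos.2 h3.1
  have a6 : 0 < L - V (z - m) := sub_pos.2 h3.2
  unfold ph
  refine geo_mid a5 a6 a1 a2 a3 a4 (hV (z - m) u) ?_ ?_
  · unfold sd at e1
    linarith
  · unfold sd
    rw [e3, e4]
    ring

end Pool.Agent.Lib.MP_8d00da_gt.h42r
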