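import Mathlib
import Pool.Agent.Lib.MP_8d00da_gt.h42r.AK1

namespace Pool.Agent.Lib.MP_8d00da_gt.h25
end Pool.Agent.Lib.MP_8d00da_gt.h25
namespace Pool.Agent.Lib.MP_8d00da_gt.h42s
end Pool.Agent.Lib.MP_8d00da_gt.h42s
namespace Pool.Agent.Lib.MP_8d00da_gt.h42o
end Pool.Agent.Lib.MP_8d00da_gt.h42o
namespace Pool.Agent.Lib.MP_8d00da_gt.h97r
end Pool.Agent.Lib.MP_8d00da_gt.h97r


/-!
# Fibre inequality for bodies: uniform bound of the midpoint function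
-/

namespace Pool.Agent.Lib.MP_8d00da_gt.h42r

open MeasureTheory Set Filter
open Pool.Agent.Lib.MP_8d00da_gt.h25 Pool.Agent.Lib.MP_8d00da_gt.h42
open Pool.Agent.Lib.MP_8d00da_gt.h42s Pool.Agent.Lib.MP_8d00da_gt.h42o
open Pool.Agent.Lib.MP_8d00da_gt.h97r
open scoped Topology NNReal ENNReal

set_option linter.unusedSectionVars false

variable {F : Type*} [NormedAddCommGroup F] [InnerProductSpace ℝ F]
    [FiniteDimensional ℝ F] [MeasurableSpace F] [BorelSpace F]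

variable {G : Type*} [NormedAddCommGroup G] [InnerProductSpace ℝ G]
    [FiniteDimensional ℝ G] [MeasurableSpace G] [BorelSpace G]

variable {ι : Type*} [Fintype ι]

/-- The exponent of the midpoint function at `(m, u)`: if `m ± u ∈ Om` then
`Ae g ε (m + u) * Ae (-g) ε (m - u) ≤ (ph m + S)²` with
`S = max 0 (ε (g (m + u) - g (m - u)) / 2 - s * sd V (z - m) u / 4)`, `s = √((L-V m)/(L-V(z-m)))`.

Proof: both factors are `max (..) 0`; if one of the two expressions is `≤ 0` the product is `0`;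
otherwise `x y ≤ ((x + y)/2)²` and `ph_mid`. -/
theorem ae_mul_le {V : F → ℝ} (hV : ∀ x u, 0 ≤ sd V x u) {L : ℝ} {z m u : F} {g : F → ℝ} {ε : ℝ}
    (h1 : m + u ∈ Om V L z) (h2 : m - u ∈ Om V L z) :
    Ae V L z g ε (m + u) * Ae V L z (fun x => -g x) ε (m - u) ≤
      (ph V L z m + max 0 (ε * (g (m + u) - g (m - u)) / 2 -
        √((L - V m) / (L - V (z - m))) * sd V (z - m) u / 4)) ^ 2 := by
  have e1 : Ae V L z g ε (m + u) = max (ph V L z (m + u) + ε * g (m + u)) 0 :=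
    Set.indicator_of_mem h1 _
  have e2 : Ae V L z (fun x => -g x) ε (m - u) = max (ph V L z (m - u) + ε * (-g (m - u))) 0 :=
    Set.indicator_of_mem h2 _
  rw [e1, e2]
  have h3 := ph_mid hV h1 h2
  obtain ⟨x, hx⟩ : ∃ x, x = ph V L z (m + u) + ε * g (m + u) := ⟨_, rfl⟩
  obtain ⟨y, hy⟩ : ∃ y, y = ph V L z (m - u) + ε * (-g (m - u)) := ⟨_, rfl⟩
  obtain ⟨S, hS⟩ : ∃ S, S = ε * (g (m + u) - g (m - u)) / 2 -
      √((L - V m) / (L - V (z - m))) * sd V (z - m) u / 4 := ⟨_, rfl⟩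
  rw [← hx, ← hy, ← hS]
  rcases le_or_gt x 0 with h4 | h4
  · rw [max_eq_right h4, zero_mul]
    exact sq_nonneg _
  rcases le_or_gt y 0 with h5 | h5
  · rw [max_eq_right h5, mul_zero]
    exact sq_nonneg _
  rw [max_eq_left h4.le, max_eq_left h5.le]
  have h6 : (x + y) / 2 ≤ ph V L z m + max 0 S := by
    have h7 : (x + y) / 2 ≤ ph V L z m + S := by
      rw [hx, hy, hS]
      linarith
    exact h7.trans (by linarith [le_max_right 0 S])
  have h8 : x * y ≤ ((x + y) / 2) ^ 2 := by nlinarith [sq_nonneg (x - y)]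
  exact h8.trans (pow_le_pow_left₀ (by linarith) h6 2)

/-- Outside `Om` the midpoint function vanishes (`om_mid`). -/
theorem ce_zero {V : F → ℝ} (hV : ∀ x u, 0 ≤ sd V x u) {L : ℝ} {z m : F} {g : F → ℝ} {ε : ℝ}
    (hm : m ∉ Om V L z) : Ce V L z g ε m = 0 := by
  unfold Ce
  rw [ENNReal.iSup_eq_zero]
  intro u
  by_cases h1 : m + u ∈ Om V L z
  · by_cases h2 : m - u ∈ Om V L z
    · exact absurd (om_mid hV h1 h2) hm
    · have e2 : Ae V L z (fun x => -g x) ε (m - u) = 0 := Set.indicator_of_notMem h2 _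
      rw [e2, mul_zero, ENNReal.ofReal_zero]
  · have e1 : Ae V L z g ε (m + u) = 0 := Set.indicator_of_notMem h1 _
    rw [e1, zero_mul, ENNReal.ofReal_zero]

/-- Uniform bound. With `a = L - V m`, `b = L - V (z - m)`, `s = √(a/b)` and
`S = max 0 (ε (g (m+u) - g (m-u))/2 - s * sd V (z-m) u / 4)`: by `g (m+u) - g (m-u) ≤ 2 K ‖u‖` and
`sd ≥ κ ‖u‖²`, `S ≤ ε K ‖u‖ - s κ ‖u‖²/4 ≤ ε² K² / (s κ)`. As `a (m ± u) > 0`,
`κ ‖u‖² ≤ sd V m u < 2 a`, so also `S ≤ ε K ‖u‖`, `S² ≤ ε² K² 2 a / κ`. Hence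
`(ph + S)² = ph² + 2 ph S + S² ≤ ph² + 2 ε² K² b / κ + 2 ε² K² a / κ` (`ph / s = b`).
Terms of `Ce` with `m + u ∉ Om` or `m - u ∉ Om` vanish; the others: `ae_mul_le`. -/
theorem ce_le {κ : ℝ} (hκ : 0 < κ) {V : F → ℝ} (hVs : ∀ x u, κ * ‖u‖ ^ 2 ≤ sd V x u) {L : ℝ}
    {z m : F} {g : F → ℝ} {K : ℝ≥0} (hg : LipschitzWith K g) {ε : ℝ} (hε : 0 < ε)
    (hm : m ∈ Om V L z) :
    Ce V L z g ε m ≤ ENNReal.ofReal (ph V L z m ^ 2 +
      ε ^ 2 * (2 * K ^ 2 / κ * ((L - V m) + (L - V (z - m))))) := by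
  have hV : ∀ x u, 0 ≤ sd V x u := fun x u => le_trans (by positivity) (hVs x u)
  have ha : 0 < L - V m := by linarith [hm.1]
  have hb : 0 < L - V (z - m) := by linarith [hm.2]
  have hK : (0 : ℝ) ≤ K := K.2
  obtain ⟨a, hae⟩ : ∃ a, a = L - V m := ⟨_, rfl⟩
  obtain ⟨b, hbe⟩ : ∃ b, b = L - V (z - m) := ⟨_, rfl⟩
  have hph : ph V L z m = √(a * b) := by rw [hae, hbe]; rfl
  rw [← hae] at ha
  rw [← hbe] at hb
  unfold Ce
  refine iSup_le fun u => ENNReal.ofReal_le_ofReal ?_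
  have hR : 0 ≤ ph V L z m ^ 2 + ε ^ 2 * (2 * K ^ 2 / κ * ((L - V m) + (L - V (z - m)))) := by
    rw [← hae, ← hbe]
    positivity
  by_cases h1 : m + u ∈ Om V L z
  swap
  · have e1 : Ae V L z g ε (m + u) = 0 := Set.indicator_of_notMem h1 _
    rw [e1, zero_mul]
    exact hR
  by_cases h2 : m - u ∈ Om V L z
  swap
  · have e2 : Ae V L z (fun x => -g x) ε (m - u) = 0 := Set.indicator_of_notMem h2 _
    rw [e2, mul_zero]
    exact hR
  refine (ae_mul_le hV h1 h2).trans ?_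
  rw [← hae, ← hbe, hph]
  obtain ⟨r, hr⟩ : ∃ r, r = ‖u‖ := ⟨_, rfl⟩
  have hr0 : 0 ≤ r := by rw [hr]; exact norm_nonneg u
  obtain ⟨s, hs⟩ : ∃ s, s = √(a / b) := ⟨_, rfl⟩
  have hs0 : 0 < s := by rw [hs]; exact Real.sqrt_pos.2 (div_pos ha hb)
  rw [← hs]
  -- the Lipschitz bound
  have hg1 : g (m + u) - g (m - u) ≤ 2 * K * r := by
    have h3 := hg.dist_le_mul (m + u) (m - u)
    have h4 : dist (m + u) (m - u) = 2 * r := by
      rw [dist_eq_norm, hr]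
      have h5 : m + u - (m - u) = (2 : ℝ) • u := by module
      rw [h5, norm_smul]
      norm_num
    rw [h4, Real.dist_eq] at h3
    have h6 := (le_abs_self _).trans h3
    linarith
  have hsd := hVs (z - m) u
  rw [← hr] at hsd
  -- the size of `u`
  have hr2 : κ * r ^ 2 ≤ 2 * a := by
    have h3 := hVs m u
    rw [← hr] at h3
    unfold sd at h3
    have h4 := h1.1
    have h5 := h2.1
    rw [hae]
    linarith
  obtain ⟨T, hT⟩ : ∃ T, T = ε * (g (m + u) - g (m - u)) / 2 - s * sd V (z - m) u / 4 := ⟨_, rfl⟩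
  rw [← hT]
  have hT1 : T ≤ ε * K * r - s * κ * r ^ 2 / 4 := by
    have h3 : ε * (g (m + u) - g (m - u)) ≤ ε * (2 * K * r) := mul_le_mul_of_nonneg_left hg1 hε.le
    have h4 : s * (κ * r ^ 2) ≤ s * sd V (z - m) u := mul_le_mul_of_nonneg_left hsd hs0.le
    rw [hT]
    linarith
  have hT2 : s * κ * T ≤ ε ^ 2 * K ^ 2 := by
    have h3 : s * κ * T ≤ s * κ * (ε * K * r - s * κ * r ^ 2 / 4) :=
      mul_le_mul_of_nonneg_left hT1 (by positivity)
    have h4 := sq_nonneg (ε * K - s * κ * r / 2)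
    nlinarith
  have hT3 : T ≤ ε * K * r := by
    have h3 : 0 ≤ s * κ * r ^ 2 / 4 := by positivity
    linarith
  obtain ⟨S, hS⟩ : ∃ S, S = max 0 T := ⟨_, rfl⟩
  rw [← hS]
  have hS0 : 0 ≤ S := by rw [hS]; exact le_max_left _ _
  have hS2 : s * κ * S ≤ ε ^ 2 * K ^ 2 := by
    rw [hS]
    rcases max_choice 0 T with h | h
    · rw [h, mul_zero]
      positivity
    · rw [h]
      exact hT2
  have hS3 : S ≤ ε * K * r := by
    rw [hS]
    exact max_le (by positivity) hT3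
  -- the square of `S`
  have hSS : S ^ 2 * κ ≤ 2 * a * (ε ^ 2 * K ^ 2) := by
    have h3 : S ^ 2 ≤ (ε * K * r) ^ 2 := pow_le_pow_left₀ hS0 hS3 2
    have h4 : S ^ 2 * κ ≤ (ε * K * r) ^ 2 * κ := mul_le_mul_of_nonneg_right h3 hκ.le
    have h5 : (ε * K * r) ^ 2 * κ = ε ^ 2 * K ^ 2 * (κ * r ^ 2) := by ring
    have h6 : ε ^ 2 * K ^ 2 * (κ * r ^ 2) ≤ ε ^ 2 * K ^ 2 * (2 * a) :=
      mul_le_mul_of_nonneg_left hr2 (by positivity)
    linarith
  -- the mixed term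
  have hsq : √(a * b) = b * s := by
    have h9 : a * b = (b * s) ^ 2 := by
      rw [hs, mul_pow, Real.sq_sqrt (div_pos ha hb).le]
      field_simp
    rw [h9, Real.sqrt_sq (by positivity)]
  have hmix : √(a * b) * S * κ ≤ b * (ε ^ 2 * K ^ 2) := by
    rw [hsq]
    have h3 : b * (s * κ * S) ≤ b * (ε ^ 2 * K ^ 2) := mul_le_mul_of_nonneg_left hS2 hb.le
    linarith
  have hfin : (2 * (√(a * b) * S) + S ^ 2) * κ ≤ 2 * (a + b) * (ε ^ 2 * K ^ 2) := by linarith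
  have h7 : 2 * (√(a * b) * S) + S ^ 2 ≤ 2 * (a + b) * (ε ^ 2 * K ^ 2) / κ := by
    rw [le_div_iff₀ hκ]
    exact hfin
  have h8 : ε ^ 2 * (2 * K ^ 2 / κ * (a + b)) = 2 * (a + b) * (ε ^ 2 * K ^ 2) / κ := by ring
  rw [h8]
  nlinarith

end Pool.Agent.Lib.MP_8d00da_gt.h42r
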