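import Mathlib
import Pool.Agent.Lib.MP_8d00da_gt.h42r.AK2

namespace Pool.Agent.Lib.MP_8d00da_gt.h25
end Pool.Agent.Lib.MP_8d00da_gt.h25
namespace Pool.Agent.Lib.MP_8d00da_gt.h42s
end Pool.Agent.Lib.MP_8d00da_gt.h42s
namespace Pool.Agent.Lib.MP_8d00da_gt.h42o
end Pool.Agent.Lib.MP_8d00da_gt.h42o
namespace Pool.Agent.Lib.MP_8d00da_gt.h97r
end Pool.Agent.Lib.MP_8d00da_gt.h97r


/-!
# Fibre inequality for bodies: asymptotics of the midpoint function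
-/

namespace Pool.Agent.Lib.MP_8d00da_gt.h42r

open MeasureTheory Set Filter
open Pool.Agent.Lib.MP_8d00da_gt.h25 Pool.Agent.Lib.MP_8d00da_gt.h42
open Pool.Agent.Lib.MP_8d00da_gt.h42s Pool.Agent.Lib.MP_8d00da_gt.h42o
open Pool.Agent.Lib.MP_8d00da_gt.h97r
open scoped Topology NNReal ENNReal

set_option linter.unusedSectionVars false

variable {F : Type*} [NormedAddCommGroup F] [InnerProductSpace ℝ F]
    [FiniteDimensional ℝ F] [MeasurableSpace F] [BorelSpace F]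

variable {G : Type*} [NormedAddCommGroup G] [InnerProductSpace ℝ G]
    [FiniteDimensional ℝ G] [MeasurableSpace G] [BorelSpace G]

variable {ι : Type*} [Fintype ι]

/-- Differentiability in symmetric form. -/
private lemma ak3_diff {g : F → ℝ} {m : F} (hd : DifferentiableAt ℝ g m) {η : ℝ} (hη : 0 < η) :
    ∃ r : ℝ, 0 < r ∧ ∀ u, ‖u‖ < r →
      (g (m + u) - g (m - u)) / 2 ≤ fderiv ℝ g m u + η * ‖u‖ := by
  have h := hd.hasFDerivAt.isLittleO.def hη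
  obtain ⟨r, hr, hb⟩ := Metric.eventually_nhds_iff.1 h
  refine ⟨r, hr, fun u hu => ?_⟩
  have h1 := hb (y := m + u) (by simpa [dist_eq_norm] using hu)
  have h2 := hb (y := m - u) (by simpa [dist_eq_norm] using hu)
  have e1 : m + u - m = u := by abel
  have e2 : m - u - m = -u := by abel
  rw [e1] at h1
  rw [e2, norm_neg, map_neg] at h2
  have h3 := (abs_le.1 h1).2
  have h4 := (abs_le.1 h2).1
  linarith

private lemma ak3_S {κ : ℝ} (hκ : 0 < κ) {V : F → ℝ} (hVs : ∀ x u, κ * ‖u‖ ^ 2 ≤ sd V x u)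
    {y m : F} {g : F → ℝ} {K : ℝ≥0} (hg : LipschitzWith K g) {q s : ℝ} (hs : 0 < s)
    (hq : 0 ≤ q) (hD : DomV V g m y q) {η : ℝ} (hη : 0 < η) :
    ∃ ε0 : ℝ, 0 < ε0 ∧ ∀ ε, 0 < ε → ε < ε0 → ∀ u,
      max 0 (ε * (g (m + u) - g (m - u)) / 2 - s * sd V y u / 4) ≤ ε ^ 2 * (q / s + η) := by
  obtain ⟨hd, ℓ, hℓ0, hℓ, hlow⟩ := hD
  obtain ⟨R, hR⟩ : ∃ R : ℝ, R = 4 * (K : ℝ) / (s * κ) := ⟨_, rfl⟩
  have hR0 : 0 ≤ R := by rw [hR]; positivity
  have hR1 : 0 < R + 1 := by linarith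
  have hη1 : 0 < η / (2 * (R + 1)) := by positivity
  have hδ : 0 < 2 * η / (s * (R + 1) ^ 2) := by positivity
  obtain ⟨r1, hr1, h1⟩ := ak3_diff hd hη1
  obtain ⟨r2, hr2, h2⟩ := hlow _ hδ
  refine ⟨min r1 r2 / (R + 1), by positivity, fun ε hε hε0 u => ?_⟩
  have hM : 0 ≤ ε ^ 2 * (q / s + η) := by positivity
  refine max_le hM ?_
  by_contra hcon
  have hpos : 0 < ε * (g (m + u) - g (m - u)) / 2 - s * sd V y u / 4 := by
    push Not at hcon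
    linarith
  have hK : g (m + u) - g (m - u) ≤ 2 * K * ‖u‖ := by
    have h := hg.dist_le_mul (m + u) (m - u)
    rw [dist_eq_norm, dist_eq_norm] at h
    have e : m + u - (m - u) = (2 : ℝ) • u := by module
    rw [e, norm_smul] at h
    have e2 : ‖(2 : ℝ)‖ = 2 := by norm_num
    rw [e2] at h
    have h3 := le_abs_self (g (m + u) - g (m - u))
    rw [Real.norm_eq_abs] at h
    linarith
  have hu0 : 0 ≤ ‖u‖ := norm_nonneg u
  have hsd := hVs y u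
  have hA : s * (κ * ‖u‖ ^ 2) / 4 < ε * K * ‖u‖ := by
    have h3 : s * (κ * ‖u‖ ^ 2) ≤ s * sd V y u := mul_le_mul_of_nonneg_left hsd hs.le
    have h4 : ε * (g (m + u) - g (m - u)) ≤ ε * (2 * K * ‖u‖) :=
      mul_le_mul_of_nonneg_left hK hε.le
    nlinarith
  have hupos : 0 < ‖u‖ := by
    rcases hu0.lt_or_eq with h | h
    · exact h
    · rw [← h] at hA
      norm_num at hA
  have hub : ‖u‖ ≤ ε * R := by
    have h3 : s * κ * ‖u‖ / 4 < ε * K := by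
      by_contra h
      push Not at h
      have h4 : ε * K * ‖u‖ ≤ s * κ * ‖u‖ / 4 * ‖u‖ := mul_le_mul_of_nonneg_right h hu0
      nlinarith
    have hsκ : 0 < s * κ := mul_pos hs hκ
    have h5 : ‖u‖ * (s * κ) ≤ 4 * (ε * K) := by nlinarith
    rw [hR]
    have h6 : ‖u‖ ≤ 4 * (ε * K) / (s * κ) := by rwa [le_div_iff₀ hsκ]
    calc ‖u‖ ≤ 4 * (ε * K) / (s * κ) := h6
      _ = ε * (4 * K / (s * κ)) := by ring
  have hur : ‖u‖ < min r1 r2 := by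
    have h3 : ε * (R + 1) < min r1 r2 := by rwa [lt_div_iff₀ hR1] at hε0
    nlinarith
  have g1 := h1 u (lt_of_lt_of_le hur (min_le_left _ _))
  have g2 := h2 u (lt_of_lt_of_le hur (min_le_right _ _))
  have g3 : ε * fderiv ℝ g m u ≤ ε ^ 2 * (q / s) + s * ℓ u / 4 := by
    have hx : 0 ≤ ε ^ 2 * (q / s) := by positivity
    have hy : 0 ≤ s * ℓ u / 4 := by have := hℓ0 u; positivity
    have hsq : (ε * fderiv ℝ g m u) ^ 2 ≤ (ε ^ 2 * (q / s) + s * ℓ u / 4) ^ 2 := by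
      have h3 : (ε * fderiv ℝ g m u) ^ 2 ≤ ε ^ 2 * (q * ℓ u) := by
        rw [mul_pow]
        exact mul_le_mul_of_nonneg_left (hℓ u) (by positivity)
      have h4 : 4 * (ε ^ 2 * (q / s)) * (s * ℓ u / 4) = ε ^ 2 * (q * ℓ u) := by
        field_simp
      nlinarith [sq_nonneg (ε ^ 2 * (q / s) - s * ℓ u / 4)]
    exact le_of_sq_le_sq hsq (by positivity)
  have g4 : ε * (g (m + u) - g (m - u)) / 2 ≤
      ε * fderiv ℝ g m u + ε * (η / (2 * (R + 1)) * ‖u‖) := by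
    have := mul_le_mul_of_nonneg_left g1 hε.le
    nlinarith
  have g5 : s * (ℓ u - 2 * η / (s * (R + 1) ^ 2) * ‖u‖ ^ 2) ≤ s * sd V y u :=
    mul_le_mul_of_nonneg_left g2 hs.le
  have g6 : ε * (η / (2 * (R + 1)) * ‖u‖) ≤ ε ^ 2 * (η / 2) := by
    have h3 : ‖u‖ ≤ ε * (R + 1) := by nlinarith
    calc ε * (η / (2 * (R + 1)) * ‖u‖) ≤ ε * (η / (2 * (R + 1)) * (ε * (R + 1))) := by gcongr
      _ = ε ^ 2 * (η / 2) := by field_simp
  have g7 : s * (2 * η / (s * (R + 1) ^ 2) * ‖u‖ ^ 2) / 4 ≤ ε ^ 2 * (η / 2) := by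
    have h3 : ‖u‖ ≤ ε * (R + 1) := by nlinarith
    have h4 : ‖u‖ ^ 2 ≤ (ε * (R + 1)) ^ 2 := pow_le_pow_left₀ hu0 h3 2
    calc s * (2 * η / (s * (R + 1) ^ 2) * ‖u‖ ^ 2) / 4
        ≤ s * (2 * η / (s * (R + 1) ^ 2) * (ε * (R + 1)) ^ 2) / 4 := by gcongr
      _ = ε ^ 2 * (η / 2) := by field_simp; ring
  apply hcon
  nlinarith

/-- Pointwise asymptotics. Fix `m ∈ Om`, `a = L - V m > 0`, `b = L - V (z - m) > 0`, `s = √(a/b)`.
By `ae_mul_le` every nonzero term of `Ce` is `≤ (ph + S)²` with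
`S = max 0 (ε (g (m+u) - g (m-u))/2 - s * sd V (z-m) u / 4)`. If `S > 0` then
`s κ ‖u‖²/4 ≤ ε K ‖u‖`, so `‖u‖ ≤ 4 ε K / (s κ)`, which is small. For small `u`:
`(g (m+u) - g (m-u))/2 ≤ g'(m) u + η₁ ‖u‖` (differentiability),
`sd V (z-m) u ≥ ℓ u - δ ‖u‖²` (`LowAt`), and `ε g'(m) u ≤ ε √(q ℓ u) ≤ ε² q / s + s ℓ u / 4`.
So `S ≤ ε² q / s + ε η₁ ‖u‖ + s δ ‖u‖²/4 ≤ ε² (q / s + 4 K η₁ / (s κ) + 4 K² δ / (s κ²))`.
Then `(ph + S)² ≤ ph² + 2 ph S + S²`, `2 ph q / s = 2 b q`, and `S² = O(ε⁴)`. -/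
theorem ce_asymp {κ : ℝ} (hκ : 0 < κ) {V : F → ℝ} (hVs : ∀ x u, κ * ‖u‖ ^ 2 ≤ sd V x u) {L : ℝ}
    {z m : F} {g : F → ℝ} {K : ℝ≥0} (hg : LipschitzWith K g) (hm : m ∈ Om V L z) {q : ℝ}
    (hq : 0 ≤ q) (hD : DomV V g m (z - m) q) {η : ℝ} (hη : 0 < η) :
    ∃ ε0 : ℝ, 0 < ε0 ∧ ∀ ε, 0 < ε → ε < ε0 →
      Ce V L z g ε m ≤
        ENNReal.ofReal (ph V L z m ^ 2 + ε ^ 2 * (2 * ((L - V (z - m)) * q) + η)) := by
  have hV0 : ∀ x u, 0 ≤ sd V x u := fun x u => le_trans (by positivity) (hVs x u)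
  have ha : 0 < L - V m := sub_pos.2 hm.1
  have hb : 0 < L - V (z - m) := sub_pos.2 hm.2
  obtain ⟨a, hae⟩ : ∃ a, a = L - V m := ⟨_, rfl⟩
  obtain ⟨b, hbe⟩ : ∃ b, b = L - V (z - m) := ⟨_, rfl⟩
  obtain ⟨s, hse⟩ : ∃ s, s = √(a / b) := ⟨_, rfl⟩
  rw [← hae] at ha
  rw [← hbe] at hb
  have hs : 0 < s := by rw [hse]; exact Real.sqrt_pos.2 (by positivity)
  have hp : ph V L z m = s * b := by
    have e : a * b = a / b * b ^ 2 := by field_simp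
    unfold ph
    rw [← hae, ← hbe, hse, e, Real.sqrt_mul (by positivity), Real.sqrt_sq hb.le]
  have hp0 : 0 < s * b := mul_pos hs hb
  have hη' : 0 < η / (4 * (s * b)) := by positivity
  obtain ⟨ε1, hε1, h1⟩ := ak3_S hκ hVs hg hs hq hD hη'
  obtain ⟨M, hM⟩ : ∃ M, M = q / s + η / (4 * (s * b)) := ⟨_, rfl⟩
  have hM0 : 0 < M := by rw [hM]; positivity
  refine ⟨min ε1 (√(η / 2) / M), by positivity, fun ε hε hε0 => ?_⟩
  have hlt1 : ε < ε1 := lt_of_lt_of_le hε0 (min_le_left _ _)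
  have hlt2 : ε < √(η / 2) / M := lt_of_lt_of_le hε0 (min_le_right _ _)
  have hεM : ε ^ 2 * M ^ 2 ≤ η / 2 := by
    have h2 : ε * M ≤ √(η / 2) := by rw [lt_div_iff₀ hM0] at hlt2; exact hlt2.le
    have h3 := pow_le_pow_left₀ (by positivity) h2 2
    rw [Real.sq_sqrt (by positivity), mul_pow] at h3
    exact h3
  unfold Ce
  refine iSup_le fun u => ?_
  by_cases hu1 : m + u ∈ Om V L z
  · by_cases hu2 : m - u ∈ Om V L z
    · refine ENNReal.ofReal_le_ofReal ?_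
      refine (ae_mul_le hV0 hu1 hu2).trans ?_
      rw [← hae, ← hbe, ← hse, hp]
      have h2 := h1 ε hε hlt1 u
      obtain ⟨S, hS⟩ : ∃ S, S = max 0 (ε * (g (m + u) - g (m - u)) / 2 -
        s * sd V (z - m) u / 4) := ⟨_, rfl⟩
      rw [← hS] at h2 ⊢
      rw [← hM] at h2
      have hS0 : 0 ≤ S := by rw [hS]; exact le_max_left _ _
      have h3 : 2 * (s * b) * S ≤ 2 * (s * b) * (ε ^ 2 * M) :=
        mul_le_mul_of_nonneg_left h2 (by positivity)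
      have h4 : S ^ 2 ≤ (ε ^ 2 * M) ^ 2 := pow_le_pow_left₀ hS0 h2 2
      have h5 : (ε ^ 2 * M) ^ 2 ≤ ε ^ 2 * (η / 2) := by
        calc (ε ^ 2 * M) ^ 2 = ε ^ 2 * (ε ^ 2 * M ^ 2) := by ring
          _ ≤ ε ^ 2 * (η / 2) := mul_le_mul_of_nonneg_left hεM (by positivity)
      have h6 : 2 * (s * b) * (ε ^ 2 * M) = ε ^ 2 * (2 * (b * q) + η / 2) := by
        rw [hM]
        field_simp
        ring
      nlinarith
    · have e : Ae V L z (fun x => -g x) ε (m - u) = 0 := Set.indicator_of_notMem hu2 _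
      rw [e, mul_zero, ENNReal.ofReal_zero]
      exact zero_le
  · have e : Ae V L z g ε (m + u) = 0 := Set.indicator_of_notMem hu1 _
    rw [e, zero_mul, ENNReal.ofReal_zero]
    exact zero_le

end Pool.Agent.Lib.MP_8d00da_gt.h42r
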