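import Mathlib
import Pool.Agent.Lib.MP_8d00da_gt.h42.PL
import Pool.Agent.Lib.MP_8d00da_gt.h42r.ADefs

namespace Pool.Agent.Lib.MP_8d00da_gt.h25
end Pool.Agent.Lib.MP_8d00da_gt.h25
namespace Pool.Agent.Lib.MP_8d00da_gt.h42s
end Pool.Agent.Lib.MP_8d00da_gt.h42s
namespace Pool.Agent.Lib.MP_8d00da_gt.h42o
end Pool.Agent.Lib.MP_8d00da_gt.h42o
namespace Pool.Agent.Lib.MP_8d00da_gt.h97r
end Pool.Agent.Lib.MP_8d00da_gt.h97r


/-!
# Fibre inequality for bodies: measurability and Prekopa-Leindler
-/

namespace Pool.Agent.Lib.MP_8d00da_gt.h42r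

open MeasureTheory Set Filter
open Pool.Agent.Lib.MP_8d00da_gt.h25 Pool.Agent.Lib.MP_8d00da_gt.h42
open Pool.Agent.Lib.MP_8d00da_gt.h42s Pool.Agent.Lib.MP_8d00da_gt.h42o
open Pool.Agent.Lib.MP_8d00da_gt.h97r
open scoped Topology NNReal ENNReal

set_option linter.unusedSectionVars false

variable {F : Type*} [NormedAddCommGroup F] [InnerProductSpace ℝ F]
    [FiniteDimensional ℝ F] [MeasurableSpace F] [BorelSpace F]

variable {G : Type*} [NormedAddCommGroup G] [InnerProductSpace ℝ G]
    [FiniteDimensional ℝ G] [MeasurableSpace G] [BorelSpace G]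

variable {ι : Type*} [Fintype ι]

private lemma ak4_lsc {U : Set F} (hU : IsOpen U) {f k : F → ℝ} (hk : Continuous k)
    (h1 : ∀ x ∈ U, f x = k x) (h0 : ∀ x, x ∉ U → f x = 0) :
    LowerSemicontinuous fun x => ENNReal.ofReal (f x) := by
  intro x
  by_cases hx : x ∈ U
  · have hc : ContinuousAt (fun x => ENNReal.ofReal (f x)) x := by
      have e : (fun x => ENNReal.ofReal (f x)) =ᶠ[𝓝 x] fun x => ENNReal.ofReal (k x) := by
        filter_upwards [hU.mem_nhds hx] with y hy
        rw [h1 y hy]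
      exact (ENNReal.continuous_ofReal.comp hk).continuousAt.congr e.symm
    exact hc.lowerSemicontinuousAt
  · intro y hy
    simp only [h0 x hx, ENNReal.ofReal_zero] at hy
    exact absurd hy not_lt_zero

private lemma ak4_ph {V : F → ℝ} (hV : Continuous V) (L : ℝ) (z : F) :
    Continuous (ph V L z) := by
  unfold ph
  exact Real.continuous_sqrt.comp ((continuous_const.sub hV).mul
    (continuous_const.sub (hV.comp (continuous_const.sub continuous_id))))

private lemma ak4_nn {V : F → ℝ} (L : ℝ) (z : F) (g : F → ℝ) (ε : ℝ) (x : F) :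
    0 ≤ Ae V L z g ε x := Set.indicator_nonneg (fun _ _ => le_max_right _ _) x

/-- `Ce` is a supremum of lower semicontinuous functions of `m`: for fixed `u` the function
`m ↦ ofReal (Ae g ε (m+u) * Ae (-g) ε (m-u))` is, on the open set
`{m | m + u ∈ Om ∧ m - u ∈ Om}`, equal to a continuous function with values in `[0, ∞)`, and it
is zero elsewhere, so it is lower semicontinuous. (`lowerSemicontinuous_iSup`,
`LowerSemicontinuous.measurable`.) -/
theorem ce_meas {V : F → ℝ} (hV : Continuous V) (L : ℝ) (z : F) {g : F → ℝ} (hg : Continuous g)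
    (ε : ℝ) : Measurable (Ce V L z g ε) := by
  have hph := ak4_ph hV L z
  have key : LowerSemicontinuous fun m : F => ⨆ u : F,
      ENNReal.ofReal (Ae V L z g ε (m + u) * Ae V L z (fun x => -g x) ε (m - u)) := by
    refine lowerSemicontinuous_iSup fun u => ?_
    have hU : IsOpen {m : F | m + u ∈ Om V L z ∧ m - u ∈ Om V L z} :=
      ((Om_open hV L z).preimage (continuous_id.add continuous_const)).inter
        ((Om_open hV L z).preimage (continuous_id.sub continuous_const))
    refine ak4_lsc hU (k := fun m => max (ph V L z (m + u) + ε * g (m + u)) 0 *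
      max (ph V L z (m - u) + ε * (-g (m - u))) 0) ?_ ?_ ?_
    · have c1 : Continuous fun m : F => m + u := continuous_id.add continuous_const
      have c2 : Continuous fun m : F => m - u := continuous_id.sub continuous_const
      exact (((hph.comp c1).add (continuous_const.mul (hg.comp c1))).max continuous_const).mul
        (((hph.comp c2).add (continuous_const.mul (hg.comp c2).neg)).max continuous_const)
    · rintro m ⟨h1, h2⟩
      unfold Ae
      rw [Set.indicator_of_mem h1, Set.indicator_of_mem h2]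
    · intro m hm
      by_cases h1 : m + u ∈ Om V L z
      · have h2 : m - u ∉ Om V L z := fun h2 => hm ⟨h1, h2⟩
        have e : Ae V L z (fun x => -g x) ε (m - u) = 0 := Set.indicator_of_notMem h2 _
        rw [e, mul_zero]
      · have e : Ae V L z g ε (m + u) = 0 := Set.indicator_of_notMem h1 _
        rw [e, zero_mul]
  exact key.measurable

theorem ae_meas {V : F → ℝ} (hV : Continuous V) (L : ℝ) (z : F) {g : F → ℝ} (hg : Continuous g)
    (ε : ℝ) : Measurable (Ae V L z g ε) := by
  have hph := ak4_ph hV L z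
  have hm : Measurable fun x => max (ph V L z x + ε * g x) 0 :=
    ((hph.add (continuous_const.mul hg)).max continuous_const).measurable
  exact hm.indicator (Om_open hV L z).measurableSet

/-- Prekopa-Leindler (`h42.pl_space F` with `a = 1/2`) for the functions `Ae g ε ^ 2`,
`Ae (-g) ε ^ 2` and `Ce`. (`(ofReal (x²))^(1/2) = ofReal x` for `x ≥ 0`; with
`m = (x + y)/2`, `u = (x - y)/2`: `x = m + u`, `y = m - u`; square the inequality.) -/
theorem ce_pl {V : F → ℝ} (hV : Continuous V) (L : ℝ) (z : F) {g : F → ℝ} (hg : Continuous g)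
    (ε : ℝ) :
    (∫⁻ x, ENNReal.ofReal (Ae V L z g ε x ^ 2)) *
      (∫⁻ x, ENNReal.ofReal (Ae V L z (fun x => -g x) ε x ^ 2)) ≤ (∫⁻ x, Ce V L z g ε x) ^ 2 := by
  have half : (1 - 1 / 2 : ℝ) = 1 / 2 := by norm_num
  have hr : ∀ t : ℝ, 0 ≤ t → ENNReal.ofReal (t ^ 2) ^ (1 / 2 : ℝ) = ENNReal.ofReal t := by
    intro t ht
    rw [ENNReal.ofReal_rpow_of_nonneg (by positivity) (by norm_num), ← Real.sqrt_eq_rpow,
      Real.sqrt_sq ht]
  have key := pl_space F (1 / 2) (by norm_num) (by norm_num)
    (fun x => ENNReal.ofReal (Ae V L z g ε x ^ 2))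
    (fun x => ENNReal.ofReal (Ae V L z (fun x => -g x) ε x ^ 2)) (Ce V L z g ε)
    ((ae_meas hV L z hg ε).pow_const 2).ennreal_ofReal
    ((ae_meas hV L z hg.neg ε).pow_const 2).ennreal_ofReal (ce_meas hV L z hg ε)
    (fun x y => by
      rw [half, hr _ (ak4_nn L z g ε x), hr _ (ak4_nn L z _ ε y),
        ← ENNReal.ofReal_mul (ak4_nn L z g ε x)]
      have e1 : x = ((1 / 2 : ℝ) • x + (1 / 2 : ℝ) • y) + (1 / 2 : ℝ) • (x - y) := by module
      have e2 : y = ((1 / 2 : ℝ) • x + (1 / 2 : ℝ) • y) - (1 / 2 : ℝ) • (x - y) := by module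
      have h := le_iSup (fun u : F => ENNReal.ofReal
        (Ae V L z g ε (((1 / 2 : ℝ) • x + (1 / 2 : ℝ) • y) + u) *
          Ae V L z (fun x => -g x) ε (((1 / 2 : ℝ) • x + (1 / 2 : ℝ) • y) - u)))
        ((1 / 2 : ℝ) • (x - y))
      simp only [← e1, ← e2] at h
      exact h)
  rw [half] at key
  have h2 := pow_le_pow_left₀ (zero_le) key 2
  rw [mul_pow, ← ENNReal.rpow_natCast, ← ENNReal.rpow_natCast, ← ENNReal.rpow_mul,
    ← ENNReal.rpow_mul] at h2
  norm_num at h2
  exact h2

end Pool.Agent.Lib.MP_8d00da_gt.h42r
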