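import Mathlib
import Pool.Agent.Lib.MP_8d00da_gt.h42r.ADefs

namespace Pool.Agent.Lib.MP_8d00da_gt.h25
end Pool.Agent.Lib.MP_8d00da_gt.h25
namespace Pool.Agent.Lib.MP_8d00da_gt.h42s
end Pool.Agent.Lib.MP_8d00da_gt.h42s
namespace Pool.Agent.Lib.MP_8d00da_gt.h42o
end Pool.Agent.Lib.MP_8d00da_gt.h42o
namespace Pool.Agent.Lib.MP_8d00da_gt.h97r
end Pool.Agent.Lib.MP_8d00da_gt.h97r


/-!
# Fibre inequality for bodies: boundedness and boundary layer
-/

namespace Pool.Agent.Lib.MP_8d00da_gt.h42r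

open MeasureTheory Set Filter
open Pool.Agent.Lib.MP_8d00da_gt.h25 Pool.Agent.Lib.MP_8d00da_gt.h42
open Pool.Agent.Lib.MP_8d00da_gt.h42s Pool.Agent.Lib.MP_8d00da_gt.h42o
open Pool.Agent.Lib.MP_8d00da_gt.h97r
open scoped Topology NNReal ENNReal

set_option linter.unusedSectionVars false

variable {F : Type*} [NormedAddCommGroup F] [InnerProductSpace ℝ F]
    [FiniteDimensional ℝ F] [MeasurableSpace F] [BorelSpace F]

variable {G : Type*} [NormedAddCommGroup G] [InnerProductSpace ℝ G]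
    [FiniteDimensional ℝ G] [MeasurableSpace G] [BorelSpace G]

variable {ι : Type*} [Fintype ι]

/-- Strong convexity makes the sublevel sets bounded: `V (x) + V (2 x₀ - x) - 2 V x₀ ≥ κ ‖x - x₀‖²`
does not bound `V x` alone; use `V` continuous, hence bounded below on the unit ball, say
`V ≥ -B` there, and for `‖x‖ ≥ 1` midpoint convexity along the ray (or: for points `x` of `Om`,
`z - x ∈ Om` as well, so `κ ‖x - z/2‖² ≤ sd V (z/2) (x - z/2) = V x + V (z - x) - 2 V (z/2)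
< 2 L - 2 V (z/2)`: this is the bound for `Om`, and this is all we need). -/
theorem om_bdd {κ : ℝ} (hκ : 0 < κ) {V : F → ℝ} (hVs : ∀ x u, κ * ‖u‖ ^ 2 ≤ sd V x u) (L : ℝ)
    (z : F) : ∃ R : ℝ, ∀ x ∈ Om V L z, ‖x‖ ≤ R := by
  refine ⟨‖(1 / 2 : ℝ) • z‖ + √((2 * L - 2 * V ((1 / 2 : ℝ) • z)) / κ), fun x hx => ?_⟩
  have h1 := hVs ((1 / 2 : ℝ) • z) (x - (1 / 2 : ℝ) • z)
  unfold sd at h1
  have e1 : (1 / 2 : ℝ) • z + (x - (1 / 2 : ℝ) • z) = x := by module
  have e2 : (1 / 2 : ℝ) • z - (x - (1 / 2 : ℝ) • z) = z - x := by module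
  rw [e1, e2] at h1
  have h2 : V x < L := hx.1
  have h3 : V (z - x) < L := hx.2
  have h4 : ‖x - (1 / 2 : ℝ) • z‖ ≤ √((2 * L - 2 * V ((1 / 2 : ℝ) • z)) / κ) := by
    refine Real.le_sqrt_of_sq_le ?_
    rw [le_div_iff₀ hκ]
    linarith
  have h5 : ‖x‖ ≤ ‖(1 / 2 : ℝ) • z‖ + ‖x - (1 / 2 : ℝ) • z‖ := by
    have h6 := norm_add_le ((1 / 2 : ℝ) • z) (x - (1 / 2 : ℝ) • z)
    rwa [e1] at h6
  linarith

/-- `ph` is continuous and bounded on the bounded set `Om` (it is continuous on `F`). -/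
theorem ph_cont {V : F → ℝ} (hV : Continuous V) (L : ℝ) (z : F) : Continuous (ph V L z) :=
  Real.continuous_sqrt.comp ((continuous_const.sub hV).mul
    (continuous_const.sub (hV.comp (continuous_const.sub continuous_id))))

/-- The boundary layer: `volume {x ∈ Om | ph x < ε A} → 0` as `ε → 0` (decreasing sets with empty
intersection, as `ph > 0` on `Om`, inside a set of finite volume). -/
theorem layer_small {κ : ℝ} (hκ : 0 < κ) {V : F → ℝ} (hVc : Continuous V)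
    (hVs : ∀ x u, κ * ‖u‖ ^ 2 ≤ sd V x u) (L : ℝ) (z : F) {A : ℝ} (hA : 0 ≤ A) {η : ℝ}
    (hη : 0 < η) : ∃ ε0 : ℝ, 0 < ε0 ∧ ∀ ε, 0 < ε → ε < ε0 →
      (volume {x | x ∈ Om V L z ∧ ph V L z x < ε * A}).toReal < η := by
  obtain ⟨R, hR⟩ := om_bdd hκ hVs L z
  have hfin : ∀ s : Set F, s ⊆ Om V L z → volume s ≠ ⊤ := fun s hs => by
    refine ((measure_mono (hs.trans fun x hx => ?_)).trans_lt
      (measure_closedBall_lt_top (x := (0 : F)) (r := R))).ne
    rw [mem_closedBall_zero_iff]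
    exact hR x hx
  have hpos : ∀ k : ℕ, (0 : ℝ) < 1 / ((k : ℝ) + 1) := fun k => by positivity
  have h5 := tendsto_measure_iInter_atTop (μ := (volume : Measure F))
    (s := fun k : ℕ => {x | x ∈ Om V L z ∧ ph V L z x < 1 / ((k : ℝ) + 1) * A})
    (fun k => (((Om_open hVc L z).inter (isOpen_lt (ph_cont hVc L z)
      continuous_const)).measurableSet).nullMeasurableSet)
    (fun k l hkl x hx => ⟨hx.1, hx.2.trans_le (mul_le_mul_of_nonneg_right
      (one_div_le_one_div_of_le (by positivity) (by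
        have : (k : ℝ) ≤ l := by exact_mod_cast hkl
        linarith)) hA)⟩)
    ⟨0, hfin _ fun x hx => hx.1⟩
  have h6 : (⋂ k : ℕ, {x | x ∈ Om V L z ∧ ph V L z x < 1 / ((k : ℝ) + 1) * A}) = ∅ := by
    refine Set.eq_empty_of_forall_notMem fun x hx => ?_
    rw [mem_iInter] at hx
    have h7 : x ∈ Om V L z := (hx 0).1
    have h8 : 0 < ph V L z x :=
      Real.sqrt_pos.2 (mul_pos (sub_pos.2 h7.1) (sub_pos.2 h7.2))
    have h9 : Tendsto (fun k : ℕ => 1 / ((k : ℝ) + 1) * A) atTop (𝓝 (0 * A)) :=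
      tendsto_one_div_add_atTop_nhds_zero_nat.mul_const A
    rw [zero_mul] at h9
    exact absurd (ge_of_tendsto' h9 fun k => (hx k).2.le) (not_le.2 h8)
  rw [h6, measure_empty] at h5
  obtain ⟨k, hk⟩ := (h5.eventually_lt_const (ENNReal.ofReal_pos.2 hη)).exists
  refine ⟨1 / ((k : ℝ) + 1), hpos k, fun ε _ hε => ?_⟩
  have hsub2 : {x | x ∈ Om V L z ∧ ph V L z x < ε * A} ⊆
      {x | x ∈ Om V L z ∧ ph V L z x < 1 / ((k : ℝ) + 1) * A} := fun x hx =>
    ⟨hx.1, hx.2.trans_le (mul_le_mul_of_nonneg_right hε.le hA)⟩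
  have h10 : volume {x | x ∈ Om V L z ∧ ph V L z x < ε * A} < ENNReal.ofReal η :=
    (measure_mono hsub2).trans_lt hk
  have h11 := (ENNReal.toReal_lt_toReal (hfin _ fun x hx => hx.1) ENNReal.ofReal_ne_top).2 h10
  rwa [ENNReal.toReal_ofReal hη.le] at h11

end Pool.Agent.Lib.MP_8d00da_gt.h42r
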