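import Mathlib
import Pool.Agent.Lib.MP_8d00da_gt.h42r.AK5a

namespace Pool.Agent.Lib.MP_8d00da_gt.h25
end Pool.Agent.Lib.MP_8d00da_gt.h25
namespace Pool.Agent.Lib.MP_8d00da_gt.h42s
end Pool.Agent.Lib.MP_8d00da_gt.h42s
namespace Pool.Agent.Lib.MP_8d00da_gt.h42o
end Pool.Agent.Lib.MP_8d00da_gt.h42o
namespace Pool.Agent.Lib.MP_8d00da_gt.h97r
end Pool.Agent.Lib.MP_8d00da_gt.h97r


/-!
# Fibre inequality for bodies: lower bound of the perturbed integrals
-/

namespace Pool.Agent.Lib.MP_8d00da_gt.h42r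

open MeasureTheory Set Filter
open Pool.Agent.Lib.MP_8d00da_gt.h25 Pool.Agent.Lib.MP_8d00da_gt.h42
open Pool.Agent.Lib.MP_8d00da_gt.h42s Pool.Agent.Lib.MP_8d00da_gt.h42o
open Pool.Agent.Lib.MP_8d00da_gt.h97r
open scoped Topology NNReal ENNReal

set_option linter.unusedSectionVars false

variable {F : Type*} [NormedAddCommGroup F] [InnerProductSpace ℝ F]
    [FiniteDimensional ℝ F] [MeasurableSpace F] [BorelSpace F]

variable {G : Type*} [NormedAddCommGroup G] [InnerProductSpace ℝ G]
    [FiniteDimensional ℝ G] [MeasurableSpace G] [BorelSpace G]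

variable {ι : Type*} [Fintype ι]

/-- Lower bound. On `Om`: `max (t) 0 ^ 2 ≥ t² - A² ε² 1_{ph < ε A}` for `t = ph + ε g`, because
`t < 0` forces `ph < ε |g| ≤ ε A` and then `t² ≤ ε² g² ≤ ε² A²` (`ph ≥ 0`). Expand
`(ph + ε g)² = ph² + 2 ε ph g + ε² g²` and integrate over `Om` (bounded, all functions
bounded and measurable there), `∫ ph g = 0`. -/
theorem ae_lower {κ : ℝ} (hκ : 0 < κ) {V : F → ℝ} (hVc : Continuous V)
    (hVs : ∀ x u, κ * ‖u‖ ^ 2 ≤ sd V x u) (L : ℝ) (z : F) {g : F → ℝ} (hg : Continuous g)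
    {A : ℝ} (hA : ∀ x, |g x| ≤ A) (hmean : ∫ x in Om V L z, ph V L z x * g x = 0) {ε : ℝ}
    (hε : 0 < ε) :
    ENNReal.ofReal ((∫ x in Om V L z, ph V L z x ^ 2) + ε ^ 2 * ((∫ x in Om V L z, g x ^ 2) -
      A ^ 2 * (volume {x | x ∈ Om V L z ∧ ph V L z x < ε * A}).toReal)) ≤
      ∫⁻ x, ENNReal.ofReal (Ae V L z g ε x ^ 2) := by
  classical
  obtain ⟨R, hR⟩ := om_bdd hκ hVs L z
  have hSo : IsOpen (Om V L z) := Om_open hVc L z
  have hSm : MeasurableSet (Om V L z) := hSo.measurableSet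
  have hsub : Om V L z ⊆ Metric.closedBall 0 R := by
    intro x hx
    rw [mem_closedBall_zero_iff]
    exact hR x hx
  have hint : ∀ f : F → ℝ, Continuous f → IntegrableOn f (Om V L z) := fun f hf =>
    (hf.continuousOn.integrableOn_compact (isCompact_closedBall 0 R)).mono_set hsub
  have hfin : volume (Om V L z) < ⊤ :=
    lt_of_le_of_lt (measure_mono hsub) (isCompact_closedBall (0 : F) R).measure_lt_top
  have hph : Continuous (ph V L z) := ph_cont hVc L z
  set T : Set F := {x | x ∈ Om V L z ∧ ph V L z x < ε * A} with hT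
  have hTm : MeasurableSet T :=
    hSm.inter (isOpen_lt hph continuous_const).measurableSet
  have hTS : T ⊆ Om V L z := fun x hx => hx.1
  have hTfin : volume T ≠ ⊤ := ((measure_mono hTS).trans_lt hfin).ne
  have hA0 : ∀ x, g x ^ 2 ≤ A ^ 2 := by
    intro x
    rw [← sq_abs]
    exact pow_le_pow_left₀ (abs_nonneg _) (hA x) 2
  -- the pointwise bound
  have hpt : ∀ x, ph V L z x ^ 2 + 2 * ε * (ph V L z x * g x) + ε ^ 2 * g x ^ 2 -
      T.indicator (fun _ => ε ^ 2 * A ^ 2) x - (Om V L z)ᶜ.indicator (fun _ => ε ^ 2 * A ^ 2) x ≤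
      (max (ph V L z x + ε * g x) 0) ^ 2 := by
    intro x
    have hphn : 0 ≤ ph V L z x := Real.sqrt_nonneg _
    rcases le_or_gt 0 (ph V L z x + ε * g x) with h0 | h0
    · rw [max_eq_left h0]
      have h1 : 0 ≤ T.indicator (fun _ => ε ^ 2 * A ^ 2) x :=
        Set.indicator_nonneg (fun _ _ => by positivity) x
      have h2 : 0 ≤ (Om V L z)ᶜ.indicator (fun _ => ε ^ 2 * A ^ 2) x :=
        Set.indicator_nonneg (fun _ _ => by positivity) x
      nlinarith [h1, h2]
    · rw [max_eq_right h0.le]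
      have hlt : ph V L z x < ε * A := by
        have h3 : -g x ≤ A := (neg_le_abs _).trans (hA x)
        nlinarith
      have h4 : (ph V L z x + ε * g x) ^ 2 ≤ ε ^ 2 * A ^ 2 := by
        have h5 : (ph V L z x + ε * g x) ^ 2 ≤ (ε * g x) ^ 2 := by
          nlinarith
        have h6 := mul_le_mul_of_nonneg_left (hA0 x) (sq_nonneg ε)
        nlinarith
      by_cases hx : x ∈ Om V L z
      · have hxT : x ∈ T := ⟨hx, hlt⟩
        rw [Set.indicator_of_mem hxT, Set.indicator_of_notMem (by simpa using hx)]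
        nlinarith
      · have hxT : x ∉ T := fun h => hx h.1
        rw [Set.indicator_of_notMem hxT, Set.indicator_of_mem (by simpa using hx)]
        nlinarith
  have hmaxc : Continuous fun x => (max (ph V L z x + ε * g x) 0) ^ 2 :=
    ((hph.add (continuous_const.mul hg)).max continuous_const).pow 2
  have i1 : IntegrableOn (fun x => ph V L z x ^ 2) (Om V L z) := hint _ (hph.pow 2)
  have i2 : IntegrableOn (fun x => 2 * ε * (ph V L z x * g x)) (Om V L z) :=
    hint _ (continuous_const.mul (hph.mul hg))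
  have i3 : IntegrableOn (fun x => ε ^ 2 * g x ^ 2) (Om V L z) :=
    hint _ (continuous_const.mul (hg.pow 2))
  have i4 : IntegrableOn (T.indicator (fun _ => ε ^ 2 * A ^ 2)) (Om V L z) := by
    apply Integrable.indicator _ hTm
    exact integrableOn_const hfin.ne
  have i5 : IntegrableOn (fun x => (max (ph V L z x + ε * g x) 0) ^ 2) (Om V L z) :=
    hint _ hmaxc
  have i12 : IntegrableOn (fun x => ph V L z x ^ 2 + 2 * ε * (ph V L z x * g x)) (Om V L z) :=
    i1.add i2
  have i123 : IntegrableOn (fun x => ph V L z x ^ 2 + 2 * ε * (ph V L z x * g x) +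
      ε ^ 2 * g x ^ 2) (Om V L z) := i12.add i3
  have i1234 : IntegrableOn (fun x => ph V L z x ^ 2 + 2 * ε * (ph V L z x * g x) +
      ε ^ 2 * g x ^ 2 - T.indicator (fun _ => ε ^ 2 * A ^ 2) x) (Om V L z) := i123.sub i4
  have key : (∫ x in Om V L z, ph V L z x ^ 2) + ε ^ 2 * ((∫ x in Om V L z, g x ^ 2) -
      A ^ 2 * (volume T).toReal) ≤
      ∫ x in Om V L z, (max (ph V L z x + ε * g x) 0) ^ 2 := by
    have e1 : ∫ x in Om V L z, (ph V L z x ^ 2 + 2 * ε * (ph V L z x * g x) + ε ^ 2 * g x ^ 2 -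
        T.indicator (fun _ => ε ^ 2 * A ^ 2) x) =
        (∫ x in Om V L z, ph V L z x ^ 2) + ε ^ 2 * ((∫ x in Om V L z, g x ^ 2) -
        A ^ 2 * (volume T).toReal) := by
      rw [integral_sub i123 i4, integral_add i12 i3,
        integral_add i1 i2, integral_const_mul, integral_const_mul, hmean,
        integral_indicator hTm, Measure.restrict_restrict hTm, Set.inter_eq_left.2 hTS,
        setIntegral_const]
      simp only [measureReal_def, smul_eq_mul]
      ring
    rw [← e1]
    refine setIntegral_mono_on i1234 i5 hSm ?_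
    intro x hx
    have h := hpt x
    have hx' : (Om V L z)ᶜ.indicator (fun _ => ε ^ 2 * A ^ 2) x = 0 :=
      Set.indicator_of_notMem (by simpa using hx) _
    rw [hx'] at h
    simpa using h
  refine (ENNReal.ofReal_le_ofReal key).trans ?_
  rw [ofReal_integral_eq_lintegral_ofReal i5 (Filter.Eventually.of_forall fun x => by positivity)]
  refine le_trans (le_of_eq ?_) (setLIntegral_le_lintegral (Om V L z) _)
  refine setLIntegral_congr_fun hSm ?_
  intro x hx
  simp only [Ae]
  rw [Set.indicator_of_mem hx]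

end Pool.Agent.Lib.MP_8d00da_gt.h42r
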