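import Mathlib
import Pool.Agent.Lib.MP_8d00da_gt.h42s.BL
import Pool.Agent.Lib.MP_8d00da_gt.h42r.AK4
import Pool.Agent.Lib.MP_8d00da_gt.h42r.AK5
import Pool.Agent.Lib.MP_8d00da_gt.h42r.AK3

namespace Pool.Agent.Lib.MP_8d00da_gt.h25
end Pool.Agent.Lib.MP_8d00da_gt.h25
namespace Pool.Agent.Lib.MP_8d00da_gt.h42o
end Pool.Agent.Lib.MP_8d00da_gt.h42o
namespace Pool.Agent.Lib.MP_8d00da_gt.h97r
end Pool.Agent.Lib.MP_8d00da_gt.h97r


/-!
# Fibre inequality for bodies, centred function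
-/

namespace Pool.Agent.Lib.MP_8d00da_gt.h42r

open MeasureTheory Set Filter
open Pool.Agent.Lib.MP_8d00da_gt.h25 Pool.Agent.Lib.MP_8d00da_gt.h42
open Pool.Agent.Lib.MP_8d00da_gt.h42s Pool.Agent.Lib.MP_8d00da_gt.h42o
open Pool.Agent.Lib.MP_8d00da_gt.h97r
open scoped Topology NNReal ENNReal

set_option linter.unusedSectionVars false

variable {F : Type*} [NormedAddCommGroup F] [InnerProductSpace ℝ F]
    [FiniteDimensional ℝ F] [MeasurableSpace F] [BorelSpace F]

variable {G : Type*} [NormedAddCommGroup G] [InnerProductSpace ℝ G]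
    [FiniteDimensional ℝ G] [MeasurableSpace G] [BorelSpace G]

variable {ι : Type*} [Fintype ι]

/-- The fibre inequality with a centred function. Let `α = ∫_Om ph²`, `γ = ∫_Om g²`,
`e(ε) = A² vol {ph < ε A}`. By `ae_lower` for `g` and `-g`, `ce_pl` and monotonicity
`α + ε² (γ - e(ε)) ≤ ∫⁻ Ce` (if the left side is positive; `α > 0` when `Om` is not null).
By `ce_zero`, `ce_le`, `∫⁻ Ce ≤ ofReal (α + ε² ∫_Om D_ε)` where `D_ε = (Ce - ph²)/ε²` is bounded
above by `(2 K²/κ) ((L - V m) + (L - V (z-m)))`, integrable on `Om`, and by `ce_asymp`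
`limsup D_ε m ≤ 2 (L - V (z-m)) q m` for a.e. `m ∈ Om`. Reverse Fatou (or: apply dominated
convergence to `max (D_ε, 2 b q)`, or Fatou `lintegral_liminf_le` to the nonnegative function
`dominating - D_ε`) gives `γ ≤ 2 ∫_Om (L - V (z-x)) q x`. Use `ε = 1/(k+1)`. -/
theorem fib_core {κ : ℝ} (hκ : 0 < κ) {V : F → ℝ} (hVc : Continuous V)
    (hVs : ∀ x u, κ * ‖u‖ ^ 2 ≤ sd V x u) (L : ℝ) (z : F) {g : F → ℝ} (hg : BL g)
    (hmean : ∫ x in Om V L z, ph V L z x * g x = 0) {q : F → ℝ} (hqm : Measurable q)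
    (hq0 : ∀ x, 0 ≤ q x) (hD : ∀ᵐ x : F, DomV V g x (z - x) (q x))
    (hint : IntegrableOn (fun x => (L - V (z - x)) * q x) (Om V L z)) :
    ∫ x in Om V L z, g x ^ 2 ≤ 2 * ∫ x in Om V L z, (L - V (z - x)) * q x := by
  obtain ⟨⟨K, hK⟩, A, hA⟩ := hg
  have hA0 : 0 ≤ A := (abs_nonneg _).trans (hA 0)
  have hgc : Continuous g := hK.continuous
  have hV0 : ∀ x u, 0 ≤ sd V x u := fun x u => (by positivity : 0 ≤ κ * ‖u‖ ^ 2).trans (hVs x u)
  obtain ⟨R, hR⟩ := om_bdd hκ hVs L z
  have hΩm : MeasurableSet (Om V L z) := (Om_open hVc L z).measurableSet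
  have hsub : Om V L z ⊆ Metric.closedBall 0 R := fun x hx => by
    rw [mem_closedBall_zero_iff]
    exact hR x hx
  have hI : ∀ f : F → ℝ, Continuous f → IntegrableOn f (Om V L z) := fun f hf =>
    (hf.continuousOn.integrableOn_compact (isCompact_closedBall 0 R)).mono_set hsub
  have hbc : Continuous fun x => L - V (z - x) :=
    continuous_const.sub (hVc.comp (continuous_const.sub continuous_id))
  obtain ⟨H, hHdef⟩ : ∃ H : F → ℝ, H = fun m => 2 * (K : ℝ) ^ 2 / κ * ((L - V m) + (L - V (z - m))) :=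
    ⟨_, rfl⟩
  have hHi : IntegrableOn H (Om V L z) := by
    rw [hHdef]
    exact hI _ (continuous_const.mul ((continuous_const.sub hVc).add hbc))
  have hphi : IntegrableOn (fun x => ph V L z x ^ 2) (Om V L z) := hI _ ((ph_cont hVc L z).pow 2)
  obtain ⟨E, hEdef⟩ : ∃ E : ℕ → ℝ, E = fun k : ℕ => 1 / ((k : ℝ) + 1) := ⟨_, rfl⟩
  have hE0 : ∀ k, 0 < E k := fun k => by rw [hEdef]; positivity
  have hElim : Tendsto E atTop (𝓝 0) := by rw [hEdef]; exact tendsto_one_div_add_atTop_nhds_zero_nat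
  obtain ⟨C, hCdef⟩ : ∃ C : ℕ → F → ℝ, C = fun k m => (Ce V L z g (E k) m).toReal := ⟨_, rfl⟩
  have hCm : ∀ k, Measurable (C k) := fun k => by
    rw [hCdef]
    exact (ce_meas hVc L z hgc (E k)).ennreal_toReal
  have hC0 : ∀ k m, 0 ≤ C k m := fun k m => by rw [hCdef]; exact ENNReal.toReal_nonneg
  have hH0 : ∀ m ∈ Om V L z, 0 ≤ H m := fun m hm => by
    rw [hHdef]
    have h1 : 0 < L - V m := sub_pos.2 hm.1
    have h2 : 0 < L - V (z - m) := sub_pos.2 hm.2
    positivity
  have hCe : ∀ k, ∀ m ∈ Om V L z, Ce V L z g (E k) m ≤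
      ENNReal.ofReal (ph V L z m ^ 2 + E k ^ 2 * H m) := fun k m hm => by
    rw [hHdef]
    exact ce_le hκ hVs hK (hE0 k) hm
  have hCtop : ∀ k, ∀ m ∈ Om V L z, Ce V L z g (E k) m ≠ ⊤ := fun k m hm =>
    ne_top_of_le_ne_top ENNReal.ofReal_ne_top (hCe k m hm)
  have hCle : ∀ k, ∀ m ∈ Om V L z, C k m ≤ ph V L z m ^ 2 + E k ^ 2 * H m := fun k m hm => by
    rw [hCdef]
    refine ENNReal.toReal_le_of_le_ofReal ?_ (hCe k m hm)
    have := hH0 m hm
    positivity
  have hCi : ∀ k, IntegrableOn (C k) (Om V L z) := fun k => by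
    refine Integrable.mono' (hphi.add (hHi.const_mul (E k ^ 2))) (hCm k).aestronglyMeasurable ?_
    filter_upwards [ae_restrict_mem hΩm] with m hm
    rw [Real.norm_eq_abs, abs_of_nonneg (hC0 k m)]
    exact hCle k m hm
  have hCint : ∀ k, ∫⁻ x, Ce V L z g (E k) x = ENNReal.ofReal (∫ x in Om V L z, C k x) := fun k => by
    rw [ofReal_integral_eq_lintegral_ofReal (hCi k) (Eventually.of_forall (hC0 k)),
      ← lintegral_indicator hΩm]
    congr 1
    funext m
    by_cases hm : m ∈ Om V L z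
    · rw [Set.indicator_of_mem hm, hCdef]
      exact (ENNReal.ofReal_toReal (hCtop k m hm)).symm
    · rw [Set.indicator_of_notMem hm, ce_zero hV0 hm]
  -- the lower bound
  obtain ⟨v, hv⟩ : ∃ v : ℕ → ℝ, v = fun k =>
    (volume {x | x ∈ Om V L z ∧ ph V L z x < E k * A}).toReal := ⟨_, rfl⟩
  have hvlim : Tendsto v atTop (𝓝 0) := by
    rw [hv]
    refine tendsto_order.2 ⟨fun a ha => Eventually.of_forall fun k => ha.trans_le ENNReal.toReal_nonneg,
      fun a ha => ?_⟩
    obtain ⟨ε0, h0, h⟩ := layer_small hκ hVc hVs L z hA0 ha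
    filter_upwards [hElim.eventually_lt_const h0] with k hk
    exact h _ (hE0 k) hk
  have hlow : ∀ k, (∫ x in Om V L z, ph V L z x ^ 2) +
      E k ^ 2 * ((∫ x in Om V L z, g x ^ 2) - A ^ 2 * v k) ≤ ∫ x in Om V L z, C k x := fun k => by
    have h1 := ae_lower hκ hVc hVs L z hgc hA hmean (hE0 k)
    have hmean' : ∫ x in Om V L z, ph V L z x * (fun x => -g x) x = 0 := by
      have h2 : (fun x => ph V L z x * (fun x => -g x) x) = fun x => -(ph V L z x * g x) := by
        funext x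
        ring
      rw [h2, integral_neg, hmean, neg_zero]
    have h2 := ae_lower hκ hVc hVs L z (g := fun x => -g x) hgc.neg (A := A)
      (fun x => by rw [abs_neg]; exact hA x) hmean' (hE0 k)
    have h3 : (∫ x in Om V L z, (fun x => -g x) x ^ 2) = ∫ x in Om V L z, g x ^ 2 := by
      congr 1
      funext x
      ring
    rw [h3] at h2
    have h4 := ce_pl hVc L z hgc (E k)
    have h5 : ENNReal.ofReal ((∫ x in Om V L z, ph V L z x ^ 2) +
        E k ^ 2 * ((∫ x in Om V L z, g x ^ 2) - A ^ 2 * v k)) ≤ ∫⁻ x, Ce V L z g (E k) x := by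
      by_contra hcon
      rw [not_le] at hcon
      have h6 := ENNReal.pow_lt_pow_left two_ne_zero hcon
      refine absurd (h4.trans_lt h6) (not_lt.2 ?_)
      rw [sq, hv]
      exact mul_le_mul' h1 h2
    rw [hCint] at h5
    exact (ENNReal.ofReal_le_ofReal_iff (integral_nonneg (hC0 k))).1 h5
  -- the difference quotients
  obtain ⟨Q, hQ⟩ : ∃ Q : ℕ → F → ℝ, Q = fun k x => (C k x - ph V L z x ^ 2) / E k ^ 2 := ⟨_, rfl⟩
  have hQi : ∀ k, IntegrableOn (Q k) (Om V L z) := fun k => by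
    rw [hQ]
    exact ((hCi k).sub hphi).div_const _
  have hQint : ∀ k, (∫ x in Om V L z, g x ^ 2) - A ^ 2 * v k ≤ ∫ x in Om V L z, Q k x := fun k => by
    rw [hQ]
    have h1 : ∫ x in Om V L z, (C k x - ph V L z x ^ 2) / E k ^ 2 =
        ((∫ x in Om V L z, C k x) - ∫ x in Om V L z, ph V L z x ^ 2) / E k ^ 2 := by
      rw [integral_div, integral_sub (hCi k) hphi]
    rw [h1, le_div_iff₀ (by have := hE0 k; positivity)]
    have := hlow k
    linarith
  have hbq0 : ∀ m ∈ Om V L z, 0 ≤ (L - V (z - m)) * q m := fun m hm =>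
    mul_nonneg (sub_nonneg.2 hm.2.le) (hq0 m)
  have hQle : ∀ k, ∀ m ∈ Om V L z, ∀ c, C k m ≤ ph V L z m ^ 2 + E k ^ 2 * c → Q k m ≤ c :=
      fun k m _ c hc => by
    rw [hQ]
    show (C k m - ph V L z m ^ 2) / E k ^ 2 ≤ c
    rw [div_le_iff₀ (by have := hE0 k; positivity)]
    linarith
  have hmaxm : ∀ k, AEStronglyMeasurable (fun x => max (Q k x) (2 * ((L - V (z - x)) * q x)))
      (volume.restrict (Om V L z)) := fun k => by
    refine Measurable.aestronglyMeasurable (Measurable.max ?_ ?_)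
    · rw [hQ]
      exact ((hCm k).sub ((ph_cont hVc L z).measurable.pow_const 2)).div_const _
    · exact (hbc.measurable.mul hqm).const_mul 2
  have hbound : ∀ k, ∀ᵐ x ∂(volume.restrict (Om V L z)),
      ‖max (Q k x) (2 * ((L - V (z - x)) * q x))‖ ≤ H x + 2 * ((L - V (z - x)) * q x) := fun k => by
    filter_upwards [ae_restrict_mem hΩm] with m hm
    have h1 := hbq0 m hm
    have h2 := hH0 m hm
    have h3 := hQle k m hm (H m) (hCle k m hm)
    rw [Real.norm_eq_abs, abs_of_nonneg (le_trans (by positivity) (le_max_right _ _))]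
    exact max_le (by linarith) (by linarith)
  have hlimpt : ∀ᵐ x ∂(volume.restrict (Om V L z)),
      Tendsto (fun k => max (Q k x) (2 * ((L - V (z - x)) * q x))) atTop
        (𝓝 (2 * ((L - V (z - x)) * q x))) := by
    filter_upwards [ae_restrict_mem hΩm, ae_restrict_of_ae hD] with m hm hDm
    refine tendsto_order.2 ⟨fun a ha => Eventually.of_forall fun k => ha.trans_le (le_max_right _ _),
      fun a ha => ?_⟩
    obtain ⟨ε0, h0, h⟩ := ce_asymp hκ hVs hK hm (hq0 m) hDm
      (η := (a - 2 * ((L - V (z - m)) * q m)) / 2) (by linarith)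
    filter_upwards [hElim.eventually_lt_const h0] with k hk
    refine max_lt ?_ ha
    have h1 := h _ (hE0 k) hk
    have h2 : C k m ≤ ph V L z m ^ 2 + E k ^ 2 * (2 * ((L - V (z - m)) * q m) +
        (a - 2 * ((L - V (z - m)) * q m)) / 2) := by
      rw [hCdef]
      refine ENNReal.toReal_le_of_le_ofReal ?_ h1
      have h3 := hbq0 m hm
      have h4 : 0 ≤ (a - 2 * ((L - V (z - m)) * q m)) / 2 := by linarith
      positivity
    have h3 := hQle k m hm _ h2
    linarith
  have hlim : Tendsto (fun k => ∫ x in Om V L z, max (Q k x) (2 * ((L - V (z - x)) * q x))) atTop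
      (𝓝 (∫ x in Om V L z, 2 * ((L - V (z - x)) * q x))) :=
    tendsto_integral_of_dominated_convergence (fun x => H x + 2 * ((L - V (z - x)) * q x)) hmaxm
      (hHi.add (hint.const_mul 2)) hbound hlimpt
  have hmono : ∀ k, ∫ x in Om V L z, Q k x ≤
      ∫ x in Om V L z, max (Q k x) (2 * ((L - V (z - x)) * q x)) := fun k =>
    integral_mono_ae (hQi k) (Integrable.mono' (hHi.add (hint.const_mul 2)) (hmaxm k) (hbound k))
      (Eventually.of_forall fun x => le_max_left _ _)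
  have hlim2 : Tendsto (fun k => (∫ x in Om V L z, g x ^ 2) - A ^ 2 * v k) atTop
      (𝓝 ((∫ x in Om V L z, g x ^ 2) - A ^ 2 * 0)) := (hvlim.const_mul _).const_sub _
  rw [mul_zero, sub_zero] at hlim2
  have hfin := le_of_tendsto_of_tendsto' hlim2 hlim fun k => (hQint k).trans (hmono k)
  rw [integral_const_mul] at hfin
  exact hfin

end Pool.Agent.Lib.MP_8d00da_gt.h42r
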