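import Mathlib
import Pool.Agent.Lib.MP_8d00da_gt.h42r.AK6a

namespace Pool.Agent.Lib.MP_8d00da_gt.h25
end Pool.Agent.Lib.MP_8d00da_gt.h25
namespace Pool.Agent.Lib.MP_8d00da_gt.h42o
end Pool.Agent.Lib.MP_8d00da_gt.h42o
namespace Pool.Agent.Lib.MP_8d00da_gt.h97r
end Pool.Agent.Lib.MP_8d00da_gt.h97r


/-!
# Fibre inequality for bodies
-/

namespace Pool.Agent.Lib.MP_8d00da_gt.h42r

open MeasureTheory Set Filter
open Pool.Agent.Lib.MP_8d00da_gt.h25 Pool.Agent.Lib.MP_8d00da_gt.h42
open Pool.Agent.Lib.MP_8d00da_gt.h42s Pool.Agent.Lib.MP_8d00da_gt.h42o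
open Pool.Agent.Lib.MP_8d00da_gt.h97r
open scoped Topology NNReal ENNReal

set_option linter.unusedSectionVars false

variable {F : Type*} [NormedAddCommGroup F] [InnerProductSpace ℝ F]
    [FiniteDimensional ℝ F] [MeasurableSpace F] [BorelSpace F]

variable {G : Type*} [NormedAddCommGroup G] [InnerProductSpace ℝ G]
    [FiniteDimensional ℝ G] [MeasurableSpace G] [BorelSpace G]

variable {ι : Type*} [Fintype ι]

/-- Choose `c = ∫_Om ph f / ∫_Om ph` (if `Om` is null both sides vanish), `g = f - c`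
(`fderiv g = fderiv f`), then `(f x - f (z-x))² ≤ 2 g x² + 2 g (z-x)²` and `Om` is invariant under
`x ↦ z - x`, so the left side is `≤ 4 ∫_Om g²`. -/
theorem fibK {κ : ℝ} (hκ : 0 < κ) {V : F → ℝ} (hVc : Continuous V)
    (hVs : ∀ x u, κ * ‖u‖ ^ 2 ≤ sd V x u) (L : ℝ) (z : F) {f : F → ℝ} (hf : BL f)
    {q : F → ℝ} (hqm : Measurable q) (hq0 : ∀ x, 0 ≤ q x)
    (hD : ∀ᵐ x : F, DomV V f x (z - x) (q x))
    (hint : IntegrableOn (fun x => (L - V (z - x)) * q x) (Om V L z)) :
    ∫ x in Om V L z, (f x - f (z - x)) ^ 2 ≤ 8 * ∫ x in Om V L z, (L - V (z - x)) * q x := by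
  have hΩm : MeasurableSet (Om V L z) := (Om_open hVc L z).measurableSet
  obtain ⟨R, hR⟩ := om_bdd hκ hVs L z
  have hsub : Om V L z ⊆ Metric.closedBall 0 R := fun x hx => by
    rw [mem_closedBall_zero_iff]
    exact hR x hx
  have hI : ∀ f : F → ℝ, Continuous f → IntegrableOn f (Om V L z) := fun f hf =>
    (hf.continuousOn.integrableOn_compact (isCompact_closedBall 0 R)).mono_set hsub
  by_cases hnull : volume (Om V L z) = 0
  · rw [setIntegral_measure_zero _ hnull, setIntegral_measure_zero _ hnull]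
    simp
  obtain ⟨⟨K, hK⟩, A, hA⟩ := hf
  have hfc : Continuous f := hK.continuous
  have hpc : Continuous (ph V L z) := ph_cont hVc L z
  have hα : 0 < ∫ x in Om V L z, ph V L z x := by
    have h0 : 0 ≤ᵐ[volume.restrict (Om V L z)] ph V L z :=
      Eventually.of_forall fun x => Real.sqrt_nonneg _
    rw [setIntegral_pos_iff_support_of_nonneg_ae h0 (hI _ hpc)]
    have h1 : Function.support (ph V L z) ∩ Om V L z = Om V L z := by
      refine inter_eq_right.2 fun x hx => ?_
      refine (Real.sqrt_pos.2 (mul_pos (sub_pos.2 hx.1) (sub_pos.2 hx.2))).ne'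
    rw [h1]
    exact pos_iff_ne_zero.2 hnull
  obtain ⟨c, hc⟩ : ∃ c : ℝ, c = (∫ x in Om V L z, ph V L z x * f x) /
    (∫ x in Om V L z, ph V L z x) := ⟨_, rfl⟩
  have hgc : Continuous fun x => f x - c := hfc.sub continuous_const
  have hg : BL (fun x => f x - c) := by
    refine ⟨⟨K, ?_⟩, A + |c|, fun x => (abs_sub _ _).trans (add_le_add (hA x) le_rfl)⟩
    refine LipschitzWith.of_dist_le_mul fun x y => ?_
    have := hK.dist_le_mul x y
    rwa [Real.dist_eq, sub_sub_sub_cancel_right, ← Real.dist_eq]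
  have hmean : ∫ x in Om V L z, ph V L z x * (fun x => f x - c) x = 0 := by
    have h1 : (fun x => ph V L z x * (fun x => f x - c) x) =
        fun x => ph V L z x * f x - ph V L z x * c := by
      funext x
      ring
    have h2 : IntegrableOn (fun x => ph V L z x * f x) (Om V L z) := hI _ (hpc.mul hfc)
    rw [h1, integral_sub h2 ((hI _ hpc).mul_const c), integral_mul_const, hc]
    field_simp
    ring
  have hD' : ∀ᵐ x : F, DomV V (fun x => f x - c) x (z - x) (q x) := by
    filter_upwards [hD] with x hx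
    refine ⟨hx.1.sub_const c, ?_⟩
    rw [fderiv_sub_const]
    exact hx.2
  have hcore := fib_core hκ hVc hVs L z hg hmean hqm hq0 hD' hint
  have hinv : ∫ x in Om V L z, (f (z - x) - c) ^ 2 = ∫ x in Om V L z, (f x - c) ^ 2 := by
    rw [← integral_indicator hΩm, ← integral_indicator hΩm,
      ← integral_sub_left_eq_self _ volume z]
    congr 1
    funext x
    have h1 : z - x ∈ Om V L z ↔ x ∈ Om V L z := by
      unfold Om
      simp only [mem_setOf_eq, sub_sub_cancel]
      exact and_comm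
    by_cases hx : x ∈ Om V L z
    · rw [Set.indicator_of_mem (h1.2 hx), Set.indicator_of_mem hx, sub_sub_cancel]
    · rw [Set.indicator_of_notMem (fun h => hx (h1.1 h)), Set.indicator_of_notMem hx]
  have hle : ∫ x in Om V L z, (f x - f (z - x)) ^ 2 ≤
      ∫ x in Om V L z, (2 * (f x - c) ^ 2 + 2 * (f (z - x) - c) ^ 2) := by
    have hzc : Continuous fun x : F => z - x := continuous_const.sub continuous_id
    refine integral_mono (hI _ ((hfc.sub (hfc.comp hzc)).pow 2))
      (hI _ ((continuous_const.mul (hgc.pow 2)).add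
        (continuous_const.mul ((hgc.comp hzc).pow 2)))) fun x => ?_
    show (f x - f (z - x)) ^ 2 ≤ 2 * (f x - c) ^ 2 + 2 * (f (z - x) - c) ^ 2
    nlinarith [sq_nonneg ((f x - c) + (f (z - x) - c))]
  have hsum : ∫ x in Om V L z, (2 * (f x - c) ^ 2 + 2 * (f (z - x) - c) ^ 2) =
      2 * (∫ x in Om V L z, (f x - c) ^ 2) + 2 * ∫ x in Om V L z, (f (z - x) - c) ^ 2 := by
    have hzc : Continuous fun x : F => z - x := continuous_const.sub continuous_id
    have h1 : IntegrableOn (fun x => (f x - c) ^ 2) (Om V L z) := hI _ (hgc.pow 2)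
    have h2 : IntegrableOn (fun x => (f (z - x) - c) ^ 2) (Om V L z) :=
      hI _ ((hgc.comp hzc).pow 2)
    rw [integral_add (h1.const_mul 2) (h2.const_mul 2), integral_const_mul, integral_const_mul]
  have hcore' : ∫ x in Om V L z, (f x - c) ^ 2 ≤
      2 * ∫ x in Om V L z, (L - V (z - x)) * q x := hcore
  linarith

end Pool.Agent.Lib.MP_8d00da_gt.h42r
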