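import Mathlib
import Pool.Agent.Lib.MP_8d00da_gt.h42r.AK6

namespace Pool.Agent.Lib.MP_8d00da_gt.h25
end Pool.Agent.Lib.MP_8d00da_gt.h25
namespace Pool.Agent.Lib.MP_8d00da_gt.h42o
end Pool.Agent.Lib.MP_8d00da_gt.h42o
namespace Pool.Agent.Lib.MP_8d00da_gt.h97r
end Pool.Agent.Lib.MP_8d00da_gt.h97r


/-!
# Averaged Brascamp-Lieb inequality for strongly convex sublevel sets
-/

namespace Pool.Agent.Lib.MP_8d00da_gt.h42r

open MeasureTheory Set Filter
open Pool.Agent.Lib.MP_8d00da_gt.h25 Pool.Agent.Lib.MP_8d00da_gt.h42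
open Pool.Agent.Lib.MP_8d00da_gt.h42s Pool.Agent.Lib.MP_8d00da_gt.h42o
open Pool.Agent.Lib.MP_8d00da_gt.h97r
open scoped Topology NNReal ENNReal

set_option linter.unusedSectionVars false

variable {F : Type*} [NormedAddCommGroup F] [InnerProductSpace ℝ F]
    [FiniteDimensional ℝ F] [MeasurableSpace F] [BorelSpace F]

variable {G : Type*} [NormedAddCommGroup G] [InnerProductSpace ℝ G]
    [FiniteDimensional ℝ G] [MeasurableSpace G] [BorelSpace G]

variable {ι : Type*} [Fintype ι]

private lemma ag1_ib (V : F → ℝ) (L : ℝ) (x : F) : ib V L x = if V x < L then 1 else 0 := by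
  unfold ib
  simp only [Set.indicator_apply, Set.mem_ofPred_eq]

private lemma ag1_ib_int {V : F → ℝ} (hVc : Continuous V) {L : ℝ}
    (hfin : volume {x | V x < L} < ⊤) : Integrable (ib V L) := by
  have h : IntegrableOn (fun _ : F => (1 : ℝ)) {x | V x < L} := integrableOn_const hfin.ne
  exact (integrable_indicator_iff (isOpen_lt hVc continuous_const).measurableSet).2 h

private lemma ag1_bdd_mul {g i : F → ℝ} (hg : Continuous g) {A : ℝ} (hA : ∀ x, |g x| ≤ A)
    (hi : Integrable i) : Integrable (fun x => g x * i x) :=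
  hi.bdd_mul hg.aestronglyMeasurable (Eventually.of_forall fun x => by
    rw [Real.norm_eq_abs]; exact hA x)

private lemma ag1_shear : MeasurePreserving (fun p : F × F => (p.1, p.2 - p.1))
    (volume : Measure (F × F)) (volume : Measure (F × F)) := by
  have h := measurePreserving_prod_neg_add (volume : Measure F) (volume : Measure F)
  rw [← Measure.volume_eq_prod] at h
  have e : (fun p : F × F => (p.1, p.2 - p.1)) = fun p : F × F => (p.1, -p.1 + p.2) := by
    funext p
    rw [sub_eq_neg_add]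
  rw [e]
  exact h

private lemma ag1_comp {Φ : F × F → ℝ} (hΦ : Integrable Φ) :
    Integrable (fun p : F × F => Φ (p.1, p.2 - p.1)) ∧
      ∫ p : F × F, Φ (p.1, p.2 - p.1) = ∫ p, Φ p := by
  have h := ag1_shear (F := F)
  refine ⟨(h.integrable_comp hΦ.aestronglyMeasurable).2 hΦ, ?_⟩
  have h2 := integral_map (μ := (volume : Measure (F × F))) h.measurable.aemeasurable
    (f := Φ) (by rw [h.map_eq]; exact hΦ.aestronglyMeasurable)
  rw [h.map_eq] at h2
  exact h2.symm

private lemma ag1_fub {Φ : F × F → ℝ} (hΦ : Integrable Φ) :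
    ∫ p, Φ p = ∫ z, ∫ x, Φ (x, z - x) := by
  obtain ⟨h1, h2⟩ := ag1_comp hΦ
  rw [← h2]
  rw [Measure.volume_eq_prod] at h1 ⊢
  exact integral_prod_symm _ h1

private lemma ag1_ind (V : F → ℝ) (L : ℝ) (z x : F) (t : ℝ) :
    t * (ib V L x * ib V L (z - x)) = (Om V L z).indicator (fun _ => t) x := by
  rw [ag1_ib, ag1_ib]
  by_cases h1 : V x < L
  · by_cases h2 : V (z - x) < L
    · rw [if_pos h1, if_pos h2, Set.indicator_of_mem (show x ∈ Om V L z from ⟨h1, h2⟩)]
      ring
    · rw [if_neg h2, Set.indicator_of_notMem (show x ∉ Om V L z from fun h => h2 h.2)]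
      ring
  · rw [if_neg h1, Set.indicator_of_notMem (show x ∉ Om V L z from fun h => h1 h.1)]
    ring

private lemma ag1_ind2 (V : F → ℝ) (L : ℝ) (z x : F) (t : ℝ) :
    ib V L x * (pp V L (z - x) * t) =
      (Om V L z).indicator (fun x => (L - V (z - x)) * t) x := by
  rw [ag1_ib]
  unfold pp
  by_cases h1 : V x < L
  · by_cases h2 : V (z - x) < L
    · rw [if_pos h1, Set.indicator_of_mem (show x ∈ Om V L z from ⟨h1, h2⟩),
        max_eq_left (by linarith)]
      ring
    · rw [Set.indicator_of_notMem (show x ∉ Om V L z from fun h => h2 h.2),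
        max_eq_right (by linarith)]
      ring
  · rw [if_neg h1, Set.indicator_of_notMem (show x ∉ Om V L z from fun h => h1 h.1)]
    ring

private lemma ag1_lhs {f i : F → ℝ} (hf : BL f) (hi : Integrable i) :
    Integrable (fun p : F × F => (f p.1 - f p.2) ^ 2 * (i p.1 * i p.2)) ∧
      ∫ p : F × F, (f p.1 - f p.2) ^ 2 * (i p.1 * i p.2) =
        2 * ((∫ x, f x ^ 2 * i x) * (∫ x, i x) - (∫ x, f x * i x) ^ 2) := by
  obtain ⟨⟨K, hK⟩, A, hA⟩ := hf
  have hc : Continuous f := hK.continuous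
  have h1 : Integrable (fun x => f x * i x) := ag1_bdd_mul hc hA hi
  have h2 : Integrable (fun x => f x ^ 2 * i x) := by
    refine ag1_bdd_mul (A := A ^ 2) (hc.pow 2) (fun x => ?_) hi
    rw [abs_pow]
    exact pow_le_pow_left₀ (abs_nonneg _) (hA x) 2
  have e : (fun p : F × F => (f p.1 - f p.2) ^ 2 * (i p.1 * i p.2)) =
      fun p : F × F => ((f p.1 ^ 2 * i p.1) * i p.2 + i p.1 * (f p.2 ^ 2 * i p.2)) -
        2 * ((f p.1 * i p.1) * (f p.2 * i p.2)) := by
    funext p
    ring
  have i1 : Integrable (fun p : F × F => (f p.1 ^ 2 * i p.1) * i p.2) := by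
    rw [Measure.volume_eq_prod]
    exact h2.mul_prod hi
  have i2 : Integrable (fun p : F × F => i p.1 * (f p.2 ^ 2 * i p.2)) := by
    rw [Measure.volume_eq_prod]
    exact hi.mul_prod h2
  have i3 : Integrable (fun p : F × F => (f p.1 * i p.1) * (f p.2 * i p.2)) := by
    rw [Measure.volume_eq_prod]
    exact h1.mul_prod h1
  have j1 : ∫ p : F × F, (f p.1 ^ 2 * i p.1) * i p.2 = (∫ x, f x ^ 2 * i x) * (∫ x, i x) := by
    rw [Measure.volume_eq_prod]
    exact integral_prod_mul (fun x => f x ^ 2 * i x) i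
  have j2 : ∫ p : F × F, i p.1 * (f p.2 ^ 2 * i p.2) = (∫ x, i x) * (∫ x, f x ^ 2 * i x) := by
    rw [Measure.volume_eq_prod]
    exact integral_prod_mul i (fun x => f x ^ 2 * i x)
  have j3 : ∫ p : F × F, (f p.1 * i p.1) * (f p.2 * i p.2) =
      (∫ x, f x * i x) * (∫ x, f x * i x) := by
    rw [Measure.volume_eq_prod]
    exact integral_prod_mul (fun x => f x * i x) (fun x => f x * i x)
  rw [e]
  refine ⟨(i1.add i2).sub (i3.const_mul 2), ?_⟩
  have i12 : Integrable (fun p : F × F => (f p.1 ^ 2 * i p.1) * i p.2 +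
      i p.1 * (f p.2 ^ 2 * i p.2)) := i1.add i2
  rw [integral_sub i12 (i3.const_mul 2), integral_add i1 i2, integral_const_mul,
    j1, j2, j3]
  ring

/-- Integrate the fibre inequality over `z`. Let `K = {V < L}`, `i = ib V L`, `a = pp V L`.
The map `(x, z) ↦ (x, z - x)` preserves `volume.prod volume`, so with `x' = z - x`
`∫∫ (f x - f x')² i x i x' = ∫_z ∫_{x ∈ Om z} (f x - f (z-x))² ≤ 8 ∫_z ∫_{x ∈ Om z}
(L - V (z-x)) q x (z-x) = 8 ∫∫ i x a x' q x x'` (`i x i x' = 1` iff `x ∈ Om z`, and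
`i x' (L - V x') = a x'`; for a.e. `z` the function `x ↦ (L - V (z-x)) q x (z-x)` is integrable on
`Om z` by Fubini; `fibK` with `q x (z - x)` in place of `q x`; `x ∈ S` and `z - x ∈ T` for a.e.
`x`). The left side is `2 ((∫ f² i)(∫ i) - (∫ f i)²)`. `K` has finite volume: it is bounded
(`V x + V (-x) ≥ 2 V 0 + κ ‖x‖²` does not suffice; use convexity: midpoint convexity and
continuity give `ConvexOn`; or: `V` is bounded on the unit ball by `B`, and for `‖x‖ ≥ 1`,
`e = x/‖x‖`, the function `t ↦ V (t e)` satisfies `V (t e) ≥ κ t²/2 - C (1 + t)`: here we simply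
assume the volume finite). -/
theorem globK {κ : ℝ} (hκ : 0 < κ) {V : F → ℝ} (hVc : Continuous V)
    (hVs : ∀ x u, κ * ‖u‖ ^ 2 ≤ sd V x u) {L : ℝ} (hfin : volume {x | V x < L} < ⊤)
    {f : F → ℝ} (hf : BL f) {q : F → F → ℝ} (hqm : Measurable (Function.uncurry q))
    (hq0 : ∀ x y, 0 ≤ q x y) {S T : Set F} (hS : ∀ᵐ x, x ∈ S) (hT : ∀ᵐ y, y ∈ T)
    (hD : ∀ x ∈ S, ∀ y ∈ T, DomV V f x y (q x y))
    (hint : Integrable (fun p : F × F => ib V L p.1 * (pp V L p.2 * q p.1 p.2))) :
    (∫ x, f x ^ 2 * ib V L x) * (∫ x, ib V L x) - (∫ x, f x * ib V L x) ^ 2 ≤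
      4 * ∫ p : F × F, ib V L p.1 * (pp V L p.2 * q p.1 p.2) := by
  have hi := ag1_ib_int hVc hfin
  obtain ⟨hΦ, hΦe⟩ := ag1_lhs hf hi
  have hA := ag1_fub hΦ
  have hB := ag1_fub hint
  have hΦ' := (ag1_comp hΦ).1
  have hΨ' := (ag1_comp hint).1
  rw [Measure.volume_eq_prod] at hΦ' hΨ'
  have hsec := hΨ'.prod_left_ae
  have hmono : ∫ z, ∫ x, (f x - f (z - x)) ^ 2 * (ib V L x * ib V L (z - x)) ≤
      ∫ z, 8 * ∫ x, ib V L x * (pp V L (z - x) * q x (z - x)) := by
    refine integral_mono_ae hΦ'.integral_prod_right (hΨ'.integral_prod_right.const_mul 8) ?_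
    filter_upwards [hsec] with z hz
    have hqz : Measurable (fun x => q x (z - x)) :=
      hqm.comp (measurable_id.prodMk (measurable_const.sub measurable_id))
    have e1 : (fun x => (f x - f (z - x)) ^ 2 * (ib V L x * ib V L (z - x))) =
        (Om V L z).indicator (fun x => (f x - f (z - x)) ^ 2) := by
      funext x
      rw [ag1_ind]
      rfl
    have e2 : (fun x => ib V L x * (pp V L (z - x) * q x (z - x))) =
        (Om V L z).indicator (fun x => (L - V (z - x)) * q x (z - x)) := by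
      funext x
      rw [ag1_ind2]
      rfl
    have hOm := (Om_open hVc L z).measurableSet
    have hTz : ∀ᵐ x : F, z - x ∈ T :=
      (Measure.measurePreserving_sub_left (volume : Measure F) z).quasiMeasurePreserving.ae hT
    have key := fibK hκ hVc hVs L z hf hqz (fun x => hq0 _ _)
      (by filter_upwards [hS, hTz] with x hx1 hx2 using hD x hx1 (z - x) hx2)
      ((integrable_indicator_iff hOm).1 (by rw [← e2]; exact hz))
    show ∫ x, (f x - f (z - x)) ^ 2 * (ib V L x * ib V L (z - x)) ≤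
      8 * ∫ x, ib V L x * (pp V L (z - x) * q x (z - x))
    rw [e1, e2, integral_indicator hOm, integral_indicator hOm]
    exact key
  rw [integral_const_mul] at hmono
  have hfin2 : ∫ p : F × F, (f p.1 - f p.2) ^ 2 * (ib V L p.1 * ib V L p.2) ≤
      8 * ∫ p : F × F, ib V L p.1 * (pp V L p.2 * q p.1 p.2) := by
    rw [hA, hB]
    exact hmono
  rw [hΦe] at hfin2
  linarith

end Pool.Agent.Lib.MP_8d00da_gt.h42r
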