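import Mathlib
import Pool.Agent.Lib.MP_8d00da_gt.h42r.AG1

namespace Pool.Agent.Lib.MP_8d00da_gt.h25
end Pool.Agent.Lib.MP_8d00da_gt.h25
namespace Pool.Agent.Lib.MP_8d00da_gt.h42o
end Pool.Agent.Lib.MP_8d00da_gt.h42o
namespace Pool.Agent.Lib.MP_8d00da_gt.h97r
end Pool.Agent.Lib.MP_8d00da_gt.h97r


/-!
# Averaged Brascamp-Lieb inequality for sublevel sets
-/

namespace Pool.Agent.Lib.MP_8d00da_gt.h42r

open MeasureTheory Set Filter
open Pool.Agent.Lib.MP_8d00da_gt.h25 Pool.Agent.Lib.MP_8d00da_gt.h42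
open Pool.Agent.Lib.MP_8d00da_gt.h42s Pool.Agent.Lib.MP_8d00da_gt.h42o
open Pool.Agent.Lib.MP_8d00da_gt.h97r
open scoped Topology NNReal ENNReal

set_option linter.unusedSectionVars false

variable {F : Type*} [NormedAddCommGroup F] [InnerProductSpace ℝ F]
    [FiniteDimensional ℝ F] [MeasurableSpace F] [BorelSpace F]

variable {G : Type*} [NormedAddCommGroup G] [InnerProductSpace ℝ G]
    [FiniteDimensional ℝ G] [MeasurableSpace G] [BorelSpace G]

variable {ι : Type*} [Fintype ι]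

/-- The perturbed potential `V x + κ ‖x‖²`. -/
private noncomputable def ag2V (V : F → ℝ) (κ : ℝ) (x : F) : ℝ := V x + κ * ‖x‖ ^ 2

private lemma ag2_sd (V : F → ℝ) (κ : ℝ) (x u : F) :
    sd (ag2V V κ) x u = sd V x u + 2 * κ * ‖u‖ ^ 2 := by
  unfold sd ag2V
  have h := parallelogram_law_with_norm ℝ x u
  have h2 : ‖x + u‖ ^ 2 + ‖x - u‖ ^ 2 = 2 * (‖x‖ ^ 2 + ‖u‖ ^ 2) := by
    rw [sq, sq, sq, sq]
    linarith
  linear_combination κ * h2

private lemma ag2_cont {V : F → ℝ} (hVc : Continuous V) (κ : ℝ) : Continuous (ag2V V κ) :=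
  hVc.add (continuous_const.mul (continuous_norm.pow 2))

private lemma ag2_ib_le (V : F → ℝ) {κ : ℝ} (hκ : 0 ≤ κ) (L : ℝ) (x : F) :
    ib (ag2V V κ) L x ≤ ib V L x := by
  unfold ib
  refine Set.indicator_le_indicator_of_subset (fun y hy => ?_) (fun _ => zero_le_one) x
  have h1 : ag2V V κ y < L := hy
  have h2 : 0 ≤ κ * ‖y‖ ^ 2 := mul_nonneg hκ (sq_nonneg _)
  have h3 : V y + κ * ‖y‖ ^ 2 < L := h1
  show V y < L
  linarith

private lemma ag2_pp_le (V : F → ℝ) {κ : ℝ} (hκ : 0 ≤ κ) (L : ℝ) (x : F) :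
    pp (ag2V V κ) L x ≤ pp V L x := by
  unfold pp ag2V
  have h2 : 0 ≤ κ * ‖x‖ ^ 2 := mul_nonneg hκ (sq_nonneg _)
  exact max_le_max (by linarith) le_rfl

private lemma ag2_dom {V f : F → ℝ} {x y : F} {q κ : ℝ} (hκ : 0 ≤ κ) (h : DomV V f x y q) :
    DomV (ag2V V κ) f x y q := by
  obtain ⟨h1, l, h2, h3, h4⟩ := h
  refine ⟨h1, l, h2, h3, fun δ hδ => ?_⟩
  obtain ⟨r, hr, h5⟩ := h4 δ hδ
  refine ⟨r, hr, fun u hu => (h5 u hu).trans ?_⟩
  rw [ag2_sd]
  have h6 : 0 ≤ 2 * κ * ‖u‖ ^ 2 := by positivity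
  linarith

private lemma ag2_tend (V : F → ℝ) (L : ℝ) (x : F) :
    Tendsto (fun k : ℕ => ib (ag2V V (1 / ((k : ℝ) + 1))) L x) atTop (𝓝 (ib V L x)) := by
  by_cases hx : V x < L
  · have h0 : Tendsto (fun k : ℕ => V x + 1 / ((k : ℝ) + 1) * ‖x‖ ^ 2) atTop (𝓝 (V x + 0 * ‖x‖ ^ 2)) :=
      tendsto_const_nhds.add (tendsto_one_div_add_atTop_nhds_zero_nat.mul_const _)
    have h1 : ∀ᶠ k : ℕ in atTop, V x + 1 / ((k : ℝ) + 1) * ‖x‖ ^ 2 < L :=
      h0.eventually_lt_const (by simpa using hx)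
    refine tendsto_const_nhds.congr' ?_
    filter_upwards [h1] with k hk
    have e1 : ib V L x = 1 := Set.indicator_of_mem (s := {x | V x < L}) hx _
    have e2 : ib (ag2V V (1 / ((k : ℝ) + 1))) L x = 1 :=
      Set.indicator_of_mem (s := {x | ag2V V (1 / ((k : ℝ) + 1)) x < L}) hk _
    rw [e1, e2]
  · refine tendsto_const_nhds.congr fun k => ?_
    have e1 : ib V L x = 0 := Set.indicator_of_notMem (s := {x | V x < L}) hx _
    have h2 := ag2_ib_le V (κ := 1 / ((k : ℝ) + 1)) (by positivity) L x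
    have h3 := ib_nonneg (ag2V V (1 / ((k : ℝ) + 1))) L x
    rw [e1] at h2 ⊢
    exact le_antisymm h3 h2

private lemma ag2_ib_int {V : F → ℝ} (hVc : Continuous V) {L : ℝ}
    (hfin : volume {x | V x < L} < ⊤) : Integrable (ib V L) := by
  unfold ib
  rw [integrable_indicator_iff (isOpen_lt hVc continuous_const).measurableSet]
  exact integrableOn_const hfin.ne

/-- convergence of `∫ g i_κ` for bounded measurable `g` -/
private lemma ag2_lim {V : F → ℝ} (hVc : Continuous V) {L : ℝ}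
    (hfin : volume {x | V x < L} < ⊤) {g : F → ℝ} (hg : Measurable g) {M : ℝ}
    (hM : ∀ x, |g x| ≤ M) :
    Tendsto (fun k : ℕ => ∫ x, g x * ib (ag2V V (1 / ((k : ℝ) + 1))) L x) atTop
      (𝓝 (∫ x, g x * ib V L x)) := by
  refine tendsto_integral_of_dominated_convergence (fun x => M * ib V L x) (fun k => ?_)
    ((ag2_ib_int hVc hfin).const_mul M) (fun k => ?_) ?_
  · exact (hg.mul (ib_meas (ag2_cont hVc _) L)).aestronglyMeasurable
  · refine Eventually.of_forall fun x => ?_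
    rw [Real.norm_eq_abs, abs_mul, abs_of_nonneg (ib_nonneg _ _ _)]
    exact mul_le_mul (hM x) (ag2_ib_le V (by positivity) L x) (ib_nonneg _ _ _)
      ((abs_nonneg _).trans (hM x))
  · exact Eventually.of_forall fun x => (ag2_tend V L x).const_mul (g x)

/-- `globK` without strong convexity: apply it to `V_κ x = V x + κ ‖x‖²`, `κ = 1/(k+1) → 0`
(`sd V_κ x u = sd V x u + 2 κ ‖u‖²`; `DomV V f x y q → DomV V_κ f x y q`; `{V_κ < L} ⊆ {V < L}`,
`ib V_κ ≤ ib V`, `0 ≤ pp V_κ ≤ pp V`, so the right side of `globK` for `V_κ` is at most the right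
side for `V`). As `κ → 0`, `ib V_κ x → ib V x` for every `x` (if `V x < L` then `V x + κ ‖x‖² < L`
for small `κ`), dominated by the integrable `ib V`, so the left sides converge. -/
theorem GK {V : F → ℝ} (hV : ConvexOn ℝ univ V) (hVc : Continuous V)
    {L : ℝ} (hfin : volume {x | V x < L} < ⊤)
    {f : F → ℝ} (hf : BL f) {q : F → F → ℝ} (hqm : Measurable (Function.uncurry q))
    (hq0 : ∀ x y, 0 ≤ q x y) {S T : Set F} (hS : ∀ᵐ x, x ∈ S) (hT : ∀ᵐ y, y ∈ T)
    (hD : ∀ x ∈ S, ∀ y ∈ T, DomV V f x y (q x y))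
    (hint : Integrable (fun p : F × F => ib V L p.1 * (pp V L p.2 * q p.1 p.2))) :
    (∫ x, f x ^ 2 * ib V L x) * (∫ x, ib V L x) - (∫ x, f x * ib V L x) ^ 2 ≤
      4 * ∫ p : F × F, ib V L p.1 * (pp V L p.2 * q p.1 p.2) := by
  obtain ⟨⟨Lf, hLf⟩, A, hA⟩ := hf
  have hfm : Measurable f := hLf.continuous.measurable
  have hkey : ∀ k : ℕ,
      (∫ x, f x ^ 2 * ib (ag2V V (1 / ((k : ℝ) + 1))) L x) *
        (∫ x, ib (ag2V V (1 / ((k : ℝ) + 1))) L x) -
        (∫ x, f x * ib (ag2V V (1 / ((k : ℝ) + 1))) L x) ^ 2 ≤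
      4 * ∫ p : F × F, ib V L p.1 * (pp V L p.2 * q p.1 p.2) := by
    intro k
    set κ : ℝ := 1 / ((k : ℝ) + 1) with hκ
    have hκ0 : 0 < κ := by positivity
    have hpt : ∀ p : F × F, 0 ≤ ib (ag2V V κ) L p.1 * (pp (ag2V V κ) L p.2 * q p.1 p.2) ∧
        ib (ag2V V κ) L p.1 * (pp (ag2V V κ) L p.2 * q p.1 p.2) ≤
          ib V L p.1 * (pp V L p.2 * q p.1 p.2) := by
      intro p
      have a1 := ib_nonneg (ag2V V κ) L p.1
      have a2 := pp_nonneg (ag2V V κ) L p.2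
      have a3 := hq0 p.1 p.2
      have a4 := ag2_ib_le V hκ0.le L p.1
      have a5 := ag2_pp_le V hκ0.le L p.2
      refine ⟨mul_nonneg a1 (mul_nonneg a2 a3), ?_⟩
      exact mul_le_mul a4 (mul_le_mul_of_nonneg_right a5 a3) (mul_nonneg a2 a3)
        (ib_nonneg V L p.1)
    have hmeas : AEStronglyMeasurable
        (fun p : F × F => ib (ag2V V κ) L p.1 * (pp (ag2V V κ) L p.2 * q p.1 p.2)) volume := by
      have m1 : Measurable fun p : F × F => ib (ag2V V κ) L p.1 :=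
        (ib_meas (ag2_cont hVc κ) L).comp measurable_fst
      have m2 : Measurable fun p : F × F => pp (ag2V V κ) L p.2 :=
        (pp_cont (ag2_cont hVc κ) L).measurable.comp measurable_snd
      exact (m1.mul (m2.mul hqm)).aestronglyMeasurable
    have hint' : Integrable
        (fun p : F × F => ib (ag2V V κ) L p.1 * (pp (ag2V V κ) L p.2 * q p.1 p.2)) := by
      refine hint.mono' hmeas (Eventually.of_forall fun p => ?_)
      rw [Real.norm_eq_abs, abs_of_nonneg (hpt p).1]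
      exact (hpt p).2
    have hfin' : volume {x | ag2V V κ x < L} < ⊤ := by
      refine (measure_mono fun x hx => ?_).trans_lt hfin
      have h1 : V x + κ * ‖x‖ ^ 2 < L := hx
      have h2 : 0 ≤ κ * ‖x‖ ^ 2 := mul_nonneg hκ0.le (sq_nonneg _)
      show V x < L
      linarith
    have h1 := globK (κ := 2 * κ) (by positivity) (ag2_cont hVc κ)
      (fun x u => by
        rw [ag2_sd]
        have h2 := sd_nonneg hV x u
        linarith) hfin' ⟨⟨Lf, hLf⟩, A, hA⟩ hqm hq0 hS hT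
      (fun x hx y hy => ag2_dom hκ0.le (hD x hx y hy)) hint'
    have h2 : ∫ p : F × F, ib (ag2V V κ) L p.1 * (pp (ag2V V κ) L p.2 * q p.1 p.2) ≤
        ∫ p : F × F, ib V L p.1 * (pp V L p.2 * q p.1 p.2) :=
      integral_mono hint' hint fun p => (hpt p).2
    linarith
  have hA0 : ∀ x, |f x ^ 2| ≤ A ^ 2 := fun x => by
    rw [abs_of_nonneg (sq_nonneg _), ← sq_abs (f x)]
    exact pow_le_pow_left₀ (abs_nonneg _) (hA x) 2
  have l1 := ag2_lim hVc hfin (g := fun x => f x ^ 2) (hfm.pow_const 2) hA0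
  have l2 : Tendsto (fun k : ℕ => ∫ x, ib (ag2V V (1 / ((k : ℝ) + 1))) L x) atTop
      (𝓝 (∫ x, ib V L x)) := by
    have l3 := ag2_lim hVc hfin (g := fun _ => (1 : ℝ)) measurable_const (M := 1)
      (fun _ => by simp)
    simpa using l3
  have l4 := ag2_lim hVc hfin (g := f) hfm hA
  exact le_of_tendsto ((l1.mul l2).sub (l4.pow 2)) (Eventually.of_forall hkey)

end Pool.Agent.Lib.MP_8d00da_gt.h42r
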