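import Mathlib
import Pool.Agent.Lib.MP_8d00da_gt.h42r.ARaux
import Pool.Agent.Lib.MP_8d00da_gt.h42r.AG2

namespace Pool.Agent.Lib.MP_8d00da_gt.h25
end Pool.Agent.Lib.MP_8d00da_gt.h25
namespace Pool.Agent.Lib.MP_8d00da_gt.h42o
end Pool.Agent.Lib.MP_8d00da_gt.h42o
namespace Pool.Agent.Lib.MP_8d00da_gt.h97r
end Pool.Agent.Lib.MP_8d00da_gt.h97r


/-!
# The right side of the averaged Brascamp-Lieb inequality
-/

namespace Pool.Agent.Lib.MP_8d00da_gt.h42r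

open MeasureTheory Set Filter
open Pool.Agent.Lib.MP_8d00da_gt.h25 Pool.Agent.Lib.MP_8d00da_gt.h42
open Pool.Agent.Lib.MP_8d00da_gt.h42s Pool.Agent.Lib.MP_8d00da_gt.h42o
open Pool.Agent.Lib.MP_8d00da_gt.h97r
open scoped Topology NNReal ENNReal

set_option linter.unusedSectionVars false

variable {F : Type*} [NormedAddCommGroup F] [InnerProductSpace ℝ F]
    [FiniteDimensional ℝ F] [MeasurableSpace F] [BorelSpace F]

variable {G : Type*} [NormedAddCommGroup G] [InnerProductSpace ℝ G]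
    [FiniteDimensional ℝ G] [MeasurableSpace G] [BorelSpace G]

variable {ι : Type*} [Fintype ι]

/-- The right side of `GK` for `q x y = ∑ j, m_j² ‖P_j R ∇f(x)‖² / ω_j y`:
`∫∫ i x a y q x y = ∑_j m_j² (∫ i ‖P_j R ∇f‖²) (∫ a/ω_j) = Ā ∑_j m_j ∫ i ‖P_j R ∇f‖²
= Ā ∫ i ⟪∇f, R ∇f⟫` when `∫ a/ω_j = Ā / m_j` (the last step: `AR1.exists_R` with `u = R g`).
`∇f(x) = (toDual ℝ F).symm (fderiv ℝ f x)`. -/
theorem GK_ridge {V : F → ℝ} {P : ι → F →L[ℝ] G} {ω : ι → F → ℝ} {Λ : ℝ} (H : RD V P ω Λ)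
    {L : ℝ} (hfin : volume {x | V x < L} < ⊤) {m : ι → ℝ} (hm : ∀ j, 0 < m j)
    (hai : ∀ j, Integrable fun x => pp V L x / ω j x)
    (ham : ∀ j, (∫ x, pp V L x / ω j x) * m j = ∫ x, pp V L x) {R : F →L[ℝ] F}
    (hR : ∀ g u : F, ∑ j, m j * inner ℝ (P j (R g)) (P j u) = inner ℝ g u)
    {f : F → ℝ} (hf : BL f) :
    (∫ x, f x ^ 2 * ib V L x) * (∫ x, ib V L x) - (∫ x, f x * ib V L x) ^ 2 ≤
      4 * ((∫ x, pp V L x) * ∫ x, fderiv ℝ f x (R ((InnerProductSpace.toDual ℝ F).symm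
        (fderiv ℝ f x))) * ib V L x) := by
  obtain ⟨⟨Lf, hLf⟩, hA⟩ := hf
  have hf' : BL f := ⟨⟨Lf, hLf⟩, hA⟩
  have hibi : Integrable (ib V L) := by
    have h1 : MeasurableSet {x | V x < L} := (isOpen_lt H.cont continuous_const).measurableSet
    have h2 : ib V L = Set.indicator {x | V x < L} (fun _ => (1 : ℝ)) := rfl
    rw [h2, integrable_indicator_iff h1]
    exact integrableOn_const hfin.ne
  obtain ⟨hint, hval⟩ := qrd_int P (m := m) hR hf' hibi hai ham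
  have hT : ∀ᵐ y : F, y ∈ {y | (∀ j, 0 < ω j y) ∧
      LowAt V y fun u => ∑ j, ω j y * ‖P j u‖ ^ 2} := by
    filter_upwards [ae_all_iff.2 H.ωpos, H.low] with y h1 h2
    exact ⟨h1, h2⟩
  have hS : ∀ᵐ x : F, x ∈ {x | DifferentiableAt ℝ f x} := hLf.ae_differentiableAt
  have h1 := GK H.conv H.cont hfin hf' (qrd_meas P H.ωm m R f)
    (fun x y => qrd_nonneg P H.ω0 m R f x y) hS hT (by
      intro x hx y hy
      refine ⟨hx, fun u => ∑ j, ω j y * ‖P j u‖ ^ 2, fun u => ?_, fun u => ?_, hy.2⟩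
      · exact Finset.sum_nonneg fun j _ => mul_nonneg (hy.1 j).le (sq_nonneg _)
      · exact qrd_dom P hR f x y hy.1 u) hint
  rw [hval] at h1
  exact h1

end Pool.Agent.Lib.MP_8d00da_gt.h42r
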