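import Mathlib
import Pool.Agent.Lib.MP_8d00da_gt.h42r.AB1
import Pool.Agent.Lib.MP_8d00da_gt.h42r.AC1
import Pool.Agent.Lib.MP_8d00da_gt.h42r.AC2
import Pool.Agent.Lib.MP_8d00da_gt.h97r.RDefs
import Pool.Agent.Lib.MP_8d00da_gt.h42r.AR2a

/-!
# KLS for sublevel sets: the main theorem, abstract form
-/

namespace Pool.Agent.Lib.MP_8d00da_gt.h42r

open MeasureTheory Set Filter
open Pool.Agent.Lib.MP_8d00da_gt.h25 Pool.Agent.Lib.MP_8d00da_gt.h42
open Pool.Agent.Lib.MP_8d00da_gt.h42s Pool.Agent.Lib.MP_8d00da_gt.h42o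
open Pool.Agent.Lib.MP_8d00da_gt.h97r
open scoped Topology NNReal ENNReal

set_option linter.unusedSectionVars false

variable {F : Type*} [NormedAddCommGroup F] [InnerProductSpace ℝ F]
    [FiniteDimensional ℝ F] [MeasurableSpace F] [BorelSpace F]

variable {G : Type*} [NormedAddCommGroup G] [InnerProductSpace ℝ G]
    [FiniteDimensional ℝ G] [MeasurableSpace G] [BorelSpace G]

variable {ι : Type*} [Fintype ι]

/-- Integrability of the right side of `QJ`. -/
private lemma ar2_rhs {w : F → ℝ} (hw0 : ∀ x, 0 ≤ w x) (hwm : Measurable w) (hw : Integrable w)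
    (hw2 : Integrable fun x => ‖x‖ ^ 2 * w x) {f : F → ℝ} (hf : BL f) :
    Integrable fun y => (∫ x, (fderiv ℝ f y x) ^ 2 * w x) * w y := by
  obtain ⟨⟨K, hK⟩, -⟩ := hf
  have hfd : ∀ y, ‖fderiv ℝ f y‖ ≤ K := fun y => norm_fderiv_le_of_lipschitz ℝ hK
  have hbd : ∀ y x, (fderiv ℝ f y x) ^ 2 ≤ (K : ℝ) ^ 2 * ‖x‖ ^ 2 := by
    intro y x
    have h1 : |fderiv ℝ f y x| ≤ K * ‖x‖ := by
      have h2 := (fderiv ℝ f y).le_opNorm x
      rw [Real.norm_eq_abs] at h2
      exact h2.trans (mul_le_mul_of_nonneg_right (hfd y) (norm_nonneg x))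
    have h3 := mul_self_le_mul_self (abs_nonneg _) h1
    rw [abs_mul_abs_self] at h3
    nlinarith [h3]
  have hmeas : Measurable fun p : F × F => (fderiv ℝ f p.1 p.2) ^ 2 * w p.2 := by
    have h1 : Measurable fun p : F × F => fderiv ℝ f p.1 p.2 := by
      have h2 : Continuous fun q : (F →L[ℝ] ℝ) × F => q.1 q.2 :=
        isBoundedBilinearMap_apply.continuous
      exact h2.measurable.comp
        (((measurable_fderiv ℝ f).comp measurable_fst).prodMk measurable_snd)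
    exact (h1.pow_const 2).mul (hwm.comp measurable_snd)
  have hsm : StronglyMeasurable fun y => ∫ x, (fderiv ℝ f y x) ^ 2 * w x :=
    hmeas.stronglyMeasurable.integral_prod_right'
  refine Integrable.bdd_mul (c := (K : ℝ) ^ 2 * ∫ x, ‖x‖ ^ 2 * w x) hw hsm.aestronglyMeasurable
    (Eventually.of_forall fun y => ?_)
  have h0 : 0 ≤ ∫ x, (fderiv ℝ f y x) ^ 2 * w x :=
    integral_nonneg fun x => mul_nonneg (sq_nonneg _) (hw0 x)
  rw [Real.norm_of_nonneg h0, ← integral_const_mul]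
  refine integral_mono_of_nonneg (Eventually.of_forall fun x => mul_nonneg (sq_nonneg _) (hw0 x))
    (hw2.const_mul _) (Eventually.of_forall fun x => ?_)
  have := mul_le_mul_of_nonneg_right (hbd y x) (hw0 x)
  simp only
  linarith

/-- The algebra of the main theorem. -/
private lemma ar2_alg {w : F → ℝ} (hw0 : ∀ x, 0 ≤ w x) (hwm : Measurable w) (hw : Integrable w)
    (hw2 : Integrable fun x => ‖x‖ ^ 2 * w x) {P : ι → F →L[ℝ] G} {m : ι → ℝ}
    (hm : ∀ j, 0 < m j) {A K : ℝ} (hA : 0 < A) (hK : 0 ≤ K)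
    (hCR : ∀ θ u : F, (inner ℝ θ u * A) ^ 2 ≤
      (∫ x, (inner ℝ θ x) ^ 2 * w x) * (K * A * ∑ j, m j * ‖P j u‖ ^ 2)) :
    ∃ R : F →L[ℝ] F, (∀ g u : F, ∑ j, m j * inner ℝ (P j (R g)) (P j u) = inner ℝ g u) ∧
      ∀ f : F → ℝ, BL f → A * ∫ x, fderiv ℝ f x (R ((InnerProductSpace.toDual ℝ F).symm
        (fderiv ℝ f x))) * w x ≤ K * ∫ y, (∫ x, (fderiv ℝ f y x) ^ 2 * w x) * w y := by
  have hker : ∀ u : F, (∀ j, P j u = 0) → u = 0 := by
    intro u hu
    have h1 := hCR u u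
    have h2 : ∑ j, m j * ‖P j u‖ ^ 2 = 0 :=
      Finset.sum_eq_zero fun j _ => by rw [hu j, norm_zero]; ring
    rw [h2, mul_zero, mul_zero, real_inner_self_eq_norm_sq] at h1
    have h3 : ‖u‖ ^ 2 * A = 0 := by nlinarith [sq_nonneg (‖u‖ ^ 2 * A)]
    have h4 : ‖u‖ ^ 2 = 0 := by
      rcases mul_eq_zero.1 h3 with h | h
      · exact h
      · exact absurd h hA.ne'
    exact norm_eq_zero.1 (by simpa using h4)
  obtain ⟨R, hR⟩ := exists_R P hm hker
  refine ⟨R, hR, fun f hf => ?_⟩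
  have hs : ∀ θ : F, ∑ j, m j * ‖P j (R θ)‖ ^ 2 = inner ℝ θ (R θ) := by
    intro θ
    rw [← hR θ (R θ)]
    exact Finset.sum_congr rfl fun j _ => by rw [real_inner_self_eq_norm_sq]
  have hs0 : ∀ θ : F, 0 ≤ inner ℝ θ (R θ) := by
    intro θ
    rw [← hs θ]
    exact Finset.sum_nonneg fun j _ => mul_nonneg (hm j).le (sq_nonneg _)
  have hkey : ∀ θ : F, A * inner ℝ θ (R θ) ≤ K * ∫ x, (inner ℝ θ x) ^ 2 * w x := by
    intro θ
    have h1 := hCR θ (R θ)
    rw [hs θ] at h1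
    have hM : 0 ≤ ∫ x, (inner ℝ θ x) ^ 2 * w x :=
      integral_nonneg fun x => mul_nonneg (sq_nonneg _) (hw0 x)
    rcases (hs0 θ).eq_or_lt with h0 | h0
    · rw [← h0, mul_zero]
      exact mul_nonneg hK hM
    · have h2 : 0 < A * inner ℝ θ (R θ) := mul_pos hA h0
      have h3 : (A * inner ℝ θ (R θ)) * (A * inner ℝ θ (R θ)) ≤
          (A * inner ℝ θ (R θ)) * (K * ∫ x, (inner ℝ θ x) ^ 2 * w x) := by
        calc (A * inner ℝ θ (R θ)) * (A * inner ℝ θ (R θ)) = (inner ℝ θ (R θ) * A) ^ 2 := by ring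
          _ ≤ (∫ x, (inner ℝ θ x) ^ 2 * w x) * (K * A * inner ℝ θ (R θ)) := h1
          _ = _ := by ring
      exact le_of_mul_le_mul_left h3 h2
  rw [← integral_const_mul, ← integral_const_mul]
  have hθ : ∀ x v, fderiv ℝ f x v =
      inner ℝ ((InnerProductSpace.toDual ℝ F).symm (fderiv ℝ f x)) v := by
    intro x v
    rw [InnerProductSpace.toDual_symm_apply]
  refine integral_mono_of_nonneg (Eventually.of_forall fun x => ?_)
    ((ar2_rhs hw0 hwm hw hw2 hf).const_mul K) (Eventually.of_forall fun x => ?_)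
  · refine mul_nonneg hA.le (mul_nonneg ?_ (hw0 x))
    rw [hθ]
    exact hs0 _
  · simp only
    have h1 := hkey ((InnerProductSpace.toDual ℝ F).symm (fderiv ℝ f x))
    have h2 : ∫ y, (inner ℝ ((InnerProductSpace.toDual ℝ F).symm (fderiv ℝ f x)) y) ^ 2 * w y =
        ∫ y, (fderiv ℝ f x y) ^ 2 * w y :=
      integral_congr_ae (Eventually.of_forall fun y => by simp only; rw [← hθ])
    rw [h2, ← hθ] at h1
    have h3 := mul_le_mul_of_nonneg_right h1 (hw0 x)
    linarith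

/-- The main theorem. `Ā = ∫ a > 0`, `m_j = Ā / ∫ a/ω_j` (`A2.real`).
(1) `∫ a ω_j ≤ C₁ Ā² / ∫ a/ω_j = C₁ Ā m_j`.
(2) By `up_int` and `CRK`, for all `θ u`: `(⟪θ, u⟫ Ā)² ≤ (∫ ⟪θ,x⟫² i) Λ ∑ (∫ a ω_j) ‖P_j u‖²
≤ (∫ ⟪θ,x⟫² i) Λ C₁ Ā ∑ m_j ‖P_j u‖²`. Hence `∀ j, P_j u = 0` implies `u = 0` (take `θ = u`), and
`exists_R` gives `R`. With `u = R θ`: `∑ m_j ‖P_j R θ‖² = ⟪θ, R θ⟫ ≥ 0`, so
`Ā ⟪θ, R θ⟫ ≤ Λ C₁ ∫ ⟪θ, x⟫² i`.
(3) `GK_ridge` and (2) with `θ = ∇f(y)`: `≤ 4 Λ C₁ ∫ i(y) ∫ ⟪∇f(y), x⟫² i(x)`. -/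
theorem ridgeK {V : F → ℝ} {P : ι → F →L[ℝ] G} {ω : ι → F → ℝ} {Λ : ℝ} (H : RD V P ω Λ)
    {L : ℝ} (hbd : Bornology.IsBounded {x | V x < L}) (hne : ∃ x, V x < L) {C1 : ℝ}
    (hC1 : 0 ≤ C1) (hA : ∀ j, A2 C1 (pp V L) (ω j)) : QJ (4 * (Λ * C1)) (ib V L) := by
  have hac : Continuous (pp V L) := pp_cont H.cont L
  have hsupp : Function.support (pp V L) ⊆ {x | V x < L} := by
    intro x hx
    by_contra h
    simp only [mem_ofPred_eq, not_lt] at h
    exact hx (by unfold pp; exact max_eq_right (by linarith))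
  have hcs : HasCompactSupport (pp V L) :=
    HasCompactSupport.of_support_subset_isCompact hbd.isCompact_closure
      (hsupp.trans subset_closure)
  have hai : Integrable (pp V L) := hac.integrable_of_hasCompactSupport hcs
  have hApos : 0 < ∫ x, pp V L x := by
    obtain ⟨x0, hx0⟩ := hne
    refine hac.integral_pos_of_hasCompactSupport_nonneg_nonzero hcs (fun x => pp_nonneg V L x)
      (x := x0) ?_
    unfold pp
    rw [max_eq_left (by linarith)]
    linarith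
  have hfin : volume {x | V x < L} < ⊤ := hbd.measure_lt_top
  have him : Measurable (ib V L) := ib_meas H.cont L
  have hopen : IsOpen {x | V x < L} := isOpen_lt H.cont continuous_const
  have hii : Integrable (ib V L) := by
    have : Integrable (Set.indicator {x | V x < L} (fun _ => (1 : ℝ))) :=
      (integrable_indicator_iff hopen.measurableSet).2
        (integrableOn_const hfin.ne)
    exact this
  have hi2 : Integrable fun x => ‖x‖ ^ 2 * ib V L x := by
    obtain ⟨r, hr⟩ := hbd.exists_norm_le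
    have hr2 : ∀ x, |‖x‖ ^ 2 * ib V L x| ≤ r ^ 2 * ib V L x := by
      intro x
      rw [abs_of_nonneg (mul_nonneg (sq_nonneg _) (ib_nonneg V L x))]
      by_cases hx : V x < L
      · have h1 := hr x hx
        exact mul_le_mul_of_nonneg_right (by nlinarith [norm_nonneg x]) (ib_nonneg V L x)
      · have : ib V L x = 0 := Set.indicator_of_notMem (show x ∉ {x | V x < L} from hx) _
        rw [this]; simp
    refine (hii.const_mul (r ^ 2)).mono' ?_ (Eventually.of_forall fun x => hr2 x)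
    exact ((measurable_norm.pow_const 2).mul him).aestronglyMeasurable
  have hω' : ∀ j, ∀ᵐ x, 0 < pp V L x → 0 < ω j x := fun j =>
    (H.ωpos j).mono fun x hx _ => hx
  have hreal := fun j => A2.real hC1 (hA j) hac.measurable (H.ωm j) (fun x => pp_nonneg V L x)
    (H.ω0 j) hai hApos (hω' j)
  set A : ℝ := ∫ x, pp V L x with hAdef
  set m : ι → ℝ := fun j => A / ∫ x, pp V L x / ω j x with hmdef
  have hm : ∀ j, 0 < m j := fun j => div_pos hApos (hreal j).2.2.2.1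
  have ham : ∀ j, (∫ x, pp V L x / ω j x) * m j = A := fun j => by
    have := (hreal j).2.2.2.1
    rw [hmdef]
    field_simp
  have hup : ∀ j, ∫ x, pp V L x * ω j x ≤ C1 * A * m j := fun j => by
    obtain ⟨-, -, h1, h2, h3⟩ := hreal j
    have e : C1 * A * m j = C1 * A ^ 2 / ∫ x, pp V L x / ω j x := by
      rw [hmdef]; ring
    rw [e, le_div_iff₀ h2]
    exact h3
  have hCR : ∀ θ u : F, (inner ℝ θ u * A) ^ 2 ≤
      (∫ x, (inner ℝ θ x) ^ 2 * ib V L x) * ((Λ * C1) * A * ∑ j, m j * ‖P j u‖ ^ 2) := by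
    intro θ u
    have h1 := CRK H.conv H.cont hbd hne θ u
      (B := Λ * (∑ j, (∫ x, pp V L x * ω j x) * ‖P j u‖ ^ 2))
      (fun η hη => up_int H hbd (fun j => (hreal j).1) u hη)
    refine h1.trans (mul_le_mul_of_nonneg_left ?_
      (integral_nonneg fun x => mul_nonneg (sq_nonneg _) (ib_nonneg V L x)))
    have h2 : ∑ j, (∫ x, pp V L x * ω j x) * ‖P j u‖ ^ 2 ≤
        ∑ j, (C1 * A) * (m j * ‖P j u‖ ^ 2) := by
      refine Finset.sum_le_sum fun j _ => ?_
      have := mul_le_mul_of_nonneg_right (hup j) (sq_nonneg ‖P j u‖)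
      linarith
    rw [← Finset.mul_sum] at h2
    have h3 := mul_le_mul_of_nonneg_left h2 H.Λpos.le
    linarith
  obtain ⟨R, hR, hmain⟩ := ar2_alg (fun x => ib_nonneg V L x) him hii hi2 hm hApos
    (mul_nonneg H.Λpos.le hC1) hCR
  intro f hf
  have h1 := GK_ridge H hfin hm (fun j => (hreal j).2.1) ham hR hf
  have h2 := hmain f hf
  rw [← hAdef] at h1
  linarith

end Pool.Agent.Lib.MP_8d00da_gt.h42r
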