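import Mathlib
import Pool.Agent.Lib.MP_8d00da_gt.h42r.AL1
import Pool.Agent.Lib.MP_8d00da_gt.h42r.AP3
import Pool.Agent.Lib.MP_8d00da_gt.h42r.AL3
import Pool.Agent.Lib.MP_8d00da_gt.h42r.AM5
import Pool.Agent.Lib.MP_8d00da_gt.h42r.AR2

/-!
# The linearly invariant inequality for bodies
-/

namespace Pool.Agent.Lib.MP_8d00da_gt.h42r

open MeasureTheory Set Filter
open Pool.Agent.Lib.MP_8d00da_gt.h25 Pool.Agent.Lib.MP_8d00da_gt.h42
open Pool.Agent.Lib.MP_8d00da_gt.h42s Pool.Agent.Lib.MP_8d00da_gt.h42o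
open Pool.Agent.Lib.MP_8d00da_gt.h97r
open scoped Topology NNReal ENNReal

set_option linter.unusedSectionVars false

variable {F : Type*} [NormedAddCommGroup F] [InnerProductSpace ℝ F]
    [FiniteDimensional ℝ F] [MeasurableSpace F] [BorelSpace F]

variable {G : Type*} [NormedAddCommGroup G] [InnerProductSpace ℝ G]
    [FiniteDimensional ℝ G] [MeasurableSpace G] [BorelSpace G]

variable {ι : Type*} [Fintype ι]

private lemma af2a_mono {C C' : ℝ} (h : C ≤ C') {w ω : F → ℝ} (hA : A2 C w ω) : A2 C' w ω := by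
  unfold A2 at hA ⊢
  exact hA.trans (mul_le_mul_left (ENNReal.ofReal_le_ofReal h) _)

private lemma af2a_ratio {q δ : ℝ} (hδ : 0 < δ) (h1 : δ ≤ q) (h2 : q ≤ 2 - δ) :
    max 1 q ≤ 1 / δ * min 1 q := by
  rcases le_total q 1 with h | h
  · rw [max_eq_left h, min_eq_right h, one_div, inv_mul_eq_div, le_div_iff₀ hδ]
    linarith
  · rw [max_eq_right h, min_eq_left h, mul_one, le_div_iff₀ hδ]
    nlinarith [sq_nonneg (1 - δ)]

/-- `QJ` for the body: `ridgeK` with `rd_pow`, `Λ = 1/δ`, and `A2_pow` for `pp V L` (constant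
`cA |p_j - 2| ≤ 4/δ`; `A2 C → A2 C'` for `C ≤ C'`): `4 Λ C₁ = 16/δ²`.
`max 1 (p-1) ≤ (1/δ) min 1 (p-1)` for `1+δ ≤ p ≤ 3-δ`. -/
theorem qj_body {c p : ι → ℝ} {P : ι → F →L[ℝ] G} (hc : ∀ j, 0 < c j) {δ : ℝ} (hδ : 0 < δ)
    (hp : ∀ j, 1 + δ ≤ p j) (hp3 : ∀ j, p j ≤ 3 - δ) (hP : ∀ j, P j ≠ 0) (b : ι → G) (v : F)
    {L : ℝ} (hbd : Bornology.IsBounded {x | Vf c p P b v x < L}) (hne : ∃ x, Vf c p P b v x < L) :
    QJ (16 / δ ^ 2) (ib (Vf c p P b v) L) := by
  have hΛ : (0 : ℝ) < 1 / δ := by positivity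
  have H : RD (Vf c p P b v) P (ωf c p P b) (1 / δ) :=
    rd_pow hc (fun j => by linarith [hp j]) (fun j => by linarith [hp3 j]) hP b v hΛ
      fun j => af2a_ratio hδ (by linarith [hp j]) (by linarith [hp3 j])
  have hK : IsCompact (closure {x | Vf c p P b v x < L}) :=
    Metric.isCompact_of_isClosed_isBounded isClosed_closure hbd.closure
  have hz : ∀ x, x ∉ closure {x | Vf c p P b v x < L} → pp (Vf c p P b v) L x = 0 := by
    intro x hx
    have h1 : ¬ Vf c p P b v x < L := fun h => hx (subset_closure h)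
    unfold pp
    exact max_eq_right (by linarith [not_lt.1 h1])
  have hcont := pp_cont H.cont L
  have hi : Integrable (pp (Vf c p P b v) L) :=
    hcont.integrable_of_hasCompactSupport (HasCompactSupport.intro hK hz)
  have hi1 : Integrable fun x => ‖x‖ * pp (Vf c p P b v) L x :=
    (continuous_norm.mul hcont).integrable_of_hasCompactSupport
      (HasCompactSupport.intro hK fun x hx => by
        rw [Pi.mul_apply, hz x hx, mul_zero])
  have hA : ∀ j, A2 (4 / δ) (pp (Vf c p P b v) L) (ωf c p P b j) := by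
    intro j
    have hb : |p j - 2| ≤ 1 - δ := abs_le.2 ⟨by linarith [hp j], by linarith [hp3 j]⟩
    have hb1 : |p j - 2| < 1 := by linarith
    have hm : 0 < min 1 (p j - 1) := lt_min one_pos (by linarith [hp j])
    have hp0 : 0 < p j := by linarith [hp j]
    have h1 := A2_pow (pp_nonneg _ L) hcont.measurable (pp_lc H.conv L) hi hi1 (hP j) (b j)
      (β := p j - 2) hb1 (mul_pos (hc j) (mul_pos hp0 hm))
    refine af2a_mono ?_ h1
    refine (cA_le (abs_nonneg _) hb1).trans ?_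
    exact div_le_div_of_nonneg_left (by norm_num) hδ (by linarith)
  have h2 := ridgeK H hbd hne (C1 := 4 / δ) (by positivity) hA
  have e : 4 * (1 / δ * (4 / δ)) = 16 / δ ^ 2 := by
    field_simp
    norm_num
  rw [e] at h2
  exact h2

end Pool.Agent.Lib.MP_8d00da_gt.h42r
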