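import Mathlib

namespace Pool.Agent.Lib.MP_8d00da_gt.h25
end Pool.Agent.Lib.MP_8d00da_gt.h25
namespace Pool.Agent.Lib.MP_8d00da_gt.h42
end Pool.Agent.Lib.MP_8d00da_gt.h42
namespace Pool.Agent.Lib.MP_8d00da_gt.h42s
end Pool.Agent.Lib.MP_8d00da_gt.h42s
namespace Pool.Agent.Lib.MP_8d00da_gt.h42o
end Pool.Agent.Lib.MP_8d00da_gt.h42o
namespace Pool.Agent.Lib.MP_8d00da_gt.h97r
end Pool.Agent.Lib.MP_8d00da_gt.h97r


/-!
# Level sets of convex functions are null
-/

namespace Pool.Agent.Lib.MP_8d00da_gt.h42r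

open MeasureTheory Set Filter
open Pool.Agent.Lib.MP_8d00da_gt.h25 Pool.Agent.Lib.MP_8d00da_gt.h42
open Pool.Agent.Lib.MP_8d00da_gt.h42s Pool.Agent.Lib.MP_8d00da_gt.h42o
open Pool.Agent.Lib.MP_8d00da_gt.h97r
open scoped Topology NNReal ENNReal

set_option linter.unusedSectionVars false

variable {F : Type*} [NormedAddCommGroup F] [InnerProductSpace ℝ F]
    [FiniteDimensional ℝ F] [MeasurableSpace F] [BorelSpace F]

variable {G : Type*} [NormedAddCommGroup G] [InnerProductSpace ℝ G]
    [FiniteDimensional ℝ G] [MeasurableSpace G] [BorelSpace G]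

variable {ι : Type*} [Fintype ι]

/-- `{V = L}` is null if `{V < L}` is not empty (`Convex.addHaar_frontier` for the convex set
`{V ≤ L}`: a point with `V x = L` is in the frontier, because `V > L` on the ray from a point with
`V < L` through `x`, beyond `x`). -/
theorem level_null {V : F → ℝ} (hV : ConvexOn ℝ univ V) {L : ℝ} (hne : ∃ x, V x < L) :
    volume {x | V x = L} = 0 := by
  obtain ⟨x0, hx0⟩ := hne
  have hconv : Convex ℝ {x | V x ≤ L} := by
    simpa using hV.convex_le L
  have hfr := hconv.addHaar_frontier (μ := (volume : Measure F))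
  refine measure_mono_null ?_ hfr
  intro x hx
  have hx : V x = L := hx
  refine ⟨subset_closure (by simp [hx]), ?_⟩
  intro hint
  have hc : Tendsto (fun t : ℝ => x + t • (x - x0)) (𝓝 0) (𝓝 x) := by
    have : Continuous fun t : ℝ => x + t • (x - x0) := by fun_prop
    simpa using this.tendsto 0
  have hev : ∀ᶠ t in 𝓝 (0 : ℝ), V (x + t • (x - x0)) ≤ L := by
    filter_upwards [hc (isOpen_interior.mem_nhds hint)] with t ht
    have h0 : x + t • (x - x0) ∈ {x | V x ≤ L} := interior_subset (mem_preimage.1 ht)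
    exact h0
  obtain ⟨t, ht, ht0⟩ := ((hev.filter_mono nhdsWithin_le_nhds).and
    (self_mem_nhdsWithin (s := Ioi (0 : ℝ)))).exists
  have ht0 : 0 < t := ht0
  have h1 := hV.2 (mem_univ (x + t • (x - x0))) (mem_univ x0)
    (by positivity : 0 ≤ 1 / (1 + t)) (by positivity : 0 ≤ t / (1 + t)) (by field_simp)
  have e : (1 / (1 + t)) • (x + t • (x - x0)) + (t / (1 + t)) • x0 = x := by
    have h2 : (1 / (1 + t)) * t = t / (1 + t) := by ring
    have h3 : (1 / (1 + t)) + t / (1 + t) = 1 := by field_simp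
    rw [smul_add, smul_smul, h2, smul_sub, add_assoc, sub_add_cancel, ← add_smul, h3, one_smul]
  rw [e] at h1
  simp only [smul_eq_mul] at h1
  have h4 : (1 / (1 + t)) * V (x + t • (x - x0)) ≤ (1 / (1 + t)) * L :=
    mul_le_mul_of_nonneg_left ht (by positivity)
  have h5 : (t / (1 + t)) * V x0 < (t / (1 + t)) * L :=
    mul_lt_mul_of_pos_left hx0 (by positivity)
  have h6 : (1 / (1 + t)) * L + (t / (1 + t)) * L = L := by field_simp
  linarith

end Pool.Agent.Lib.MP_8d00da_gt.h42r
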