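import Mathlib
import Pool.Agent.Lib.MP_8d00da_gt.h42r.AL2
import Pool.Agent.Lib.MP_8d00da_gt.h42r.AF2a
import Pool.Agent.Lib.MP_8d00da_gt.h42r.AF1

/-!
# KLS for sublevel sets of sums of powers
-/

namespace Pool.Agent.Lib.MP_8d00da_gt.h42r

open MeasureTheory Set Filter
open Pool.Agent.Lib.MP_8d00da_gt.h25 Pool.Agent.Lib.MP_8d00da_gt.h42
open Pool.Agent.Lib.MP_8d00da_gt.h42s Pool.Agent.Lib.MP_8d00da_gt.h42o
open Pool.Agent.Lib.MP_8d00da_gt.h97r
open scoped Topology NNReal ENNReal

set_option linter.unusedSectionVars false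

variable {F : Type*} [NormedAddCommGroup F] [InnerProductSpace ℝ F]
    [FiniteDimensional ℝ F] [MeasurableSpace F] [BorelSpace F]

variable {G : Type*} [NormedAddCommGroup G] [InnerProductSpace ℝ G]
    [FiniteDimensional ℝ G] [MeasurableSpace G] [BorelSpace G]

variable {ι : Type*} [Fintype ι]

variable {n : ℕ} {E : Type*} [NormedAddCommGroup E] [InnerProductSpace ℝ E]
    [FiniteDimensional ℝ E] [MeasurableSpace E] [BorelSpace E]

/-- Translates of the potential. -/
theorem Vf_translate (c p : ι → ℝ) (P : ι → F →L[ℝ] G) (b : ι → G) (v x m : F) :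
    Vf c p P b v (x + m) = Vf c p P (fun j => b j - P j m) v x + inner ℝ v m := by
  unfold Vf
  rw [inner_add_right, add_assoc]
  congr 1
  refine Finset.sum_congr rfl fun j _ => ?_
  have e : P j (x + m) - b j = P j x - (b j - P j m) := by
    rw [map_add]
    abel
  rw [e]

private lemma af2_logconc_smul {h : F → ℝ} (h0 : ∀ x, 0 ≤ h x) (hlc : LogConc h) {c : ℝ}
    (hc : 0 < c) : LogConc fun x => c * h x := by
  intro a ha0 ha1 x y
  have h1 := mul_le_mul_of_nonneg_left (hlc a ha0 ha1 x y) hc.le
  refine le_trans (le_of_eq ?_) h1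
  show (c * h x) ^ (1 - a) * (c * h y) ^ a = c * (h x ^ (1 - a) * h y ^ a)
  rw [Real.mul_rpow hc.le (h0 x), Real.mul_rpow hc.le (h0 y)]
  have e : c ^ (1 - a) * c ^ a = c := by
    rw [← Real.rpow_add hc, sub_add_cancel, Real.rpow_one]
  calc c ^ (1 - a) * h x ^ (1 - a) * (c ^ a * h y ^ a) =
      (c ^ (1 - a) * c ^ a) * (h x ^ (1 - a) * h y ^ a) := by ring
    _ = _ := by rw [e]

/-- The final theorem for bodies. `μ` is the uniform probability measure on `{V ≤ L}`, so
`μ = volume.withDensity (ofReal (h x))` with `h = (vol)⁻¹ * ib V L` (`level_null`). Translates: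
`Vf c p P b v (x + m) = Vf c p P (b - P m) v x + ⟪v, m⟫`. `QJ.smul`. -/
theorem body_final {c p : ι → ℝ} {P : ι → Vn n →L[ℝ] G} (hc : ∀ j, 0 < c j) {δ : ℝ} (hδ : 0 < δ)
    (hp : ∀ j, 1 + δ ≤ p j) (hp3 : ∀ j, p j ≤ 3 - δ) (hP : ∀ j, P j ≠ 0) (b : ι → G) (v : Vn n)
    {L : ℝ} (hbd : Bornology.IsBounded {x | Vf c p P b v x ≤ L})
    (hne : ∃ x, Vf c p P b v x < L) {μ : Measure (Vn n)}
    (hμ : μ = (volume {x | Vf c p P b v x ≤ L})⁻¹ • volume.restrict {x | Vf c p P b v x ≤ L})
    (T : Vn n →L[ℝ] E) (hT : Function.Surjective T) (b' : E) {D : ℝ}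
    (hD : LinPoincareWith (μ.map fun x => T x + b') D) :
    PoincareWith (μ.map fun x => T x + b') (4 / δ * D) := by
  have hΛ : (0 : ℝ) < 1 / δ := by positivity
  have hratio : ∀ q : ℝ, δ ≤ q → q ≤ 2 - δ → max 1 q ≤ 1 / δ * min 1 q := by
    intro q h1 h2
    rcases le_total q 1 with h | h
    · rw [max_eq_left h, min_eq_right h, one_div, inv_mul_eq_div, le_div_iff₀ hδ]
      linarith
    · rw [max_eq_right h, min_eq_left h, mul_one, le_div_iff₀ hδ]
      nlinarith [sq_nonneg (1 - δ)]
  have H : RD (Vf c p P b v) P (ωf c p P b) (1 / δ) :=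
    rd_pow hc (fun j => by linarith [hp j]) (fun j => by linarith [hp3 j]) hP b v hΛ
      fun j => hratio _ (by linarith [hp j]) (by linarith [hp3 j])
  set V := Vf c p P b v with hV
  set K : Set (Vn n) := {x | V x ≤ L} with hK
  have hKm : MeasurableSet K := (isClosed_le H.cont continuous_const).measurableSet
  have hUo : IsOpen {x | V x < L} := isOpen_lt H.cont continuous_const
  have hUK : {x | V x < L} ⊆ K := fun x hx => (show V x < L from hx).le
  have hvt : volume K ≠ ⊤ := hbd.measure_lt_top.ne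
  have hv0 : volume K ≠ 0 := by
    have h1 : 0 < volume {x | V x < L} := hUo.measure_pos volume hne
    exact (h1.trans_le (measure_mono hUK)).ne'
  have hprob : IsProbabilityMeasure μ := by
    constructor
    rw [hμ, Measure.smul_apply, Measure.restrict_apply MeasurableSet.univ, Set.univ_inter,
      smul_eq_mul]
    exact ENNReal.inv_mul_cancel hv0 hvt
  set κ : ℝ := (volume K).toReal⁻¹ with hκ
  have hκ0 : 0 < κ := inv_pos.2 (ENNReal.toReal_pos hv0 hvt)
  have hae : ∀ᵐ x : Vn n, V x ≠ L := by
    have h1 := level_null H.conv hne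
    rw [ae_iff]
    simpa using h1
  have hμd : μ = volume.withDensity fun x => ENNReal.ofReal (κ * ib V L x) := by
    have h1 : (fun x : Vn n => ENNReal.ofReal (κ * ib V L x)) =ᵐ[volume]
        fun x => (volume K)⁻¹ * K.indicator 1 x := by
      filter_upwards [hae] with x hx
      unfold ib
      by_cases h : V x < L
      · rw [Set.indicator_of_mem (by exact h), Set.indicator_of_mem (by exact hUK h), mul_one,
          Pi.one_apply, mul_one, hκ, ENNReal.ofReal_inv_of_pos (ENNReal.toReal_pos hv0 hvt),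
          ENNReal.ofReal_toReal hvt]
      · have h' : x ∉ K := fun h2 => hx (le_antisymm h2 (not_lt.1 h))
        rw [Set.indicator_of_notMem (by exact h), Set.indicator_of_notMem h', mul_zero, mul_zero,
          ENNReal.ofReal_zero]
    rw [withDensity_congr_ae h1, hμ]
    ext s hs
    rw [withDensity_apply _ hs, lintegral_const_mul _ (measurable_one.indicator hKm),
      lintegral_indicator_one hKm, Measure.smul_apply, smul_eq_mul, Measure.restrict_apply hKm,
      Measure.restrict_apply hs, Set.inter_comm]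
  have hlc : LogConc fun x => κ * ib V L x := af2_logconc_smul (ib_nonneg V L) (ib_lc H.conv L) hκ0
  have hQ : ∀ m : Vn n, QJ (16 / δ ^ 2) fun x => κ * ib V L (x + m) := by
    intro m
    have e : (fun x => κ * ib V L (x + m)) =
        fun x => κ * ib (Vf c p P (fun j => b j - P j m) v) (L - inner ℝ v m) x := by
      funext x
      congr 1
      unfold ib
      have h1 : V (x + m) = Vf c p P (fun j => b j - P j m) v x + inner ℝ v m :=
        Vf_translate c p P b v x m
      by_cases h : V (x + m) < L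
      · rw [Set.indicator_of_mem (by exact h), Set.indicator_of_mem]
        show Vf c p P (fun j => b j - P j m) v x < L - inner ℝ v m
        linarith
      · rw [Set.indicator_of_notMem (by exact h), Set.indicator_of_notMem]
        show ¬ Vf c p P (fun j => b j - P j m) v x < L - inner ℝ v m
        intro h2
        exact h (by linarith)
    rw [e]
    refine QJ.smul (qj_body hc hδ hp hp3 hP _ v ?_ ?_) κ
    · obtain ⟨R, hR⟩ := isBounded_iff_forall_norm_le.1 hbd
      refine isBounded_iff_forall_norm_le.2 ⟨R + ‖m‖, fun x hx => ?_⟩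
      have hx' : Vf c p P (fun j => b j - P j m) v x < L - inner ℝ v m := hx
      have h1 : V (x + m) = Vf c p P (fun j => b j - P j m) v x + inner ℝ v m :=
        Vf_translate c p P b v x m
      have h2 := hR (x + m) (by show V (x + m) ≤ L; linarith)
      calc ‖x‖ = ‖(x + m) - m‖ := by rw [add_sub_cancel_right]
        _ ≤ ‖x + m‖ + ‖m‖ := norm_sub_le _ _
        _ ≤ R + ‖m‖ := by linarith
    · obtain ⟨x, hx⟩ := hne
      refine ⟨x - m, ?_⟩
      have h1 : V (x - m + m) = Vf c p P (fun j => b j - P j m) v (x - m) + inner ℝ v m :=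
        Vf_translate c p P b v (x - m) m
      rw [sub_add_cancel] at h1
      linarith
  exact final_gen (C := 16 / δ ^ 2) (D' := 4 / δ) (by positivity)
    (fun x => mul_nonneg hκ0.le (ib_nonneg V L x)) ((ib_meas H.cont L).const_mul κ) hlc hQ hμd T hT
    b' hD (by rw [div_pow]; norm_num) (by positivity)

end Pool.Agent.Lib.MP_8d00da_gt.h42r
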