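import Pool.Agent.Lib.MP_8d00da_gt.h42r.ADefs

/-!
# Fibre inequality for densities: measurability and Prekopa-Leindler
-/

namespace Pool.Agent.Lib.MP_8d00da_gt.h42r

open MeasureTheory Set Filter
open Pool.Agent.Lib.MP_8d00da_gt.h25 Pool.Agent.Lib.MP_8d00da_gt.h42
open Pool.Agent.Lib.MP_8d00da_gt.h42s Pool.Agent.Lib.MP_8d00da_gt.h42o
open Pool.Agent.Lib.MP_8d00da_gt.h97r
open scoped Topology NNReal ENNReal

set_option linter.unusedSectionVars false

variable {F : Type*} [NormedAddCommGroup F] [InnerProductSpace ℝ F]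
    [FiniteDimensional ℝ F] [MeasurableSpace F] [BorelSpace F]

variable {G : Type*} [NormedAddCommGroup G] [InnerProductSpace ℝ G]
    [FiniteDimensional ℝ G] [MeasurableSpace G] [BorelSpace G]

variable {ι : Type*} [Fintype ι]

private lemma ae1_cont {h : F → ℝ} (hh : Continuous h) (z : F) {g : F → ℝ} (hg : Continuous g)
    (ε : ℝ) : Continuous (Re h z g ε) := by
  have h1 : Continuous fun x : F => h x * h (z - x) :=
    hh.mul (hh.comp (continuous_const.sub continuous_id))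
  have h2 : Continuous fun x : F => Real.exp (ε * g x / 2) :=
    Real.continuous_exp.comp ((continuous_const.mul hg).div_const 2)
  exact (Real.continuous_sqrt.comp h1).mul h2

private lemma ae1_nonneg (h : F → ℝ) (z : F) (g : F → ℝ) (ε : ℝ) (x : F) : 0 ≤ Re h z g ε x :=
  mul_nonneg (Real.sqrt_nonneg _) (Real.exp_pos _).le

private lemma ae1_pow {t : ℝ} (ht : 0 ≤ t) : ENNReal.ofReal (t ^ 2) ^ (1 / 2 : ℝ) = ENNReal.ofReal t := by
  rw [ENNReal.ofReal_rpow_of_nonneg (sq_nonneg t) (by norm_num), ← Real.sqrt_eq_rpow, Real.sqrt_sq ht]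

private lemma ae1_sq (A : ℝ≥0∞) : (A ^ (1 / 2 : ℝ)) ^ 2 = A := by
  rw [← ENNReal.rpow_natCast, ← ENNReal.rpow_mul]
  norm_num

/-- `De` is a supremum of nonnegative continuous functions of `m`. -/
theorem de_meas {h : F → ℝ} (hh : Continuous h) (z : F) {g : F → ℝ} (hg : Continuous g)
    (ε : ℝ) : Measurable (De h z g ε) := by
  have h1 := ae1_cont hh z hg ε
  have h2 := ae1_cont hh z hg.neg ε
  have h3 : LowerSemicontinuous (De h z g ε) := by
    unfold De
    refine lowerSemicontinuous_iSup fun u => Continuous.lowerSemicontinuous ?_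
    exact ENNReal.continuous_ofReal.comp ((h1.comp (continuous_id.add continuous_const)).mul
      (h2.comp (continuous_id.sub continuous_const)))
  exact h3.measurable

/-- Prekopa-Leindler (`h42.pl_space F`, `a = 1/2`) for `Re g ε ^ 2`, `Re (-g) ε ^ 2`, `De`. -/
theorem de_pl {h : F → ℝ} (hh : Continuous h) (z : F) {g : F → ℝ} (hg : Continuous g) (ε : ℝ) :
    (∫⁻ x, ENNReal.ofReal (Re h z g ε x ^ 2)) *
      (∫⁻ x, ENNReal.ofReal (Re h z (fun x => -g x) ε x ^ 2)) ≤ (∫⁻ x, De h z g ε x) ^ 2 := by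
  have h1 := ae1_cont hh z hg ε
  have h2 := ae1_cont hh z hg.neg ε
  have key := pl_space F (1 / 2) (by norm_num) (by norm_num)
    (fun x => ENNReal.ofReal (Re h z g ε x ^ 2))
    (fun x => ENNReal.ofReal (Re h z (fun x => -g x) ε x ^ 2)) (De h z g ε)
    (ENNReal.measurable_ofReal.comp (h1.pow 2).measurable)
    (ENNReal.measurable_ofReal.comp (h2.pow 2).measurable) (de_meas hh z hg ε) (fun x y => by
      have e1 : (1 - 1 / 2 : ℝ) = 1 / 2 := by norm_num
      show ENNReal.ofReal (Re h z g ε x ^ 2) ^ (1 - 1 / 2 : ℝ) *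
        ENNReal.ofReal (Re h z (fun x => -g x) ε y ^ 2) ^ (1 / 2 : ℝ) ≤ _
      rw [e1, ae1_pow (ae1_nonneg h z g ε x), ae1_pow (ae1_nonneg h z (fun x => -g x) ε y),
        ← ENNReal.ofReal_mul (ae1_nonneg h z g ε x)]
      have e2 : (1 / 2 : ℝ) • x + (1 / 2 : ℝ) • y + (1 / 2 : ℝ) • (x - y) = x := by module
      have e3 : (1 / 2 : ℝ) • x + (1 / 2 : ℝ) • y - (1 / 2 : ℝ) • (x - y) = y := by module
      have e4 := le_iSup (fun u : F => ENNReal.ofReal (Re h z g ε ((1 / 2 : ℝ) • x + (1 / 2 : ℝ) • y + u) *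
        Re h z (fun x => -g x) ε ((1 / 2 : ℝ) • x + (1 / 2 : ℝ) • y - u))) ((1 / 2 : ℝ) • (x - y))
      simp only [e2, e3] at e4
      exact e4)
  have e0 : (1 - 1 / 2 : ℝ) = 1 / 2 := by norm_num
  rw [e0] at key
  have k2 := pow_le_pow_left₀ zero_le key 2
  rwa [mul_pow, ae1_sq, ae1_sq] at k2

end Pool.Agent.Lib.MP_8d00da_gt.h42r
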