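import Pool.Agent.Lib.MP_8d00da_gt.h42r.ADefs

/-!
# Fibre inequality for densities: uniform bound
-/

namespace Pool.Agent.Lib.MP_8d00da_gt.h42r

open MeasureTheory Set Filter
open Pool.Agent.Lib.MP_8d00da_gt.h25 Pool.Agent.Lib.MP_8d00da_gt.h42
open Pool.Agent.Lib.MP_8d00da_gt.h42s Pool.Agent.Lib.MP_8d00da_gt.h42o
open Pool.Agent.Lib.MP_8d00da_gt.h97r
open scoped Topology NNReal ENNReal

set_option linter.unusedSectionVars false

variable {F : Type*} [NormedAddCommGroup F] [InnerProductSpace ℝ F]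
    [FiniteDimensional ℝ F] [MeasurableSpace F] [BorelSpace F]

variable {G : Type*} [NormedAddCommGroup G] [InnerProductSpace ℝ G]
    [FiniteDimensional ℝ G] [MeasurableSpace G] [BorelSpace G]

variable {ι : Type*} [Fintype ι]

private lemma ae1b_term {h : F → ℝ} (h0 : ∀ x, 0 ≤ h x) {z m u : F} {g : F → ℝ} {ε a b c : ℝ}
    (ha : h (m + u) * h (m - u) ≤ h m ^ 2 * Real.exp a)
    (hb : h (z - m + u) * h (z - m - u) ≤ h (z - m) ^ 2 * Real.exp b)
    (hc : ε * (g (m + u) - g (m - u)) / 2 + (a + b) / 2 ≤ c) :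
    Re h z g ε (m + u) * Re h z (fun x => -g x) ε (m - u) ≤ HH h z m * Real.exp c := by
  have e1 : Re h z g ε (m + u) * Re h z (fun x => -g x) ε (m - u) =
      √(HH h z (m + u) * HH h z (m - u)) * Real.exp (ε * (g (m + u) - g (m - u)) / 2) := by
    unfold Re
    have h1 : 0 ≤ HH h z (m + u) := mul_nonneg (h0 _) (h0 _)
    rw [Real.sqrt_mul h1, show ε * (g (m + u) - g (m - u)) / 2 =
      ε * g (m + u) / 2 + ε * -g (m - u) / 2 by ring, Real.exp_add]
    ring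
  have e2 : HH h z (m + u) * HH h z (m - u) ≤ (HH h z m * Real.exp ((a + b) / 2)) ^ 2 := by
    have hexp : Real.exp ((a + b) / 2) ^ 2 = Real.exp a * Real.exp b := by
      rw [← Real.exp_add, ← Real.exp_nat_mul]
      congr 1
      push_cast
      ring
    calc HH h z (m + u) * HH h z (m - u) =
          (h (m + u) * h (m - u)) * (h (z - m + u) * h (z - m - u)) := by
          unfold HH
          rw [show z - (m + u) = z - m - u by abel, show z - (m - u) = z - m + u by abel]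
          ring
      _ ≤ (h m ^ 2 * Real.exp a) * (h (z - m) ^ 2 * Real.exp b) :=
          mul_le_mul ha hb (mul_nonneg (h0 _) (h0 _)) (by positivity)
      _ = _ := by
          rw [mul_pow, hexp]
          unfold HH
          ring
  have e3 : √(HH h z (m + u) * HH h z (m - u)) ≤ HH h z m * Real.exp ((a + b) / 2) :=
    (Real.sqrt_le_sqrt e2).trans (le_of_eq (Real.sqrt_sq
      (mul_nonneg (mul_nonneg (h0 _) (h0 _)) (Real.exp_pos _).le)))
  rw [e1]
  calc _ ≤ HH h z m * Real.exp ((a + b) / 2) * Real.exp (ε * (g (m + u) - g (m - u)) / 2) :=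
        mul_le_mul_of_nonneg_right e3 (Real.exp_pos _).le
    _ = HH h z m * Real.exp (ε * (g (m + u) - g (m - u)) / 2 + (a + b) / 2) := by
        rw [Real.exp_add]
        ring
    _ ≤ _ := mul_le_mul_of_nonneg_left (Real.exp_le_exp.2 hc) (mul_nonneg (h0 _) (h0 _))

private lemma ae1b_lip {m u : F} {g : F → ℝ} {K : ℝ≥0} (hg : LipschitzWith K g) {ε : ℝ} (hε : 0 < ε) :
    ε * (g (m + u) - g (m - u)) / 2 ≤ ε * K * ‖u‖ := by
  have h1 : g (m + u) - g (m - u) ≤ K * (2 * ‖u‖) := by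
    have h2 := hg.dist_le_mul (m + u) (m - u)
    rw [Real.dist_eq, dist_eq_norm] at h2
    have e : ‖(m + u) - (m - u)‖ = 2 * ‖u‖ := by
      rw [show (m + u) - (m - u) = (2:ℝ) • u by module, norm_smul]
      norm_num
    rw [e] at h2
    exact (le_abs_self _).trans h2
  have h3 := mul_le_mul_of_nonneg_left h1 hε.le
  linarith

/-- Uniform bound. `Re g ε (m+u) * Re (-g) ε (m-u) = √(HH (m+u) HH (m-u)) exp (ε (g (m+u) -
g (m-u))/2)`, `HH (m+u) HH (m-u) ≤ HH(m)² exp (-2 κ ‖u‖²)` (apply `hs` at `m` and at `z - m`), and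
`ε K ‖u‖ - κ ‖u‖² ≤ ε² K²/(4 κ)`. -/
theorem de_le {κ : ℝ} (hκ : 0 < κ) {h : F → ℝ} (h0 : ∀ x, 0 ≤ h x)
    (hs : ∀ x u, h (x + u) * h (x - u) ≤ h x ^ 2 * Real.exp (-(κ * ‖u‖ ^ 2))) {z m : F}
    {g : F → ℝ} {K : ℝ≥0} (hg : LipschitzWith K g) {ε : ℝ} (hε : 0 < ε) :
    De h z g ε m ≤ ENNReal.ofReal (HH h z m * Real.exp (ε ^ 2 * (K ^ 2 / (4 * κ)))) := by
  unfold De
  refine iSup_le fun u => ENNReal.ofReal_le_ofReal (ae1b_term h0 (a := -(κ * ‖u‖ ^ 2))
    (b := -(κ * ‖u‖ ^ 2)) (hs m u) (hs (z - m) u) ?_)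
  have h2 := ae1b_lip (m := m) (u := u) hg hε
  have h3 : ε * K * ‖u‖ - κ * ‖u‖ ^ 2 ≤ ε ^ 2 * ((K : ℝ) ^ 2 / (4 * κ)) := by
    have h4 : 0 ≤ (ε * K - 2 * κ * ‖u‖) ^ 2 := sq_nonneg _
    rw [show ε ^ 2 * ((K : ℝ) ^ 2 / (4 * κ)) = (ε * K) ^ 2 / (4 * κ) by ring,
      le_div_iff₀ (by positivity)]
    nlinarith
  linarith

end Pool.Agent.Lib.MP_8d00da_gt.h42r
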