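import Pool.Agent.Lib.MP_8d00da_gt.h42r.ADefs

/-!
# Fibre inequality for densities: asymptotics
-/

namespace Pool.Agent.Lib.MP_8d00da_gt.h42r

open MeasureTheory Set Filter
open Pool.Agent.Lib.MP_8d00da_gt.h25 Pool.Agent.Lib.MP_8d00da_gt.h42
open Pool.Agent.Lib.MP_8d00da_gt.h42s Pool.Agent.Lib.MP_8d00da_gt.h42o
open Pool.Agent.Lib.MP_8d00da_gt.h97r
open scoped Topology NNReal ENNReal

set_option linter.unusedSectionVars false

variable {F : Type*} [NormedAddCommGroup F] [InnerProductSpace ℝ F]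
    [FiniteDimensional ℝ F] [MeasurableSpace F] [BorelSpace F]

variable {G : Type*} [NormedAddCommGroup G] [InnerProductSpace ℝ G]
    [FiniteDimensional ℝ G] [MeasurableSpace G] [BorelSpace G]

variable {ι : Type*} [Fintype ι]

private lemma ae1c_term {h : F → ℝ} (h0 : ∀ x, 0 ≤ h x) {z m u : F} {g : F → ℝ} {ε a b c : ℝ}
    (ha : h (m + u) * h (m - u) ≤ h m ^ 2 * Real.exp a)
    (hb : h (z - m + u) * h (z - m - u) ≤ h (z - m) ^ 2 * Real.exp b)
    (hc : ε * (g (m + u) - g (m - u)) / 2 + (a + b) / 2 ≤ c) :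
    Re h z g ε (m + u) * Re h z (fun x => -g x) ε (m - u) ≤ HH h z m * Real.exp c := by
  have e1 : Re h z g ε (m + u) * Re h z (fun x => -g x) ε (m - u) =
      √(HH h z (m + u) * HH h z (m - u)) * Real.exp (ε * (g (m + u) - g (m - u)) / 2) := by
    unfold Re
    have h1 : 0 ≤ HH h z (m + u) := mul_nonneg (h0 _) (h0 _)
    rw [Real.sqrt_mul h1, show ε * (g (m + u) - g (m - u)) / 2 =
      ε * g (m + u) / 2 + ε * -g (m - u) / 2 by ring, Real.exp_add]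
    ring
  have e2 : HH h z (m + u) * HH h z (m - u) ≤ (HH h z m * Real.exp ((a + b) / 2)) ^ 2 := by
    have hexp : Real.exp ((a + b) / 2) ^ 2 = Real.exp a * Real.exp b := by
      rw [← Real.exp_add, ← Real.exp_nat_mul]
      congr 1
      push_cast
      ring
    calc HH h z (m + u) * HH h z (m - u) =
          (h (m + u) * h (m - u)) * (h (z - m + u) * h (z - m - u)) := by
          unfold HH
          rw [show z - (m + u) = z - m - u by abel, show z - (m - u) = z - m + u by abel]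
          ring
      _ ≤ (h m ^ 2 * Real.exp a) * (h (z - m) ^ 2 * Real.exp b) :=
          mul_le_mul ha hb (mul_nonneg (h0 _) (h0 _)) (by positivity)
      _ = _ := by
          rw [mul_pow, hexp]
          unfold HH
          ring
  have e3 : √(HH h z (m + u) * HH h z (m - u)) ≤ HH h z m * Real.exp ((a + b) / 2) :=
    (Real.sqrt_le_sqrt e2).trans (le_of_eq (Real.sqrt_sq
      (mul_nonneg (mul_nonneg (h0 _) (h0 _)) (Real.exp_pos _).le)))
  rw [e1]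
  calc _ ≤ HH h z m * Real.exp ((a + b) / 2) * Real.exp (ε * (g (m + u) - g (m - u)) / 2) :=
        mul_le_mul_of_nonneg_right e3 (Real.exp_pos _).le
    _ = HH h z m * Real.exp (ε * (g (m + u) - g (m - u)) / 2 + (a + b) / 2) := by
        rw [Real.exp_add]
        ring
    _ ≤ _ := mul_le_mul_of_nonneg_left (Real.exp_le_exp.2 hc) (mul_nonneg (h0 _) (h0 _))

private lemma ae1c_lip {m u : F} {g : F → ℝ} {K : ℝ≥0} (hg : LipschitzWith K g) {ε : ℝ} (hε : 0 < ε) :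
    ε * (g (m + u) - g (m - u)) / 2 ≤ ε * K * ‖u‖ := by
  have h1 : g (m + u) - g (m - u) ≤ K * (2 * ‖u‖) := by
    have h2 := hg.dist_le_mul (m + u) (m - u)
    rw [Real.dist_eq, dist_eq_norm] at h2
    have e : ‖(m + u) - (m - u)‖ = 2 * ‖u‖ := by
      rw [show (m + u) - (m - u) = (2:ℝ) • u by module, norm_smul]
      norm_num
    rw [e] at h2
    exact (le_abs_self _).trans h2
  have h3 := mul_le_mul_of_nonneg_left h1 hε.le
  linarith

/-- Pointwise asymptotics (compare `ce_asymp`). A term of `De` with `κ ‖u‖ > ε K` is at most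
`HH m`. For `‖u‖ ≤ ε K / κ` (small): `h (m+u) h (m-u) ≤ h m²`,
`h (z-m+u) h (z-m-u) ≤ h (z-m)² exp (-ℓ u + δ ‖u‖²)`, so the term is at most
`HH m · exp (ε g'(m) u + ε η₁ ‖u‖ - ℓ u / 2 + δ ‖u‖²/2)` and `ε g'(m) u ≤ ε √(q ℓ u) ≤ ε² q/2 +
ℓ u/2`. -/
theorem de_asymp {κ : ℝ} (hκ : 0 < κ) {h : F → ℝ} (h0 : ∀ x, 0 ≤ h x)
    (hs : ∀ x u, h (x + u) * h (x - u) ≤ h x ^ 2 * Real.exp (-(κ * ‖u‖ ^ 2))) {z m : F}
    {g : F → ℝ} {K : ℝ≥0} (hg : LipschitzWith K g) {q : ℝ} (hq : 0 ≤ q)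
    (hD : DomE h g m (z - m) q) {η : ℝ} (hη : 0 < η) :
    ∃ ε0 : ℝ, 0 < ε0 ∧ ∀ ε, 0 < ε → ε < ε0 →
      De h z g ε m ≤ ENNReal.ofReal (HH h z m * Real.exp (ε ^ 2 * (q / 2 + η))) := by
  obtain ⟨hd, ℓ, hℓ0, hℓ, hlow⟩ := hD
  obtain ⟨K', hK'⟩ : ∃ K' : ℝ, K' = K / κ := ⟨_, rfl⟩
  have hK0 : 0 ≤ K' := by rw [hK']; positivity
  obtain ⟨η₁, hη₁⟩ : ∃ η₁ : ℝ, η₁ = η / (2 * (K' + 1)) := ⟨_, rfl⟩
  obtain ⟨δ, hδ⟩ : ∃ δ : ℝ, δ = η / (K' ^ 2 + 1) := ⟨_, rfl⟩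
  have hη₁0 : 0 < η₁ := by rw [hη₁]; positivity
  have hδ0 : 0 < δ := by rw [hδ]; positivity
  have b1 : η₁ * K' ≤ η / 2 := by
    rw [hη₁, div_mul_eq_mul_div, div_le_iff₀ (by positivity)]
    nlinarith
  have b2 : δ * K' ^ 2 ≤ η := by
    rw [hδ, div_mul_eq_mul_div, div_le_iff₀ (by positivity)]
    nlinarith [sq_nonneg K']
  obtain ⟨r, hr, hr'⟩ := hlow δ hδ0
  have hder := (hasFDerivAt_iff_isLittleO_nhds_zero.1 hd.hasFDerivAt).def hη₁0
  obtain ⟨r1, hr1, hr1'⟩ := Metric.eventually_nhds_iff.1 hder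
  refine ⟨min r r1 / (K' + 1), by positivity, fun ε hε hε0 => ?_⟩
  have hεr : ε * (K' + 1) < min r r1 := (lt_div_iff₀ (by positivity)).1 hε0
  unfold De
  refine iSup_le fun u => ENNReal.ofReal_le_ofReal ?_
  have hl := ae1c_lip (m := m) (u := u) hg hε
  rcases lt_or_ge (ε * K) (κ * ‖u‖) with hu | hu
  · refine ae1c_term h0 (a := -(κ * ‖u‖ ^ 2)) (b := -(κ * ‖u‖ ^ 2)) (hs m u) (hs (z - m) u) ?_
    have h5 : ε * K * ‖u‖ ≤ κ * ‖u‖ * ‖u‖ := mul_le_mul_of_nonneg_right hu.le (norm_nonneg u)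
    have h6 : 0 ≤ ε ^ 2 * (q / 2 + η) := by positivity
    nlinarith
  · have hu1 : ‖u‖ ≤ ε * K' := by
      rw [hK', mul_div_assoc', le_div_iff₀ hκ]
      linarith
    have hu2 : ‖u‖ < min r r1 := by
      refine lt_of_le_of_lt hu1 (lt_of_le_of_lt ?_ hεr)
      nlinarith
    have hur : ‖u‖ < r := lt_of_lt_of_le hu2 (min_le_left _ _)
    have hur1 : ‖u‖ < r1 := lt_of_lt_of_le hu2 (min_le_right _ _)
    have d1 := hr1' (y := u) (by rwa [dist_zero_right])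
    have d2 := hr1' (y := -u) (by rwa [dist_zero_right, norm_neg])
    rw [← sub_eq_add_neg, map_neg, norm_neg, Real.norm_eq_abs] at d2
    rw [Real.norm_eq_abs] at d1
    have d3 := (abs_le.1 d1).2
    have d4 := (abs_le.1 d2).1
    have ha : h (m + u) * h (m - u) ≤ h m ^ 2 * Real.exp 0 :=
      (hs m u).trans (mul_le_mul_of_nonneg_left (Real.exp_le_exp.2 (by
        have : 0 ≤ κ * ‖u‖ ^ 2 := by positivity
        linarith)) (sq_nonneg _))
    refine ae1c_term h0 (a := 0) (b := -ℓ u + δ * ‖u‖ ^ 2) ha (hr' u hur) ?_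
    have g1 : ε * (g (m + u) - g (m - u)) / 2 ≤ ε * fderiv ℝ g m u + ε * (η₁ * ‖u‖) := by
      have : g (m + u) - g (m - u) ≤ 2 * fderiv ℝ g m u + 2 * (η₁ * ‖u‖) := by linarith
      have := mul_le_mul_of_nonneg_left this hε.le
      linarith
    have g2 : ε * fderiv ℝ g m u ≤ (ε ^ 2 * q + ℓ u) / 2 := by
      have h7 : (2 * (ε * fderiv ℝ g m u)) ^ 2 ≤ (ε ^ 2 * q + ℓ u) ^ 2 := by
        have h8 := mul_le_mul_of_nonneg_left (hℓ u) (sq_nonneg ε)
        nlinarith [sq_nonneg (ε ^ 2 * q - ℓ u)]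
      have h9 : 0 ≤ ε ^ 2 * q + ℓ u := add_nonneg (by positivity) (hℓ0 u)
      have := (le_abs_self _).trans (abs_le_of_sq_le_sq h7 h9)
      linarith
    have g3 : ε * (η₁ * ‖u‖) ≤ ε ^ 2 * (η / 2) := by
      have h10 : η₁ * ‖u‖ ≤ η₁ * (ε * K') := mul_le_mul_of_nonneg_left hu1 hη₁0.le
      have h11 := mul_le_mul_of_nonneg_left h10 hε.le
      have h12 := mul_le_mul_of_nonneg_left b1 (sq_nonneg ε)
      nlinarith
    have g4 : δ * ‖u‖ ^ 2 ≤ ε ^ 2 * η := by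
      have h13 : ‖u‖ ^ 2 ≤ (ε * K') ^ 2 := pow_le_pow_left₀ (norm_nonneg u) hu1 2
      have h14 := mul_le_mul_of_nonneg_left h13 hδ0.le
      have h15 := mul_le_mul_of_nonneg_left b2 (sq_nonneg ε)
      nlinarith
    nlinarith

end Pool.Agent.Lib.MP_8d00da_gt.h42r
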