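import Pool.Agent.Lib.MP_8d00da_gt.h42r.AE2b

/-!
# Fibre inequality for densities
-/

namespace Pool.Agent.Lib.MP_8d00da_gt.h42r

open MeasureTheory Set Filter
open Pool.Agent.Lib.MP_8d00da_gt.h25 Pool.Agent.Lib.MP_8d00da_gt.h42
open Pool.Agent.Lib.MP_8d00da_gt.h42s Pool.Agent.Lib.MP_8d00da_gt.h42o
open Pool.Agent.Lib.MP_8d00da_gt.h97r
open scoped Topology NNReal ENNReal

set_option linter.unusedSectionVars false

variable {F : Type*} [NormedAddCommGroup F] [InnerProductSpace ℝ F]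
    [FiniteDimensional ℝ F] [MeasurableSpace F] [BorelSpace F]

variable {G : Type*} [NormedAddCommGroup G] [InnerProductSpace ℝ G]
    [FiniteDimensional ℝ G] [MeasurableSpace G] [BorelSpace G]

variable {ι : Type*} [Fintype ι]

/-- As `fibK`: `(f x - f (z-x))² ≤ 2 g x² + 2 g (z-x)²`, `HH` is invariant under `x ↦ z - x`. -/
theorem fibE {κ : ℝ} (hκ : 0 < κ) {h : F → ℝ} (h0 : ∀ x, 0 ≤ h x) (hh : Continuous h)
    (hs : ∀ x u, h (x + u) * h (x - u) ≤ h x ^ 2 * Real.exp (-(κ * ‖u‖ ^ 2))) {z : F}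
    (hi : Integrable (HH h z)) {f : F → ℝ} (hf : BL f) {q : F → ℝ} (hqm : Measurable q)
    (hq0 : ∀ x, 0 ≤ q x) (hD : ∀ᵐ x : F, 0 < HH h z x → DomE h f x (z - x) (q x))
    (hint : Integrable (fun x => q x * HH h z x)) :
    ∫ x, (f x - f (z - x)) ^ 2 * HH h z x ≤ 4 * ∫ x, q x * HH h z x := by
  have hH0 : ∀ x, 0 ≤ HH h z x := fun x => mul_nonneg (h0 _) (h0 _)
  have hHs : ∀ x, HH h z (z - x) = HH h z x := fun x => by
    unfold HH
    rw [sub_sub_cancel, mul_comm]
  obtain ⟨α, hα⟩ : ∃ α : ℝ, α = ∫ x, HH h z x := ⟨_, rfl⟩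
  have hα0 : 0 ≤ α := hα ▸ integral_nonneg hH0
  rcases eq_or_lt_of_le hα0 with h1 | h1
  · have h2 : HH h z =ᵐ[volume] 0 := by
      rw [← integral_eq_zero_iff_of_nonneg hH0 hi, ← hα, ← h1]
    have e1 : ∫ x, (f x - f (z - x)) ^ 2 * HH h z x = 0 := by
      refine integral_eq_zero_of_ae ?_
      filter_upwards [h2] with x hx
      simp [hx]
    have e2 : ∫ x, q x * HH h z x = 0 := by
      refine integral_eq_zero_of_ae ?_
      filter_upwards [h2] with x hx
      simp [hx]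
    rw [e1, e2, mul_zero]
  obtain ⟨⟨Lf, hLf⟩, Af, hAf⟩ := hf
  have hfm : AEStronglyMeasurable f (volume : Measure F) := hLf.continuous.aestronglyMeasurable
  have hfi : Integrable (fun x => f x * HH h z x) := by
    refine hi.bdd_mul hfm (c := Af) (Eventually.of_forall fun x => ?_)
    rw [Real.norm_eq_abs]
    exact hAf x
  obtain ⟨c, hc⟩ : ∃ c : ℝ, c = (∫ x, f x * HH h z x) / α := ⟨_, rfl⟩
  obtain ⟨g, hg⟩ : ∃ g : F → ℝ, g = fun x => f x - c := ⟨_, rfl⟩
  have hgB : BL g := by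
    rw [hg]
    exact BL.sub ⟨⟨Lf, hLf⟩, Af, hAf⟩ (BL.const c)
  have hmean : ∫ x, g x * HH h z x = 0 := by
    have e1 : (fun x => g x * HH h z x) = fun x => f x * HH h z x - c * HH h z x := by
      funext x
      rw [hg]
      ring
    rw [e1, integral_sub hfi (hi.const_mul c), integral_const_mul, ← hα, hc]
    field_simp
    ring
  have hgD : ∀ᵐ x : F, 0 < HH h z x → DomE h g x (z - x) (q x) := by
    filter_upwards [hD] with x hx hx0
    obtain ⟨hd, ℓ, hℓ0, hℓ, hlow⟩ := hx hx0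
    refine ⟨by rw [hg]; exact hd.sub_const c, ℓ, hℓ0, fun u => ?_, hlow⟩
    have e : fderiv ℝ g x = fderiv ℝ f x := by
      rw [hg]
      exact fderiv_sub_const c
    rw [e]
    exact hℓ u
  have hcore := fibE_core hκ h0 hh hs hi hgB hmean hqm hq0 hgD hint
  obtain ⟨⟨Lg, hLg⟩, Ag, hAg⟩ := hgB
  have hg2 : Integrable (fun x => g x ^ 2 * HH h z x) := by
    refine hi.bdd_mul (hLg.continuous.pow 2).aestronglyMeasurable (c := Ag ^ 2)
      (Eventually.of_forall fun x => ?_)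
    rw [Real.norm_eq_abs, abs_pow]
    exact pow_le_pow_left₀ (abs_nonneg _) (hAg x) 2
  have hg3 : Integrable (fun x => g (z - x) ^ 2 * HH h z x) := by
    have := hg2.comp_sub_left z
    refine this.congr (Eventually.of_forall fun x => ?_)
    show g (z - x) ^ 2 * HH h z (z - x) = g (z - x) ^ 2 * HH h z x
    rw [hHs]
  have e3 : ∫ x, g (z - x) ^ 2 * HH h z x = ∫ x, g x ^ 2 * HH h z x := by
    rw [← integral_sub_left_eq_self (fun x => g x ^ 2 * HH h z x) volume z]
    refine integral_congr_ae (Eventually.of_forall fun x => ?_)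
    show g (z - x) ^ 2 * HH h z x = g (z - x) ^ 2 * HH h z (z - x)
    rw [hHs]
  have hle : ∫ x, (f x - f (z - x)) ^ 2 * HH h z x ≤
      ∫ x, (2 * (g x ^ 2 * HH h z x) + 2 * (g (z - x) ^ 2 * HH h z x)) := by
    refine integral_mono_of_nonneg (Eventually.of_forall fun x => mul_nonneg (sq_nonneg _) (hH0 x))
      ((hg2.const_mul 2).add (hg3.const_mul 2)) (Eventually.of_forall fun x => ?_)
    show (f x - f (z - x)) ^ 2 * HH h z x ≤ 2 * (g x ^ 2 * HH h z x) + 2 * (g (z - x) ^ 2 * HH h z x)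
    have e4 : f x - f (z - x) = g x - g (z - x) := by
      rw [hg]
      ring
    have h5 : (g x - g (z - x)) ^ 2 ≤ 2 * g x ^ 2 + 2 * g (z - x) ^ 2 := by
      nlinarith [sq_nonneg (g x + g (z - x))]
    have h6 := mul_le_mul_of_nonneg_right h5 (hH0 x)
    rw [e4]
    linarith
  rw [integral_add (hg2.const_mul 2) (hg3.const_mul 2), integral_const_mul, integral_const_mul, e3] at hle
  linarith

end Pool.Agent.Lib.MP_8d00da_gt.h42r
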