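import Pool.Agent.Lib.MP_8d00da_gt.h42r.ADefs

/-!
# Fibre inequality for densities: lower bound
-/

namespace Pool.Agent.Lib.MP_8d00da_gt.h42r

open MeasureTheory Set Filter
open Pool.Agent.Lib.MP_8d00da_gt.h25 Pool.Agent.Lib.MP_8d00da_gt.h42
open Pool.Agent.Lib.MP_8d00da_gt.h42s Pool.Agent.Lib.MP_8d00da_gt.h42o
open Pool.Agent.Lib.MP_8d00da_gt.h97r
open scoped Topology NNReal ENNReal

set_option linter.unusedSectionVars false

variable {F : Type*} [NormedAddCommGroup F] [InnerProductSpace ℝ F]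
    [FiniteDimensional ℝ F] [MeasurableSpace F] [BorelSpace F]

variable {G : Type*} [NormedAddCommGroup G] [InnerProductSpace ℝ G]
    [FiniteDimensional ℝ G] [MeasurableSpace G] [BorelSpace G]

variable {ι : Type*} [Fintype ι]

/-- Lower bound: `exp t ≥ 1 + t + t²/2 - |t|³` for `|t| ≤ 1` (`h42.exp_ge_three`, in
`h42/StrongPoincare.lean`) and `∫ g HH = 0`. -/
theorem de_lower {h : F → ℝ} (h0 : ∀ x, 0 ≤ h x) (hh : Continuous h) {z : F}
    (hi : Integrable (HH h z)) {g : F → ℝ} (hg : Continuous g) {A : ℝ} (hA : ∀ x, |g x| ≤ A)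
    (hmean : ∫ x, g x * HH h z x = 0) {ε : ℝ} (hε : 0 < ε) (hεA : ε * A ≤ 1) :
    ENNReal.ofReal ((∫ x, HH h z x) + ε ^ 2 / 2 * (∫ x, g x ^ 2 * HH h z x) -
      ε ^ 3 * (A ^ 3 * ∫ x, HH h z x)) ≤ ∫⁻ x, ENNReal.ofReal (Re h z g ε x ^ 2) := by
  have hHH : Continuous (HH h z) := hh.mul (hh.comp (continuous_const.sub continuous_id))
  have hH0 : ∀ x, 0 ≤ HH h z x := fun x => mul_nonneg (h0 _) (h0 _)
  have i1 : Integrable fun x => g x * HH h z x :=
    hi.bdd_mul hg.aestronglyMeasurable (Eventually.of_forall fun x => (Real.norm_eq_abs (g x)).le.trans (hA x))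
  have i2 : Integrable fun x => g x ^ 2 * HH h z x :=
    hi.bdd_mul (hg.pow 2).aestronglyMeasurable (c := A ^ 2) (Eventually.of_forall fun x => by
      rw [Real.norm_eq_abs, abs_pow]
      exact pow_le_pow_left₀ (abs_nonneg _) (hA x) 2)
  obtain ⟨f, hf⟩ : ∃ f : F → ℝ, f = fun x => HH h z x + ε * (g x * HH h z x) +
    ε ^ 2 / 2 * (g x ^ 2 * HH h z x) - ε ^ 3 * A ^ 3 * HH h z x := ⟨_, rfl⟩
  have j1 : Integrable fun x => ε * (g x * HH h z x) := i1.const_mul ε
  have j2 : Integrable fun x => ε ^ 2 / 2 * (g x ^ 2 * HH h z x) := i2.const_mul _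
  have j3 : Integrable fun x => ε ^ 3 * A ^ 3 * HH h z x := hi.const_mul _
  have jf : Integrable f := by
    rw [hf]
    exact ((hi.add j1).add j2).sub j3
  have s1 : Integrable fun x => HH h z x + ε * (g x * HH h z x) := hi.add j1
  have s2 : Integrable fun x => HH h z x + ε * (g x * HH h z x) + ε ^ 2 / 2 * (g x ^ 2 * HH h z x) :=
    s1.add j2
  have ef : ∫ x, f x = (∫ x, HH h z x) + ε ^ 2 / 2 * (∫ x, g x ^ 2 * HH h z x) -
      ε ^ 3 * (A ^ 3 * ∫ x, HH h z x) := by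
    rw [hf, integral_sub s2 j3, integral_add s1 j2, integral_add hi j1,
      integral_const_mul, integral_const_mul, integral_const_mul, hmean]
    ring
  have hle : ∀ x, f x ≤ Re h z g ε x ^ 2 := fun x => by
    have hx : |ε * g x| ≤ 1 := by
      rw [abs_mul, abs_of_pos hε]
      exact (mul_le_mul_of_nonneg_left (hA x) hε.le).trans hεA
    have h1 := exp_ge_three hx
    have h2 : Re h z g ε x ^ 2 = HH h z x * Real.exp (ε * g x) := by
      unfold Re
      rw [mul_pow, Real.sq_sqrt (hH0 x), ← Real.exp_nat_mul]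
      congr 2
      push_cast
      ring
    have h3 : |ε * g x| ^ 3 ≤ ε ^ 3 * A ^ 3 := by
      rw [abs_mul, abs_of_pos hε, mul_pow]
      exact mul_le_mul_of_nonneg_left (pow_le_pow_left₀ (abs_nonneg _) (hA x) 3) (by positivity)
    have h4 : 1 + ε * g x + (ε * g x) ^ 2 / 2 - ε ^ 3 * A ^ 3 ≤ Real.exp (ε * g x) := by linarith
    have h5 := mul_le_mul_of_nonneg_left h4 (hH0 x)
    rw [h2, hf]
    show HH h z x + ε * (g x * HH h z x) + ε ^ 2 / 2 * (g x ^ 2 * HH h z x) -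
      ε ^ 3 * A ^ 3 * HH h z x ≤ _
    refine le_trans (le_of_eq ?_) h5
    ring
  rw [← ef]
  have k1 : ENNReal.ofReal (∫ x, f x) ≤ ∫⁻ x, ENNReal.ofReal (f x) := by
    rw [integral_eq_lintegral_pos_part_sub_lintegral_neg_part jf]
    refine (ENNReal.ofReal_le_ofReal (sub_le_self _ ENNReal.toReal_nonneg)).trans ?_
    exact ENNReal.ofReal_toReal_le
  exact k1.trans (lintegral_mono fun x => ENNReal.ofReal_le_ofReal (hle x))

end Pool.Agent.Lib.MP_8d00da_gt.h42r
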