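import Pool.Agent.Lib.MP_8d00da_gt.h42r.AE1
import Pool.Agent.Lib.MP_8d00da_gt.h42r.AE1b
import Pool.Agent.Lib.MP_8d00da_gt.h42r.AE1c
import Pool.Agent.Lib.MP_8d00da_gt.h42r.AE2a

/-!
# Fibre inequality for densities: Brascamp-Lieb on the fibre
-/

namespace Pool.Agent.Lib.MP_8d00da_gt.h42r

open MeasureTheory Set Filter
open Pool.Agent.Lib.MP_8d00da_gt.h25 Pool.Agent.Lib.MP_8d00da_gt.h42
open Pool.Agent.Lib.MP_8d00da_gt.h42s Pool.Agent.Lib.MP_8d00da_gt.h42o
open Pool.Agent.Lib.MP_8d00da_gt.h97r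
open scoped Topology NNReal ENNReal

set_option linter.unusedSectionVars false

variable {F : Type*} [NormedAddCommGroup F] [InnerProductSpace ℝ F]
    [FiniteDimensional ℝ F] [MeasurableSpace F] [BorelSpace F]

variable {G : Type*} [NormedAddCommGroup G] [InnerProductSpace ℝ G]
    [FiniteDimensional ℝ G] [MeasurableSpace G] [BorelSpace G]

variable {ι : Type*} [Fintype ι]

private lemma ae2b_exp {t : ℝ} : Real.exp t - 1 ≤ t * Real.exp t := by
  have h1 := Real.add_one_le_exp (-t)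
  have h2 := mul_le_mul_of_nonneg_right h1 (Real.exp_pos t).le
  rw [← Real.exp_add, neg_add_cancel, Real.exp_zero] at h2
  linarith

private lemma ae2b_bd {D : ℝ≥0∞} {H ε b : ℝ} (hH : 0 ≤ H) (hε : 0 < ε)
    (hD : D ≤ ENNReal.ofReal (H * Real.exp (ε ^ 2 * b))) :
    ENNReal.ofReal ((ε ^ 2)⁻¹) * (D - ENNReal.ofReal H) ≤ ENNReal.ofReal (H * (b * Real.exp (ε ^ 2 * b))) := by
  have h1 : D - ENNReal.ofReal H ≤ ENNReal.ofReal (H * Real.exp (ε ^ 2 * b) - H) := by
    rw [ENNReal.ofReal_sub _ hH]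
    exact tsub_le_tsub_right hD _
  have h2 : H * Real.exp (ε ^ 2 * b) - H ≤ ε ^ 2 * (H * (b * Real.exp (ε ^ 2 * b))) := by
    have h3 := mul_le_mul_of_nonneg_left (ae2b_exp (t := ε ^ 2 * b)) hH
    calc _ = H * (Real.exp (ε ^ 2 * b) - 1) := by ring
      _ ≤ H * (ε ^ 2 * b * Real.exp (ε ^ 2 * b)) := h3
      _ = _ := by ring
  have hε2 : 0 < ε ^ 2 := by positivity
  calc _ ≤ ENNReal.ofReal ((ε ^ 2)⁻¹) * ENNReal.ofReal (ε ^ 2 * (H * (b * Real.exp (ε ^ 2 * b)))) :=
        mul_le_mul_right (h1.trans (ENNReal.ofReal_le_ofReal h2)) _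
    _ = _ := by
        rw [← ENNReal.ofReal_mul (by positivity)]
        congr 1
        rw [← mul_assoc, inv_mul_cancel₀ hε2.ne', one_mul]

/-- Brascamp-Lieb on the fibre (compare `fib_core`). By `de_lower` for `g`, `-g`, `de_pl`,
`α + ε² γ/2 - ε³ A³ α ≤ ∫⁻ De`; `De m ≤ HH m (1 + ε² D_ε m)`, `D_ε = (exp(..) - 1)/ε²` bounded by
a constant (`de_le`, `ε ≤ 1`) and `limsup D_ε ≤ q/2` a.e. where `HH m > 0` (`de_asymp`); reverse
Fatou: `γ/2 ≤ ∫ q HH / 2`. -/
theorem fibE_core {κ : ℝ} (hκ : 0 < κ) {h : F → ℝ} (h0 : ∀ x, 0 ≤ h x) (hh : Continuous h)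
    (hs : ∀ x u, h (x + u) * h (x - u) ≤ h x ^ 2 * Real.exp (-(κ * ‖u‖ ^ 2))) {z : F}
    (hi : Integrable (HH h z)) {g : F → ℝ} (hg : BL g) (hmean : ∫ x, g x * HH h z x = 0)
    {q : F → ℝ} (hqm : Measurable q) (hq0 : ∀ x, 0 ≤ q x)
    (hD : ∀ᵐ x : F, 0 < HH h z x → DomE h g x (z - x) (q x))
    (hint : Integrable (fun x => q x * HH h z x)) :
    ∫ x, g x ^ 2 * HH h z x ≤ ∫ x, q x * HH h z x := by
  obtain ⟨⟨K, hK⟩, A, hA⟩ := hg
  have hgc : Continuous g := hK.continuous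
  have hA0 : 0 ≤ A := (abs_nonneg _).trans (hA 0)
  have hHc : Continuous (HH h z) := hh.mul (hh.comp (continuous_const.sub continuous_id))
  have hH0 : ∀ x, 0 ≤ HH h z x := fun x => mul_nonneg (h0 _) (h0 _)
  obtain ⟨c, hc⟩ : ∃ c : ℝ, c = (K : ℝ) ^ 2 / (4 * κ) := ⟨_, rfl⟩
  have hc0 : 0 ≤ c := by rw [hc]; positivity
  obtain ⟨α, hα⟩ : ∃ α, α = ∫ x, HH h z x := ⟨_, rfl⟩
  obtain ⟨γ, hγ⟩ : ∃ γ, γ = ∫ x, g x ^ 2 * HH h z x := ⟨_, rfl⟩
  have hα0 : 0 ≤ α := by rw [hα]; exact integral_nonneg hH0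
  obtain ⟨ε, hε⟩ : ∃ ε : ℕ → ℝ, ε = fun n : ℕ => 1 / ((n : ℝ) + 1) := ⟨_, rfl⟩
  have hεpos : ∀ n, 0 < ε n := fun n => by rw [hε]; positivity
  have hε1 : ∀ n, ε n ≤ 1 := fun n => by
    rw [hε]
    show 1 / ((n : ℝ) + 1) ≤ 1
    rw [div_le_one (by positivity)]
    have : (0 : ℝ) ≤ n := Nat.cast_nonneg n
    linarith
  have hεt : Tendsto ε atTop (𝓝 0) := by
    rw [hε]
    exact tendsto_one_div_add_atTop_nhds_zero_nat
  obtain ⟨f, hf⟩ : ∃ f : ℕ → F → ℝ≥0∞, f = fun n m =>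
    ENNReal.ofReal ((ε n ^ 2)⁻¹) * (De h z g (ε n) m - ENNReal.ofReal (HH h z m)) := ⟨_, rfl⟩
  have hfm : ∀ n, Measurable (f n) := fun n => by
    rw [hf]
    exact ((de_meas hh z hgc (ε n)).sub hHc.measurable.ennreal_ofReal).const_mul _
  have hfb : ∀ n m, f n m ≤ ENNReal.ofReal (HH h z m * (c * Real.exp c)) := by
    intro n m
    rw [hf]
    have h1 := de_le hκ h0 hs (z := z) (m := m) hK (hεpos n)
    rw [← hc] at h1
    refine (ae2b_bd (hH0 m) (hεpos n) h1).trans (ENNReal.ofReal_le_ofReal ?_)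
    refine mul_le_mul_of_nonneg_left (mul_le_mul_of_nonneg_left ?_ hc0) (hH0 m)
    refine Real.exp_le_exp.2 ?_
    have h2 : ε n ^ 2 ≤ 1 := pow_le_one₀ (hεpos n).le (hε1 n)
    calc ε n ^ 2 * c ≤ 1 * c := mul_le_mul_of_nonneg_right h2 hc0
      _ = c := one_mul c
  have hgi : ∫⁻ m, ENNReal.ofReal (HH h z m * (c * Real.exp c)) ≠ ∞ := by
    have h1 : Integrable fun m => HH h z m * (c * Real.exp c) := hi.mul_const _
    rw [← ofReal_integral_eq_lintegral_ofReal h1
      (Eventually.of_forall fun m => mul_nonneg (hH0 m) (mul_nonneg hc0 (Real.exp_pos c).le))]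
    exact ENNReal.ofReal_ne_top
  have hfin : ∀ n, ∫⁻ m, f n m ≠ ∞ := fun n => ne_top_of_le_ne_top hgi (lintegral_mono (hfb n))
  -- reverse Fatou
  have hrf := limsup_lintegral_le (μ := (volume : Measure F)) (f := f)
    (fun m => ENNReal.ofReal (HH h z m * (c * Real.exp c))) hfm (fun n => Eventually.of_forall (hfb n)) hgi
  have hls : ∀ᵐ m : F, limsup (fun n => f n m) atTop ≤ ENNReal.ofReal (HH h z m * (q m / 2)) := by
    filter_upwards [hD] with m hDm
    rcases (hH0 m).eq_or_lt with hm | hm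
    · have h1 : ∀ n, f n m ≤ 0 := by
        intro n
        refine (hfb n m).trans ?_
        rw [← hm, zero_mul, ENNReal.ofReal_zero]
      refine (limsup_le_of_le (by isBoundedDefault) (Eventually.of_forall h1)).trans zero_le
    · have hDm' := hDm hm
      have key : ∀ η : ℝ, 0 < η → limsup (fun n => f n m) atTop ≤
          ENNReal.ofReal (HH h z m * ((q m / 2 + η) * (1 + η))) := by
        intro η hη
        obtain ⟨ε0, hε0, h1⟩ := de_asymp hκ h0 hs (z := z) (m := m) hK (hq0 m) hDm' hη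
        have h2 : Tendsto (fun n => Real.exp (ε n ^ 2 * (q m / 2 + η))) atTop (𝓝 1) := by
          have h3 : Tendsto (fun n => ε n ^ 2 * (q m / 2 + η)) atTop (𝓝 (0 ^ 2 * (q m / 2 + η))) :=
            (hεt.pow 2).mul_const _
          have h4 := (Real.continuous_exp.tendsto _).comp h3
          rw [zero_pow two_ne_zero, zero_mul, Real.exp_zero] at h4
          exact h4
        refine limsup_le_of_le (by isBoundedDefault) ?_
        filter_upwards [hεt.eventually (gt_mem_nhds hε0), h2.eventually (gt_mem_nhds (by linarith : (1:ℝ) < 1 + η))]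
          with n h5 h6
        rw [hf]
        refine (ae2b_bd (hH0 m) (hεpos n) (h1 (ε n) (hεpos n) h5)).trans (ENNReal.ofReal_le_ofReal ?_)
        refine mul_le_mul_of_nonneg_left (mul_le_mul_of_nonneg_left h6.le ?_) (hH0 m)
        have := hq0 m
        linarith
      have ht : Tendsto (fun η : ℝ => ENNReal.ofReal (HH h z m * ((q m / 2 + η) * (1 + η)))) (𝓝[>] 0)
          (𝓝 (ENNReal.ofReal (HH h z m * (q m / 2)))) := by
        have h3 : Continuous fun η : ℝ => HH h z m * ((q m / 2 + η) * (1 + η)) := by fun_prop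
        have h4 := (h3.tendsto 0).mono_left (nhdsWithin_le_nhds (s := Ioi (0:ℝ)))
        have h5 : HH h z m * ((q m / 2 + 0) * (1 + 0)) = HH h z m * (q m / 2) := by ring
        rw [h5] at h4
        exact ENNReal.tendsto_ofReal h4
      exact ge_of_tendsto ht (eventually_nhdsWithin_of_forall fun η hη => key η hη)
  have hqi : Integrable fun m => HH h z m * (q m / 2) := by
    have h1 := hint.const_mul (1 / 2)
    refine h1.congr (Eventually.of_forall fun m => ?_)
    show 1 / 2 * (q m * HH h z m) = HH h z m * (q m / 2)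
    ring
  have hup : limsup (fun n => ∫⁻ m, f n m) atTop ≤ ENNReal.ofReal (∫ m, HH h z m * (q m / 2)) := by
    refine hrf.trans ((lintegral_mono_ae hls).trans (le_of_eq ?_))
    rw [ofReal_integral_eq_lintegral_ofReal hqi
      (Eventually.of_forall fun m => mul_nonneg (hH0 m) (by have := hq0 m; linarith))]
  -- lower bound
  have hlow : ∀ᶠ n in atTop, ENNReal.ofReal (γ / 2 - ε n * (A ^ 3 * α)) ≤ ∫⁻ m, f n m := by
    have h1 : ∀ᶠ n in atTop, ε n * A ≤ 1 := by
      have h2 : Tendsto (fun n => ε n * A) atTop (𝓝 (0 * A)) := hεt.mul_const A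
      rw [zero_mul] at h2
      exact (h2.eventually (gt_mem_nhds one_pos)).mono fun n hn => hn.le
    filter_upwards [h1] with n hn
    have l1 := de_lower h0 hh hi hgc hA hmean (hεpos n) hn
    have l2 := de_lower h0 hh hi hgc.neg (g := fun x => -g x) (A := A)
      (fun x => by rw [abs_neg]; exact hA x) (by
        have h3 : (fun x => -g x * HH h z x) = fun x => -(g x * HH h z x) := by
          funext x; ring
        rw [h3, integral_neg, hmean, neg_zero]) (hεpos n) hn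
    have h4 : (∫ x, (-g x) ^ 2 * HH h z x) = γ := by
      rw [hγ]
      congr 1
      funext x
      ring
    rw [h4, ← hα] at l2
    rw [← hγ, ← hα] at l1
    have hpl := de_pl hh z hgc (ε n)
    have h5 := (mul_le_mul' l1 l2).trans hpl
    rw [← pow_two] at h5
    have h6 := (ENNReal.pow_le_pow_left_iff two_ne_zero).1 h5
    -- upper bound of the integral of `De`
    have h7 : ∫⁻ m, De h z g (ε n) m ≤ ENNReal.ofReal (ε n ^ 2) * (∫⁻ m, f n m) + ENNReal.ofReal α := by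
      have h8 : ∀ m, De h z g (ε n) m ≤ ENNReal.ofReal (ε n ^ 2) * f n m + ENNReal.ofReal (HH h z m) := by
        intro m
        rw [hf]
        show _ ≤ ENNReal.ofReal (ε n ^ 2) * (ENNReal.ofReal ((ε n ^ 2)⁻¹) *
          (De h z g (ε n) m - ENNReal.ofReal (HH h z m))) + _
        have hε2 : 0 < ε n ^ 2 := pow_pos (hεpos n) 2
        rw [← mul_assoc, ← ENNReal.ofReal_mul hε2.le, mul_inv_cancel₀ hε2.ne', ENNReal.ofReal_one, one_mul]
        exact le_tsub_add
      refine (lintegral_mono h8).trans (le_of_eq ?_)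
      rw [lintegral_add_left ((hfm n).const_mul _), lintegral_const_mul _ (hfm n), hα,
        ofReal_integral_eq_lintegral_ofReal hi (Eventually.of_forall hH0)]
    have h9 := h6.trans h7
    obtain ⟨I, hI⟩ : ∃ I : ℝ, I = (∫⁻ m, f n m).toReal := ⟨_, rfl⟩
    have hI0 : 0 ≤ I := by rw [hI]; exact ENNReal.toReal_nonneg
    have hI' : ∫⁻ m, f n m = ENNReal.ofReal I := by rw [hI, ENNReal.ofReal_toReal (hfin n)]
    have hε2 : 0 < ε n ^ 2 := pow_pos (hεpos n) 2
    rw [hI'] at h9 ⊢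
    rw [← ENNReal.ofReal_mul hε2.le, ← ENNReal.ofReal_add (mul_nonneg hε2.le hI0) hα0] at h9
    have h10 := (ENNReal.ofReal_le_ofReal_iff (add_nonneg (mul_nonneg hε2.le hI0) hα0)).1 h9
    refine ENNReal.ofReal_le_ofReal ?_
    refine le_of_mul_le_mul_left ?_ hε2
    calc ε n ^ 2 * (γ / 2 - ε n * (A ^ 3 * α)) =
        α + ε n ^ 2 / 2 * γ - ε n ^ 3 * (A ^ 3 * α) - α := by ring
      _ ≤ ε n ^ 2 * I := by linarith
  have hlt : Tendsto (fun n => ENNReal.ofReal (γ / 2 - ε n * (A ^ 3 * α))) atTop (𝓝 (ENNReal.ofReal (γ / 2))) := by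
    have h1 : Tendsto (fun n => γ / 2 - ε n * (A ^ 3 * α)) atTop (𝓝 (γ / 2 - 0 * (A ^ 3 * α))) :=
      tendsto_const_nhds.sub (hεt.mul_const _)
    rw [zero_mul, sub_zero] at h1
    exact ENNReal.tendsto_ofReal h1
  have hfinal : ENNReal.ofReal (γ / 2) ≤ ENNReal.ofReal (∫ m, HH h z m * (q m / 2)) := by
    rw [← hlt.limsup_eq]
    exact (limsup_le_limsup hlow (by isBoundedDefault) (by isBoundedDefault)).trans hup
  have hq2 : (∫ m, HH h z m * (q m / 2)) = (∫ x, q x * HH h z x) / 2 := by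
    rw [← integral_div]
    congr 1
    funext m
    ring
  have hq3 : 0 ≤ (∫ x, q x * HH h z x) / 2 := by
    have : 0 ≤ ∫ x, q x * HH h z x := integral_nonneg fun x => mul_nonneg (hq0 x) (hH0 x)
    linarith
  rw [hq2] at hfinal
  have h11 := (ENNReal.ofReal_le_ofReal_iff hq3).1 hfinal
  rw [← hγ]
  linarith

end Pool.Agent.Lib.MP_8d00da_gt.h42r
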