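import Pool.Agent.Lib.MP_8d00da_gt.h42r.AE2

/-!
# Averaged Brascamp-Lieb inequality for densities, strongly log-concave case
-/

namespace Pool.Agent.Lib.MP_8d00da_gt.h42r

open MeasureTheory Set Filter
open Pool.Agent.Lib.MP_8d00da_gt.h25 Pool.Agent.Lib.MP_8d00da_gt.h42
open Pool.Agent.Lib.MP_8d00da_gt.h42s Pool.Agent.Lib.MP_8d00da_gt.h42o
open Pool.Agent.Lib.MP_8d00da_gt.h97r
open scoped Topology NNReal ENNReal

set_option linter.unusedSectionVars false

variable {F : Type*} [NormedAddCommGroup F] [InnerProductSpace ℝ F]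
    [FiniteDimensional ℝ F] [MeasurableSpace F] [BorelSpace F]

variable {G : Type*} [NormedAddCommGroup G] [InnerProductSpace ℝ G]
    [FiniteDimensional ℝ G] [MeasurableSpace G] [BorelSpace G]

variable {ι : Type*} [Fintype ι]

/-- Integrate `fibE` over `z` (change of variables `(x, z) ↦ (x, z - x)`, Fubini; for a.e. `z` the
functions `HH h z` and `q x (z-x) HH h z x` are integrable). -/
theorem globE {κ : ℝ} (hκ : 0 < κ) {h : F → ℝ} (h0 : ∀ x, 0 ≤ h x) (hh : Continuous h)
    (hs : ∀ x u, h (x + u) * h (x - u) ≤ h x ^ 2 * Real.exp (-(κ * ‖u‖ ^ 2)))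
    (hi : Integrable h) {f : F → ℝ} (hf : BL f) {q : F → F → ℝ}
    (hqm : Measurable (Function.uncurry q)) (hq0 : ∀ x y, 0 ≤ q x y) {S T : Set F}
    (hS : ∀ᵐ x, x ∈ S) (hT : ∀ᵐ y, y ∈ T)
    (hD : ∀ x ∈ S, ∀ y ∈ T, 0 < h x → 0 < h y → DomE h f x y (q x y))
    (hint : Integrable (fun p : F × F => h p.1 * (h p.2 * q p.1 p.2))) :
    (∫ x, f x ^ 2 * h x) * (∫ x, h x) - (∫ x, f x * h x) ^ 2 ≤
      2 * ∫ p : F × F, h p.1 * (h p.2 * q p.1 p.2) := by
  obtain ⟨⟨Lf, hLf⟩, A, hA⟩ := hf
  have hfc : Continuous f := hLf.continuous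
  have hf' : BL f := ⟨⟨Lf, hLf⟩, A, hA⟩
  have hA0 : 0 ≤ A := (abs_nonneg _).trans (hA 0)
  -- integrability
  have hfh : Integrable (fun x => f x * h x) := by
    refine (hi.norm.const_mul A).mono' (hfc.mul hh).aestronglyMeasurable ?_
    filter_upwards with x
    rw [norm_mul, Real.norm_eq_abs]
    exact mul_le_mul_of_nonneg_right (hA x) (norm_nonneg _)
  have hf2h : Integrable (fun x => f x ^ 2 * h x) := by
    refine (hfh.norm.const_mul A).mono' ((hfc.pow 2).mul hh).aestronglyMeasurable ?_
    filter_upwards with x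
    rw [pow_two, mul_assoc, norm_mul, Real.norm_eq_abs]
    exact mul_le_mul_of_nonneg_right (hA x) (norm_nonneg _)
  have hmp : MeasurePreserving (fun z : F × F => (z.2, -z.2 + z.1)) (volume.prod volume)
      (volume.prod volume) := measurePreserving_prod_neg_add_swap volume volume
  -- the two integrands
  have hΦ0 : Integrable (fun p : F × F => h p.1 * h p.2) (volume.prod volume) := hi.mul_prod hi
  have hΦ1 : Integrable (fun p : F × F => (f p.1 - f p.2) ^ 2 * (h p.1 * h p.2))
      (volume.prod volume) := by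
    have h1 : Integrable (fun p : F × F => (f p.1 ^ 2 * h p.1) * h p.2) (volume.prod volume) :=
      hf2h.mul_prod hi
    have h2 : Integrable (fun p : F × F => h p.1 * (f p.2 ^ 2 * h p.2)) (volume.prod volume) :=
      hi.mul_prod hf2h
    have h3 : Integrable (fun p : F × F => (f p.1 * h p.1) * (f p.2 * h p.2))
      (volume.prod volume) := hfh.mul_prod hfh
    refine ((h1.add h2).sub (h3.const_mul 2)).congr ?_
    filter_upwards with p
    simp only [Pi.add_apply, Pi.sub_apply]
    ring
  have hI1 : ∫ p : F × F, (f p.1 - f p.2) ^ 2 * (h p.1 * h p.2) ∂(volume.prod volume) =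
      2 * ((∫ x, f x ^ 2 * h x) * (∫ x, h x) - (∫ x, f x * h x) ^ 2) := by
    have h1 : Integrable (fun p : F × F => (f p.1 ^ 2 * h p.1) * h p.2) (volume.prod volume) :=
      hf2h.mul_prod hi
    have h2 : Integrable (fun p : F × F => h p.1 * (f p.2 ^ 2 * h p.2)) (volume.prod volume) :=
      hi.mul_prod hf2h
    have h3 : Integrable (fun p : F × F => (f p.1 * h p.1) * (f p.2 * h p.2))
      (volume.prod volume) := hfh.mul_prod hfh
    have e : ∀ p : F × F, (f p.1 - f p.2) ^ 2 * (h p.1 * h p.2) =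
        ((f p.1 ^ 2 * h p.1) * h p.2 + h p.1 * (f p.2 ^ 2 * h p.2)) -
          2 * ((f p.1 * h p.1) * (f p.2 * h p.2)) := fun p => by ring
    have h12 : Integrable (fun p : F × F => (f p.1 ^ 2 * h p.1) * h p.2 +
      h p.1 * (f p.2 ^ 2 * h p.2)) (volume.prod volume) := h1.add h2
    simp_rw [e]
    rw [integral_sub h12 (h3.const_mul 2), integral_add h1 h2, integral_const_mul,
      integral_prod_mul (fun x => f x ^ 2 * h x) h, integral_prod_mul h (fun x => f x ^ 2 * h x),
      integral_prod_mul (fun x => f x * h x) (fun x => f x * h x)]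
    ring
  have hΦ2 : Integrable (fun p : F × F => h p.1 * (h p.2 * q p.1 p.2)) (volume.prod volume) := hint
  -- change of variables
  have hΨ0 := (hmp.integrable_comp hΦ0.aestronglyMeasurable).2 hΦ0
  have hΨ1 := (hmp.integrable_comp hΦ1.aestronglyMeasurable).2 hΦ1
  have hΨ2 := (hmp.integrable_comp hΦ2.aestronglyMeasurable).2 hΦ2
  have e1 : ∫ p : F × F, (f p.1 - f p.2) ^ 2 * (h p.1 * h p.2) ∂(volume.prod volume) =
      ∫ z, ∫ x, (f x - f (-x + z)) ^ 2 * (h x * h (-x + z)) := by
    have h1 := integral_prod _ hΨ1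
    have h2 := hmp.map_eq
    conv_lhs => rw [← h2]
    rw [integral_map hmp.measurable.aemeasurable (by rw [h2]; exact hΦ1.aestronglyMeasurable)]
    exact h1
  have e2 : ∫ p : F × F, h p.1 * (h p.2 * q p.1 p.2) ∂(volume.prod volume) =
      ∫ z, ∫ x, h x * (h (-x + z) * q x (-x + z)) := by
    have h1 := integral_prod _ hΨ2
    have h2 := hmp.map_eq
    conv_lhs => rw [← h2]
    rw [integral_map hmp.measurable.aemeasurable (by rw [h2]; exact hΦ2.aestronglyMeasurable)]
    exact h1
  have hkey : ∀ᵐ z : F, ∫ x, (f x - f (-x + z)) ^ 2 * (h x * h (-x + z)) ≤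
      4 * ∫ x, h x * (h (-x + z) * q x (-x + z)) := by
    filter_upwards [hΨ0.prod_right_ae, hΨ2.prod_right_ae] with z hz0 hz2
    have hsub : ∀ x : F, -x + z = z - x := fun x => by abel
    have hz0' : Integrable (HH h z) := by
      refine hz0.congr ?_
      filter_upwards with x
      simp only [Function.comp, HH, hsub]
    have hz2' : Integrable (fun x => q x (z - x) * HH h z x) := by
      refine hz2.congr ?_
      filter_upwards with x
      simp only [Function.comp, HH, hsub]
      ring
    have hqm' : Measurable (fun x => q x (z - x)) :=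
      hqm.comp (measurable_id.prodMk (measurable_const.sub measurable_id))
    have hT' : ∀ᵐ x : F, z - x ∈ T :=
      (quasiMeasurePreserving_sub_left volume z).ae hT
    have hD' : ∀ᵐ x : F, 0 < HH h z x → DomE h f x (z - x) (q x (z - x)) := by
      filter_upwards [hS, hT'] with x hx hx' hpos
      unfold HH at hpos
      have h1 : 0 < h x := by
        rcases lt_or_eq_of_le (h0 x) with h1 | h1
        · exact h1
        · rw [← h1, zero_mul] at hpos
          exact absurd hpos (lt_irrefl _)
      have h2 : 0 < h (z - x) := pos_of_mul_pos_right hpos h1.le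
      exact hD x hx _ hx' h1 h2
    have h3 := fibE hκ h0 hh hs hz0' hf' hqm' (fun x => hq0 _ _) hD' hz2'
    have e3 : ∫ x, (f x - f (-x + z)) ^ 2 * (h x * h (-x + z)) =
        ∫ x, (f x - f (z - x)) ^ 2 * HH h z x := by
      apply integral_congr_ae
      filter_upwards with x
      simp only [HH, hsub]
    have e4 : ∫ x, h x * (h (-x + z) * q x (-x + z)) = ∫ x, q x (z - x) * HH h z x := by
      apply integral_congr_ae
      filter_upwards with x
      simp only [HH, hsub]
      ring
    rw [e3, e4]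
    exact h3
  have h4 : ∫ z, ∫ x, (f x - f (-x + z)) ^ 2 * (h x * h (-x + z)) ≤
      ∫ z, 4 * ∫ x, h x * (h (-x + z) * q x (-x + z)) := by
    apply integral_mono_ae _ _ hkey
    · exact hΨ1.integral_prod_left
    · exact hΨ2.integral_prod_left.const_mul 4
  rw [integral_const_mul, ← e1, ← e2, hI1] at h4
  have e5 : ∫ p : F × F, h p.1 * (h p.2 * q p.1 p.2) =
      ∫ p : F × F, h p.1 * (h p.2 * q p.1 p.2) ∂(volume.prod volume) := rfl
  rw [e5]
  linarith

end Pool.Agent.Lib.MP_8d00da_gt.h42r
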