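import Pool.Agent.Lib.MP_8d00da_gt.h42r.AE3

/-!
# Averaged Brascamp-Lieb inequality for densities
-/

namespace Pool.Agent.Lib.MP_8d00da_gt.h42r

open MeasureTheory Set Filter
open Pool.Agent.Lib.MP_8d00da_gt.h25 Pool.Agent.Lib.MP_8d00da_gt.h42
open Pool.Agent.Lib.MP_8d00da_gt.h42s Pool.Agent.Lib.MP_8d00da_gt.h42o
open Pool.Agent.Lib.MP_8d00da_gt.h97r
open scoped Topology NNReal ENNReal

set_option linter.unusedSectionVars false

variable {F : Type*} [NormedAddCommGroup F] [InnerProductSpace ℝ F]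
    [FiniteDimensional ℝ F] [MeasurableSpace F] [BorelSpace F]

variable {G : Type*} [NormedAddCommGroup G] [InnerProductSpace ℝ G]
    [FiniteDimensional ℝ G] [MeasurableSpace G] [BorelSpace G]

variable {ι : Type*} [Fintype ι]

/-- dominated convergence for the Gaussian factors -/
private lemma ae4_tend {w : F → ℝ} (hw : Integrable w) :
    Tendsto (fun k : ℕ => ∫ x, w x * Real.exp (-(1 / ((k : ℝ) + 1) * ‖x‖ ^ 2))) atTop
      (𝓝 (∫ x, w x)) := by
  apply tendsto_integral_of_dominated_convergence (fun x => ‖w x‖)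
  · intro k
    apply hw.aestronglyMeasurable.mul
    apply Continuous.aestronglyMeasurable
    fun_prop
  · exact hw.norm
  · intro k
    filter_upwards with x
    rw [norm_mul, Real.norm_eq_abs (Real.exp _), Real.abs_exp]
    apply mul_le_of_le_one_right (norm_nonneg _)
    rw [Real.exp_le_one_iff]
    have : 0 ≤ 1 / ((k : ℝ) + 1) * ‖x‖ ^ 2 := by positivity
    linarith
  · filter_upwards with x
    have h1 : Tendsto (fun k : ℕ => 1 / ((k : ℝ) + 1)) atTop (𝓝 0) :=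
      tendsto_one_div_add_atTop_nhds_zero_nat
    have h2 : Tendsto (fun k : ℕ => w x * Real.exp (-(1 / ((k : ℝ) + 1) * ‖x‖ ^ 2))) atTop
        (𝓝 (w x * Real.exp (-(0 * ‖x‖ ^ 2)))) := by
      apply Tendsto.const_mul
      apply (Real.continuous_exp.tendsto _).comp
      exact (h1.mul_const _).neg
    simpa using h2

/-- `globE` without strong log-concavity: apply it to `h_κ x = h x exp (-κ ‖x‖²)`, `κ → 0`
(`h_κ (x+u) h_κ (x-u) = h (x+u) h (x-u) exp (-2κ‖x‖² - 2κ‖u‖²)`; `DomE h f x y q → DomE h_κ f x y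
q`; `h_κ ≤ h`, `h_κ → h`; dominated convergence on the left side, monotonicity on the right). -/
theorem GE {h : F → ℝ} (h0 : ∀ x, 0 ≤ h x) (hh : Continuous h)
    (hs : ∀ x u, h (x + u) * h (x - u) ≤ h x ^ 2)
    (hi : Integrable h) {f : F → ℝ} (hf : BL f) {q : F → F → ℝ}
    (hqm : Measurable (Function.uncurry q)) (hq0 : ∀ x y, 0 ≤ q x y) {S T : Set F}
    (hS : ∀ᵐ x, x ∈ S) (hT : ∀ᵐ y, y ∈ T)
    (hD : ∀ x ∈ S, ∀ y ∈ T, 0 < h x → 0 < h y → DomE h f x y (q x y))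
    (hint : Integrable (fun p : F × F => h p.1 * (h p.2 * q p.1 p.2))) :
    (∫ x, f x ^ 2 * h x) * (∫ x, h x) - (∫ x, f x * h x) ^ 2 ≤
      2 * ∫ p : F × F, h p.1 * (h p.2 * q p.1 p.2) := by
  obtain ⟨⟨Lf, hLf⟩, A, hA⟩ := hf
  have hfc : Continuous f := hLf.continuous
  have hf' : BL f := ⟨⟨Lf, hLf⟩, A, hA⟩
  have hfh : Integrable (fun x => f x * h x) := by
    refine (hi.norm.const_mul A).mono' (hfc.mul hh).aestronglyMeasurable ?_
    filter_upwards with x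
    rw [norm_mul, Real.norm_eq_abs]
    exact mul_le_mul_of_nonneg_right (hA x) (norm_nonneg _)
  have hf2h : Integrable (fun x => f x ^ 2 * h x) := by
    refine (hfh.norm.const_mul A).mono' ((hfc.pow 2).mul hh).aestronglyMeasurable ?_
    filter_upwards with x
    rw [pow_two, mul_assoc, norm_mul, Real.norm_eq_abs]
    exact mul_le_mul_of_nonneg_right (hA x) (norm_nonneg _)
  have t1 := ae4_tend hf2h
  have t2 := ae4_tend hi
  have t3 := ae4_tend hfh
  refine le_of_tendsto ((t1.mul t2).sub (t3.pow 2)) (Filter.Eventually.of_forall fun k => ?_)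
  obtain ⟨κ, hκ⟩ : ∃ κ : ℝ, κ = 1 / ((k : ℝ) + 1) := ⟨_, rfl⟩
  have hκ0 : 0 < κ := by
    rw [hκ]
    positivity
  simp only [← hκ]
  obtain ⟨hk, hhk⟩ : ∃ hk : F → ℝ, hk = fun x => h x * Real.exp (-(κ * ‖x‖ ^ 2)) := ⟨_, rfl⟩
  have hkx : ∀ x, hk x = h x * Real.exp (-(κ * ‖x‖ ^ 2)) := fun x => by rw [hhk]
  have hkc : Continuous hk := by
    rw [hhk]
    fun_prop
  have hk0 : ∀ x, 0 ≤ hk x := fun x => by
    rw [hkx]
    exact mul_nonneg (h0 x) (Real.exp_pos _).le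
  have hkle : ∀ x, hk x ≤ h x := fun x => by
    rw [hkx]
    apply mul_le_of_le_one_right (h0 x)
    rw [Real.exp_le_one_iff]
    have : 0 ≤ κ * ‖x‖ ^ 2 := by positivity
    linarith
  have hki : Integrable hk := by
    refine hi.mono' hkc.aestronglyMeasurable ?_
    filter_upwards with x
    rw [Real.norm_of_nonneg (hk0 x)]
    exact hkle x
  have hprod : ∀ x u : F, hk (x + u) * hk (x - u) =
      (h (x + u) * h (x - u)) * Real.exp (-(2 * κ * ‖x‖ ^ 2)) * Real.exp (-(2 * κ * ‖u‖ ^ 2)) := by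
    intro x u
    rw [hkx, hkx]
    have e1 : ‖x + u‖ ^ 2 + ‖x - u‖ ^ 2 = 2 * ‖x‖ ^ 2 + 2 * ‖u‖ ^ 2 := by
      have := parallelogram_law_with_norm ℝ x u
      nlinarith [this]
    have e2 : Real.exp (-(κ * ‖x + u‖ ^ 2)) * Real.exp (-(κ * ‖x - u‖ ^ 2)) =
        Real.exp (-(2 * κ * ‖x‖ ^ 2)) * Real.exp (-(2 * κ * ‖u‖ ^ 2)) := by
      rw [← Real.exp_add, ← Real.exp_add]
      congr 1
      have : κ * (‖x + u‖ ^ 2 + ‖x - u‖ ^ 2) = κ * (2 * ‖x‖ ^ 2 + 2 * ‖u‖ ^ 2) := by rw [e1]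
      linarith
    calc _ = (h (x + u) * h (x - u)) *
        (Real.exp (-(κ * ‖x + u‖ ^ 2)) * Real.exp (-(κ * ‖x - u‖ ^ 2))) := by ring
      _ = _ := by rw [e2]; ring
  have hsq : ∀ x : F, hk x ^ 2 = h x ^ 2 * Real.exp (-(2 * κ * ‖x‖ ^ 2)) := by
    intro x
    rw [hkx, mul_pow, pow_two (Real.exp _), ← Real.exp_add]
    congr 2
    ring
  have hks : ∀ x u, hk (x + u) * hk (x - u) ≤ hk x ^ 2 * Real.exp (-(2 * κ * ‖u‖ ^ 2)) := by
    intro x u
    rw [hprod, hsq]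
    apply mul_le_mul_of_nonneg_right _ (Real.exp_pos _).le
    exact mul_le_mul_of_nonneg_right (hs x u) (Real.exp_pos _).le
  have hkD : ∀ x ∈ S, ∀ y ∈ T, 0 < hk x → 0 < hk y → DomE hk f x y (q x y) := by
    intro x hx y hy hx0 hy0
    obtain ⟨hd, ℓ, hℓ0, hℓ1, hℓ2⟩ := hD x hx y hy (lt_of_lt_of_le hx0 (hkle x))
      (lt_of_lt_of_le hy0 (hkle y))
    refine ⟨hd, ℓ, hℓ0, hℓ1, ?_⟩
    intro δ hδ
    obtain ⟨r, hr, hr'⟩ := hℓ2 δ hδ
    refine ⟨r, hr, fun u hu => ?_⟩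
    rw [hprod, hsq]
    have h1 := hr' u hu
    have h2 : Real.exp (-(2 * κ * ‖u‖ ^ 2)) ≤ 1 := by
      rw [Real.exp_le_one_iff]
      have : 0 ≤ 2 * κ * ‖u‖ ^ 2 := by positivity
      linarith
    have h3 : 0 ≤ h (y + u) * h (y - u) * Real.exp (-(2 * κ * ‖y‖ ^ 2)) :=
      mul_nonneg (mul_nonneg (h0 _) (h0 _)) (Real.exp_pos _).le
    calc _ ≤ h (y + u) * h (y - u) * Real.exp (-(2 * κ * ‖y‖ ^ 2)) := mul_le_of_le_one_right h3 h2
      _ ≤ (h y ^ 2 * Real.exp (-ℓ u + δ * ‖u‖ ^ 2)) * Real.exp (-(2 * κ * ‖y‖ ^ 2)) :=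
        mul_le_mul_of_nonneg_right h1 (Real.exp_pos _).le
      _ = _ := by ring
  have hle : ∀ p : F × F, hk p.1 * (hk p.2 * q p.1 p.2) ≤ h p.1 * (h p.2 * q p.1 p.2) := by
    intro p
    apply mul_le_mul (hkle _) (mul_le_mul_of_nonneg_right (hkle _) (hq0 _ _))
      (mul_nonneg (hk0 _) (hq0 _ _)) (h0 _)
  have hkint : Integrable (fun p : F × F => hk p.1 * (hk p.2 * q p.1 p.2)) := by
    refine hint.mono' ?_ ?_
    · have hm : Measurable (fun p : F × F => hk p.1 * (hk p.2 * q p.1 p.2)) := by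
        have h1 : Measurable (fun p : F × F => q p.1 p.2) := hqm
        exact (hkc.measurable.comp measurable_fst).mul
          ((hkc.measurable.comp measurable_snd).mul h1)
      exact hm.aestronglyMeasurable
    · filter_upwards with p
      rw [Real.norm_of_nonneg (mul_nonneg (hk0 _) (mul_nonneg (hk0 _) (hq0 _ _)))]
      exact hle p
  have h5 := globE (κ := 2 * κ) (by positivity) hk0 hkc hks hki hf' hqm hq0 hS hT hkD hkint
  have h6 : ∫ p : F × F, hk p.1 * (hk p.2 * q p.1 p.2) ≤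
      ∫ p : F × F, h p.1 * (h p.2 * q p.1 p.2) := integral_mono hkint hint hle
  have e1 : (fun x => f x ^ 2 * hk x) = fun x => f x ^ 2 * h x * Real.exp (-(κ * ‖x‖ ^ 2)) := by
    funext x
    rw [hkx]
    ring
  have e2 : (fun x => f x * hk x) = fun x => f x * h x * Real.exp (-(κ * ‖x‖ ^ 2)) := by
    funext x
    rw [hkx]
    ring
  rw [e1, e2, hhk] at h5
  rw [hhk] at h6
  linarith

end Pool.Agent.Lib.MP_8d00da_gt.h42r
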