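import Pool.Agent.Lib.MP_8d00da_gt.h42r.AR3
import Pool.Agent.Lib.MP_8d00da_gt.h42r.AP3
import Pool.Agent.Lib.MP_8d00da_gt.h42r.AP4
import Pool.Agent.Lib.MP_8d00da_gt.h42r.AP4b
import Pool.Agent.Lib.MP_8d00da_gt.h42r.AP5
import Pool.Agent.Lib.MP_8d00da_gt.h42r.AM5
import Pool.Agent.Lib.MP_8d00da_gt.h42r.AL3

/-!
# The linearly invariant inequality for densities
-/

namespace Pool.Agent.Lib.MP_8d00da_gt.h42r

open MeasureTheory Set Filter
open Pool.Agent.Lib.MP_8d00da_gt.h25 Pool.Agent.Lib.MP_8d00da_gt.h42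
open Pool.Agent.Lib.MP_8d00da_gt.h42s Pool.Agent.Lib.MP_8d00da_gt.h42o
open Pool.Agent.Lib.MP_8d00da_gt.h97r
open scoped Topology NNReal ENNReal

set_option linter.unusedSectionVars false

variable {F : Type*} [NormedAddCommGroup F] [InnerProductSpace ℝ F]
    [FiniteDimensional ℝ F] [MeasurableSpace F] [BorelSpace F]

variable {G : Type*} [NormedAddCommGroup G] [InnerProductSpace ℝ G]
    [FiniteDimensional ℝ G] [MeasurableSpace G] [BorelSpace G]

variable {ι : Type*} [Fintype ι]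

private lemma af3a_mono {C C' : ℝ} (h : C ≤ C') {w ω : F → ℝ} (hA : A2 C w ω) : A2 C' w ω := by
  unfold A2 at hA ⊢
  exact hA.trans (mul_le_mul_left (ENNReal.ofReal_le_ofReal h) _)

private lemma af3a_ratio {q δ : ℝ} (hδ : 0 < δ) (h1 : δ ≤ q) (h2 : q ≤ 2 - δ) :
    max 1 q ≤ 1 / δ * min 1 q := by
  rcases le_total q 1 with h | h
  · rw [max_eq_left h, min_eq_right h, one_div, inv_mul_eq_div, le_div_iff₀ hδ]
    linarith
  · rw [max_eq_right h, min_eq_left h, mul_one, le_div_iff₀ hδ]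
    nlinarith [sq_nonneg (1 - δ)]

/-- The data `RE` of the densities. -/
theorem re_dens {κ : Type*} [Fintype κ] {c p : ι → ℝ} {P : ι → F →L[ℝ] G} (hc : ∀ j, 0 < c j)
    {δ : ℝ} (hδ : 0 < δ) (hδ1 : δ ≤ 1) (hp : ∀ j, 1 + δ ≤ p j) (hp3 : ∀ j, p j ≤ 3 - δ)
    (hP : ∀ j, P j ≠ 0) (b : ι → G) (v : F) {a : κ → F} (ha : ∀ k, a k ≠ 0) (d : κ → ℝ)
    {β : κ → ℝ} (hβ : ∀ k, 1 + δ ≤ β k) {e : G} (he : ‖e‖ = 1) {A : ℝ} (hA : 0 < A) :
    RE (fun x => A * (Real.exp (-Vf c p P b v x) * bar a d β x))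
      (Sum.elim P fun k => (innerSL ℝ (a k)).smulRight e)
      (Sum.elim (ωf c p P b) fun k x => β k * ((inner ℝ (a k) x - d k) ^ 2)⁻¹) (1 / δ) := by
  have hΛ : (0 : ℝ) < 1 / δ := by positivity
  have hΛ1 : (1 : ℝ) ≤ 1 / δ := by
    rw [le_div_iff₀ hδ]
    linarith
  have H : RD (Vf c p P b v) P (ωf c p P b) (1 / δ) :=
    rd_pow hc (fun j => by linarith [hp j]) (fun j => by linarith [hp3 j]) hP b v hΛ
      fun j => af3a_ratio hδ (by linarith [hp j]) (by linarith [hp3 j])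
  exact re_smul (re_mul (re_exp H) (re_bar ha d (fun k => by linarith [hβ k]) he hΛ1)) hA

/-- `QJ` for the density `A exp (-V) ∏ (⟪a_k,x⟫ - d_k)₊^{β_k}`: `ridgeE` with `Λ = 1/δ`, `re_mul`,
`re_exp`, `re_bar`, `re_smul`; `A2_pow` (constant `≤ 4/δ`) and `A2_bar` (constant `≤ 6/δ`, with
`k = ` the product of the other factors), so `2 Λ C₁ ≤ 12/δ²`. `P = Sum.elim P (..)`. -/
theorem qj_dens {κ : Type*} [Fintype κ] {c p : ι → ℝ} {P : ι → F →L[ℝ] G} (hc : ∀ j, 0 < c j)
    {δ : ℝ} (hδ : 0 < δ) (hδ1 : δ ≤ 1) (hp : ∀ j, 1 + δ ≤ p j) (hp3 : ∀ j, p j ≤ 3 - δ)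
    (hP : ∀ j, P j ≠ 0) (b : ι → G) (v : F) {a : κ → F} (ha : ∀ k, a k ≠ 0) (d : κ → ℝ)
    {β : κ → ℝ} (hβ : ∀ k, 1 + δ ≤ β k) {e : G} (he : ‖e‖ = 1) {A : ℝ} (hA : 0 < A)
    (hi : Integrable fun x => A * (Real.exp (-Vf c p P b v x) * bar a d β x))
    (hi2 : Integrable fun x => ‖x‖ ^ 2 * (A * (Real.exp (-Vf c p P b v x) * bar a d β x)))
    (hpos : 0 < ∫ x, A * (Real.exp (-Vf c p P b v x) * bar a d β x)) :
    QJ (12 / δ ^ 2) fun x => A * (Real.exp (-Vf c p P b v x) * bar a d β x) := by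
  classical
  have H := re_dens hc hδ hδ1 hp hp3 hP b v ha d hβ he hA
  set h : F → ℝ := fun x => A * (Real.exp (-Vf c p P b v x) * bar a d β x) with hh
  have hi1 : Integrable fun x => ‖x‖ * h x := by
    refine (hi.add hi2).mono' (measurable_norm.mul H.cont.measurable).aestronglyMeasurable
      (Eventually.of_forall fun x => ?_)
    rw [Real.norm_eq_abs, abs_mul, abs_of_nonneg (norm_nonneg x), abs_of_nonneg (H.nn x)]
    have h2 : ‖x‖ ≤ 1 + ‖x‖ ^ 2 := by nlinarith [sq_nonneg (‖x‖ - 1), norm_nonneg x]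
    refine (mul_le_mul_of_nonneg_right h2 (H.nn x)).trans (le_of_eq ?_)
    simp only [Pi.add_apply]
    ring
  have hA2 : ∀ j, A2 (6 / δ) h
      (Sum.elim (ωf c p P b) (fun k x => β k * ((inner ℝ (a k) x - d k) ^ 2)⁻¹) j) := by
    rintro (j | k)
    · have hb : |p j - 2| ≤ 1 - δ := abs_le.2 ⟨by linarith [hp j], by linarith [hp3 j]⟩
      have hb1 : |p j - 2| < 1 := by linarith
      have hm : 0 < min 1 (p j - 1) := lt_min one_pos (by linarith [hp j])
      have hp0 : 0 < p j := by linarith [hp j]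
      have h1 := A2_pow H.nn H.cont.measurable H.lc hi hi1 (hP j) (b j)
        (β := p j - 2) hb1 (mul_pos (hc j) (mul_pos hp0 hm))
      refine af3a_mono ?_ h1
      refine (cA_le (abs_nonneg _) hb1).trans ?_
      refine (div_le_div_of_nonneg_left (by norm_num) hδ
        (by linarith : δ ≤ 1 - |p j - 2|)).trans ?_
      exact div_le_div_of_nonneg_right (by norm_num) hδ.le
    · let a' : {k' // k' ≠ k} → F := fun k' => a k'
      let d' : {k' // k' ≠ k} → ℝ := fun k' => d k'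
      let β' : {k' // k' ≠ k} → ℝ := fun k' => β k'
      have H' := re_dens hc hδ hδ1 hp hp3 hP b v (a := a') (fun k' => ha k') d' (β := β')
        (fun k' => hβ k') he hA
      set kk : F → ℝ := fun x => A * (Real.exp (-Vf c p P b v x) * bar a' d' β' x) with hkk
      have e1 : h = fun x => (max (inner ℝ (a k) x - d k) 0) ^ β k * kk x := by
        funext x
        have e2 : bar a d β x = (max (inner ℝ (a k) x - d k) 0) ^ β k * bar a' d' β' x := by
          unfold bar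
          exact Fintype.prod_eq_mul_prod_subtype_ne
            (fun k' => (max (inner ℝ (a k') x - d k') 0) ^ β k') k
        rw [hh, hkk]
        simp only [e2]
        ring
      have hβ1 : 1 < β k := by linarith [hβ k]
      have h1 : A2 (cB (β k)) (fun x => (max (inner ℝ (a k) x - d k) 0) ^ β k * kk x)
          (fun x => β k * ((inner ℝ (a k) x - d k) ^ 2)⁻¹) := by
        refine A2_bar H'.nn H'.cont.measurable H'.lc (ha k) (d k) hβ1 (by linarith) ?_ ?_
        · rw [← e1]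
          exact hi
        · have e3 : (fun x => ‖x‖ ^ 2 * ((max (inner ℝ (a k) x - d k) 0) ^ β k * kk x)) =
              fun x => ‖x‖ ^ 2 * h x := by rw [e1]
          rw [e3]
          exact hi2
      rw [← e1] at h1
      exact af3a_mono (cB_le hδ hδ1 (hβ k)) h1
  have h2 := ridgeE H hi hi2 hpos (C1 := 6 / δ) (by positivity) hA2
  have e : 2 * (1 / δ * (6 / δ)) = 12 / δ ^ 2 := by
    field_simp
    norm_num
  rw [e] at h2
  exact h2

end Pool.Agent.Lib.MP_8d00da_gt.h42r
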