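import Pool.Agent.Lib.MP_8d00da_gt.h42r.AF1
import Pool.Agent.Lib.MP_8d00da_gt.h42r.AF3a

/-!
# KLS for the densities
-/

namespace Pool.Agent.Lib.MP_8d00da_gt.h42r

open MeasureTheory Set Filter
open Pool.Agent.Lib.MP_8d00da_gt.h25 Pool.Agent.Lib.MP_8d00da_gt.h42
open Pool.Agent.Lib.MP_8d00da_gt.h42s Pool.Agent.Lib.MP_8d00da_gt.h42o
open Pool.Agent.Lib.MP_8d00da_gt.h97r
open scoped Topology NNReal ENNReal

set_option linter.unusedSectionVars false

variable {F : Type*} [NormedAddCommGroup F] [InnerProductSpace ℝ F]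
    [FiniteDimensional ℝ F] [MeasurableSpace F] [BorelSpace F]

variable {G : Type*} [NormedAddCommGroup G] [InnerProductSpace ℝ G]
    [FiniteDimensional ℝ G] [MeasurableSpace G] [BorelSpace G]

variable {ι : Type*} [Fintype ι]

variable {n : ℕ} {E : Type*} [NormedAddCommGroup E] [InnerProductSpace ℝ E]
    [FiniteDimensional ℝ E] [MeasurableSpace E] [BorelSpace E]

/-- Translates of the potential. -/
private theorem af3_translate (c p : ι → ℝ) (P : ι → F →L[ℝ] G) (b : ι → G) (v x m : F) :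
    Vf c p P b v (x + m) = Vf c p P (fun j => b j - P j m) v x + inner ℝ v m := by
  unfold Vf
  rw [inner_add_right, add_assoc]
  congr 1
  refine Finset.sum_congr rfl fun j _ => ?_
  have e : P j (x + m) - b j = P j x - (b j - P j m) := by
    rw [map_add]
    abel
  rw [e]

/-- The case where there is a unit vector. -/
private theorem af3_unit {κ : Type*} [Fintype κ] {c p : ι → ℝ} {P : ι → Vn n →L[ℝ] G}
    (hc : ∀ j, 0 < c j) {δ : ℝ} (hδ : 0 < δ) (hδ1 : δ ≤ 1) (hp : ∀ j, 1 + δ ≤ p j)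
    (hp3 : ∀ j, p j ≤ 3 - δ) (hP : ∀ j, P j ≠ 0) (b : ι → G) (v : Vn n) {a : κ → Vn n}
    (ha : ∀ k, a k ≠ 0) (d : κ → ℝ) {β : κ → ℝ} (hβ : ∀ k, 1 + δ ≤ β k) {e : G} (he : ‖e‖ = 1)
    {A : ℝ} (hA : 0 < A)
    {μ : Measure (Vn n)} (hμ : μ = volume.withDensity fun x =>
      ENNReal.ofReal (A * (Real.exp (-Vf c p P b v x) * bar a d β x))) [IsProbabilityMeasure μ]
    (T : Vn n →L[ℝ] E) (hT : Function.Surjective T) (b' : E) {D : ℝ}
    (hD : LinPoincareWith (μ.map fun x => T x + b') D) :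
    PoincareWith (μ.map fun x => T x + b') (4 / δ * D) := by
  have H := re_dens hc hδ hδ1 hp hp3 hP b v ha d hβ he hA
  set h : Vn n → ℝ := fun x => A * (Real.exp (-Vf c p P b v x) * bar a d β x) with hh
  have hi : Integrable h := by
    have h1 : Integrable (fun _ : Vn n => (1 : ℝ)) μ := integrable_const 1
    rw [integrable_mu H.nn H.cont.measurable hμ] at h1
    simpa using h1
  have hI1 : ∫ x, h x = 1 := by
    have h1 := integral_mu H.nn H.cont.measurable hμ fun _ => 1
    simp only [one_mul, integral_const, probReal_univ, smul_eq_mul, mul_one] at h1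
    exact h1.symm
  have hQ : ∀ m : Vn n, QJ (12 / δ ^ 2) fun x => h (x + m) := by
    intro m
    have e1 : (fun x => h (x + m)) = fun x => A * Real.exp (-inner ℝ v m) *
        (Real.exp (-Vf c p P (fun j => b j - P j m) v x) *
          bar a (fun k => d k - inner ℝ (a k) m) β x) := by
      funext x
      rw [hh]
      simp only
      have e2 : bar a d β (x + m) = bar a (fun k => d k - inner ℝ (a k) m) β x := by
        unfold bar
        refine Finset.prod_congr rfl fun k _ => ?_
        have e3 : inner ℝ (a k) (x + m) - d k = inner ℝ (a k) x - (d k - inner ℝ (a k) m) := by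
          rw [inner_add_right]
          ring
        rw [e3]
      rw [af3_translate, e2, neg_add, Real.exp_add]
      ring
    have hA' : 0 < A * Real.exp (-inner ℝ v m) := mul_pos hA (Real.exp_pos _)
    have H' := re_dens hc hδ hδ1 hp hp3 hP (fun j => b j - P j m) v ha
      (fun k => d k - inner ℝ (a k) m) hβ he hA'
    have hi' : Integrable fun x => h (x + m) := hi.comp_add_right m
    have hI' : 0 < ∫ x, h (x + m) := by
      rw [integral_add_right_eq_self h m, hI1]
      exact one_pos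
    have h2' : Integrable fun x => ‖x‖ ^ 2 * h (x + m) := by
      refine second_moment (h := fun x => h (x + m)) (fun x => H.nn (x + m)) ?_ ?_ hi' hI'
      · rw [e1]
        exact H'.cont.measurable
      · rw [e1]
        exact H'.lc
    rw [e1] at hi' hI' ⊢
    have h2'' : Integrable fun x => ‖x‖ ^ 2 * (A * Real.exp (-inner ℝ v m) *
        (Real.exp (-Vf c p P (fun j => b j - P j m) v x) *
          bar a (fun k => d k - inner ℝ (a k) m) β x)) := by
      have e4 : (fun x => ‖x‖ ^ 2 * (A * Real.exp (-inner ℝ v m) *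
        (Real.exp (-Vf c p P (fun j => b j - P j m) v x) *
          bar a (fun k => d k - inner ℝ (a k) m) β x))) = fun x => ‖x‖ ^ 2 * h (x + m) := by
        funext x
        rw [congrFun e1 x]
      rw [e4]
      exact h2'
    exact qj_dens hc hδ hδ1 hp hp3 hP _ v ha _ hβ he hA' hi' h2'' hI'
  refine final_gen (C := 12 / δ ^ 2) (D' := 4 / δ) (by positivity) H.nn H.cont.measurable H.lc hQ
    hμ T hT b' hD ?_ (by positivity)
  rw [div_pow]
  exact div_le_div_of_nonneg_right (by norm_num) (by positivity)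

/-- The final theorem for densities. Translates as in `body_final`. If `G` has no unit vector
replace `G` by `G' = WithLp 2 (G × ℝ)` or `EuclideanSpace ℝ (Fin (d+1))` and `P_j` by `J ∘ P_j`
with a linear isometry `J : G → G'` (here `G = Vn d'`, so there is one into `Vn (d' + 1)`). -/
theorem dens_final {κ : Type*} [Fintype κ] {d' : ℕ} {c p : ι → ℝ} {P : ι → Vn n →L[ℝ] Vn d'}
    (hc : ∀ j, 0 < c j) {δ : ℝ} (hδ : 0 < δ) (hδ1 : δ ≤ 1) (hp : ∀ j, 1 + δ ≤ p j)
    (hp3 : ∀ j, p j ≤ 3 - δ) (hP : ∀ j, P j ≠ 0) (b : ι → Vn d') (v : Vn n) {a : κ → Vn n}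
    (ha : ∀ k, a k ≠ 0) (d : κ → ℝ) {β : κ → ℝ} (hβ : ∀ k, 1 + δ ≤ β k) {A : ℝ} (hA : 0 < A)
    {μ : Measure (Vn n)} (hμ : μ = volume.withDensity fun x =>
      ENNReal.ofReal (A * (Real.exp (-Vf c p P b v x) * bar a d β x))) [IsProbabilityMeasure μ]
    (T : Vn n →L[ℝ] E) (hT : Function.Surjective T) (b' : E) {D : ℝ}
    (hD : LinPoincareWith (μ.map fun x => T x + b') D) :
    PoincareWith (μ.map fun x => T x + b') (4 / δ * D) := by
  rcases isEmpty_or_nonempty ι with hι | ⟨⟨j⟩⟩
  · have e1 : Vf c p P b v = Vf c p (fun _ => (0 : Vn n →L[ℝ] ℝ)) (fun _ => (0 : ℝ)) v := by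
      funext x
      unfold Vf
      rw [Finset.univ_eq_empty, Finset.sum_empty, Finset.sum_empty]
    rw [e1] at hμ
    exact af3_unit hc hδ hδ1 hp hp3 (fun j => isEmptyElim j) (fun _ => (0 : ℝ)) v ha d hβ
      (e := (1 : ℝ)) norm_one hA hμ T hT b' hD
  · obtain ⟨x, hx⟩ : ∃ x, P j x ≠ 0 := by
      by_contra hcon
      push Not at hcon
      exact hP j (ContinuousLinearMap.ext fun x => by rw [hcon x]; rfl)
    have he : ‖(‖P j x‖⁻¹ : ℝ) • P j x‖ = 1 := by
      rw [norm_smul, norm_inv, norm_norm, inv_mul_cancel₀ (norm_ne_zero_iff.2 hx)]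
    exact af3_unit hc hδ hδ1 hp hp3 hP b v ha d hβ he hA hμ T hT b' hD

end Pool.Agent.Lib.MP_8d00da_gt.h42r
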