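import Pool.Agent.Lib.MP_8d00da_gt.h42r.AE4
import Pool.Agent.Lib.MP_8d00da_gt.h42r.ARaux

/-!
# The right side of the averaged Brascamp-Lieb inequality for densities
-/

namespace Pool.Agent.Lib.MP_8d00da_gt.h42r

open MeasureTheory Set Filter
open Pool.Agent.Lib.MP_8d00da_gt.h25 Pool.Agent.Lib.MP_8d00da_gt.h42
open Pool.Agent.Lib.MP_8d00da_gt.h42s Pool.Agent.Lib.MP_8d00da_gt.h42o
open Pool.Agent.Lib.MP_8d00da_gt.h97r
open scoped Topology NNReal ENNReal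

set_option linter.unusedSectionVars false

variable {F : Type*} [NormedAddCommGroup F] [InnerProductSpace ℝ F]
    [FiniteDimensional ℝ F] [MeasurableSpace F] [BorelSpace F]

variable {G : Type*} [NormedAddCommGroup G] [InnerProductSpace ℝ G]
    [FiniteDimensional ℝ G] [MeasurableSpace G] [BorelSpace G]

variable {ι : Type*} [Fintype ι]

/-- The right side of `GE` for `q x y = ∑ j, m_j² ‖P_j R ∇f(x)‖² / ω_j y` (compare `GK_ridge`). -/
theorem GE_ridge {h : F → ℝ} {P : ι → F →L[ℝ] G} {ω : ι → F → ℝ} {Λ : ℝ} (H : RE h P ω Λ)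
    (hi : Integrable h) {m : ι → ℝ} (hm : ∀ j, 0 < m j)
    (hai : ∀ j, Integrable fun x => h x / ω j x)
    (ham : ∀ j, (∫ x, h x / ω j x) * m j = ∫ x, h x) {R : F →L[ℝ] F}
    (hR : ∀ g u : F, ∑ j, m j * inner ℝ (P j (R g)) (P j u) = inner ℝ g u)
    {f : F → ℝ} (hf : BL f) :
    (∫ x, f x ^ 2 * h x) * (∫ x, h x) - (∫ x, f x * h x) ^ 2 ≤
      2 * ((∫ x, h x) * ∫ x, fderiv ℝ f x (R ((InnerProductSpace.toDual ℝ F).symm
        (fderiv ℝ f x))) * h x) := by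
  obtain ⟨⟨Lf, hLf⟩, hA⟩ := hf
  have hf' : BL f := ⟨⟨Lf, hLf⟩, hA⟩
  obtain ⟨hint, hval⟩ := qrd_int P (m := m) hR hf' hi hai ham
  have hs : ∀ x u, h (x + u) * h (x - u) ≤ h x ^ 2 := by
    intro x u
    have h1 := H.lc (1 / 2) (by norm_num) (by norm_num) (x + u) (x - u)
    have e : (1 - 1 / 2 : ℝ) • (x + u) + (1 / 2 : ℝ) • (x - u) = x := by module
    rw [e] at h1
    have h2 : (1 - 1 / 2 : ℝ) = 1 / 2 := by norm_num
    rw [h2, ← Real.sqrt_eq_rpow, ← Real.sqrt_eq_rpow, ← Real.sqrt_mul (H.nn _)] at h1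
    rw [← Real.sqrt_le_left (H.nn x)]
    exact h1
  have hT : ∀ᵐ y : F, y ∈ {y | 0 < h y → (∀ j, 0 < ω j y) ∧
      LowAtE h y fun u => ∑ j, ω j y * ‖P j u‖ ^ 2} := by
    filter_upwards [ae_all_iff.2 H.ωpos, H.low] with y h1 h2 h3
    exact ⟨fun j => h1 j h3, h2 h3⟩
  have hS : ∀ᵐ x : F, x ∈ {x | DifferentiableAt ℝ f x} := hLf.ae_differentiableAt
  have h1 := GE H.nn H.cont hs hi hf' (qrd_meas P H.ωm m R f)
    (fun x y => qrd_nonneg P H.ω0 m R f x y) hS hT (by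
      intro x hx y hy _ hy0
      refine ⟨hx, fun u => ∑ j, ω j y * ‖P j u‖ ^ 2, fun u => ?_, fun u => ?_, (hy hy0).2⟩
      · exact Finset.sum_nonneg fun j _ => mul_nonneg ((hy hy0).1 j).le (sq_nonneg _)
      · exact qrd_dom P hR f x y (hy hy0).1 u) hint
  rw [hval] at h1
  exact h1

end Pool.Agent.Lib.MP_8d00da_gt.h42r
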