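import Pool.Agent.Lib.MP_8d00da_gt.h42r.AF2
import Pool.Agent.Lib.MP_8d00da_gt.h42r.AF3

/-!
# The KLS inequality for sublevel sets of sums of powers of Euclidean seminorms, and for such
potentials with product weights on polytopes
-/

open MeasureTheory

namespace Pool.Agent.Lib.MP_8d00da_gt.h42r.PowerSumPolytopeThm

/-- `‖f - ∫ f dμ‖_{L²(μ)} ≤ D · ‖|∇f|‖_{L²(μ)}` for every Lipschitz function `f`.
The Poincaré constant `D_Poin(μ)` of the problem is the least such `D`. -/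
def PoincareWith {V : Type*} [NormedAddCommGroup V] [NormedSpace ℝ V] [MeasurableSpace V]
    (μ : Measure V) (D : ℝ) : Prop :=
  ∀ f : V → ℝ, (∃ L : NNReal, LipschitzWith L f) →
    eLpNorm (fun x => f x - ∫ y, f y ∂μ) 2 μ ≤
      ENNReal.ofReal D * eLpNorm (fun x => ‖fderiv ℝ f x‖) 2 μ

/-- The same inequality tested on linear functions `θ` only (`‖|∇θ|‖_{L²(μ)} = ‖θ‖` for a
probability measure). The constant `D^Lin_Poin(μ)` of the problem is the least such `D`. -/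
def LinPoincareWith {V : Type*} [NormedAddCommGroup V] [NormedSpace ℝ V] [MeasurableSpace V]
    (μ : Measure V) (D : ℝ) : Prop :=
  ∀ θ : V →L[ℝ] ℝ, eLpNorm (fun x => θ x - ∫ y, θ y ∂μ) 2 μ ≤ ENNReal.ofReal (D * ‖θ‖)

/-- The data of a convex function `V(x) = ∑ j, c_j |P_j x - b_j|^{p_j} + ⟨v, x⟩` on `ℝⁿ`
(`j < N`): linear maps `P_j ≠ 0` into `ℝᵈ`, coefficients `c_j > 0`, exponents
`1 + δ ≤ p_j ≤ 3 - δ`, points `b_j` and a vector `v`. -/
structure PowerSum (n : ℕ) (δ : ℝ) where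
  d : ℕ
  N : ℕ
  P : Fin N → EuclideanSpace ℝ (Fin n) →ₗ[ℝ] EuclideanSpace ℝ (Fin d)
  b : Fin N → EuclideanSpace ℝ (Fin d)
  c : Fin N → ℝ
  p : Fin N → ℝ
  v : EuclideanSpace ℝ (Fin n)
  P_ne : ∀ j, P j ≠ 0
  c_pos : ∀ j, 0 < c j
  p_low : ∀ j, 1 + δ ≤ p j
  p_high : ∀ j, p j ≤ 3 - δ

/-- The function `V(x) = ∑ j, c_j |P_j x - b_j|^{p_j} + ⟨v, x⟩`. -/
noncomputable def PowerSum.V {n : ℕ} {δ : ℝ} (S : PowerSum n δ) (x : EuclideanSpace ℝ (Fin n)) :
    ℝ :=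
  ∑ j, S.c j * ‖S.P j x - S.b j‖ ^ S.p j + inner ℝ S.v x

/-- The product `∏ k, max(⟨a_k, x⟩ - s_k, 0)^{β_k}`. -/
noncomputable def facetProduct {n M : ℕ} (a : Fin M → EuclideanSpace ℝ (Fin n)) (s β : Fin M → ℝ)
    (x : EuclideanSpace ℝ (Fin n)) : ℝ :=
  ∏ k, (max (inner ℝ (a k) x - s k) 0) ^ β k

/-- `μ` is the uniform probability measure of the set `K`. -/
def IsUniform {n : ℕ} (μ : Measure (EuclideanSpace ℝ (Fin n)))
    (K : Set (EuclideanSpace ℝ (Fin n))) : Prop :=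
  μ = (volume K)⁻¹ • volume.restrict K

/-- `μ` is the uniform probability measure of a bounded convex body `{V ≤ L}`, `V` a power sum,
with `{V < L}` not empty. -/
def IsBodyLaw {n : ℕ} (δ : ℝ) (μ : Measure (EuclideanSpace ℝ (Fin n))) : Prop :=
  ∃ (S : PowerSum n δ) (L : ℝ), Bornology.IsBounded {x | S.V x ≤ L} ∧ (∃ x, S.V x < L) ∧
    IsUniform μ {x | S.V x ≤ L}

/-- `μ` is a probability measure with a density of the form
`A exp(-V(x)) ∏_k max(⟨a_k, x⟩ - s_k, 0)^{β_k}`, `V` a power sum, `A > 0`, `a_k ≠ 0`,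
`β_k ≥ 1 + δ` (`k < M`, `M ≥ 0`). -/
def IsPolytopeLaw {n : ℕ} (δ : ℝ) (μ : Measure (EuclideanSpace ℝ (Fin n))) : Prop :=
  IsProbabilityMeasure μ ∧ ∃ (S : PowerSum n δ) (M : ℕ) (a : Fin M → EuclideanSpace ℝ (Fin n))
    (s β : Fin M → ℝ) (A : ℝ), (∀ k, a k ≠ 0) ∧ (∀ k, 1 + δ ≤ β k) ∧ 0 < A ∧
      μ = volume.withDensity fun x =>
        ENNReal.ofReal (A * (Real.exp (-S.V x) * facetProduct a s β x))

/-- **KLS for sublevel sets of sums of powers of Euclidean seminorms.** Let `0 < δ ≤ 1` and let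
`V(x) = ∑_j c_j |P_j x - b_j|^{p_j} + ⟨v, x⟩` on `ℝⁿ`, where `P_j ≠ 0` are linear maps
`ℝⁿ → ℝᵈ`, `c_j > 0`, `1 + δ ≤ p_j ≤ 3 - δ`, `b_j ∈ ℝᵈ`, `v ∈ ℝⁿ`. Let `μ` be

(a) the uniform probability measure of the convex body `K = {V ≤ L}`, if it is bounded and
`{V < L}` is not empty, or

(b) a probability measure with density `A exp(-V(x)) ∏_k max(⟨a_k, x⟩ - s_k, 0)^{β_k}`, `A > 0`,
`a_k ≠ 0`, `β_k ≥ 1 + δ` (any number of factors), whose support is the polyhedron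
`{⟨a_k, x⟩ ≥ s_k}`,

and let `ν` be the image of `μ` under a surjective affine map `x ↦ T x + w` onto `ℝᵐ` (for
instance `ν = μ`). Then `D_Poin(ν) ≤ (4/δ) D^Lin_Poin(ν)`. The constant does not depend on the
dimensions, on the numbers of terms and factors and on the data. For `d = 1`, `b = 0`, `v = 0` and
equal exponents `p` part (a) concerns the unit balls of all `n`-dimensional subspaces of `ℓ_p^N`,
`1 < p < 3`. -/
theorem result (n m : ℕ) (δ : ℝ) (hδ : 0 < δ) (hδ1 : δ ≤ 1)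
    (μ : Measure (EuclideanSpace ℝ (Fin n))) (hμ : IsBodyLaw δ μ ∨ IsPolytopeLaw δ μ)
    (T : EuclideanSpace ℝ (Fin n) →ₗ[ℝ] EuclideanSpace ℝ (Fin m)) (hT : Function.Surjective T)
    (w : EuclideanSpace ℝ (Fin m)) (D : ℝ) (hD : LinPoincareWith (μ.map fun x => T x + w) D) :
    PoincareWith (μ.map fun x => T x + w) (4 / δ * D) := by
  have hP' : ∀ (S : PowerSum n δ) j, LinearMap.toContinuousLinearMap (S.P j) ≠ 0 := by
    intro S j h0
    apply S.P_ne j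
    refine LinearMap.ext fun x => ?_
    have h1 := DFunLike.congr_fun h0 x
    simpa using h1
  rcases hμ with ⟨S, L, hbd, hne, hμ⟩ | ⟨hprob, S, M, a, s, β, A, ha, hβ, hA, hμ⟩
  · exact Pool.Agent.Lib.MP_8d00da_gt.h42r.body_final
      (P := fun j => LinearMap.toContinuousLinearMap (S.P j)) S.c_pos hδ
      S.p_low S.p_high (hP' S) S.b S.v hbd hne hμ
      (LinearMap.toContinuousLinearMap T) hT w hD
  · exact Pool.Agent.Lib.MP_8d00da_gt.h42r.dens_final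
      (P := fun j => LinearMap.toContinuousLinearMap (S.P j)) S.c_pos hδ hδ1
      S.p_low S.p_high (hP' S) S.b S.v ha s hβ hA hμ
      (LinearMap.toContinuousLinearMap T) hT w hD

end Pool.Agent.Lib.MP_8d00da_gt.h42r.PowerSumPolytopeThm
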