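import Pool.Agent.Lib.MP_8d00da_gt.h42r.AF2
import Pool.Agent.Lib.MP_8d00da_gt.h42r.AF3

/-!
# Test of the final statement
-/

open MeasureTheory

namespace Pool.Agent.Lib.MP_8d00da_gt.h42r.ZFinal

/-- `‖f - ∫ f dμ‖_{L²(μ)} ≤ D · ‖|∇f|‖_{L²(μ)}` for every Lipschitz function `f`.
The Poincaré constant `D_Poin(μ)` of the problem is the least such `D`. -/
def PoincareWith {V : Type*} [NormedAddCommGroup V] [NormedSpace ℝ V] [MeasurableSpace V]
    (μ : Measure V) (D : ℝ) : Prop :=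
  ∀ f : V → ℝ, (∃ L : NNReal, LipschitzWith L f) →
    eLpNorm (fun x => f x - ∫ y, f y ∂μ) 2 μ ≤
      ENNReal.ofReal D * eLpNorm (fun x => ‖fderiv ℝ f x‖) 2 μ

/-- The same inequality tested on linear functions `θ` only (`‖|∇θ|‖_{L²(μ)} = ‖θ‖` for a
probability measure). The constant `D^Lin_Poin(μ)` of the problem is the least such `D`. -/
def LinPoincareWith {V : Type*} [NormedAddCommGroup V] [NormedSpace ℝ V] [MeasurableSpace V]
    (μ : Measure V) (D : ℝ) : Prop :=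
  ∀ θ : V →L[ℝ] ℝ, eLpNorm (fun x => θ x - ∫ y, θ y ∂μ) 2 μ ≤ ENNReal.ofReal (D * ‖θ‖)

/-- The convex function `∑ j, c_j |P_j x - b_j|^{p_j} + ⟨v, x⟩` on `ℝⁿ`; the `P_j` are linear maps
into `ℝᵈ`. -/
noncomputable def powerSum {n d N : ℕ} (c p : Fin N → ℝ)
    (P : Fin N → EuclideanSpace ℝ (Fin n) →ₗ[ℝ] EuclideanSpace ℝ (Fin d))
    (b : Fin N → EuclideanSpace ℝ (Fin d)) (v x : EuclideanSpace ℝ (Fin n)) : ℝ :=
  ∑ j, c j * ‖P j x - b j‖ ^ p j + inner ℝ v x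

/-- The product `∏ k, max(⟨a_k, x⟩ - s_k, 0)^{β_k}`. -/
noncomputable def facetProduct {n M : ℕ} (a : Fin M → EuclideanSpace ℝ (Fin n)) (s β : Fin M → ℝ)
    (x : EuclideanSpace ℝ (Fin n)) : ℝ :=
  ∏ k, (max (inner ℝ (a k) x - s k) 0) ^ β k

theorem result (n m d N : ℕ) (δ : ℝ) (hδ : 0 < δ) (hδ1 : δ ≤ 1) (c p : Fin N → ℝ)
    (P : Fin N → EuclideanSpace ℝ (Fin n) →ₗ[ℝ] EuclideanSpace ℝ (Fin d))
    (b : Fin N → EuclideanSpace ℝ (Fin d)) (v : EuclideanSpace ℝ (Fin n))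
    (hc : ∀ j, 0 < c j) (hp : ∀ j, 1 + δ ≤ p j ∧ p j ≤ 3 - δ) (hP : ∀ j, P j ≠ 0)
    (T : EuclideanSpace ℝ (Fin n) →ₗ[ℝ] EuclideanSpace ℝ (Fin m)) (hT : Function.Surjective T)
    (w : EuclideanSpace ℝ (Fin m)) (D : ℝ) :
    (∀ (L : ℝ) (K : Set (EuclideanSpace ℝ (Fin n))), K = {x | powerSum c p P b v x ≤ L} →
      Bornology.IsBounded K → (∃ x, powerSum c p P b v x < L) →
      LinPoincareWith (((volume K)⁻¹ • volume.restrict K).map fun x => T x + w) D →
      PoincareWith (((volume K)⁻¹ • volume.restrict K).map fun x => T x + w) (4 / δ * D)) ∧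
    (∀ (M : ℕ) (a : Fin M → EuclideanSpace ℝ (Fin n)) (s β : Fin M → ℝ) (A : ℝ)
      (μ : Measure (EuclideanSpace ℝ (Fin n))), (∀ k, a k ≠ 0) → (∀ k, 1 + δ ≤ β k) → 0 < A →
      μ = (volume.withDensity fun x =>
        ENNReal.ofReal (A * (Real.exp (-powerSum c p P b v x) * facetProduct a s β x))) →
      IsProbabilityMeasure μ →
      LinPoincareWith (μ.map fun x => T x + w) D →
      PoincareWith (μ.map fun x => T x + w) (4 / δ * D)) := by
  have hP' : ∀ j, LinearMap.toContinuousLinearMap (P j) ≠ 0 := by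
    intro j h0
    apply hP j
    refine LinearMap.ext fun x => ?_
    have h1 := DFunLike.congr_fun h0 x
    simpa using h1
  refine ⟨?_, ?_⟩
  · rintro L K rfl hbd hne hD
    exact body_final (P := fun j => LinearMap.toContinuousLinearMap (P j)) hc hδ
      (fun j => (hp j).1) (fun j => (hp j).2) hP' b v hbd hne rfl
      (LinearMap.toContinuousLinearMap T) hT w hD
  · rintro M a s β A μ ha hβ hA hμ hprob hD
    exact dens_final (P := fun j => LinearMap.toContinuousLinearMap (P j)) hc hδ hδ1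
      (fun j => (hp j).1) (fun j => (hp j).2) hP' b v ha s hβ hA hμ
      (LinearMap.toContinuousLinearMap T) hT w hD

end Pool.Agent.Lib.MP_8d00da_gt.h42r.ZFinal
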